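import Pool.Agent.Lib.HP.Base

open Set Filter Topology Metric
open scoped ContDiff RealInnerProductSpace

noncomputable section

namespace Pool.Agent.RZ.Grad

open Pool.Agent.HP

variable {n : ℕ} {W : Type} [NormedAddCommGroup W]

theorem test2 {φ φ1 : ℝ → ℝ} {c : ℝ} (h1 : ∀ᶠ s in 𝓝 (0 : ℝ), HasDerivAt φ (φ1 s) s)
    (h2 : HasDerivAt φ1 c 0) (hm : IsLocalMax φ 0) : c ≤ 0 := by
  by_contra hc
  have e : deriv φ =ᶠ[𝓝 0] φ1 := h1.mono fun s hs => hs.deriv
  have e2 : deriv (deriv φ) 0 = c := by rw [e.deriv_eq, h2.deriv]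
  have h3 := isLocalMin_of_deriv_deriv_pos (e2 ▸ not_le.1 hc) hm.deriv_eq_zero
    h1.self_of_nhds.continuousAt
  have h4 : φ =ᶠ[𝓝 0] fun _ => φ 0 := (h3.and hm).mono fun s hs => le_antisymm hs.2 hs.1
  rw [h4.deriv.deriv_eq] at e2
  simp at e2
  exact hc e2.ge

/-- coordinates of `Y n` -/
def co : Option (Fin n) → Y n →L[ℝ] ℝ
  | none => ContinuousLinearMap.snd ℝ _ _
  | some j => (EuclideanSpace.proj j).comp (ContinuousLinearMap.fst ℝ _ _)

theorem co_dir (i j : Option (Fin n)) : co i (dir j) = if i = j then 1 else 0 := by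
  rcases i with _ | i <;> rcases j with _ | j <;> simp [co, dir]

theorem sum_co (Z : Y n) : ∑ i, co i Z • dir i = Z := by
  rw [Fintype.sum_option]
  refine Prod.ext ?_ ?_
  · ext k
    simp [co, dir, Prod.fst_sum, Pi.single_apply]
  · simp [co, dir, Prod.snd_sum]

theorem abs_co (i : Option (Fin n)) (Z : Y n) : |co i Z| ≤ ‖Z‖ := by
  rcases i with _ | i
  · exact norm_snd_le Z
  · exact (PiLp.norm_apply_le Z.1 i).trans (norm_fst_le Z)

/-- Euclidean square norm on `Y n` -/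
def Q (Z : Y n) : ℝ := ∑ i, co i Z ^ 2

theorem Q_eq (Z : Y n) : Q Z = Z.2 ^ 2 + ‖Z.1‖ ^ 2 := by
  rw [Q, Fintype.sum_option, EuclideanSpace.real_norm_sq_eq]; rfl

theorem norm_le_of_Q {Z : Y n} {r : ℝ} (hr : 0 ≤ r) (h : Q Z ≤ r ^ 2) : ‖Z‖ ≤ r := by
  rw [Q_eq] at h
  refine max_le ?_ ?_
  · exact abs_le_of_sq_le_sq' (by nlinarith [sq_nonneg Z.2]) hr |>.2
  · exact abs_le_of_sq_le_sq (by nlinarith [sq_nonneg ‖Z.1‖]) hr

theorem Q_line (Z : Y n) (s : ℝ) (i : Option (Fin n)) :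
    Q (Z + s • dir i) = Q Z + (2 * s * co i Z + s ^ 2) := by
  have : ∀ k, co k (Z + s • dir i) ^ 2 =
      co k Z ^ 2 + if k = i then 2 * s * co i Z + s ^ 2 else 0 := fun k => by
    rw [map_add, map_smul, co_dir]
    split_ifs with h
    · subst h; simp; ring
    · simp
  simp only [Q, this, Finset.sum_add_distrib, Finset.sum_ite_eq', Finset.mem_univ, if_true]

theorem cont_Q : Continuous (Q : Y n → ℝ) :=
  continuous_finsetSum _ fun i _ => (co i).continuous.pow 2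

section

variable [NormedSpace ℝ W] {U : Set (Y n)} {f g : Y n → W} {X Z : Y n}

theorem opnorm_le (L : Y n →L[ℝ] W) : ‖L‖ ≤ ∑ i, ‖L (dir i)‖ := by
  refine L.opNorm_le_bound (Finset.sum_nonneg fun _ _ => norm_nonneg _) fun Z => ?_
  conv_lhs => rw [← sum_co Z, map_sum]
  rw [Finset.sum_mul]
  refine (norm_sum_le _ _).trans (Finset.sum_le_sum fun i _ => ?_)
  rw [map_smul, norm_smul, mul_comm]
  exact mul_le_mul_of_nonneg_left (abs_co i Z) (norm_nonneg _)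

theorem norm_dir (i : Option (Fin n)) : ‖(dir i : Y n)‖ = 1 := by
  rcases i with _ | i <;> simp [dir, Prod.norm_def]

theorem pd_le (i : Option (Fin n)) (f : Y n → W) (Z : Y n) : ‖pd i f Z‖ ≤ ‖fderiv ℝ f Z‖ := by
  simpa [norm_dir, pd] using (fderiv ℝ f Z).le_opNorm (dir i)

theorem sm_pd (hU : IsOpen U) (hf : ContDiffOn ℝ ∞ f U) (i : Option (Fin n)) :
    ContDiffOn ℝ ∞ (pd i f) U :=
  (hf.fderiv_of_isOpen hU (m := ∞) (le_of_eq rfl)).clm_apply contDiffOn_const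

theorem dAt (hU : IsOpen U) (hf : ContDiffOn ℝ ∞ f U) (hZ : Z ∈ U) : DifferentiableAt ℝ f Z :=
  (hf.contDiffAt (hU.mem_nhds hZ)).differentiableAt (by simp)

theorem line {s : ℝ} {i : Option (Fin n)} (hf : DifferentiableAt ℝ f (Z + s • dir i)) :
    HasDerivAt (fun s : ℝ => f (Z + s • dir i)) (pd i f (Z + s • dir i)) s := by
  have h := ((hasDerivAt_id s).smul_const (dir i : Y n)).const_add Z
  rw [one_smul] at h
  exact hf.hasFDerivAt.comp_hasDerivAt s h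

theorem pd_congr (h : f =ᶠ[𝓝 Z] g) (i : Option (Fin n)) : pd i f Z = pd i g Z := by
  unfold pd; rw [h.fderiv_eq]

theorem pd_congr' (hU : IsOpen U) (h : ∀ X ∈ U, f X = g X) (hZ : Z ∈ U) (i : Option (Fin n)) :
    pd i f Z = pd i g Z :=
  pd_congr (eventually_of_mem (hU.mem_nhds hZ) h) i

theorem pd_comm (hU : IsOpen U) (hf : ContDiffOn ℝ ∞ f U) (hZ : Z ∈ U) (i j : Option (Fin n)) :
    pd i (pd j f) Z = pd j (pd i f) Z := by
  have h1 := dAt hU (hf.fderiv_of_isOpen hU (m := ∞) (le_of_eq rfl)) hZ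
  have h2 : ∀ a b, pd a (pd b f) Z = fderiv ℝ (fderiv ℝ f) Z (dir a) (dir b) := fun a b => by
    show fderiv ℝ (fun X => fderiv ℝ f X (dir b)) Z (dir a) = _
    rw [fderiv_clm_apply h1 (differentiableAt_const _)]
    simp
  rw [h2, h2]
  exact ((hf.contDiffAt (hU.mem_nhds hZ)).isSymmSndFDerivAt (by
    rw [minSmoothness_of_isRCLikeNormedField]; exact WithTop.coe_le_coe.2 le_top)).eq _ _

theorem pd_clm {W' : Type} [NormedAddCommGroup W'] [NormedSpace ℝ W'] (L : W →L[ℝ] W')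
    (hf : DifferentiableAt ℝ f Z) (i : Option (Fin n)) :
    pd i (fun X => L (f X)) Z = L (pd i f Z) := by
  unfold pd
  rw [show fderiv ℝ (fun X => L (f X)) Z = _ from (L.hasFDerivAt.comp Z hf.hasFDerivAt).fderiv]
  rfl

theorem pd_sum {κ : Type} [Fintype κ] {f : κ → Y n → W} (hf : ∀ k, DifferentiableAt ℝ (f k) Z)
    (i : Option (Fin n)) : pd i (fun X => ∑ k, f k X) Z = ∑ k, pd i (f k) Z := by
  unfold pd
  rw [fderiv_fun_sum fun k _ => hf k, sum_apply]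

theorem pd_const (c : W) (i : Option (Fin n)) (Z : Y n) : pd i (fun _ => c) Z = 0 := by
  simp [pd]

/-- harmonic on `U` -/
structure Harm (U : Set (Y n)) (f : Y n → W) : Prop where
  smooth : ContDiffOn ℝ ∞ f U
  lap : ∀ Z ∈ U, ∑ i, pd i (pd i f) Z = 0

theorem Harm.pd (hU : IsOpen U) (hf : Harm U f) (j : Option (Fin n)) : Harm U (pd j f) := by
  refine ⟨sm_pd hU hf.smooth j, fun Z hZ => ?_⟩
  have h1 : ∀ i, HP.pd i (HP.pd i (HP.pd j f)) Z = HP.pd j (HP.pd i (HP.pd i f)) Z := fun i => by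
    rw [pd_congr' hU (fun X hX => pd_comm hU hf.smooth hX i j) hZ,
      pd_comm hU (sm_pd hU hf.smooth i) hZ]
  simp only [h1]
  rw [← pd_sum fun i => dAt hU (sm_pd hU (sm_pd hU hf.smooth i) i) hZ,
    pd_congr' hU hf.lap hZ, pd_const]

end

/-- generalized Cauchy-Riemann system on an open set -/
structure LCR (U : Set (Y n)) (F : Y n → V n) : Prop where
  smooth : ContDiffOn ℝ ∞ F U
  symm : ∀ X ∈ U, ∀ i j, pd i F X j = pd j F X i
  trace : ∀ X ∈ U, ∑ i, pd i F X i = 0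

theorem open_half : IsOpen {X : Y n | 0 < X.2} := isOpen_lt continuous_const continuous_snd

theorem lcr_iff {F : Y n → V n} : LCR {X | 0 < X.2} F ↔ CR F :=
  ⟨fun h => ⟨h.1, h.2, h.3⟩, fun h => ⟨h.1, h.2, h.3⟩⟩

theorem LCR.mono {U U' : Set (Y n)} {F : Y n → V n} (h : LCR U F) (hU : U' ⊆ U) : LCR U' F :=
  ⟨h.1.mono hU, fun X hX => h.2 X (hU hX), fun X hX => h.3 X (hU hX)⟩

theorem pd_app {F : Y n → V n} {Z : Y n} (hF : DifferentiableAt ℝ F Z) (i k : Option (Fin n)) :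
    pd i (fun X => F X k) Z = pd i F Z k :=
  pd_clm (EuclideanSpace.proj k : V n →L[ℝ] ℝ) hF i

theorem LCR.pd {U : Set (Y n)} {F : Y n → V n} (hU : IsOpen U) (h : LCR U F)
    (k : Option (Fin n)) : LCR U (pd k F) := by
  have d := fun i X hX => dAt (Z := X) hU (sm_pd hU h.1 i) hX
  refine ⟨sm_pd hU h.1 k, fun X hX i j => ?_, fun X hX => ?_⟩
  · rw [pd_comm hU h.1 hX i, pd_comm hU h.1 hX j, ← pd_app (d i X hX), ← pd_app (d j X hX)]
    exact pd_congr' hU (fun Z hZ => h.2 Z hZ i j) hX k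
  · have h1 : ∀ i, HP.pd i (HP.pd k F) X i = HP.pd k (fun Z => HP.pd i F Z i) X := fun i => by
      rw [pd_comm hU h.1 hX i, pd_app (d i X hX)]
    simp only [h1]
    rw [← pd_sum (f := fun i Z => HP.pd i F Z i) fun i =>
      (EuclideanSpace.proj i : V n →L[ℝ] ℝ).differentiableAt.comp X (d i X hX),
      pd_congr' hU h.3 hX, pd_const]

theorem LCR.harm {U : Set (Y n)} {F : Y n → V n} (hU : IsOpen U) (h : LCR U F) : Harm U F := by
  refine ⟨h.1, fun X hX => ?_⟩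
  ext k
  have d := fun i => dAt (Z := X) hU (sm_pd hU h.1 i) hX
  have h1 : ∀ i, HP.pd i (HP.pd i F) X k = HP.pd i (HP.pd k F) X i := fun i => by
    rw [← pd_app (d i), ← pd_app (d k)]
    exact pd_congr' hU (fun Z hZ => h.2 Z hZ i k) hX i
  have h2 := (h.pd hU k).3 X hX
  simp only [← h1] at h2
  simpa using h2

section

variable [InnerProductSpace ℝ W]

theorem oneD {v v1 u u1 : ℝ → W} {v2 u2 : W} (a z K ε : ℝ)
    (hv : ∀ᶠ s in 𝓝 (0 : ℝ), HasDerivAt v (v1 s) s) (hv1 : HasDerivAt v1 v2 0)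
    (hu : ∀ᶠ s in 𝓝 (0 : ℝ), HasDerivAt u (u1 s) s) (hu1 : HasDerivAt u1 u2 0)
    (hm : IsLocalMax (fun s => (a - (2 * s * z + s ^ 2)) ^ 2 * ⟪v s, v s⟫ + K * ⟪u s, u s⟫ +
      ε * (2 * s * z + s ^ 2)) 0) :
    -(24 * ‖v 0‖ ^ 2) * z ^ 2 - 4 * a * ‖v 0‖ ^ 2 + 2 * a ^ 2 * ⟪v 0, v2⟫ +
      2 * K * ‖u1 0‖ ^ 2 + 2 * K * ⟪u 0, u2⟫ + 2 * ε ≤ 0 := by
  have hp : ∀ s : ℝ, HasDerivAt (fun s : ℝ => 2 * s * z + s ^ 2) (2 * z + 2 * s) s := fun s => by
    refine ((((hasDerivAt_id s).const_mul 2).mul_const z).add (hasDerivAt_pow 2 s)).congr_deriv ?_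
    simp
  have hq : HasDerivAt (fun s : ℝ => 2 * z + 2 * s) 2 0 := by
    simpa using ((hasDerivAt_id (0 : ℝ)).const_mul 2).const_add (2 * z)
  have v0 := hv.self_of_nhds
  have u0 := hu.self_of_nhds
  have h := test2 (φ1 := fun s => -2 * (a - (2 * s * z + s ^ 2)) * (2 * z + 2 * s) * ⟪v s, v s⟫ +
      2 * (a - (2 * s * z + s ^ 2)) ^ 2 * ⟪v s, v1 s⟫ + 2 * K * ⟪u s, u1 s⟫ + ε * (2 * z + 2 * s))
    ((hv.and hu).mono fun s hs => by
      refine ((((((hp s).const_sub a).pow 2).mul (hs.1.inner ℝ hs.1)).add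
        ((hs.2.inner ℝ hs.2).const_mul K)).add ((hp s).const_mul ε)).congr_deriv ?_
      simp only [Pi.pow_apply, real_inner_comm (v s) (v1 s), real_inner_comm (u s) (u1 s)]
      push_cast
      ring)
    ((((((((hp 0).const_sub a).const_mul (-2)).mul hq).mul (v0.inner ℝ v0)).add
      (((((hp 0).const_sub a).pow 2).const_mul 2).mul (v0.inner ℝ hv1))).add
      ((u0.inner ℝ hu1).const_mul (2 * K))).add (hq.const_mul ε)) hm
  have h2 := real_inner_self_nonneg (x := a • v1 0 - (4 * z) • v 0)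
  simp only [inner_sub_left, inner_sub_right, real_inner_smul_left, real_inner_smul_right] at h2
  simp only [real_inner_self_eq_norm_sq, Pi.pow_apply, Pi.mul_apply,
    real_inner_comm (v 0) (v1 0)] at h h2
  push_cast at h
  nlinarith

variable {U : Set (Y n)} {f : Y n → W} {X : Y n} {r M : ℝ}

theorem grad_pd (hU : IsOpen U) (hf : Harm U f) (hr : 0 < r) (hB : closedBall X r ⊆ U)
    (hM : ∀ Z ∈ closedBall X r, ‖f Z‖ ≤ M) (j : Option (Fin n)) :
    ‖pd j f X‖ ≤ (n + 4) * M / r := by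
  have hv := hf.pd hU j
  set v := pd j f
  set K : ℝ := (2 * n + 14) * r ^ 2 with hK
  have M0 : 0 ≤ M := (norm_nonneg _).trans (hM X (mem_closedBall_self hr.le))
  have hS : {Z | Q (Z - X) ≤ r ^ 2} ⊆ closedBall X r := fun Z hZ =>
    mem_closedBall_iff_norm.2 (norm_le_of_Q hr.le hZ)
  have cQ : Continuous fun Z => Q (Z - X) := cont_Q.comp (continuous_id.sub continuous_const)
  have hc : IsCompact {Z | Q (Z - X) ≤ r ^ 2} :=
    (isCompact_closedBall X r).of_isClosed_subset (isClosed_le cQ continuous_const) hS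
  have Q0 : Q (X - X) = 0 := by simp [Q]
  have key : ∀ ε > 0, r ^ 4 * ‖v X‖ ^ 2 ≤ K * M ^ 2 + ε * r ^ 2 := fun ε hε => by
    have c1 := hv.1.continuousOn.mono (hS.trans hB)
    have c2 := hf.1.continuousOn.mono (hS.trans hB)
    obtain ⟨Z, hZ, hm⟩ := hc.exists_isMaxOn (f := fun Z => (r ^ 2 - Q (Z - X)) ^ 2 * ⟪v Z, v Z⟫ +
      K * ⟪f Z, f Z⟫ + ε * Q (Z - X)) ⟨X, by rw [mem_ofPred_eq, Q0]; positivity⟩
      ((((continuous_const.sub cQ).pow 2).continuousOn.mul (c1.inner c1)).add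
        (continuousOn_const.mul (c2.inner c2)) |>.add (continuous_const.mul cQ).continuousOn)
    have hZU := hB (hS hZ)
    rcases (show Q (Z - X) ≤ r ^ 2 from hZ).eq_or_lt with h | h
    · have h1 := hm (show X ∈ {Z | Q (Z - X) ≤ r ^ 2} by rw [mem_ofPred_eq, Q0]; positivity)
      simp only [mem_ofPred_eq, h, Q0, real_inner_self_eq_norm_sq] at h1
      have h2 : K * ‖f Z‖ ^ 2 ≤ K * M ^ 2 := by have := hM Z (hS hZ); gcongr
      have h3 : 0 ≤ K * ‖f X‖ ^ 2 := by positivity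
      nlinarith
    exfalso
    have hl := hm.isLocalMax (mem_of_superset ((isOpen_lt cQ continuous_const).mem_nhds h)
      fun Z (hZ : Q (Z - X) < r ^ 2) => show Q (Z - X) ≤ r ^ 2 from hZ.le)
    have h1 : ∀ i, -(24 * ‖v Z‖ ^ 2) * co i (Z - X) ^ 2 - 4 * (r ^ 2 - Q (Z - X)) * ‖v Z‖ ^ 2 +
        2 * (r ^ 2 - Q (Z - X)) ^ 2 * ⟪v Z, pd i (pd i v) Z⟫ + 2 * K * ‖pd i f Z‖ ^ 2 +
        2 * K * ⟪f Z, pd i (pd i f) Z⟫ + 2 * ε ≤ 0 := fun i => by
      have cl : ContinuousAt (fun s : ℝ => Z + s • (dir i : Y n)) 0 := by fun_prop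
      have z0 : Z + (0 : ℝ) • (dir i : Y n) = Z := by simp
      have ev : ∀ᶠ s in 𝓝 (0 : ℝ), Z + s • dir i ∈ U := cl.eventually
        (hU.mem_nhds (show Z + (0 : ℝ) • (dir i : Y n) ∈ U by rwa [z0]))
      have := oneD (r ^ 2 - Q (Z - X)) (co i (Z - X)) K ε
        (ev.mono fun s hs => line (dAt hU hv.1 hs))
        (line (dAt hU (sm_pd hU hv.1 i) ev.self_of_nhds))
        (ev.mono fun s hs => line (dAt hU hf.1 hs))
        (line (dAt hU (sm_pd hU hf.1 i) ev.self_of_nhds)) (by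
          have h2 := IsLocalMax.comp_continuous (g := fun s : ℝ => Z + s • (dir i : Y n))
            (b := 0) (z0.symm ▸ hl) cl
          filter_upwards [h2] with s hs
          simp only [Function.comp, add_sub_right_comm Z, Q_line] at hs
          simp only [← sub_sub] at hs ⊢
          simp only [sub_sub] at hs ⊢
          linarith)
      rwa [z0] at this
    have h2 := Finset.sum_nonpos fun i (_ : i ∈ Finset.univ) => h1 i
    simp only [Finset.sum_add_distrib, Finset.sum_sub_distrib, ← Finset.mul_sum, ← inner_sum,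
      hv.lap Z hZU, hf.lap Z hZU, inner_zero_right, Finset.sum_const, Finset.card_univ,
      Fintype.card_option, Fintype.card_fin, nsmul_eq_mul] at h2
    have h3 : ‖v Z‖ ^ 2 ≤ ∑ i, ‖pd i f Z‖ ^ 2 :=
      Finset.single_le_sum (f := fun i => ‖pd i f Z‖ ^ 2) (fun _ _ => sq_nonneg _)
        (Finset.mem_univ j)
    have h4 : 0 ≤ Q (Z - X) := Finset.sum_nonneg fun _ _ => sq_nonneg _
    have h5 : K * ‖v Z‖ ^ 2 ≤ K * ∑ i, ‖pd i f Z‖ ^ 2 := by gcongr
    have h6 : ∑ i, co i (Z - X) ^ 2 = Q (Z - X) := rfl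
    rw [h6] at h2
    push_cast at h2
    have h7 : 0 ≤ ‖v Z‖ ^ 2 * (r ^ 2 - Q (Z - X)) := mul_nonneg (sq_nonneg _) (by linarith)
    have h8 : 0 ≤ (n + 1 : ℝ) * (‖v Z‖ ^ 2 * Q (Z - X)) := by positivity
    have h9 : 0 < (n + 1 : ℝ) * ε := by positivity
    rw [hK] at h2 h5
    nlinarith
  have h1 : r ^ 4 * ‖v X‖ ^ 2 ≤ K * M ^ 2 := le_of_forall_pos_le_add fun ε hε => by
    have := key (ε / r ^ 2) (by positivity)
    rwa [div_mul_cancel₀ _ (by positivity)] at this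
  rw [le_div_iff₀ hr]
  refine abs_le_of_sq_le_sq' ?_ (by positivity) |>.2
  refine le_of_mul_le_mul_left ?_ (show 0 < r ^ 2 by positivity)
  have h2 : 0 ≤ ((n : ℝ) ^ 2 + 6 * n + 2) * (r ^ 2 * M ^ 2) := by positivity
  rw [hK] at h1
  nlinarith

theorem grad (hU : IsOpen U) (hf : Harm U f) (hr : 0 < r) (hB : closedBall X r ⊆ U)
    (hM : ∀ Z ∈ closedBall X r, ‖f Z‖ ≤ M) : ‖fderiv ℝ f X‖ ≤ (n + 1) * (n + 4) * M / r := by
  refine (opnorm_le _).trans ((Finset.sum_le_sum fun i _ => grad_pd hU hf hr hB hM i).trans ?_)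
  simp only [Finset.sum_const, Finset.card_univ, Fintype.card_option, Fintype.card_fin,
    nsmul_eq_mul]
  push_cast
  exact le_of_eq (by ring)

/-- eventually locally bounded family on `U` -/
def LB {ι : Type} {P : Type} [NormedAddCommGroup P] (𝒰 : Filter ι) (U : Set (Y n))
    (F : ι → Y n → P) : Prop :=
  ∀ X ∈ U, ∃ r > 0, ∃ M : ℝ, closedBall X r ⊆ U ∧ ∀ᶠ k in 𝒰, ∀ Z ∈ closedBall X r, ‖F k Z‖ ≤ M

theorem half_sub {X Z : Y n} {r : ℝ} (hZ : Z ∈ closedBall X (r / 2)) :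
    closedBall Z (r / 2) ⊆ closedBall X r :=
  closedBall_subset_closedBall' (by have := mem_closedBall.1 hZ; linarith)

variable {ι : Type} {F : ι → Y n → W}

theorem LB.fderiv {𝒰 : Filter ι} (hU : IsOpen U) (hF : ∀ k, Harm U (F k)) (h : LB 𝒰 U F) :
    LB 𝒰 U fun k => fderiv ℝ (F k) := fun X hX => by
  obtain ⟨r, hr, M, h1, h2⟩ := h X hX
  exact ⟨r / 2, half_pos hr, _, (closedBall_subset_closedBall (half_le_self hr.le)).trans h1,
    h2.mono fun k hk Z hZ => grad hU (hF k) (half_pos hr) ((half_sub hZ).trans h1)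
      fun Z' hZ' => hk Z' (half_sub hZ hZ')⟩

theorem LB.pd {𝒰 : Filter ι} (hU : IsOpen U) (hF : ∀ k, Harm U (F k)) (h : LB 𝒰 U F)
    (i : Option (Fin n)) : LB 𝒰 U fun k => pd i (F k) := fun X hX => by
  obtain ⟨r, hr, M, h1, h2⟩ := h.fderiv hU hF X hX
  exact ⟨r, hr, M, h1, h2.mono fun k hk Z hZ => (pd_le i _ Z).trans (hk Z hZ)⟩

theorem LB.lip {𝒰 : Filter ι} (hU : IsOpen U) (hF : ∀ k, Harm U (F k)) (h : LB 𝒰 U F)
    (hX : X ∈ U) : ∃ r > 0, ∃ L : ℝ, ∀ᶠ k in 𝒰, ∀ Z ∈ closedBall X r,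
      ‖F k Z - F k X‖ ≤ L * ‖Z - X‖ := by
  obtain ⟨r, hr, M, h1, h2⟩ := h.fderiv hU hF X hX
  exact ⟨r, hr, M, h2.mono fun k hk Z hZ =>
    (convex_closedBall X r).norm_image_sub_le_of_norm_fderiv_le
      (fun Z hZ => dAt hU (hF k).1 (h1 hZ)) hk (mem_closedBall_self hr.le) hZ⟩

theorem unif {P : Type} [NormedAddCommGroup P] {𝒰 : Filter ι} [𝒰.NeBot] {F : ι → Y n → P}
    {G : Y n → P} (hU : IsOpen U) (hG : ∀ X ∈ U, Tendsto (fun k => F k X) 𝒰 (𝓝 (G X)))
    (hX : X ∈ U) (h : ∃ r > 0, ∃ L : ℝ, ∀ᶠ k in 𝒰, ∀ Z ∈ closedBall X r,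
      ‖F k Z - F k X‖ ≤ L * ‖Z - X‖) : TendstoUniformlyOnFilter F G 𝒰 (𝓝 X) := by
  obtain ⟨r, hr, L, h⟩ := h
  refine Metric.tendstoUniformlyOnFilter_iff.2 fun ε hε => ?_
  have h1 : ∀ᶠ Z in 𝓝 X, L * ‖Z - X‖ < ε / 3 :=
    (show ContinuousAt (fun Z => L * ‖Z - X‖) X by fun_prop).eventually
      (gt_mem_nhds (by simpa using hε))
  have h2 := (Metric.tendsto_nhds.1 (hG X hX) (ε / 3) (by positivity)).and h
  filter_upwards [h2.prod_mk (h1.and ((eventually_of_mem (hU.mem_nhds hX) fun _ h => h).and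
    (eventually_of_mem (closedBall_mem_nhds X hr) fun _ h => h)))] with ⟨k, Z⟩ ⟨a, b, c, d⟩
  have h3 : ‖G Z - G X‖ ≤ L * ‖Z - X‖ :=
    le_of_tendsto ((hG Z c).sub (hG X hX)).norm (h.mono fun k hk => hk Z d)
  have h4 := a.2 Z d
  have h5 := a.1
  have h6 := dist_triangle4 (G Z) (G X) (F k X) (F k Z)
  rw [dist_comm (G X), dist_comm (F k X) (F k Z), dist_eq_norm (G Z) (G X),
    dist_eq_norm (F k Z)] at h6
  dsimp only at *
  linarith

theorem LB.lim {P : Type} [NormedAddCommGroup P] [ProperSpace P] {𝒰 : Ultrafilter ι}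
    {F : ι → Y n → P} (h : LB (𝒰 : Filter ι) U F) :
    ∃ G : Y n → P, ∀ X ∈ U, Tendsto (fun k => F k X) 𝒰 (𝓝 (G X)) := by
  have : ∀ X, ∃ y, X ∈ U → Tendsto (fun k => F k X) 𝒰 (𝓝 y) := fun X => by
    by_cases hX : X ∈ U
    · obtain ⟨r, hr, M, -, h2⟩ := h X hX
      obtain ⟨y, -, hy⟩ := (isCompact_closedBall (0 : P) M).ultrafilter_le_nhds
        (𝒰.map fun k => F k X) (le_principal_iff.2 (h2.mono fun k hk =>
          mem_closedBall_zero_iff.2 (hk X (mem_closedBall_self hr.le))))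
      exact ⟨y, fun _ => hy⟩
    · exact ⟨0, fun h => absurd h hX⟩
  choose G hG using this
  exact ⟨G, hG⟩

variable [FiniteDimensional ℝ W] {𝒰 : Ultrafilter ι} {G : Y n → W}

theorem lim_fderiv (hU : IsOpen U) (hF : ∀ k, Harm U (F k)) (h : LB (𝒰 : Filter ι) U F)
    (hG : ∀ X ∈ U, Tendsto (fun k => F k X) 𝒰 (𝓝 (G X))) (hX : X ∈ U) :
    DifferentiableAt ℝ G X ∧
      TendstoUniformlyOnFilter (fun k => fderiv ℝ (F k)) (fderiv ℝ G) 𝒰 (𝓝 X) := by
  have := FiniteDimensional.proper_real (Y n →L[ℝ] W)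
  obtain ⟨D, hD⟩ := (h.fderiv hU hF).lim
  have h1 : ∀ X ∈ U, TendstoUniformlyOnFilter (fun k => fderiv ℝ (F k)) D 𝒰 (𝓝 X) := fun X hX => by
    refine unif hU hD hX ?_
    choose r hr L hL using fun i => (h.pd hU hF i).lip hU (fun k => (hF k).pd hU i) hX
    obtain ⟨i, -, hi⟩ := Finset.exists_min_image Finset.univ r Finset.univ_nonempty
    refine ⟨r i, hr i, ∑ j, L j, (eventually_all.2 hL).mono fun k hk Z hZ =>
      (opnorm_le _).trans ?_⟩
    rw [Finset.sum_mul]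
    exact Finset.sum_le_sum fun j _ =>
      hk j Z (closedBall_subset_closedBall (hi j (Finset.mem_univ _)) hZ)
  have h2 : ∀ X ∈ U, HasFDerivAt G (D X) X := fun X hX =>
    hasFDerivAt_of_tendstoUniformlyOnFilter (h1 X hX)
      ((eventually_of_mem (hU.mem_nhds hX) fun _ h => h).prod_inr _ |>.mono fun p hp =>
        (dAt hU (hF p.1).1 hp).hasFDerivAt)
      (eventually_of_mem (hU.mem_nhds hX) hG)
  refine ⟨(h2 X hX).differentiableAt, fun u hu => ?_⟩
  filter_upwards [h1 X hX u hu, (eventually_of_mem (hU.mem_nhds hX) fun _ h => h).prod_inr _]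
    with p a b
  rwa [(h2 _ b).fderiv]

theorem lim_pd (hU : IsOpen U) (hF : ∀ k, Harm U (F k)) (h : LB (𝒰 : Filter ι) U F)
    (hG : ∀ X ∈ U, Tendsto (fun k => F k X) 𝒰 (𝓝 (G X))) (i : Option (Fin n)) :
    ∀ X ∈ U, Tendsto (fun k => pd i (F k) X) 𝒰 (𝓝 (pd i G X)) := fun _ hX =>
  ((ContinuousLinearMap.apply ℝ W (dir i : Y n)).continuous.tendsto _).comp
    ((lim_fderiv hU hF h hG hX).2.tendsto_at (by rw [principal_singleton]; exact pure_le_nhds _))

theorem lim_smooth (hU : IsOpen U) (m : ℕ) : ∀ {F : ι → Y n → W} {G : Y n → W},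
    (∀ k, Harm U (F k)) → LB (𝒰 : Filter ι) U F →
    (∀ X ∈ U, Tendsto (fun k => F k X) 𝒰 (𝓝 (G X))) → ContDiffOn ℝ m G U := by
  induction m with
  | zero => exact fun hF h hG => contDiffOn_zero.2 fun X hX =>
      (lim_fderiv hU hF h hG hX).1.continuousAt.continuousWithinAt
  | succ m ih =>
    intro F G hF h hG
    rw [Nat.cast_succ, contDiffOn_succ_iff_fderiv_of_isOpen hU]
    refine ⟨fun X hX => (lim_fderiv hU hF h hG hX).1.differentiableWithinAt, by simp,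
      contDiffOn_clm_apply.2 fun y => ?_⟩
    have e : (fun X => fderiv ℝ G X y) = fun X => ∑ i, co i y • pd i G X := by
      ext X
      conv_lhs => rw [← sum_co y, map_sum]
      simp only [map_smul, pd]
    rw [e]
    exact ContDiffOn.sum fun i _ => (ih (fun k => (hF k).pd hU i) (h.pd hU hF i)
      (lim_pd hU hF h hG i)).const_smul _

theorem lim_harm (hU : IsOpen U) (hF : ∀ k, Harm U (F k)) (h : LB (𝒰 : Filter ι) U F)
    (hG : ∀ X ∈ U, Tendsto (fun k => F k X) 𝒰 (𝓝 (G X))) : Harm U G := by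
  refine ⟨contDiffOn_infty.2 fun m => lim_smooth hU m hF h hG, fun X hX => ?_⟩
  have h1 := tendsto_finsetSum Finset.univ fun i _ =>
    lim_pd hU (fun k => (hF k).pd hU i) (h.pd hU hF i) (lim_pd hU hF h hG i) i X hX
  simp only [(hF _).lap X hX] at h1
  exact tendsto_nhds_unique h1 tendsto_const_nhds

end

/-- compactness of locally bounded families of Cauchy-Riemann systems -/
theorem lim_lcr {ι : Type} {𝒰 : Ultrafilter ι} {U : Set (Y n)} {F : ι → Y n → V n}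
    (hU : IsOpen U) (hF : ∀ k, LCR U (F k)) (h : LB (𝒰 : Filter ι) U F) :
    ∃ G : Y n → V n, LCR U G ∧ TendstoLocallyUniformlyOn F G 𝒰 U ∧
      TendstoLocallyUniformlyOn (fun k => fderiv ℝ (F k)) (fderiv ℝ G) 𝒰 U := by
  obtain ⟨G, hG⟩ := h.lim
  have hH := fun k => (hF k).harm hU
  have h1 : ∀ X ∈ U, ∀ i j, Tendsto (fun k => pd i (F k) X j) 𝒰 (𝓝 (pd i G X j)) :=
    fun X hX i j => ((EuclideanSpace.proj j : V n →L[ℝ] ℝ).continuous.tendsto _).comp
      (lim_pd hU hH h hG i X hX)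
  refine ⟨G, ⟨(lim_harm hU hH h hG).1, fun X hX i j => ?_, fun X hX => ?_⟩,
    tendstoLocallyUniformlyOn_iff_filter.2 fun X hX => ?_,
    tendstoLocallyUniformlyOn_iff_filter.2 fun X hX => ?_⟩
  · exact tendsto_nhds_unique (h1 X hX i j) (by
      simp only [(hF _).2 X hX i j]; exact h1 X hX j i)
  · have h2 := tendsto_finsetSum Finset.univ fun i _ => h1 X hX i i
    simp only [(hF _).3 X hX] at h2
    exact tendsto_nhds_unique h2 tendsto_const_nhds
  · exact (unif hU hG hX (h.lip hU hH hX)).mono_right nhdsWithin_le_nhds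
  · exact (lim_fderiv hU hH h hG hX).2.mono_right nhdsWithin_le_nhds

end Pool.Agent.RZ.Grad
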