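import Pool.Agent.Lib.RZ.Blue

set_option autoImplicit false

open MeasureTheory Metric Set Filter
open scoped ENNReal ContDiff Topology

noncomputable section

namespace Pool.Agent.RZ.API

open Pool.Agent.HP Pool.Agent.RZ

variable {n : ℕ}

theorem sqrt_sum_le (f : Option (Fin n) → ℝ) (B : ℝ) (h0 : ∀ i, 0 ≤ f i) (h : ∀ i, f i ≤ B) :
    √(∑ i, f i ^ 2) ≤ (n + 1) * B := by
  have hB : 0 ≤ B := (h0 none).trans (h none)
  have hn0 : (0 : ℝ) ≤ n := Nat.cast_nonneg n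
  refine Real.sqrt_le_iff.2 ⟨by positivity, ?_⟩
  calc ∑ i, f i ^ 2 ≤ ∑ _i : Option (Fin n), B ^ 2 :=
        Finset.sum_le_sum fun i _ => pow_le_pow_left₀ (h0 i) (h i) 2
    _ = (n + 1) * B ^ 2 := by simp
    _ ≤ ((n + 1) * B) ^ 2 := by nlinarith [sq_nonneg B, mul_nonneg hn0 (sq_nonneg B)]

theorem hn_eq (F : Y n → V n) (X : Y n) :
    hn F X = ‖(WithLp.toLp 2 (jac F X) : PiLp 2 (fun _ : Option (Fin n) => V n))‖ := by
  rw [PiLp.norm_eq_of_L2]
  rfl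

theorem pd_le (F : Y n → V n) (X : Y n) (i : Option (Fin n)) : ‖pd i F X‖ ≤ hn F X :=
  Real.le_sqrt_of_sq_le
    (Finset.single_le_sum (f := fun i => ‖jac F X i‖ ^ 2) (fun _ _ => by positivity)
      (Finset.mem_univ i))

theorem hn_le (F : Y n → V n) (X : Y n) (B : ℝ) (h : ∀ i, ‖pd i F X‖ ≤ B) :
    hn F X ≤ (n + 1) * B :=
  sqrt_sum_le (fun i => ‖pd i F X‖) B (fun _ => norm_nonneg _) h

theorem opn (F : Y n → V n) (X : Y n) : ‖fderiv ℝ F X‖ ≤ 2 * hn F X := by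
  refine ContinuousLinearMap.opNorm_le_bound _ (by have := hn_nonneg F X; positivity) fun W => ?_
  have h1 : fderiv ℝ F X W = ∑ i, vec W i • pd i F X := by
    conv_lhs => rw [← sum_vec_dir W]
    simp only [map_sum, map_smul, pd]
  have h2 : ‖fderiv ℝ F X W‖ ≤ ∑ i, |vec W i| * ‖pd i F X‖ := by
    rw [h1]
    refine (norm_sum_le _ _).trans (le_of_eq ?_)
    simp only [norm_smul, Real.norm_eq_abs]
  have h3 := Finset.sum_mul_sq_le_sq_mul_sq Finset.univ (fun i => |vec W i|) (fun i => ‖pd i F X‖)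
  have h4 : ∑ i, |vec W i| ^ 2 = ‖W.1‖ ^ 2 + W.2 ^ 2 := by
    rw [← norm_vec_sq, EuclideanSpace.real_norm_sq_eq]
    simp only [sq_abs]
  have h5 : ∑ i, ‖pd i F X‖ ^ 2 = hn F X ^ 2 := (hn_sq F X).symm
  have h6 : ‖W.1‖ ^ 2 + W.2 ^ 2 ≤ 4 * ‖W‖ ^ 2 := by
    have a1 : ‖W.1‖ ≤ ‖W‖ := norm_fst_le W
    have a2 : |W.2| ≤ ‖W‖ := norm_snd_le W
    have a3 : ‖W.1‖ ^ 2 ≤ ‖W‖ ^ 2 := pow_le_pow_left₀ (norm_nonneg _) a1 2
    have a4 : W.2 ^ 2 ≤ ‖W‖ ^ 2 := by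
      rw [← sq_abs]; exact pow_le_pow_left₀ (abs_nonneg _) a2 2
    nlinarith [sq_nonneg ‖W‖]
  rw [h4, h5] at h3
  refine h2.trans (le_of_sq_le_sq (h3.trans ?_) (by have := hn_nonneg F X; positivity))
  calc (‖W.1‖ ^ 2 + W.2 ^ 2) * hn F X ^ 2 ≤ (4 * ‖W‖ ^ 2) * hn F X ^ 2 :=
        mul_le_mul_of_nonneg_right h6 (sq_nonneg _)
    _ = (2 * hn F X * ‖W‖) ^ 2 := by ring

theorem hn_sub (F G : Y n → V n) (X : Y n) (B : ℝ) (h : ∀ i, ‖pd i F X - pd i G X‖ ≤ B) :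
    |hn F X - hn G X| ≤ (n + 1) * B := by
  rw [hn_eq, hn_eq]
  refine (abs_norm_sub_norm_le _ _).trans ?_
  rw [PiLp.norm_eq_of_L2]
  exact sqrt_sum_le (fun i => ‖pd i F X - pd i G X‖) B (fun _ => norm_nonneg _) h

theorem hv_le (F : Y n → V n) (X : Y n) (v : V n) : hv2 (jac F X) v ≤ hn F X ^ 2 * ‖v‖ ^ 2 := by
  rw [hn_sq, hn2, hv2, Finset.sum_mul]
  refine Finset.sum_le_sum fun i _ => ?_
  rw [← sq_abs, ← mul_pow]
  exact pow_le_pow_left₀ (abs_nonneg _) (abs_real_inner_le_norm _ _) 2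

theorem lip (F : Y n → V n) (U : Set (Y n)) (B : ℝ) (hU : Convex ℝ U)
    (hd : ∀ X ∈ U, DifferentiableAt ℝ F X) (hB : ∀ X ∈ U, hn F X ≤ B) :
    ∀ X ∈ U, ∀ Z ∈ U, ‖F X - F Z‖ ≤ 2 * B * ‖X - Z‖ := fun _ hX _ hZ =>
  hU.norm_image_sub_le_of_norm_fderiv_le hd
    (fun W hW => (opn F W).trans (by linarith [hB W hW])) hZ hX

theorem sqrt_lip (a b σ : ℝ) (ha : 0 ≤ a) (hb : 0 ≤ b) :
    √(a ^ 2 + σ ^ 2) ≤ √(b ^ 2 + σ ^ 2) + |a - b| := by
  have h1 : b ≤ √(b ^ 2 + σ ^ 2) := Real.le_sqrt_of_sq_le (by nlinarith [sq_nonneg σ])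
  have h2 : √(b ^ 2 + σ ^ 2) ^ 2 = b ^ 2 + σ ^ 2 := Real.sq_sqrt (by positivity)
  have h3 : a ≤ b + |a - b| := by linarith [le_abs_self (a - b)]
  have h4 := abs_nonneg (a - b)
  refine Real.sqrt_le_iff.2 ⟨by positivity, ?_⟩
  have h5 : a ^ 2 ≤ (b + |a - b|) ^ 2 := pow_le_pow_left₀ ha h3 2
  nlinarith [mul_le_mul_of_nonneg_right h1 h4]

theorem rho_lip (σ : ℝ) (F : Y n → V n) (X Z : Y n) : |rho σ F X - rho σ F Z| ≤ ‖F X - F Z‖ := by
  have h1 := sqrt_lip ‖F X‖ ‖F Z‖ σ (norm_nonneg _) (norm_nonneg _)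
  have h2 := sqrt_lip ‖F Z‖ ‖F X‖ σ (norm_nonneg _) (norm_nonneg _)
  have h3 := abs_norm_sub_norm_le (F X) (F Z)
  rw [abs_sub_comm] at h2
  unfold rho
  rw [abs_le]
  constructor <;> linarith

theorem diff (U : Set (Y n)) (F : Y n → V n) (hU : IsOpen U) (h : CRon U F) :
    ∀ X ∈ U, DifferentiableAt ℝ F X := fun _ hX =>
  (h.smooth.contDiffAt (hU.mem_nhds hX)).differentiableAt (by simp)

theorem cont_pd (U : Set (Y n)) (F : Y n → V n) (hU : IsOpen U) (h : CRon U F)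
    (i : Option (Fin n)) : ContinuousOn (pd i F) U :=
  (h.smooth.continuousOn_fderiv_of_isOpen hU (by simp)).clm_apply continuousOn_const

theorem cont_hn (U : Set (Y n)) (F : Y n → V n) (hU : IsOpen U) (h : CRon U F) :
    ContinuousOn (hn F) U :=
  (continuousOn_finsetSum _ fun i _ => ((cont_pd U F hU h i).norm.pow 2)).sqrt

theorem cont_rho (U : Set (Y n)) (F : Y n → V n) (σ : ℝ) (h : CRon U F) :
    ContinuousOn (rho σ F) U :=
  ((h.smooth.continuousOn.norm.pow 2).add continuousOn_const).sqrt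

theorem cont_hv (U : Set (Y n)) (F : Y n → V n) (hU : IsOpen U) (h : CRon U F) :
    ContinuousOn (fun X => hv2 (jac F X) (F X)) U :=
  continuousOn_finsetSum _ fun i _ =>
    ((ContinuousOn.inner (𝕜 := ℝ) (cont_pd U F hU h i) h.smooth.continuousOn).pow 2)

theorem cont_Dh (U : Set (Y n)) (F : Y n → V n) (σ : ℝ) (hU : IsOpen U) (h : CRon U F) :
    ContinuousOn (Dh σ F) U :=
  (((cont_hn U F hU h).pow 2).mul ((cont_rho U F σ h).pow 2)).sub
    (continuousOn_const.mul (cont_hv U F hU h))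

theorem ball_sub (X : Y n) (hX : 0 < X.2) : closedBall X (X.2 / 2) ⊆ Hs n 0 := fun Z hZ => by
  have h1 : |Z.2 - X.2| ≤ X.2 / 2 := (norm_snd_le (Z - X)).trans (mem_closedBall_iff_norm.1 hZ)
  have h2 := (abs_le.1 h1).1
  show 0 < Z.2
  linarith

theorem le_nn (F : Y n → V n) (X Z : Y n) (h : CRon (Hs n 0) F) (hX : 0 < X.2)
    (hZ : Z ∈ closedBall X (X.2 / 2)) : hn F Z ≤ nn F X :=
  le_csSup ((isCompact_closedBall X _).bddAbove_image
    ((cont_hn _ F (isOpen_Hs 0) h).mono (ball_sub X hX))) ⟨Z, hZ, rfl⟩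

theorem nn_le (F : Y n → V n) (X : Y n) (B : ℝ) (hX : 0 < X.2)
    (h : ∀ Z ∈ closedBall X (X.2 / 2), hn F Z ≤ B) : nn F X ≤ B :=
  csSup_le ⟨_, X, mem_closedBall_self (by positivity), rfl⟩
    (by rintro _ ⟨Z, hZ, rfl⟩; exact h Z hZ)

theorem nn_eq (F : Y n → V n) (X : Y n) (hX : 0 < X.2) :
    nn F X = sSup ((fun W : Y n => hn F (X + (X.2 / 2) • W)) '' closedBall 0 1) := by
  unfold nn
  congr 1
  ext r
  constructor
  · rintro ⟨Z, hZ, rfl⟩
    refine ⟨(X.2 / 2)⁻¹ • (Z - X), ?_, ?_⟩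
    · rw [mem_closedBall_zero_iff, norm_smul, Real.norm_eq_abs, abs_of_pos (by positivity),
        inv_mul_le_iff₀ (by positivity), mul_one]
      exact mem_closedBall_iff_norm.1 hZ
    · simp only [smul_smul]
      rw [mul_inv_cancel₀ (by positivity), one_smul, add_sub_cancel]
  · rintro ⟨W, hW, rfl⟩
    refine ⟨_, ?_, rfl⟩
    rw [mem_closedBall_iff_norm, add_sub_cancel_left, norm_smul, Real.norm_eq_abs,
      abs_of_pos (by positivity)]
    exact mul_le_of_le_one_right (by positivity) (mem_closedBall_zero_iff.1 hW)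

theorem cont_nn (F : Y n → V n) (h : CRon (Hs n 0) F) : ContinuousOn (nn F) (Hs n 0) := by
  rw [continuousOn_iff_continuous_restrict]
  have hc := cont_hn _ F (isOpen_Hs 0) h
  have key : Continuous fun X : Hs n 0 =>
      sSup ((fun W : closedBall (0 : Y n) 1 => hn F (X.1 + (X.1.2 / 2) • W.1)) '' univ) := by
    refine IsCompact.continuous_sSup (f := fun (X : Hs n 0) (W : closedBall (0 : Y n) 1) =>
      hn F (X.1 + (X.1.2 / 2) • W.1)) isCompact_univ ?_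
    refine hc.comp_continuous (f := fun p : Hs n 0 × closedBall (0 : Y n) 1 =>
      p.1.1 + (p.1.1.2 / 2) • p.2.1) (by fun_prop) fun p => ?_
    have hp : 0 < p.1.1.2 := p.1.2
    refine ball_sub p.1.1 hp ?_
    rw [mem_closedBall_iff_norm, add_sub_cancel_left, norm_smul, Real.norm_eq_abs,
      abs_of_pos (by positivity)]
    exact mul_le_of_le_one_right (by positivity) (mem_closedBall_zero_iff.1 p.2.2)
  refine key.congr fun X => ?_
  rw [restrict_apply, nn_eq F X.1 X.2]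
  congr 1
  ext r
  constructor
  · rintro ⟨W, -, rfl⟩
    exact ⟨W.1, W.2, rfl⟩
  · rintro ⟨W, hW, rfl⟩
    exact ⟨⟨W, hW⟩, mem_univ _, rfl⟩

theorem bs_pos {σ : ℝ} (hσ : 0 < σ) (F : Y n → V n) (X : Y n) (hX : 0 < X.2) : 0 < bs σ F X :=
  add_pos_of_pos_of_nonneg (rho_pos hσ F X) (mul_nonneg hX.le (nn_nonneg F X))

theorem contE (F : Y n → V n) (q σ : ℝ) (h : CRon (Hs n 0) F) (hσ : 0 < σ) :
    ContinuousOn (nn F) (Hs n 0) ∧ ContinuousOn (EE q σ F) (Hs n 0) ∧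
    ContinuousOn (BB q σ F) (Hs n 0) ∧ ContinuousOn (bb q σ F) (Hs n 0) ∧
    ContinuousOn (LL q σ F) (Hs n 0) := by
  have h1 := cont_nn F h
  have h2 := cont_rho _ F σ h
  have h3 : ContinuousOn (bs σ F) (Hs n 0) := h2.add (continuousOn_snd.mul h1)
  have h4 := cont_Dh _ F σ (isOpen_Hs 0) h
  have h5 : ∀ e : ℝ, ContinuousOn (fun X => bs σ F X ^ e) (Hs n 0) := fun e =>
    h3.rpow_const fun X hX => Or.inl (bs_pos hσ F X hX).ne'
  have h6 : ∀ e : ℝ, ContinuousOn (fun X => rho σ F X ^ e) (Hs n 0) := fun e =>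
    h2.rpow_const fun X _ => Or.inl (rho_pos hσ F X).ne'
  exact ⟨h1, (h5 _).mul (h1.pow 2), (h5 _).mul h4, (h6 _).mul h4,
    continuousOn_const.mul ((h6 _).mul (cont_hv _ F (isOpen_Hs 0) h))⟩

theorem pos (hA : St_ALG n) (F : Y n → V n) (q σ : ℝ) (h : CRon (Hs n 0) F) (hq : q ≤ p0 n) :
    ∀ X ∈ Hs n 0,
    0 ≤ Dh σ F X ∧ 0 ≤ EE q σ F X ∧ 0 ≤ BB q σ F X ∧ 0 ≤ bb q σ F X ∧ 0 ≤ LL q σ F X := by
  intro X hX
  have hX' : 0 < X.2 := hX
  have hr : 0 ≤ rho σ F X := Real.sqrt_nonneg _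
  have hb : 0 ≤ bs σ F X := add_nonneg hr (mul_nonneg hX'.le (nn_nonneg F X))
  have hD : 0 ≤ Dh σ F X := by
    have h1 := hA.kato (jac F X) (F X) (h.symm X hX) (h.trace X hX)
    unfold Dh
    rw [rho_sq, ← hn_sq] at *
    nlinarith [mul_nonneg (sq_nonneg (hn F X)) (sq_nonneg σ)]
  exact ⟨hD, mul_nonneg (Real.rpow_nonneg hb _) (sq_nonneg _),
    mul_nonneg (Real.rpow_nonneg hb _) hD, mul_nonneg (Real.rpow_nonneg hr _) hD,
    mul_nonneg (by linarith) (mul_nonneg (Real.rpow_nonneg hr _) (hv2_nonneg _ _))⟩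

theorem mono (q a c u u' : ℝ) (hq : 0 < q) (hq2 : q ≤ 2) (ha : 0 < a) (hc : 0 ≤ c) (hu : 0 ≤ u)
    (huu : u ≤ u') : (a + c * u) ^ (q - 2) * u ^ 2 ≤ (a + c * u') ^ (q - 2) * u' ^ 2 := by
  have key : ∀ w : ℝ, 0 ≤ w →
      (a + c * w) ^ (q - 2) * w ^ 2 = (w / (a + c * w)) ^ (2 - q) * w ^ q := by
    intro w hw
    have h1 : 0 < a + c * w := by positivity
    have h2 : w ^ 2 = w ^ (2 - q) * w ^ q := by
      rw [← Real.rpow_add' hw (by norm_num), sub_add_cancel, Real.rpow_two]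
    rw [Real.div_rpow hw h1.le, h2, show q - 2 = -(2 - q) by ring, Real.rpow_neg h1.le]
    ring
  have hu' : 0 ≤ u' := hu.trans huu
  rw [key u hu, key u' hu']
  refine mul_le_mul (Real.rpow_le_rpow (by positivity) ?_ (by linarith))
    (Real.rpow_le_rpow hu huu hq.le) (by positivity) (by positivity)
  rw [div_le_div_iff₀ (by positivity) (by positivity)]
  nlinarith

theorem meas (f : Y n → ℝ) (hf : ContinuousOn f (Hs n 0)) :
    Measurable ((Hs n 0).indicator (fun X => ENNReal.ofReal (f X))) := by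
  classical
  have h := ContinuousOn.measurable_piecewise (g := fun _ => (0 : ℝ≥0∞))
    (ENNReal.continuous_ofReal.comp_continuousOn hf) continuousOn_const
    (isOpen_Hs (n := n) 0).measurableSet
  have e : (Hs n 0).indicator (fun X => ENNReal.ofReal (f X)) =
      (Hs n 0).piecewise (ENNReal.ofReal ∘ f) (fun _ => 0) := by
    funext X
    by_cases hX : X ∈ Hs n 0 <;> simp [hX]
  rw [e]
  exact h

theorem RR_pos (X : Y n) (hX : -1 < X.2) : 0 < RR X := by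
  have : 0 < X.2 + 1 := by linarith
  unfold RR
  positivity

theorem wcont : ContinuousOn (ww (n := n)) (Hs n (-1)) ∧ ContinuousOn (vv (n := n)) (Hs n (-1)) ∧
    ContinuousOn (psi (n := n)) (Hs n (-1)) := by
  have h1 : Continuous (RR (n := n)) := by unfold RR; fun_prop
  have h2 : ∀ e : ℝ, ContinuousOn (fun X : Y n => RR X ^ e) (Hs n (-1)) := fun e =>
    h1.continuousOn.rpow_const fun X hX => Or.inl (RR_pos X hX).ne'
  exact ⟨h2 _, continuousOn_snd.mul (h2 _), continuousOn_const.mul (h2 _)⟩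

theorem wpos (X : Y n) (hX : -1 < X.2) : 0 < RR X ∧ 0 < ww X ∧ 0 < psi X ∧
    psi X * RR X = 2 * ((n : ℝ) + 1) * ww X := by
  have h := RR_pos X hX
  refine ⟨h, Real.rpow_pos_of_pos h _, ?_, ?_⟩
  · have := Real.rpow_pos_of_pos h (-((n : ℝ) + 3) / 2)
    unfold psi
    positivity
  · unfold psi ww
    rw [mul_assoc, ← Real.rpow_add_one h.ne']
    congr 2
    ring

theorem rp (c : ℝ) (hc : 0 < c) : ((c ^ 2)⁻¹) ^ (-((n : ℝ) + 1) / 2) = c ^ (n + 1) := by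
  rw [← Real.rpow_two, ← Real.rpow_neg hc.le, ← Real.rpow_mul hc.le, ← Real.rpow_natCast]
  congr 1
  push_cast
  ring

theorem wcmp (X Z : Y n) (c : ℝ) (hc : 0 < c) (hX : 0 < RR X) (h : RR X ≤ c ^ 2 * RR Z) :
    ww Z ≤ c ^ (n + 1) * ww X := by
  have hn0 : (0 : ℝ) ≤ n := Nat.cast_nonneg n
  have h1 : (c ^ 2)⁻¹ * RR X ≤ RR Z := by
    rw [inv_mul_le_iff₀ (by positivity)]; exact h
  unfold ww
  calc RR Z ^ (-((n : ℝ) + 1) / 2) ≤ ((c ^ 2)⁻¹ * RR X) ^ (-((n : ℝ) + 1) / 2) :=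
        Real.rpow_le_rpow_of_nonpos (by positivity) h1 (by linarith)
    _ = c ^ (n + 1) * RR X ^ (-((n : ℝ) + 1) / 2) := by
        rw [Real.mul_rpow (by positivity) hX.le, rp c hc]

theorem wle (X : Y n) (hX : 0 ≤ X.2) :
    ww X ≤ 2 ^ (n + 1) * (‖X.1‖ + X.2 + 1) ^ (-((n : ℝ) + 1)) := by
  have hn0 : (0 : ℝ) ≤ n := Nat.cast_nonneg n
  have h0 : 0 < ‖X.1‖ + X.2 + 1 := by positivity
  have h1 : ((2 : ℝ) ^ 2)⁻¹ * (‖X.1‖ + X.2 + 1) ^ 2 ≤ RR X := by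
    unfold RR
    nlinarith [sq_nonneg (‖X.1‖ - (X.2 + 1)), sq_nonneg ‖X.1‖, sq_nonneg (X.2 + 1)]
  unfold ww
  calc RR X ^ (-((n : ℝ) + 1) / 2)
      ≤ (((2 : ℝ) ^ 2)⁻¹ * (‖X.1‖ + X.2 + 1) ^ 2) ^ (-((n : ℝ) + 1) / 2) :=
        Real.rpow_le_rpow_of_nonpos (by positivity) h1 (by linarith)
    _ = 2 ^ (n + 1) * (‖X.1‖ + X.2 + 1) ^ (-((n : ℝ) + 1)) := by
        rw [Real.mul_rpow (by positivity) (by positivity), rp 2 (by norm_num),
          ← Real.rpow_two, ← Real.rpow_mul h0.le]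
        congr 2
        ring

end Pool.Agent.RZ.API

namespace Pool.Agent.RZ

open Pool.Agent.HP

theorem t_API : T_API := fun _ _ hA =>
  { pd_le := API.pd_le
    hn_le := API.hn_le
    opn := API.opn
    hn_sub := API.hn_sub
    hv_le := API.hv_le
    lip := API.lip
    rho_lip := API.rho_lip
    diff := API.diff
    cont := fun U F σ hU h => ⟨API.cont_pd U F hU h, API.cont_hn U F hU h, API.cont_rho U F σ h,
      API.cont_Dh U F σ hU h⟩
    le_nn := API.le_nn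
    nn_le := API.nn_le
    contE := API.contE
    pos := API.pos hA
    mono := API.mono
    meas := API.meas
    wcont := API.wcont
    wpos := API.wpos
    wcmp := API.wcmp
    wle := API.wle }

end Pool.Agent.RZ
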