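import Pool.Agent.Lib.RZ.Blue

set_option autoImplicit false

open MeasureTheory Metric Set Filter
open scoped ENNReal ContDiff Topology

noncomputable section

namespace Pool.Agent.RZ

open Pool.Agent.HP

namespace APR

variable {n : ℕ}

theorem near {ε : ℝ} (h0 : 0 < ε) (h1 : ε ≤ 1) {X Z : Y n} (hZ : Z ∈ box n 3 (ε / 8) 3)
    (hX : X ∈ ball Z (ε / 32)) :
    X ∈ box n 4 (ε / 16) 4 ∧ Z ∈ closedBall X (X.2 / 2) := by
  obtain ⟨a1, a2, a3⟩ := hZ
  have hd : dist X Z < ε / 32 := hX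
  have b1 : ‖X.1 - Z.1‖ < ε / 32 := by
    rw [← dist_eq_norm]; exact (le_max_left _ _).trans_lt hd
  have b2 : |X.2 - Z.2| < ε / 32 := by
    rw [← Real.dist_eq]; exact (le_max_right _ _).trans_lt hd
  obtain ⟨b3, b4⟩ := abs_lt.1 b2
  have b5 := norm_sub_norm_le X.1 Z.1
  refine ⟨⟨by linarith, by linarith, by linarith⟩, ?_⟩
  rw [mem_closedBall, dist_comm]
  linarith

theorem low (hB : Bas n) {ε q σ : ℝ} {F : Y n → V n} (h0 : 0 < ε) (h1 : ε ≤ 1) (hq : 1 / 4 ≤ q)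
    (hq1 : q ≤ 1) (hσ : 0 < σ) (hF : CRon (Hs n 0) F) {X Z : Y n} (hZ : Z ∈ box n 3 (ε / 8) 3)
    (hX : X ∈ ball Z (ε / 32)) :
    (rho σ F Z + 5 * hn F Z) ^ (q - 2) * hn F Z ^ 2 ≤ EE q σ F X := by
  obtain ⟨⟨-, a2, a3⟩, a4⟩ := near h0 h1 hZ hX
  have hx : 0 < X.2 := by linarith
  have hN := nn_nonneg F X
  have b1 : ‖F X - F Z‖ ≤ 2 * nn F X * ‖X - Z‖ :=
    hB.api.lip F (closedBall X (X.2 / 2)) _ (convex_closedBall _ _)
      (fun W hW => hB.api.diff _ F (isOpen_Hs 0) hF W (by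
        have c1 : |W.2 - X.2| ≤ X.2 / 2 := by
          rw [← Real.dist_eq]; exact (le_max_right _ _).trans (mem_closedBall.1 hW)
        have := (abs_le.1 c1).1
        change 0 < W.2
        linarith))
      (fun W hW => hB.api.le_nn F X W hF hx hW) X (mem_closedBall_self (by linarith)) Z a4
  have b2 : ‖X - Z‖ ≤ 1 / 2 := by
    have : dist X Z < ε / 32 := hX
    rw [← dist_eq_norm]; linarith
  have b3 := (abs_le.1 (hB.api.rho_lip σ F X Z)).2
  have b4 : bs σ F X ≤ rho σ F Z + 5 * nn F X := by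
    unfold bs
    nlinarith
  have b5 : 0 < bs σ F X := by
    have := rho_pos hσ F X
    unfold bs
    positivity
  refine (hB.api.mono q _ 5 _ _ (by linarith) (by linarith) (rho_pos hσ F Z) (by norm_num)
    (hn_nonneg F Z) (hB.api.le_nn F X Z hF hx a4)).trans ?_
  exact mul_le_mul_of_nonneg_right (Real.rpow_le_rpow_of_nonpos b5 b4 (by linarith)) (sq_nonneg _)

theorem alg {q K A r u : ℝ} (hq : 1 / 4 ≤ q) (hq1 : q ≤ 1) (hK : 0 ≤ K) (hA : 1 ≤ A) (hr : 0 < r)
    (_hu : 0 ≤ u) (h : (r + 5 * u) ^ (q - 2) * u ^ 2 ≤ K * A ^ (q - 2)) :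
    u ≤ r / A + (1 + K ^ 4 * 6 ^ 7) := by
  have hA0 : 0 < A := by linarith
  have hf : 0 < r / A := by positivity
  have hK4 : 0 ≤ K ^ 4 * 6 ^ 7 := by positivity
  by_contra! hc
  have hu1 : 1 ≤ u := by linarith
  have hs : 0 < r + 5 * u := by positivity
  have h1 : (r + 5 * u) / A ≤ 6 * u := by
    rw [add_div]
    have : 5 * u / A ≤ 5 * u := div_le_self (by positivity) hA
    linarith
  have h2 : u ^ 2 ≤ K * ((r + 5 * u) / A) ^ (2 - q) := by
    have e1 : (r + 5 * u) ^ (q - 2) = ((r + 5 * u) ^ (2 - q))⁻¹ := by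
      rw [← Real.rpow_neg hs.le, neg_sub]
    have e2 : A ^ (q - 2) = (A ^ (2 - q))⁻¹ := by rw [← Real.rpow_neg hA0.le, neg_sub]
    have p1 := Real.rpow_pos_of_pos hs (2 - q)
    rw [e1, e2, inv_mul_le_iff₀ p1] at h
    rw [Real.div_rpow hs.le hA0.le]
    refine h.trans_eq ?_
    ring
  have h3 : ((r + 5 * u) / A) ^ (2 - q) ≤ (6 * u) ^ (7 / 4 : ℝ) :=
    (Real.rpow_le_rpow (by positivity) h1 (by linarith)).trans
      (Real.rpow_le_rpow_of_exponent_le (by linarith) (by linarith))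
  have h4 : (u ^ 2) ^ 4 ≤ (K * (6 * u) ^ (7 / 4 : ℝ)) ^ 4 :=
    pow_le_pow_left₀ (sq_nonneg _) (h2.trans (mul_le_mul_of_nonneg_left h3 hK)) 4
  have h5 : ((6 * u) ^ (7 / 4 : ℝ)) ^ 4 = (6 * u) ^ 7 := by
    rw [← Real.rpow_natCast, ← Real.rpow_mul (by positivity), ← Real.rpow_natCast]
    norm_num
  rw [mul_pow, h5] at h4
  have h6 : u * u ^ 7 ≤ K ^ 4 * 6 ^ 7 * u ^ 7 := by
    calc u * u ^ 7 = (u ^ 2) ^ 4 := by ring
      _ ≤ _ := h4
      _ = _ := by ring
  have := le_of_mul_le_mul_right h6 (by positivity)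
  linarith

theorem convex_box (R a b : ℝ) : Convex ℝ (box n R a b) := by
  have : box n R a b = ball (0 : E n) R ×ˢ Ioo a b := by
    ext X; simp [box]
  rw [this]
  exact (convex_ball _ _).prod (convex_Ioo _ _)

end APR

open APR in
theorem t_APR : T_APR := by
  intro n h2 hB ε K h0 h1
  have : (volume : Measure (Y n)).IsAddHaarMeasure :=
    Measure.prod.instIsAddHaarMeasure volume volume
  let w : ℝ≥0∞ := volume (ball (0 : Y n) (ε / 32))
  have hw0 : w ≠ 0 := (measure_ball_pos _ _ (by positivity)).ne'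
  have hw1 : w ≠ ⊤ := measure_ball_lt_top.ne
  have hw2 : 0 < w.toReal := ENNReal.toReal_pos hw0 hw1
  let M₀ : ℝ := 1 + (|K| / w.toReal) ^ 4 * 6 ^ 7
  have hM₀ : 0 ≤ M₀ := by positivity
  let B : ℝ := gronwallBound 0 6 (6 * (1 + M₀)) (1 - 0)
  have hB0 := abs_nonneg B
  refine ⟨1 + |B| + M₀, by linarith, fun q σ F hq hq1 hσ hF hI => ?_⟩
  have hP := rho_pos hσ F (PP n)
  set A := 1 + rho σ F (PP n) with hA
  have hA1 : 1 ≤ A := by linarith
  have key : ∀ Z ∈ box n 3 (ε / 8) 3, hn F Z ≤ rho σ F Z / A + M₀ := fun Z hZ => by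
    refine alg hq hq1 (by positivity) hA1 (rho_pos hσ F Z) (hn_nonneg F Z) ?_
    have c1 : ENNReal.ofReal ((rho σ F Z + 5 * hn F Z) ^ (q - 2) * hn F Z ^ 2) * w ≤
        ENNReal.ofReal (|K| * A ^ (q - 2)) := by
      calc _ = ∫⁻ _ in ball Z (ε / 32),
            ENNReal.ofReal ((rho σ F Z + 5 * hn F Z) ^ (q - 2) * hn F Z ^ 2) := by
            rw [setLIntegral_const, Measure.addHaar_ball_center]
        _ ≤ ∫⁻ X in ball Z (ε / 32), ENNReal.ofReal (EE q σ F X) :=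
            setLIntegral_mono' measurableSet_ball fun X hX =>
              ENNReal.ofReal_le_ofReal (low hB h0 h1 hq hq1 hσ hF hZ hX)
        _ ≤ II (box n 4 (ε / 16) 4) (EE q σ F) :=
            lintegral_mono_set fun X hX => (near h0 h1 hZ hX).1
        _ ≤ _ := hI.trans (ENNReal.ofReal_le_ofReal
            (mul_le_mul_of_nonneg_right (le_abs_self K) (by positivity)))
    rw [← ENNReal.ofReal_toReal hw1, mul_comm, ← ENNReal.ofReal_mul hw2.le,
      ENNReal.ofReal_le_ofReal_iff (by positivity)] at c1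
    rw [div_mul_eq_mul_div, le_div_iff₀ hw2, mul_comm]
    exact c1
  have hPm : PP n ∈ box n 3 (ε / 8) 3 := ⟨by simp [PP], by simp only [PP]; linarith, by
    simp only [PP]; norm_num⟩
  have hr : ∀ Z, rho σ F Z / A ≤ 1 + ‖F Z - F (PP n)‖ := fun Z => by
    have c1 := (abs_le.1 (hB.api.rho_lip σ F Z (PP n))).2
    rw [div_le_iff₀ (by linarith)]
    nlinarith [norm_nonneg (F Z - F (PP n))]
  intro X hX
  have hXP : ‖X - PP n‖ ≤ 3 := by
    obtain ⟨a1, a2, a3⟩ := hX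
    rw [Prod.norm_def]
    refine max_le (by simpa [PP] using a1.le) ?_
    simp only [PP, Prod.snd_sub, Real.norm_eq_abs]
    exact abs_le.2 ⟨by linarith, by linarith⟩
  have hγ : ∀ s ∈ Icc (0 : ℝ) 1, PP n + s • (X - PP n) ∈ box n 3 (ε / 8) 3 := fun s hs =>
    (convex_box _ _ _).add_smul_sub_mem hPm hX hs
  have hd : ∀ s ∈ Icc (0 : ℝ) 1, HasDerivAt (fun s : ℝ => F (PP n + s • (X - PP n)) - F (PP n))
      (fderiv ℝ F (PP n + s • (X - PP n)) (X - PP n)) s := fun s hs => by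
    have c1 : DifferentiableAt ℝ F (PP n + s • (X - PP n)) :=
      hB.api.diff _ F (isOpen_Hs 0) hF _ (lt_trans (by positivity) (hγ s hs).2.1)
    have c2 : HasDerivAt (fun s : ℝ => PP n + s • (X - PP n)) (X - PP n) s := by
      simpa using ((hasDerivAt_id s).smul_const (X - PP n)).const_add (PP n)
    exact (c1.hasFDerivAt.comp_hasDerivAt s c2).sub_const _
  have hG := norm_le_gronwallBound_of_norm_deriv_right_le (δ := 0) (K := 6) (ε := 6 * (1 + M₀))
    (fun s hs => (hd s hs).continuousAt.continuousWithinAt)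
    (fun s hs => (hd s (Ico_subset_Icc_self hs)).hasDerivWithinAt) (by simp) (fun s hs => by
      have c1 := key _ (hγ s (Ico_subset_Icc_self hs))
      have c2 := hr (PP n + s • (X - PP n))
      have c3 := hB.api.opn F (PP n + s • (X - PP n))
      have c4 := hn_nonneg F (PP n + s • (X - PP n))
      refine ((fderiv ℝ F _).le_opNorm _).trans
        ((mul_le_mul c3 hXP (norm_nonneg _) (by positivity)).trans ?_)
      linarith) 1 ⟨zero_le_one, le_rfl⟩
  have hG' : ‖F X - F (PP n)‖ ≤ |B| := by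
    refine le_trans ?_ (hG.trans (le_abs_self B))
    simp
  have c1 := hr X
  refine ⟨by linarith [key X hX], ?_⟩
  rw [← div_le_iff₀ (by linarith)]
  linarith

end Pool.Agent.RZ
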