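import Pool.Agent.Lib.RZ.Blue

set_option autoImplicit false

open MeasureTheory Metric Set Filter
open scoped ENNReal ContDiff Topology

noncomputable section

namespace Pool.Agent.RZ

open Pool.Agent.HP

namespace AVG

variable {n : ℕ}

theorem cont_sh : Continuous (fun p : Y n × Y n => sh p.1 p.2) := by
  unfold sh
  fun_prop

theorem meas_Hs : MeasurableSet (Hs n 0) := (isOpen_Hs 0).measurableSet

theorem one (G : Y n → ℝ≥0∞) (hG : Measurable G) (Z : Y n) (hZ : 0 < Z.2) :
    ∫⁻ X, G (sh X Z) = ENNReal.ofReal (1 / Z.2) * ∫⁻ X, G X := by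
  have hm : Measurable (fun X : Y n => G (sh X Z)) :=
    hG.comp (cont_sh.comp (continuous_id.prodMk continuous_const)).measurable
  have hH : Measurable (fun T : ℝ => ∫⁻ x : E n, G (x, T)) := hG.lintegral_prod_left'
  rw [Measure.volume_eq_prod, lintegral_prod_symm _ hm.aemeasurable,
    lintegral_prod_symm _ hG.aemeasurable]
  have h1 : ∀ T : ℝ, ∫⁻ x : E n, G (sh (x, T) Z) = ∫⁻ x : E n, G (x, T * Z.2) := fun T =>
    lintegral_add_right_eq_self (fun x : E n => G (x, T * Z.2)) (T • Z.1)
  simp only [h1]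
  have h2 := lintegral_map (μ := (volume : Measure ℝ)) hH (measurable_mul_const Z.2)
  rw [← h2, Real.map_volume_mul_right hZ.ne', lintegral_smul_measure,
    abs_of_pos (inv_pos.2 hZ), one_div, smul_eq_mul]

theorem one' (g : Y n → ℝ≥0∞) (hG : Measurable ((Hs n 0).indicator g)) (Z : Y n)
    (hZ : 0 < Z.2) :
    ∫⁻ X in Hs n 0, (Hs n 0).indicator g (sh X Z) =
      ENNReal.ofReal (1 / Z.2) * ∫⁻ X in Hs n 0, g X := by
  rw [← lintegral_indicator meas_Hs g, ← one _ hG Z hZ, ← lintegral_indicator meas_Hs]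
  refine lintegral_congr fun X => ?_
  by_cases hX : X ∈ Hs n 0
  · rw [indicator_of_mem hX]
  · rw [indicator_of_notMem hX, indicator_of_notMem]
    intro h
    apply hX
    have h' : 0 < X.2 * Z.2 := h
    exact (mul_pos_iff_of_pos_right hZ).1 h'

end AVG

theorem t_AVG : T_AVG := by
  intro n _ _ α _ μ _ Z k g hZ hpos hk hG
  have hΦ : Measurable (fun p : Y n × α => k p.2 * (Hs n 0).indicator g (sh p.1 (Z p.2))) :=
    (hk.comp measurable_snd).mul (hG.comp (AVG.cont_sh.measurable.comp
      (measurable_fst.prodMk (hZ.comp measurable_snd))))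
  have he : (fun X => ∫⁻ a, k a * (Hs n 0).indicator g (sh X (Z a)) ∂μ) =ᵐ[volume.restrict (Hs n 0)]
      (fun X => ∫⁻ a, k a * g (sh X (Z a)) ∂μ) := by
    refine ae_restrict_of_forall_mem AVG.meas_Hs fun X hX => ?_
    refine lintegral_congr_ae (hpos.mono fun a ha => ?_)
    have hX' : 0 < X.2 := hX
    have h : sh X (Z a) ∈ Hs n 0 := mul_pos hX' ha
    simp only [indicator_of_mem h]
  refine ⟨(hΦ.lintegral_prod_right'.aemeasurable).congr he, ?_⟩
  rw [← lintegral_congr_ae he, lintegral_lintegral_swap hΦ.aemeasurable]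
  have hk2 : Measurable (fun a => k a * ENNReal.ofReal (1 / (Z a).2)) :=
    hk.mul (measurable_const.div hZ.snd).ennreal_ofReal
  rw [← lintegral_mul_const _ hk2]
  refine lintegral_congr_ae (hpos.mono fun a ha => ?_)
  have hm : Measurable (fun X : Y n => (Hs n 0).indicator g (sh X (Z a))) :=
    hG.comp (AVG.cont_sh.comp (continuous_id.prodMk continuous_const)).measurable
  simp only
  rw [lintegral_const_mul _ hm, AVG.one' g hG _ ha, mul_assoc]

end Pool.Agent.RZ
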