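import Pool.Agent.Lib.RZ.Blue

set_option autoImplicit false

open MeasureTheory Metric Set Filter
open scoped ENNReal ContDiff Topology

noncomputable section

namespace Pool.Agent.RZ

open Pool.Agent.HP

namespace BUMP

variable {n : ℕ}

theorem ball_coord {Z : Y n} {r : ℝ} (h : Z ∈ closedBall (PP n) r) :
    ‖Z.1‖ ≤ r ∧ 1 - r ≤ Z.2 ∧ Z.2 ≤ 1 + r := by
  rw [mem_closedBall, Prod.dist_eq, max_le_iff] at h
  obtain ⟨h1, h2⟩ := h
  simp only [PP, dist_zero_right, Real.dist_eq] at h1 h2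
  have := abs_le.1 h2
  exact ⟨h1, by linarith [this.1], by linarith [this.2]⟩

theorem RR_cmp {X Z : Y n} (hX : 0 < X.2) (h : Z ∈ closedBall (PP n) (1 / 8)) :
    RR X ≤ 2 ^ 2 * RR (sh X Z) ∧ X.2 ≤ RR (sh X Z) := by
  obtain ⟨h1, h2, h3⟩ := ball_coord h
  have e : X.1 = (X.1 + X.2 • Z.1) - X.2 • Z.1 := by simp
  have k1 : ‖X.1‖ ≤ ‖X.1 + X.2 • Z.1‖ + X.2 * (1 / 8) := by
    calc ‖X.1‖ = ‖(X.1 + X.2 • Z.1) - X.2 • Z.1‖ := by rw [← e]
      _ ≤ ‖X.1 + X.2 • Z.1‖ + ‖X.2 • Z.1‖ := norm_sub_le _ _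
      _ ≤ _ := by
        rw [norm_smul, Real.norm_of_nonneg hX.le]
        linarith [mul_le_mul_of_nonneg_left h1 hX.le]
  have k2 : X.2 * (7 / 8) ≤ X.2 * Z.2 := mul_le_mul_of_nonneg_left (by linarith) hX.le
  simp only [RR, sh]
  generalize ‖X.1 + X.2 • Z.1‖ = a at k1 ⊢
  generalize X.2 * Z.2 = u at k2 ⊢
  have k3 : ‖X.1‖ ^ 2 ≤ (a + X.2 * (1 / 8)) ^ 2 := pow_le_pow_left₀ (norm_nonneg _) k1 2
  have k4 : (X.2 + 1) ^ 2 ≤ (8 / 7 * (u + 1)) ^ 2 :=
    pow_le_pow_left₀ (by linarith) (by linarith) 2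
  have k5 : X.2 ^ 2 ≤ (8 / 7 * (u + 1)) ^ 2 := pow_le_pow_left₀ hX.le (by linarith) 2
  constructor
  · nlinarith [sq_nonneg (a - X.2 * (1 / 8)), sq_nonneg a, sq_nonneg (u + 1)]
  · nlinarith [sq_nonneg a, sq_nonneg (u - 1)]

end BUMP

open BUMP in
theorem t_BUMP : T_BUMP := by
  intro n h2 hB hV
  let χ : ContDiffBump (PP n) := ⟨1 / 16, 1 / 8, by norm_num, by norm_num⟩
  have hχ : ContDiff ℝ ∞ χ := χ.contDiff
  have h0 : ∀ Z, Z ∉ closedBall (PP n) (1 / 8) → χ Z = 0 := fun Z hZ =>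
    χ.zero_of_le_dist (not_le.1 hZ).le
  obtain ⟨s1, s2⟩ := hB.crd.smooth univ χ isOpen_univ hχ.contDiffOn
  have hc : ContinuousOn (fun Z => ∑ i, |pd i χ Z| + |lap χ Z|) (closedBall (PP n) (1 / 8)) :=
    ((continuousOn_finsetSum _ fun i _ => (s1 i).continuousOn.abs).add
      s2.continuousOn.abs).mono (subset_univ _)
  obtain ⟨M, hM⟩ := (isCompact_closedBall (PP n) (1 / 8)).exists_bound_of_continuousOn hc
  have hM0 : 0 ≤ M := (norm_nonneg _).trans (hM _ (mem_closedBall_self (by norm_num)))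
  refine ⟨χ, (2 * ((n : ℝ) + 1) + 2 * (((n : ℝ) + 2) * M) + 2 * M) * 2 ^ (n + 1), by positivity,
    χ.continuous, fun Z => χ.nonneg, h0, ?_, ?_, fun X hX => ?_⟩
  · have hs : closedBall (PP n) (1 / 16) ⊆ Hs n 0 := fun Z hZ => by
      have := (ball_coord hZ).2.1
      change 0 < Z.2
      linarith
    refine lt_of_lt_of_le ?_ (lintegral_mono_set hs)
    refine lt_of_lt_of_le ?_ (setLIntegral_mono' (f := fun _ => ENNReal.ofReal (1 / 2))
      measurableSet_closedBall fun Z hZ => ?_)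
    · rw [setLIntegral_const]
      exact ENNReal.mul_pos (by simp) (measure_closedBall_pos _ _ (by norm_num)).ne'
    · obtain ⟨-, k1, k2⟩ := ball_coord hZ
      rw [χ.one_of_mem_closedBall hZ, ENNReal.ofReal_one, one_mul]
      exact ENNReal.ofReal_le_ofReal (one_div_le_one_div_of_le (by linarith) (by linarith))
  · refine lt_of_le_of_lt (setLIntegral_le_lintegral _ _) ?_
    refine lt_of_le_of_lt (lintegral_mono
      (g := (closedBall (PP n) (1 / 8)).indicator fun _ => ENNReal.ofReal (1 / (1 / 2)))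
      fun Z => ?_) ?_
    · by_cases hZ : Z ∈ closedBall (PP n) (1 / 8)
      · obtain ⟨-, k1, k2⟩ := ball_coord hZ
        rw [indicator_of_mem hZ]
        calc ENNReal.ofReal (χ Z) * ENNReal.ofReal (1 / Z.2)
            ≤ 1 * ENNReal.ofReal (1 / (1 / 2)) :=
              mul_le_mul' (ENNReal.ofReal_le_one.2 χ.le_one) (ENNReal.ofReal_le_ofReal
                (one_div_le_one_div_of_le (by norm_num) (by linarith)))
          _ = _ := one_mul _
      · simp [h0 Z hZ]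
    · rw [lintegral_indicator_const measurableSet_closedBall]
      exact ENNReal.mul_lt_top ENNReal.ofReal_lt_top measure_closedBall_lt_top
  · have hT : 0 < X.2 := hX
    have hg : ContDiffOn ℝ ∞ (fun Z => vv (sh X Z)) (Hs n 0) :=
      hV.1.comp (hB.scl.smooth X).contDiffOn fun Z hZ => by
        have : 0 < X.2 * Z.2 := mul_pos hT hZ
        change -1 < X.2 * Z.2
        linarith
    obtain ⟨x1, x2, -, -⟩ := hB.api.wpos X (by linarith)
    refine ⟨hχ.contDiffOn.mul hg, fun Z => ?_⟩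
    by_cases hZ : Z ∈ closedBall (PP n) (1 / 8)
    swap
    · have e : (fun Z => χ Z * vv (sh X Z)) =ᶠ[𝓝 Z] fun _ => (0 : ℝ) := by
        filter_upwards [isClosed_closedBall.isOpen_compl.mem_nhds hZ] with W hW
        rw [h0 W hW, zero_mul]
      have e1 : ∀ i, pd i (fun _ : Y n => (0 : ℝ)) = fun _ => 0 := fun i => by
        funext W
        simp [pd]
      rw [(hB.crd.cgr _ _ Z e).2]
      simp only [lap, e1, Finset.sum_const_zero, abs_zero, vv]
      positivity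
    obtain ⟨-, k1, k2⟩ := ball_coord hZ
    have hZ0 : 0 < Z.2 := by linarith
    have hW : 0 < (sh X Z).2 := mul_pos hT hZ0
    obtain ⟨w1, w2, w3, w4⟩ := hB.api.wpos (sh X Z) (by linarith)
    obtain ⟨r1, r2⟩ := RR_cmp hT hZ
    have cw := hB.api.wcmp X (sh X Z) 2 two_pos x1 r1
    obtain ⟨v1, v2⟩ := hV.2 (sh X Z) hW
    have hb := hM Z hZ
    have n1 : 0 ≤ ∑ i, |pd i χ Z| := Finset.sum_nonneg fun i _ => abs_nonneg _
    rw [Real.norm_of_nonneg (add_nonneg n1 (abs_nonneg _))] at hb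
    rw [(hB.crd.mul (Hs n 0) χ _ (isOpen_Hs 0) hχ.contDiffOn hg Z hZ0).2, hB.scl.lap_sh vv X Z hT,
      v1]
    have t1 : |χ Z * (X.2 ^ 2 * -psi (sh X Z))| ≤ 2 * ((n : ℝ) + 1) * (X.2 * ww (sh X Z)) := by
      rw [abs_mul, abs_of_nonneg χ.nonneg, abs_mul, abs_neg, abs_of_pos w3,
        abs_of_nonneg (sq_nonneg _)]
      calc χ Z * (X.2 ^ 2 * psi (sh X Z)) ≤ 1 * (X.2 ^ 2 * psi (sh X Z)) :=
            mul_le_mul_of_nonneg_right χ.le_one (by positivity)
        _ = X.2 * (psi (sh X Z) * X.2) := by ring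
        _ ≤ X.2 * (psi (sh X Z) * RR (sh X Z)) :=
            mul_le_mul_of_nonneg_left (mul_le_mul_of_nonneg_left r2 w3.le) hT.le
        _ = _ := by rw [w4]; ring
    have t2 : |∑ i, pd i χ Z * pd i (fun W => vv (sh X W)) Z| ≤
        ((n : ℝ) + 2) * M * (X.2 * ww (sh X Z)) := by
      calc _ ≤ ∑ i, |pd i χ Z * pd i (fun W => vv (sh X W)) Z| := Finset.abs_sum_le_sum_abs _ _
        _ ≤ ∑ i, |pd i χ Z| * (X.2 * (((n : ℝ) + 2) * ww (sh X Z))) :=
            Finset.sum_le_sum fun i _ => by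
              rw [abs_mul, hB.scl.pd_sh vv X Z i hT, abs_mul, abs_of_pos hT]
              exact mul_le_mul_of_nonneg_left (mul_le_mul_of_nonneg_left (v2 i) hT.le)
                (abs_nonneg _)
        _ = (∑ i, |pd i χ Z|) * (X.2 * (((n : ℝ) + 2) * ww (sh X Z))) := by rw [Finset.sum_mul]
        _ ≤ M * (X.2 * (((n : ℝ) + 2) * ww (sh X Z))) :=
            mul_le_mul_of_nonneg_right (by linarith [abs_nonneg (lap χ Z)]) (by positivity)
        _ = _ := by ring
    have t3 : |lap χ Z * vv (sh X Z)| ≤ 2 * M * (X.2 * ww (sh X Z)) := by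
      have e : vv (sh X Z) = Z.2 * (X.2 * ww (sh X Z)) := by
        simp only [vv, sh]
        ring
      rw [e, abs_mul, abs_of_pos (show 0 < Z.2 * (X.2 * ww (sh X Z)) by positivity)]
      calc _ ≤ M * (2 * (X.2 * ww (sh X Z))) :=
            mul_le_mul (by linarith) (mul_le_mul_of_nonneg_right (by linarith) (by positivity))
              (by positivity) hM0
        _ = _ := by ring
    have t4 : X.2 * ww (sh X Z) ≤ 2 ^ (n + 1) * vv X := by
      calc X.2 * ww (sh X Z) ≤ X.2 * (2 ^ (n + 1) * ww X) := mul_le_mul_of_nonneg_left cw hT.le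
        _ = _ := by
          simp only [vv]
          ring
    calc _ ≤ |χ Z * (X.2 ^ 2 * -psi (sh X Z))| +
          |2 * ∑ i, pd i χ Z * pd i (fun W => vv (sh X W)) Z| + |lap χ Z * vv (sh X Z)| :=
          abs_add_three _ _ _
      _ ≤ (2 * ((n : ℝ) + 1) + 2 * (((n : ℝ) + 2) * M) + 2 * M) * (X.2 * ww (sh X Z)) := by
          rw [abs_mul 2, abs_two]
          linarith
      _ ≤ (2 * ((n : ℝ) + 1) + 2 * (((n : ℝ) + 2) * M) + 2 * M) * (2 ^ (n + 1) * vv X) :=
          mul_le_mul_of_nonneg_left t4 (by positivity)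
      _ = _ := by ring

end Pool.Agent.RZ
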