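import Pool.Agent.Lib.RZ.Blue

set_option autoImplicit false

open MeasureTheory Metric Set Filter
open scoped ENNReal ContDiff Topology

noncomputable section

namespace Pool.Agent.RZ

open Pool.Agent.HP

namespace CMP

variable {n : ℕ}

theorem box_eq (R a b : ℝ) : box n R a b = ball (0 : E n) R ×ˢ Ioo a b := by
  ext X; simp [box]

theorem isOpen_box (R a b : ℝ) : IsOpen (box n R a b) := by
  rw [box_eq]; exact isOpen_ball.prod isOpen_Ioo

theorem KK_eq (ε : ℝ) : KK n ε = closedBall (0 : E n) (3 / 2) ×ˢ Icc (ε / 2) (3 / 2) := by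
  ext X; simp [KK]

/-- the final comparison of energies, as an inequality between real numbers -/
theorem final {q l C₀ T ρx nx bx φx ρP hP φP gP e : ℝ} (hq : 0 < q) (hq2 : q ≤ 2) (hl : 0 < l)
    (hC₀ : 1 ≤ C₀) (hT : 0 ≤ T) (hφx : 0 < φx) (hρP : 0 < ρP) (hhP : 0 ≤ hP)
    (hgP : 0 ≤ gP) (hbx : ρx ≤ bx) (h1 : φx ≤ 2 * (l * ρx))
    (h2 : φx ^ (q - 2) * nx ^ 2 ≤ 4 * (C₀ * T * (φP ^ (q - 2) * gP ^ 2)))
    (h3 : l * ρP ≤ 2 * φP) (h4 : l * hP ≤ (C₀ + 1) * φP) (h5 : gP ≤ 2 * hP)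
    (h6 : (ρP + hP) ^ (q - 2) * hP ^ 2 ≤ e) :
    bx ^ (q - 2) * nx ^ 2 ≤ 64 * (C₀ + 3) ^ 2 * C₀ * T * e := by
  have hq0 : q - 2 ≤ 0 := by linarith
  have e1 : bx ^ (q - 2) ≤ (2 * l) ^ (2 - q) * φx ^ (q - 2) := by
    have h7 : φx / (2 * l) ≤ bx := by
      rw [div_le_iff₀ (by positivity)]
      nlinarith
    refine (Real.rpow_le_rpow_of_nonpos (by positivity) h7 hq0).trans (le_of_eq ?_)
    rw [Real.div_rpow hφx.le (by positivity), show 2 - q = -(q - 2) by ring,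
      Real.rpow_neg (by positivity)]
    ring
  have e2 : φP ^ (q - 2) ≤ ((C₀ + 3) / l) ^ (2 - q) * (ρP + hP) ^ (q - 2) := by
    have h7 : (ρP + hP) / ((C₀ + 3) / l) ≤ φP := by
      rw [div_div_eq_mul_div, div_le_iff₀ (by positivity)]
      nlinarith
    refine (Real.rpow_le_rpow_of_nonpos (by positivity) h7 hq0).trans (le_of_eq ?_)
    rw [Real.div_rpow (by positivity) (by positivity), show 2 - q = -(q - 2) by ring,
      Real.rpow_neg (by positivity)]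
    ring
  have e3 : (2 * l) ^ (2 - q) * ((C₀ + 3) / l) ^ (2 - q) ≤ 4 * (C₀ + 3) ^ 2 := by
    rw [← Real.mul_rpow (by positivity) (by positivity),
      show 2 * l * ((C₀ + 3) / l) = 2 * (C₀ + 3) by field_simp,
      show 4 * (C₀ + 3) ^ 2 = (2 * (C₀ + 3)) ^ (2 : ℝ) by rw [Real.rpow_two]; ring]
    exact Real.rpow_le_rpow_of_exponent_le (by linarith) (by linarith)
  have e4 : φP ^ (q - 2) * gP ^ 2 ≤ ((C₀ + 3) / l) ^ (2 - q) * (4 * e) := by
    have h8 : gP ^ 2 ≤ 4 * hP ^ 2 := by nlinarith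
    calc φP ^ (q - 2) * gP ^ 2
        ≤ (((C₀ + 3) / l) ^ (2 - q) * (ρP + hP) ^ (q - 2)) * (4 * hP ^ 2) := by gcongr
      _ = ((C₀ + 3) / l) ^ (2 - q) * (4 * ((ρP + hP) ^ (q - 2) * hP ^ 2)) := by ring
      _ ≤ _ := by gcongr
  have he : 0 ≤ e := le_trans (by positivity) h6
  calc bx ^ (q - 2) * nx ^ 2 ≤ ((2 * l) ^ (2 - q) * φx ^ (q - 2)) * nx ^ 2 := by gcongr
    _ = (2 * l) ^ (2 - q) * (φx ^ (q - 2) * nx ^ 2) := by ring
    _ ≤ (2 * l) ^ (2 - q) * (4 * (C₀ * T * (((C₀ + 3) / l) ^ (2 - q) * (4 * e)))) := by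
        refine mul_le_mul_of_nonneg_left (h2.trans ?_) (by positivity)
        gcongr
    _ = ((2 * l) ^ (2 - q) * ((C₀ + 3) / l) ^ (2 - q)) * (16 * C₀ * T * e) := by ring
    _ ≤ (4 * (C₀ + 3) ^ 2) * (16 * C₀ * T * e) := by gcongr
    _ = _ := by ring

theorem scaled_rho (σ l : ℝ) (hl : 0 ≤ l) (F : Y n → V n) (X : Y n) :
    (l * rho σ F X) ^ 2 = ‖l • F X‖ ^ 2 + (l * σ) ^ 2 := by
  rw [mul_pow, rho_sq, norm_smul, Real.norm_of_nonneg hl]; ring

theorem scaled_Dh (σ l : ℝ) (hl : 0 ≤ l) (F : Y n → V n) (X : Y n) :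
    l ^ 2 * Dh σ F X = hn2 (jac F X) * (‖l • F X‖ ^ 2 + (l * σ) ^ 2)
      - ((n : ℝ) + 1) / n * hv2 (jac F X) (l • F X) := by
  have h : hv2 (jac F X) (l • F X) = l ^ 2 * hv2 (jac F X) (F X) := by
    unfold hv2
    rw [Finset.mul_sum]
    exact Finset.sum_congr rfl fun i _ => by rw [real_inner_smul_right]; ring
  rw [← scaled_rho σ l hl, h, ← hn_sq]
  unfold Dh
  ring

/-- a field close to an extremal limit has the energy profile of the limit -/
theorem close (hB : Bas n) {C₀ ε σ l c : ℝ} (hC₀ : 1 ≤ C₀) (hε : 0 < ε) (hε1 : ε ≤ 1)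
    (hσ : 0 < σ) (hl : 0 < l) (hc : 0 < c) {F Φ G : Y n → V n} (hF : CRon (Hs n 0) F)
    (h1 : ∀ X ∈ KK n ε, c ≤ ‖Φ X‖ ∧ c ≤ hn G X)
    (h2 : ∀ X ∈ KK n ε, ‖l • F X - Φ X‖ + l * σ ≤ c / 2)
    (h3 : ∀ X ∈ KK n ε, |hn F X - hn G X| ≤ c / 2)
    (h4 : l * hn F (PP n) ≤ (C₀ + 1) * ‖Φ (PP n)‖) {q : ℝ} (hq : 0 < q) (hq2 : q ≤ 2)
    {x : E n} (hx : x ∈ ball (0 : E n) 1) {T : ℝ} (hT : 0 ≤ T)
    (h5 : ∀ Z ∈ closedBall ((x, ε) : Y n) (ε / 2), ‖Φ (x, ε)‖ ^ (q - 2) * hn G Z ^ 2 ≤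
      C₀ * T * (‖Φ (PP n)‖ ^ (q - 2) * hn G (PP n) ^ 2)) :
    EE q σ F (x, ε) ≤ 64 * (C₀ + 3) ^ 2 * C₀ * T * EE q σ F (PP n) := by
  have hx1 : ‖x‖ < 1 := mem_ball_zero_iff.1 hx
  have hP : PP n ∈ KK n ε := by
    refine ⟨?_, ?_, ?_⟩ <;> simp only [PP, norm_zero] <;> linarith
  have hsub : closedBall ((x, ε) : Y n) (ε / 2) ⊆ KK n ε := by
    intro Z hZ
    rw [mem_closedBall, Prod.dist_eq, max_le_iff, dist_eq_norm, Real.dist_eq, abs_le] at hZ
    have h6 : ‖Z.1‖ ≤ ‖Z.1 - x‖ + ‖x‖ := by simpa using norm_add_le (Z.1 - x) x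
    refine ⟨?_, ?_, ?_⟩ <;> linarith [hZ.1, hZ.2.1, hZ.2.2]
  have hxK : ((x, ε) : Y n) ∈ KK n ε := hsub (mem_closedBall_self (by positivity))
  have hlow : ∀ X ∈ KK n ε, ‖Φ X‖ ≤ 2 * (l * rho σ F X) := by
    intro X hX
    have a1 : ‖Φ X‖ ≤ ‖l • F X‖ + ‖l • F X - Φ X‖ := by
      simpa using norm_sub_le (l • F X) (l • F X - Φ X)
    have a2 : ‖l • F X‖ ≤ l * rho σ F X := by
      rw [norm_smul, Real.norm_of_nonneg hl.le]
      exact mul_le_mul_of_nonneg_left (norm_le_rho σ F X) hl.le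
    have a3 := h2 X hX
    have a4 := (h1 X hX).1
    have a5 : 0 < l * σ := by positivity
    linarith
  have hup : l * rho σ F (PP n) ≤ 2 * ‖Φ (PP n)‖ := by
    have a1 : ‖l • F (PP n)‖ ≤ ‖l • F (PP n) - Φ (PP n)‖ + ‖Φ (PP n)‖ := by
      simpa using norm_add_le (l • F (PP n) - Φ (PP n)) (Φ (PP n))
    have a2 : l * rho σ F (PP n) ≤ ‖l • F (PP n)‖ + l * σ := by
      refine le_of_pow_le_pow_left₀ two_ne_zero (by positivity) ?_
      rw [scaled_rho σ l hl.le]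
      nlinarith [mul_nonneg (norm_nonneg (l • F (PP n))) (mul_pos hl hσ).le]
    have a3 := h2 _ hP
    have a4 := (h1 _ hP).1
    linarith
  have hφx : 0 < ‖Φ (x, ε)‖ := hc.trans_le (h1 _ hxK).1
  have hpw : 0 < ‖Φ (x, ε)‖ ^ (q - 2) := Real.rpow_pos_of_pos hφx _
  set R : ℝ := C₀ * T * (‖Φ (PP n)‖ ^ (q - 2) * hn G (PP n) ^ 2) with hR
  have hR0 : 0 ≤ R := by positivity
  have hnn : nn F (x, ε) ≤ 2 * √(R / ‖Φ (x, ε)‖ ^ (q - 2)) := by
    refine hB.api.nn_le F _ _ hε fun Z hZ => ?_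
    have a1 : hn G Z ≤ √(R / ‖Φ (x, ε)‖ ^ (q - 2)) := by
      refine Real.le_sqrt_of_sq_le ?_
      rw [le_div_iff₀ hpw, mul_comm]
      exact h5 Z hZ
    have a2 := (abs_le.1 (h3 Z (hsub hZ))).2
    have a3 := (h1 Z (hsub hZ)).2
    linarith
  have h6 : ‖Φ (x, ε)‖ ^ (q - 2) * nn F (x, ε) ^ 2 ≤ 4 * R := by
    have a1 : nn F (x, ε) ^ 2 ≤ (2 * √(R / ‖Φ (x, ε)‖ ^ (q - 2))) ^ 2 :=
      pow_le_pow_left₀ (nn_nonneg _ _) hnn 2
    rw [mul_pow, Real.sq_sqrt (by positivity)] at a1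
    calc _ ≤ ‖Φ (x, ε)‖ ^ (q - 2) * (2 ^ 2 * (R / ‖Φ (x, ε)‖ ^ (q - 2))) := by gcongr
      _ = 4 * R := by field_simp; ring
  have h7 : (rho σ F (PP n) + hn F (PP n)) ^ (q - 2) * hn F (PP n) ^ 2 ≤ EE q σ F (PP n) := by
    have a1 := hB.api.mono q (rho σ F (PP n)) 1 (hn F (PP n)) (nn F (PP n)) hq hq2
      (rho_pos hσ F _) zero_le_one (hn_nonneg _ _)
      (hB.api.le_nn F (PP n) (PP n) hF one_pos (mem_closedBall_self (by simp [PP])))
    simpa [EE, bs, PP] using a1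
  have h8 : rho σ F (x, ε) ≤ bs σ F (x, ε) :=
    le_add_of_nonneg_right (mul_nonneg hε.le (nn_nonneg _ _))
  have h9 : hn G (PP n) ≤ 2 * hn F (PP n) := by
    have a2 := (abs_le.1 (h3 _ hP)).1
    have a3 := (h1 _ hP).2
    linarith
  exact final hq hq2 hl hC₀ hT hφx (rho_pos hσ F _) (hn_nonneg _ _)
    (hn_nonneg _ _) h8 (hlow _ hxK) h6 hup h4 h9 h7

/-- the defect of the limit vanishes -/
theorem defect_zero {U : Set (Y n)} (hU : IsOpen U) {f : ℕ → Y n → ℝ} {D : Y n → ℝ}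
    (hf : ∀ j, ContinuousOn (f j) U) (hD : ContinuousOn D U) (hD0 : ∀ X ∈ U, 0 ≤ D X)
    (hlim : ∀ X ∈ U, Tendsto (fun j => f j X) atTop (𝓝 (D X))) {κ : ℕ → ℝ}
    (hκ : Tendsto κ atTop (𝓝 0)) (hI : ∀ j, II U (f j) ≤ ENNReal.ofReal (κ j)) :
    ∀ X ∈ U, D X = 0 := by
  have hm : ∀ g : Y n → ℝ, ContinuousOn g U →
      AEMeasurable (fun X => ENNReal.ofReal (g X)) (volume.restrict U) := fun g hg =>
    (hg.aemeasurable hU.measurableSet).ennreal_ofReal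
  have h1 := lintegral_liminf_le' (μ := volume.restrict U) (u := atTop)
    (f := fun j X => ENNReal.ofReal (f j X)) (fun j => hm _ (hf j))
  have h2 : ∫⁻ X in U, ENNReal.ofReal (D X) =
      ∫⁻ X in U, liminf (fun j => ENNReal.ofReal (f j X)) atTop := by
    refine setLIntegral_congr_fun hU.measurableSet fun X hX => ?_
    exact ((ENNReal.tendsto_ofReal (hlim X hX)).liminf_eq).symm
  have h3 : Tendsto (fun j => ∫⁻ X in U, ENNReal.ofReal (f j X)) atTop (𝓝 0) := by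
    have h4 := ENNReal.tendsto_ofReal hκ
    rw [ENNReal.ofReal_zero] at h4
    exact tendsto_of_tendsto_of_tendsto_of_le_of_le tendsto_const_nhds h4
      (fun j => by positivity) hI
  rw [← h2, h3.liminf_eq, nonpos_iff_eq_zero, lintegral_eq_zero_iff' (hm _ hD)] at h1
  have h5 : D =ᵐ[volume.restrict U] fun _ => 0 := by
    filter_upwards [h1, ae_restrict_mem hU.measurableSet] with X hX hXU
    exact le_antisymm (ENNReal.ofReal_eq_zero.1 hX) (hD0 X hXU)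
  exact Measure.eqOn_open_of_ae_eq h5 hU hD continuousOn_const

end CMP

theorem t_CMP : T_CMP := by
  intro n _ hB hLIM hLEX
  obtain ⟨C₀, hC₀, hL⟩ := hLEX
  refine ⟨64 * (C₀ + 3) ^ 2 * C₀, by nlinarith, fun ε M hε hε1 => ?_⟩
  by_contra hcon
  push Not at hcon
  choose σ F hσ hF hM hK hI hbad using fun j : ℕ => hcon (1 / ((j : ℝ) + 1)) (by positivity)
  set U := box n 2 (ε / 4) 2 with hUdef
  have hU : IsOpen U := CMP.isOpen_box _ _ _
  have hUup : U ⊆ Hs n 0 := fun X hX => lt_trans (by positivity) hX.2.1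
  have hKU : KK n ε ⊆ U := fun X hX =>
    ⟨by linarith [hX.1], by linarith [hX.2.1], by linarith [hX.2.2]⟩
  have hPK : PP n ∈ KK n ε := by
    refine ⟨?_, ?_, ?_⟩ <;> simp only [PP, norm_zero] <;> linarith
  have hKc : IsCompact (KK n ε) := by
    rw [CMP.KK_eq]; exact (isCompact_closedBall _ _).prod isCompact_Icc
  -- normalisation
  set l : ℕ → ℝ := fun j => (1 + rho (σ j) (F j) (PP n))⁻¹ with hl
  have hA : ∀ j, 0 < 1 + rho (σ j) (F j) (PP n) := fun j => by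
    have := rho_pos (hσ j) (F j) (PP n); linarith
  have hl0 : ∀ j, 0 < l j := fun j => inv_pos.2 (hA j)
  have hlr : ∀ j, l j * rho (σ j) (F j) (PP n) = 1 - l j := fun j => by
    have := hA j
    simp only [hl]; field_simp; ring
  have hl1 : ∀ j, l j ≤ 1 := fun j => by
    have := mul_pos (hl0 j) (rho_pos (hσ j) (F j) (PP n)); linarith [hlr j]
  have hmem : ∀ j, (l j, l j • F j (PP n), l j * σ j) ∈
      Icc (0 : ℝ) 1 ×ˢ closedBall (0 : V n) 1 ×ˢ Icc (0 : ℝ) 1 := by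
    intro j
    refine ⟨⟨(hl0 j).le, hl1 j⟩, ?_, (mul_pos (hl0 j) (hσ j)).le, ?_⟩
    · rw [mem_closedBall_zero_iff, norm_smul, Real.norm_of_nonneg (hl0 j).le]
      have := mul_le_mul_of_nonneg_left (norm_le_rho (σ j) (F j) (PP n)) (hl0 j).le
      linarith [hlr j, hl0 j]
    · have := mul_le_mul_of_nonneg_left (le_rho (σ j) (F j) (PP n)) (hl0 j).le
      show l j * σ j ≤ 1
      linarith [hlr j, hl0 j]
  obtain ⟨⟨lam, a, s⟩, hlim, ψ, hψ, hψt⟩ := (isCompact_Icc.prod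
    ((isCompact_closedBall (0 : V n) 1).prod isCompact_Icc)).tendsto_subseq hmem
  have hlam : 0 ≤ lam := hlim.1.1
  obtain ⟨φ, G, hφ, hGd, hGc, hG0, hG1⟩ := hLIM U (box n 3 (ε / 8) 3) (ε / 8) M (PP n)
    (fun j => F (ψ j)) hU
    (by rw [hUdef, CMP.box_eq]; exact (convex_ball _ _).prod (convex_Ioo _ _))
    (by rw [hUdef, CMP.box_eq]; exact isBounded_ball.prod (isBounded_Ioo _ _))
    (hKU hPK) (CMP.isOpen_box _ _ _) (by positivity)
    (by
      intro X hX Z hZ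
      rw [mem_ball, Prod.dist_eq, max_lt_iff, dist_eq_norm, Real.dist_eq, abs_lt] at hZ
      have h6 : ‖Z.1‖ ≤ ‖Z.1 - X.1‖ + ‖X.1‖ := by simpa using norm_add_le (Z.1 - X.1) X.1
      refine ⟨?_, ?_, ?_⟩ <;> linarith [hZ.1, hZ.2.1, hZ.2.2, hX.1, hX.2.1, hX.2.2])
    (fun j => (hF (ψ j)).mono fun X hX => lt_trans (by positivity) hX.2.1)
    (fun j => hM (ψ j))
  set ι : ℕ → ℕ := fun j => ψ (φ j) with hι
  have hιt : Tendsto ι atTop atTop := hψ.tendsto_atTop.comp hφ.tendsto_atTop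
  have ht := hψt.comp hφ.tendsto_atTop
  have tl : Tendsto (fun j => l (ι j)) atTop (𝓝 lam) := (continuous_fst.tendsto _).comp ht
  have ta : Tendsto (fun j => l (ι j) • F (ι j) (PP n)) atTop (𝓝 a) :=
    (continuous_snd.fst.tendsto _).comp ht
  have ts : Tendsto (fun j => l (ι j) * σ (ι j)) atTop (𝓝 s) :=
    (continuous_snd.snd.tendsto _).comp ht
  have tpd : ∀ X ∈ U, ∀ i, Tendsto (fun j => pd i (F (ι j)) X) atTop (𝓝 (pd i G X)) :=
    fun X hX i => (hG1 i).tendsto_at hX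
  have hsplit : ∀ j X, l j • F j X = l j • F j (PP n) + l j • (F j X - F j (PP n)) := by
    intro j X; rw [smul_sub]; abel
  have tΦ : ∀ X ∈ U, Tendsto (fun j => l (ι j) • F (ι j) X) atTop (𝓝 (a + lam • G X)) := by
    intro X hX
    simp only [fun j => hsplit (ι j) X]
    exact ta.add (tl.smul (hG0.tendsto_at hX))
  have tc : ∀ X ∈ U, ∀ i k, Tendsto (fun j => pd i (F (ι j)) X k) atTop (𝓝 (pd i G X k)) :=
    fun X hX i k => ((EuclideanSpace.proj (𝕜 := ℝ) k).continuous.tendsto _).comp (tpd X hX i)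
  have hsymm : ∀ X ∈ U, ∀ i k, pd i G X k = pd k G X i := fun X hX i k =>
    tendsto_nhds_unique (tc X hX i k)
      ((tc X hX k i).congr fun j => ((hF (ι j)).symm X (hUup hX) i k).symm)
  have htr : ∀ X ∈ U, ∑ i, pd i G X i = 0 := fun X hX =>
    tendsto_nhds_unique (tendsto_finsetSum _ fun i _ => tc X hX i i)
      (tendsto_const_nhds.congr fun j => ((hF (ι j)).trace X (hUup hX)).symm)
  have hGcont : ContinuousOn G U := fun X hX => (hGd X hX).continuousAt.continuousWithinAt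
  have hΦc : ContinuousOn (fun X => a + lam • G X) U :=
    continuousOn_const.add (hGcont.const_smul lam)
  have hn2c : ContinuousOn (fun X => hn2 (jac G X)) U :=
    continuousOn_finsetSum _ fun i _ => (hGc i).norm.pow 2
  have hkato : ∀ X ∈ U, ((n : ℝ) + 1) / n * hv2 (jac G X) (a + lam • G X) ≤
      hn2 (jac G X) * ‖a + lam • G X‖ ^ 2 := fun X hX =>
    hB.alg.kato _ _ (hsymm X hX) (htr X hX)
  have hn20 : ∀ X, 0 ≤ hn2 (jac G X) := fun X => by rw [← hn_sq]; positivity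
  have hD := CMP.defect_zero hU (f := fun j X => l (ι j) ^ 2 * Dh (σ (ι j)) (F (ι j)) X)
    (D := fun X => hn2 (jac G X) * (‖a + lam • G X‖ ^ 2 + s ^ 2)
      - ((n : ℝ) + 1) / n * hv2 (jac G X) (a + lam • G X))
    (fun j => continuousOn_const.mul
      ((hB.api.cont _ _ (σ (ι j)) (isOpen_Hs 0) (hF (ι j))).2.2.2.mono hUup))
    ((hn2c.mul ((hΦc.norm.pow 2).add continuousOn_const)).sub (continuousOn_const.mul
      (continuousOn_finsetSum _ fun i _ => ((hGc i).inner hΦc).pow 2)))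
    (fun X hX => by nlinarith [hkato X hX, mul_nonneg (hn20 X) (sq_nonneg s)])
    (fun X hX => by
      simp only [fun j => CMP.scaled_Dh (σ (ι j)) (l (ι j)) (hl0 _).le (F (ι j)) X]
      exact ((tendsto_finsetSum _ fun i _ => (tpd X hX i).norm.pow 2).mul
        (((tΦ X hX).norm.pow 2).add (ts.pow 2))).sub (tendsto_const_nhds.mul
          (tendsto_finsetSum _ fun i _ => ((tpd X hX i).inner (tΦ X hX)).pow 2)))
    (κ := fun j => 1 / ((ι j : ℝ) + 1))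
    (tendsto_one_div_add_atTop_nhds_zero_nat.comp hιt)
    (fun j => by
      have h1 : II U (fun X => l (ι j) ^ 2 * Dh (σ (ι j)) (F (ι j)) X) =
          ENNReal.ofReal (l (ι j) ^ 2) * II U (Dh (σ (ι j)) (F (ι j))) := by
        unfold II
        rw [← lintegral_const_mul' _ _ ENNReal.ofReal_ne_top]
        exact lintegral_congr fun X => ENNReal.ofReal_mul (sq_nonneg _)
      rw [h1]
      refine (mul_le_mul_right (hI (ι j)) _).trans (le_of_eq ?_)
      rw [← ENNReal.ofReal_mul (sq_nonneg _)]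
      congr 1
      have := hA (ι j)
      simp only [hl]
      field_simp)
  -- uniform closeness of the Jacobians
  have hun : ∀ δ : ℝ, 0 < δ → ∀ᶠ j in atTop, ∀ X ∈ U, |hn (F (ι j)) X - hn G X| ≤ δ := by
    intro δ hδ
    have h1 : ∀ i, ∀ᶠ j in atTop, ∀ X ∈ U,
        dist (pd i G X) (pd i (F (ι j)) X) < δ / ((n : ℝ) + 1) := fun i =>
      Metric.tendstoUniformlyOn_iff.1 (hG1 i) _ (by positivity)
    filter_upwards [eventually_all.2 h1] with j hj X hX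
    refine (hB.api.hn_sub _ _ X (δ / ((n : ℝ) + 1)) fun i => ?_).trans (le_of_eq ?_)
    · rw [← dist_eq_norm, dist_comm]; exact (hj i X hX).le
    · field_simp
  have hex : ∃ X ∈ U, hn G X ≠ 0 := by
    obtain ⟨j, hj⟩ := (hun (1 / 2) (by norm_num)).exists
    obtain ⟨X, hX, hX1⟩ := hK (ι j)
    have := (abs_le.1 (hj X (hKU hX))).2
    exact ⟨X, hKU hX, by linarith⟩
  have hs : s = 0 := by
    obtain ⟨X, hX, hX0⟩ := hex
    have h1 : 0 < hn2 (jac G X) := by rw [← hn_sq]; positivity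
    have h2 := hD X hX
    have h3 := hkato X hX
    have h4 : hn2 (jac G X) * s ^ 2 ≤ 0 := by nlinarith
    have h5 : s ^ 2 ≤ 0 := by
      by_contra h6
      exact absurd (mul_pos h1 (not_le.1 h6)) (not_lt.2 h4)
    exact pow_eq_zero_iff two_ne_zero |>.1 (le_antisymm h5 (sq_nonneg s))
  have ha : lam = 0 → a ≠ 0 := by
    intro h0 ha0
    have h1 : Tendsto (fun j => ‖l (ι j) • F (ι j) (PP n)‖ ^ 2 + (l (ι j) * σ (ι j)) ^ 2) atTop
        (𝓝 (‖a‖ ^ 2 + s ^ 2)) := (ta.norm.pow 2).add (ts.pow 2)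
    have h2 : Tendsto (fun j => (1 - l (ι j)) ^ 2) atTop (𝓝 ((1 - lam) ^ 2)) :=
      (tendsto_const_nhds.sub tl).pow 2
    have h3 := tendsto_nhds_unique h1 (h2.congr fun j => by
      rw [← CMP.scaled_rho _ _ (hl0 _).le, hlr])
    rw [h0, ha0, hs] at h3
    norm_num at h3
  obtain ⟨hne, hP, z, hz⟩ := hL ε lam G a hε hε1 hlam ha hGd hsymm htr
    (fun X hX => by have := hD X hX; rw [hs] at this; nlinarith) hex
  obtain ⟨c, hc, hcK⟩ := hKc.exists_forall_le'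
    (f := fun X => min ‖a + lam • G X‖ (hn G X)) (a := 0)
    ((hΦc.norm.inf (hn2c.sqrt)).mono hKU)
    (fun X hX => lt_min (norm_pos_iff.2 (hne X (hKU hX)).1)
      (lt_of_le_of_ne (hn_nonneg _ _) (hne X (hKU hX)).2.symm))
  obtain ⟨B, hBG⟩ := hKc.exists_bound_of_continuousOn (hGcont.mono hKU)
  have e1 : ∀ᶠ j in atTop, ‖l (ι j) • F (ι j) (PP n) - a‖ < c / 8 :=
    (tendsto_iff_norm_sub_tendsto_zero.1 ta).eventually (gt_mem_nhds (by positivity))
  have e2 : ∀ᶠ j in atTop, l (ι j) * σ (ι j) < c / 8 :=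
    ts.eventually (gt_mem_nhds (by rw [hs]; positivity))
  have e3 : ∀ᶠ j in atTop, |l (ι j) - lam| * B < c / 8 := by
    have h1 : Tendsto (fun j => |l (ι j) - lam| * B) atTop (𝓝 (|lam - lam| * B)) :=
      (tl.sub_const lam).abs.mul_const B
    exact h1.eventually (gt_mem_nhds (by simp only [sub_self, abs_zero, zero_mul]; positivity))
  have e4 : ∀ᶠ j in atTop, ∀ X ∈ U, dist (G X) (F (ι j) X - F (ι j) (PP n)) < c / 8 :=
    Metric.tendstoUniformlyOn_iff.1 hG0 _ (by positivity)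
  have e5 : ∀ᶠ j in atTop,
      l (ι j) * hn (F (ι j)) (PP n) < (C₀ + 1) * ‖a + lam • G (PP n)‖ := by
    have h1 : Tendsto (fun j => hn (F (ι j)) (PP n)) atTop (𝓝 (hn G (PP n))) :=
      (tendsto_finsetSum _ fun i _ => (tpd _ (hKU hPK) i).norm.pow 2).sqrt
    have h2 : 0 < ‖a + lam • G (PP n)‖ := norm_pos_iff.2 (hne _ (hKU hPK)).1
    exact (tl.mul h1).eventually (gt_mem_nhds (by linarith))
  obtain ⟨j, j1, j2, j3, j4, j5, j6⟩ :=
    (e1.and (e2.and (e3.and (e4.and (e5.and (hun (c / 2) (by positivity))))))).exists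
  obtain ⟨q, hq, hq', x, hx, hlt⟩ := hbad (ι j) z
  have hp1 : p0 n < 1 := p0_lt_one ‹_›
  refine absurd hlt (not_lt.2 ?_)
  refine CMP.close hB (Φ := fun X => a + lam • G X) (G := G) hC₀ hε hε1 (hσ _) (hl0 (ι j)) hc
    (hF _) (fun X hX => le_min_iff.1 (hcK X hX)) (fun X hX => ?_) (fun X hX => j6 X (hKU hX))
    j5.le (by linarith) (by linarith) hx (by positivity) (hz q (by linarith) hq' x hx)
  have h1 : l (ι j) • F (ι j) X - (a + lam • G X) = (l (ι j) • F (ι j) (PP n) - a)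
      + l (ι j) • (F (ι j) X - F (ι j) (PP n) - G X) + (l (ι j) - lam) • G X := by module
  have h2 : ‖l (ι j) • (F (ι j) X - F (ι j) (PP n) - G X)‖ ≤ c / 8 := by
    rw [norm_smul, Real.norm_of_nonneg (hl0 _).le, ← dist_eq_norm, dist_comm]
    exact (mul_le_of_le_one_left dist_nonneg (hl1 _)).trans (j4 X (hKU hX)).le
  have h3 : ‖(l (ι j) - lam) • G X‖ ≤ c / 8 := by
    rw [norm_smul, Real.norm_eq_abs]
    exact (mul_le_mul_of_nonneg_left (hBG X hX) (abs_nonneg _)).trans j3.le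
  have h4 := norm_add₃_le (a := l (ι j) • F (ι j) (PP n) - a)
    (b := l (ι j) • (F (ι j) X - F (ι j) (PP n) - G X)) (c := (l (ι j) - lam) • G X)
  rw [← h1] at h4
  linarith

end Pool.Agent.RZ
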