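import Pool.Agent.Lib.RZ.Br59

namespace Pool.Agent.RZ

theorem t_CONF : T_CONF := fun _ h2 _ => Br59.conf h2

end Pool.Agent.RZ
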