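import Pool.Agent.Lib.RZ.Blue

set_option autoImplicit false

open MeasureTheory Metric Set Filter
open scoped ENNReal ContDiff Topology

noncomputable section

namespace Pool.Agent.RZ

open Pool.Agent.HP

namespace Core

theorem II_const_mul {n : ℕ} (S : Set (Y n)) (v f : Y n → ℝ) {q : ℝ} (hq : 0 ≤ q) :
    II S (fun X => v X * (q * f X)) = ENNReal.ofReal q * II S (fun X => v X * f X) := by
  unfold II
  rw [← lintegral_const_mul' _ _ ENNReal.ofReal_ne_top]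
  refine lintegral_congr fun X => ?_
  rw [← ENNReal.ofReal_mul hq]
  have : v X * (q * f X) = q * (v X * f X) := by ring
  exact congrArg ENNReal.ofReal this

theorem II_split {n : ℕ} (S T : Set (Y n)) (f : Y n → ℝ) :
    II S f ≤ II T f + II (S \ T) f := by
  unfold II
  refine le_trans (lintegral_mono_set ?_) (lintegral_union_le _ T (S \ T))
  intro X hX
  by_cases h : X ∈ T
  · exact Or.inl h
  · exact Or.inr ⟨hX, h⟩

/-- the real form of the bookkeeping -/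
theorem book_real {P a l b A J G q cg cl cw m : ℝ} (hq : 0 < q) (hq1 : q ≤ 1)
    (hb : 0 ≤ b) (hG : 0 ≤ G) (hcl : 0 ≤ cl)
    (h1 : P + q * a ≤ cg * J + q * l) (h2 : l + b ≤ a + cl * A)
    (h3 : A ≤ G + (1 / 2 * A + cw * b)) (h4 : 2 * cl * cw ≤ 1) (h5 : 2 * cl * G ≤ m) :
    P ≤ cg * J + m := by
  have hA : A ≤ 2 * G + 2 * cw * b := by linarith
  have h6 : cl * A ≤ cl * (2 * G + 2 * cw * b) := mul_le_mul_of_nonneg_left hA hcl
  have h7 : 2 * cl * cw * b ≤ 1 * b := mul_le_mul_of_nonneg_right h4 hb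
  have h8 : l ≤ a + 2 * cl * G := by nlinarith
  have h9 : q * l ≤ q * (a + 2 * cl * G) := mul_le_mul_of_nonneg_left h8 hq.le
  have h10 : 0 ≤ 2 * cl * G := by positivity
  have h11 : q * (2 * cl * G) ≤ 1 * (2 * cl * G) := mul_le_mul_of_nonneg_right hq1 h10
  nlinarith

/-- the bookkeeping in the extended reals -/
theorem book {P a l b A J : ℝ≥0∞} {G q cg cl cw m : ℝ} (hq : 0 < q) (hq1 : q ≤ 1)
    (hG : 0 ≤ G) (hcg : 0 ≤ cg) (hcl : 0 ≤ cl) (hcw : 0 ≤ cw)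
    (hA : A < ⊤) (hl : l < ⊤) (hJ : J < ⊤)
    (h1 : P + ENNReal.ofReal q * a ≤ ENNReal.ofReal cg * J + ENNReal.ofReal q * l)
    (h2 : l + b ≤ a + ENNReal.ofReal cl * A)
    (h3 : A ≤ ENNReal.ofReal G + (ENNReal.ofReal (1 / 2) * A + ENNReal.ofReal cw * b))
    (h4 : 2 * cl * cw ≤ 1) (h5 : 2 * cl * G ≤ m) :
    P ≤ ENNReal.ofReal cg * J + ENNReal.ofReal m := by
  have hR : ENNReal.ofReal cg * J + ENNReal.ofReal q * l < ⊤ :=
    ENNReal.add_lt_top.2 ⟨ENNReal.mul_lt_top ENNReal.ofReal_lt_top hJ,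
      ENNReal.mul_lt_top ENNReal.ofReal_lt_top hl⟩
  have hP : P < ⊤ := lt_of_le_of_lt (le_trans le_self_add h1) hR
  have hqa : ENNReal.ofReal q * a < ⊤ := lt_of_le_of_lt (le_trans le_add_self h1) hR
  have ha : a < ⊤ := by
    rcases ENNReal.mul_lt_top_iff.1 hqa with h | h | h
    · exact h.2
    · exact absurd h (ENNReal.ofReal_pos.2 hq).ne'
    · rw [h]; exact ENNReal.zero_lt_top
  have hb : b < ⊤ := lt_of_le_of_lt (le_trans le_add_self h2)
    (ENNReal.add_lt_top.2 ⟨ha, ENNReal.mul_lt_top ENNReal.ofReal_lt_top hA⟩)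
  have hm : 0 ≤ m := le_trans (by positivity) h5
  obtain ⟨P', hP0, rfl⟩ : ∃ x : ℝ, 0 ≤ x ∧ P = ENNReal.ofReal x :=
    ⟨P.toReal, ENNReal.toReal_nonneg, (ENNReal.ofReal_toReal hP.ne).symm⟩
  obtain ⟨a', ha0, rfl⟩ : ∃ x : ℝ, 0 ≤ x ∧ a = ENNReal.ofReal x :=
    ⟨a.toReal, ENNReal.toReal_nonneg, (ENNReal.ofReal_toReal ha.ne).symm⟩
  obtain ⟨l', hl0, rfl⟩ : ∃ x : ℝ, 0 ≤ x ∧ l = ENNReal.ofReal x :=
    ⟨l.toReal, ENNReal.toReal_nonneg, (ENNReal.ofReal_toReal hl.ne).symm⟩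
  obtain ⟨b', hb0, rfl⟩ : ∃ x : ℝ, 0 ≤ x ∧ b = ENNReal.ofReal x :=
    ⟨b.toReal, ENNReal.toReal_nonneg, (ENNReal.ofReal_toReal hb.ne).symm⟩
  obtain ⟨A', hA0, rfl⟩ : ∃ x : ℝ, 0 ≤ x ∧ A = ENNReal.ofReal x :=
    ⟨A.toReal, ENNReal.toReal_nonneg, (ENNReal.ofReal_toReal hA.ne).symm⟩
  obtain ⟨J', hJ0, rfl⟩ : ∃ x : ℝ, 0 ≤ x ∧ J = ENNReal.ofReal x :=
    ⟨J.toReal, ENNReal.toReal_nonneg, (ENNReal.ofReal_toReal hJ.ne).symm⟩
  have hq0 := hq.le
  rw [← ENNReal.ofReal_mul hq0, ← ENNReal.ofReal_mul hq0, ← ENNReal.ofReal_mul hcg,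
    ← ENNReal.ofReal_add hP0 (by positivity), ← ENNReal.ofReal_add (by positivity) (by positivity),
    ENNReal.ofReal_le_ofReal_iff (by positivity)] at h1
  rw [← ENNReal.ofReal_mul hcl, ← ENNReal.ofReal_add hl0 hb0,
    ← ENNReal.ofReal_add ha0 (by positivity), ENNReal.ofReal_le_ofReal_iff (by positivity)] at h2
  rw [← ENNReal.ofReal_mul (by norm_num), ← ENNReal.ofReal_mul hcw,
    ← ENNReal.ofReal_add (by positivity) (by positivity),
    ← ENNReal.ofReal_add hG (by positivity), ENNReal.ofReal_le_ofReal_iff (by positivity)] at h3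
  rw [← ENNReal.ofReal_mul hcg, ← ENNReal.ofReal_add (by positivity) hm]
  exact ENNReal.ofReal_le_ofReal (book_real hq hq1 hb0 hG hcl h1 h2 h3 h4 h5)

theorem small {a b η : ℝ} (ha : 0 ≤ a) (hb : 0 ≤ b) (hη : 0 < η) :
    ∃ δ : ℝ, 0 < δ ∧ δ ≤ 1 / 4 ∧ a * δ ≤ 1 ∧ b * δ ≤ η := by
  refine ⟨min (1 / 4) (min (1 / (a + 1)) (η / (b + 1))), by positivity, min_le_left _ _, ?_, ?_⟩
  · have h1 : min (1 / 4) (min (1 / (a + 1)) (η / (b + 1))) ≤ 1 / (a + 1) :=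
      le_trans (min_le_right _ _) (min_le_left _ _)
    refine le_trans (mul_le_mul_of_nonneg_left h1 ha) ?_
    rw [mul_one_div, div_le_one (by positivity)]
    linarith
  · have h1 : min (1 / 4) (min (1 / (a + 1)) (η / (b + 1))) ≤ η / (b + 1) :=
      le_trans (min_le_right _ _) (min_le_right _ _)
    refine le_trans (mul_le_mul_of_nonneg_left h1 hb) ?_
    rw [← mul_div_assoc, div_le_iff₀ (by positivity)]
    nlinarith

end Core

theorem t_CORE : T_CORE := by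
  intro n hn hB hLAP hGREEN hLOW hWT hFIN hGAM
  obtain ⟨cg, hcg, hG⟩ := hGREEN
  obtain ⟨cl, hcl, hL⟩ := hLOW
  obtain ⟨L, cw, hL1, hcw, hW⟩ := hWT
  obtain ⟨cγ, hcγ, hΓ⟩ := hGAM L hL1
  refine ⟨4 * L + 4, cg, by linarith, hcg, fun η hη => ?_⟩
  obtain ⟨δ, hδ, hδ4, hδa, hδb⟩ := Core.small (a := 2 * cl * cw) (b := 2 * cl * cγ)
    (by positivity) (by positivity) hη
  have hp := half_le_p0 hn
  have hp1 := p0_lt_one hn
  have hq4 : 1 / 4 ≤ p0 n - δ := by linarith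
  have hqp : p0 n - δ ≤ p0 n := by linarith
  refine ⟨p0 n - δ, hq4, by linarith, ?_⟩
  generalize hqd : p0 n - δ = q at hq4 hqp
  have hδq : p0 n - q = δ := by linarith
  have hq0 : 0 < q := by linarith
  have hq1 : q ≤ 1 := by linarith
  intro σ M F hσ hF hM
  have hcr := hF.cr
  obtain ⟨hA, hl, hJ, hcont, M', hM'⟩ := hFIN q σ F hq4 hqp hσ hF
  obtain ⟨hsm, hlap⟩ := hLAP (Hs n 0) F σ q (isOpen_Hs 0) hcr hσ
  obtain ⟨-, -, -, hcb, hcL⟩ := hB.api.contE F q σ hcr hσ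
  have hM0 : 0 ≤ M := by
    have hP : PP n ∈ Gam n (4 * L + 4) := by
      refine ⟨?_, ?_⟩
      · show 1 ≤ (4 * L + 4) * 1
        linarith
      · show ‖(0 : E n)‖ ≤ (4 * L + 4) * 1
        rw [norm_zero]
        linarith
    exact le_trans (rho_pos hσ F _).le (hM _ hP)
  have hMq : 0 ≤ M ^ q := Real.rpow_nonneg hM0 q
  have h1 := hG (fun X => rho σ F X ^ q) (fun X => q * bb q σ F X) (fun X => q * LL q σ F X) M'
    hsm (continuousOn_const.mul hcb) (continuousOn_const.mul hcL) hcont.measurable (by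
      intro X hX
      obtain ⟨-, -, -, hb0, hL0⟩ := hB.api.pos F q σ hcr hqp X hX
      refine ⟨Real.rpow_nonneg (rho_pos hσ F X).le q, (hM' X hX).1, (hM' X hX).2,
        mul_nonneg hq0.le hb0, mul_nonneg hq0.le hL0, ?_⟩
      rw [hlap X hX]
      have h2 : 2 - q = ((n : ℝ) + 1) / n + (p0 n - q) := by
        rw [← two_sub_p0 hn]
        ring
      rw [h2]
      unfold bb LL Dh
      ring)
  rw [Core.II_const_mul _ _ _ hq0.le, Core.II_const_mul _ _ _ hq0.le] at h1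
  have h2 := hL q σ F hq4 hqp hσ hcr
  rw [hδq] at h2
  have h3 := le_trans (Core.II_split (Hs n 0) (Gam n L) (fun X => vv X * EE q σ F X))
    (add_le_add (hΓ q σ M F hq4 hq1 hσ hcr hM) (hW q σ F hq4 hqp hσ hcr))
  refine Core.book hq0 hq1 (by positivity) hcg (by positivity) hcw hA hl hJ h1 h2 h3 ?_ ?_
  · linarith
  · have h4 := mul_le_mul_of_nonneg_right hδb hMq
    linarith

end Pool.Agent.RZ
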