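import Pool.Agent.Lib.RZ.Blue

set_option autoImplicit false

open MeasureTheory Metric Set Filter
open scoped ENNReal ContDiff Topology

noncomputable section

namespace Pool.Agent.RZ

open Pool.Agent.HP

namespace CRD

variable {n : ℕ} {W : Type} [NormedAddCommGroup W] [NormedSpace ℝ W] {U : Set (Y n)} {X : Y n}

theorem sm {g : Y n → W} (hU : IsOpen U) (hg : ContDiffOn ℝ ∞ g U) (i : Option (Fin n)) :
    ContDiffOn ℝ ∞ (pd i g) U :=
  (hg.fderiv_of_isOpen hU (m := ∞) (by simp)).clm_apply contDiffOn_const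

theorem da {g : Y n → W} (hU : IsOpen U) (hg : ContDiffOn ℝ ∞ g U) (hX : X ∈ U) :
    DifferentiableAt ℝ g X :=
  (hg.contDiffAt (hU.mem_nhds hX)).differentiableAt (by simp)

theorem cg {f g : Y n → W} (h : f =ᶠ[𝓝 X] g) (i : Option (Fin n)) : pd i f X = pd i g X := by
  unfold pd
  rw [h.fderiv_eq]

theorem cg' {f g : Y n → W} (h : f =ᶠ[𝓝 X] g) (i : Option (Fin n)) : pd i f =ᶠ[𝓝 X] pd i g :=
  h.eventually_nhds.mono fun _ k => cg k i

theorem cgU {f g : Y n → W} (hU : IsOpen U) (h : ∀ Z ∈ U, f Z = g Z) (hX : X ∈ U)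
    (i : Option (Fin n)) : pd i f X = pd i g X :=
  cg (mem_of_superset (hU.mem_nhds hX) h) i

theorem comm {g : Y n → W} (hU : IsOpen U) (hg : ContDiffOn ℝ ∞ g U) (hX : X ∈ U)
    (i j : Option (Fin n)) : pd i (pd j g) X = pd j (pd i g) X := by
  have hd : DifferentiableAt ℝ (fderiv ℝ g) X :=
    da hU (hg.fderiv_of_isOpen hU (m := ∞) (by simp)) hX
  have e : ∀ a b, pd a (pd b g) X = fderiv ℝ (fderiv ℝ g) X (dir a) (dir b) := fun a b => by
    change fderiv ℝ (fun Z => fderiv ℝ g Z (dir b)) X (dir a) = _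
    rw [fderiv_clm_apply hd (differentiableAt_const _)]
    simp
  rw [e, e]
  exact (hg.contDiffAt (hU.mem_nhds hX)).isSymmSndFDerivAt
    (by rw [minSmoothness_of_isRCLikeNormedField]; exact WithTop.coe_le_coe.2 le_top) _ _

theorem app {F : Y n → V n} (h : DifferentiableAt ℝ F X) (i j : Option (Fin n)) :
    pd i F X j = pd i (fun Z => F Z j) X := by
  have := ((EuclideanSpace.proj (𝕜 := ℝ) j).hasFDerivAt.comp X h.hasFDerivAt).fderiv
  change _ = fderiv ℝ (EuclideanSpace.proj (𝕜 := ℝ) j ∘ F) X (dir i)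
  rw [this]
  rfl

theorem smc {F : Y n → V n} (h : ContDiffOn ℝ ∞ F U) (j : Option (Fin n)) :
    ContDiffOn ℝ ∞ (fun Z => F Z j) U :=
  (EuclideanSpace.proj (𝕜 := ℝ) j).contDiff.comp_contDiffOn h

theorem pd_sum {g : Option (Fin n) → Y n → W} (h : ∀ k, DifferentiableAt ℝ (g k) X)
    (i : Option (Fin n)) : pd i (fun Z => ∑ k, g k Z) X = ∑ k, pd i (g k) X := by
  unfold pd
  rw [fderiv_fun_sum fun k _ => h k, _root_.sum_apply]

theorem pd_const (c : W) (i : Option (Fin n)) : pd i (fun _ : Y n => c) X = 0 := by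
  simp [pd]

theorem pd_add {f g : Y n → W} (hf : DifferentiableAt ℝ f X) (hg : DifferentiableAt ℝ g X)
    (i : Option (Fin n)) : pd i (fun Z => f Z + g Z) X = pd i f X + pd i g X := by
  unfold pd
  rw [fderiv_fun_add hf hg, _root_.add_apply]

theorem pd_mul {f g : Y n → ℝ} (hf : DifferentiableAt ℝ f X) (hg : DifferentiableAt ℝ g X)
    (i : Option (Fin n)) : pd i (fun Z => f Z * g Z) X = f X * pd i g X + pd i f X * g X := by
  unfold pd
  rw [fderiv_fun_mul hf hg]
  simp [mul_comm]

theorem pd_comp {f : Y n → ℝ} {h : ℝ → ℝ} (hf : DifferentiableAt ℝ f X)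
    (hh : DifferentiableAt ℝ h (f X)) (i : Option (Fin n)) :
    pd i (fun Z => h (f Z)) X = deriv h (f X) * pd i f X := by
  have := (hh.hasDerivAt.comp_hasFDerivAt X hf.hasFDerivAt).fderiv
  change fderiv ℝ (h ∘ f) X (dir i) = _
  rw [this]
  rfl

variable {F : Y n → V n}

theorem app2 (hU : IsOpen U) (hF : CRon U F) (hX : X ∈ U) (i k j : Option (Fin n)) :
    pd i (pd k F) X j = pd i (pd k fun Z => F Z j) X := by
  rw [app (da hU (sm hU hF.smooth k) hX)]
  exact cgU hU (fun Z hZ => app (da hU hF.smooth hZ) k j) hX i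

theorem swap (hU : IsOpen U) (hF : CRon U F) (hX : X ∈ U) (k i j : Option (Fin n)) :
    pd k (pd i fun Z => F Z j) X = pd k (pd j fun Z => F Z i) X :=
  cgU hU (fun Z hZ => by
    rw [← app (da hU hF.smooth hZ), ← app (da hU hF.smooth hZ), hF.symm Z hZ]) hX k

theorem tr (hU : IsOpen U) (hF : CRon U F) (hX : X ∈ U) (k : Option (Fin n)) :
    ∑ i, pd k (pd i fun Z => F Z i) X = 0 := by
  rw [← pd_sum fun i => da hU (sm hU (smc hF.smooth i) i) hX, ← pd_const (X := X) (0 : ℝ) k]
  refine cgU hU (fun Z hZ => ?_) hX k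
  rw [← hF.trace Z hZ]
  exact Finset.sum_congr rfl fun i _ => (app (da hU hF.smooth hZ) i i).symm

theorem harm1 (hU : IsOpen U) (hF : CRon U F) (hX : X ∈ U) (j : Option (Fin n)) :
    lap (fun Z => F Z j) X = 0 := by
  rw [← tr hU hF hX j, lap]
  exact Finset.sum_congr rfl fun i _ => by
    rw [swap hU hF hX, comm hU (smc hF.smooth i) hX]

end CRD

open CRD in
theorem t_CRD : T_CRD := fun n _ =>
  { harm := fun U F hU hF X hX => by
      ext j
      rw [WithLp.ofLp_sum, Finset.sum_apply]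
      exact (Finset.sum_congr rfl fun i _ => app2 hU hF hX i i j).trans (harm1 hU hF hX j)
    harm1 := fun U F hU hF X hX j => harm1 hU hF hX j
    dcr := fun U F hU hF k => ⟨sm hU hF.smooth k, fun X hX i j => by
        rw [app2 hU hF hX, app2 hU hF hX, comm hU (smc hF.smooth j) hX, swap hU hF hX,
          comm hU (smc hF.smooth i) hX],
      fun X hX => by
        rw [← tr hU hF hX k]
        exact Finset.sum_congr rfl fun i _ => by
          rw [app2 hU hF hX, comm hU (smc hF.smooth i) hX]⟩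
    smooth := fun U g hU hg =>
      ⟨sm hU hg, ContDiffOn.sum fun i _ => sm hU (sm hU hg i) i⟩
    cgr := fun f g X h => ⟨cg h, Finset.sum_congr rfl fun i _ => cg (cg' h i) i⟩
    mul := fun U f g hU hf hg X hX => by
      refine ⟨pd_mul (da hU hf hX) (da hU hg hX), ?_⟩
      simp only [lap, Finset.mul_sum, Finset.sum_mul, ← Finset.sum_add_distrib]
      refine Finset.sum_congr rfl fun i _ => ?_
      have f1 := da hU hf hX
      have g1 := da hU hg hX
      have f2 := da hU (sm hU hf i) hX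
      have g2 := da hU (sm hU hg i) hX
      rw [cgU hU (fun Z hZ => pd_mul (da hU hf hZ) (da hU hg hZ) i) hX i,
        pd_add (f1.fun_mul g2) (f2.fun_mul g1), pd_mul f1 g2, pd_mul f2 g1]
      ring
    lin := fun U f g a b c hU hf hg X hX => by
      have one : ∀ (u v : Y n → ℝ) (d : ℝ) (Z : Y n) (i : Option (Fin n)),
          DifferentiableAt ℝ u Z → DifferentiableAt ℝ v Z →
          pd i (fun Z => a * u Z + b * v Z + d) Z = a * pd i u Z + b * pd i v Z + 0 :=
        fun u v d Z i hu hv => by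
          rw [pd_add ((hu.const_mul a).fun_add (hv.const_mul b)) (differentiableAt_const _),
            pd_add (hu.const_mul a) (hv.const_mul b), pd_mul (differentiableAt_const _) hu,
            pd_mul (differentiableAt_const _) hv, pd_const, pd_const, pd_const]
          ring
      simp only [lap, Finset.mul_sum, ← Finset.sum_add_distrib]
      refine Finset.sum_congr rfl fun i _ => ?_
      rw [cgU hU (fun Z hZ => one f g c Z i (da hU hf hZ) (da hU hg hZ)) hX i,
        one _ _ 0 X i (da hU (sm hU hf i) hX) (da hU (sm hU hg i) hX), add_zero]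
    comp := fun U S f h hU hS hf hh hm X hX => by
      have d1 : ∀ Z ∈ U, DifferentiableAt ℝ h (f Z) := fun Z hZ =>
        (hh.contDiffAt (hS.mem_nhds (hm hZ))).differentiableAt (by simp)
      have d2 : DifferentiableAt ℝ (deriv h) (f X) :=
        ((hh.deriv_of_isOpen hS (m := ∞) (by simp)).contDiffAt
          (hS.mem_nhds (hm hX))).differentiableAt (by simp)
      refine ⟨pd_comp (da hU hf hX) (d1 X hX), ?_⟩
      simp only [lap, Finset.mul_sum, ← Finset.sum_add_distrib]
      refine Finset.sum_congr rfl fun i _ => ?_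
      rw [cgU hU (fun Z hZ => pd_comp (da hU hf hZ) (d1 Z hZ) i) hX i,
        pd_mul (f := fun Z => deriv h (f Z)) (d2.comp X (da hU hf hX)) (da hU (sm hU hf i) hX),
        pd_comp (da hU hf hX) d2]
      ring }

end Pool.Agent.RZ
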