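import Pool.Agent.Lib.RZ.Blue

set_option autoImplicit false

open MeasureTheory Metric Set Filter
open scoped ENNReal ContDiff Topology

noncomputable section

namespace Pool.Agent.RZ

open Pool.Agent.HP

namespace CUT

variable {n : ℕ}

theorem loc_const (hB : Bas n) {g : Y n → ℝ} {X : Y n} {c : ℝ} (h : g =ᶠ[𝓝 X] fun _ => c) :
    (∀ i, pd i g X = 0) ∧ lap g X = 0 := by
  obtain ⟨h1, h2⟩ := hB.crd.cgr g _ X h
  have h3 : ∀ i : Option (Fin n), pd i (fun _ : Y n => c) = fun _ => 0 := by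
    intro i; funext Z; simp [pd]
  refine ⟨fun i => by rw [h1 i, h3 i], ?_⟩
  rw [h2]
  unfold lap
  refine Finset.sum_eq_zero fun i _ => ?_
  rw [h3 i]
  simp [pd]

theorem pd_aff (k : ℝ) (i : Option (Fin n)) :
    pd i (fun Z : Y n => k * Z.2 - 1) = fun _ => k * (dir i).2 := by
  funext X
  have h : HasFDerivAt (fun Z : Y n => k * Z.2 - 1)
      (k • ContinuousLinearMap.snd ℝ (E n) ℝ) X :=
    ((ContinuousLinearMap.snd ℝ (E n) ℝ).hasFDerivAt.const_mul k).sub_const 1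
  unfold pd
  rw [h.fderiv]
  simp

theorem dir_snd (i : Option (Fin n)) : |(dir i : Y n).2| ≤ 1 := by
  cases i <;> simp [dir]

/-- the profile in the normal direction -/
theorem prof_a (hB : Bas n) : ∃ K : ℝ, 0 ≤ K ∧ ∀ k : ℝ, 0 < k → ∀ X : Y n, 0 < X.2 →
    X.2 ≤ 2 / k →
    (∀ i, |pd i (fun Z : Y n => Real.smoothTransition (k * Z.2 - 1)) X| ≤ K * k) ∧
    |lap (fun Z : Y n => Real.smoothTransition (k * Z.2 - 1)) X| ≤ K * k ^ 2 := by
  have hs : ContDiff ℝ ∞ Real.smoothTransition := Real.smoothTransition.contDiff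
  have hs1 : ContDiff ℝ ∞ (deriv Real.smoothTransition) := (contDiff_infty_iff_deriv.1 hs).2
  have hs2 : ContDiff ℝ ∞ (deriv (deriv Real.smoothTransition)) :=
    (contDiff_infty_iff_deriv.1 hs1).2
  obtain ⟨K₁, hK₁⟩ := (isCompact_Icc (a := (-1 : ℝ)) (b := 1)).exists_bound_of_continuousOn
    hs1.continuous.continuousOn
  obtain ⟨K₂, hK₂⟩ := (isCompact_Icc (a := (-1 : ℝ)) (b := 1)).exists_bound_of_continuousOn
    hs2.continuous.continuousOn
  have hK₁0 : 0 ≤ K₁ := (norm_nonneg _).trans (hK₁ 0 (by simp))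
  have hK₂0 : 0 ≤ K₂ := (norm_nonneg _).trans (hK₂ 0 (by simp))
  refine ⟨K₁ + K₂ * (n + 1), by positivity, fun k hk X hX hX2 => ?_⟩
  have hm : k * X.2 - 1 ∈ Icc (-1 : ℝ) 1 := by
    have h1 : 0 < k * X.2 := by positivity
    have h2 : X.2 * k ≤ 2 := (le_div_iff₀ hk).1 hX2
    constructor <;> nlinarith
  obtain ⟨h1, h2⟩ := hB.crd.comp univ univ (fun Z : Y n => k * Z.2 - 1) Real.smoothTransition
    isOpen_univ isOpen_univ (by fun_prop) hs.contDiffOn (mapsTo_univ _ _) X (mem_univ _)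
  have hl : lap (fun Z : Y n => k * Z.2 - 1) X = 0 := by
    unfold lap
    refine Finset.sum_eq_zero fun i _ => ?_
    rw [pd_aff]
    simp [pd]
  have hd : ∀ i : Option (Fin n), |k * (dir i : Y n).2| ≤ k := by
    intro i
    rw [abs_mul, abs_of_pos hk]
    exact mul_le_of_le_one_right hk.le (dir_snd i)
  have hn1 : (0 : ℝ) ≤ K₂ * (n + 1) := by positivity
  constructor
  · intro i
    rw [h1 i, pd_aff, abs_mul]
    have := hK₁ _ hm
    rw [Real.norm_eq_abs] at this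
    exact mul_le_mul (by linarith) (hd i) (abs_nonneg _) (by positivity)
  · rw [h2, hl, mul_zero, zero_add, abs_mul]
    simp only [pd_aff]
    have h3 := hK₂ _ hm
    rw [Real.norm_eq_abs] at h3
    have h4 : |∑ i : Option (Fin n), (k * (dir i : Y n).2) ^ 2| ≤ (n + 1) * k ^ 2 := by
      rw [abs_of_nonneg (Finset.sum_nonneg fun i _ => sq_nonneg _)]
      have h5 : ∀ i : Option (Fin n), (k * (dir i : Y n).2) ^ 2 ≤ k ^ 2 := fun i =>
        sq_le_sq.2 (by rw [abs_of_pos hk]; exact hd i)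
      refine (Finset.sum_le_sum fun i _ => h5 i).trans (le_of_eq ?_)
      simp
    calc _ ≤ K₂ * ((n + 1) * k ^ 2) := mul_le_mul h3 h4 (abs_nonneg _) hK₂0
      _ ≤ (K₁ + K₂ * (n + 1)) * k ^ 2 := by nlinarith [mul_nonneg hK₁0 (sq_nonneg k)]

/-- the profile at infinity -/
theorem prof_b (hB : Bas n) {χ : Y n → ℝ} (hχ : ContDiff ℝ ∞ χ) :
    ∃ K : ℝ, 0 ≤ K ∧ ∀ k : ℝ, 0 < k → ∀ X : Y n, ‖X‖ ≤ 2 * k →
    (∀ i, |pd i (fun Z : Y n => χ (k⁻¹ • Z)) X| ≤ K / k) ∧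
    |lap (fun Z : Y n => χ (k⁻¹ • Z)) X| ≤ K / k ^ 2 := by
  obtain ⟨h1, h2⟩ := hB.crd.smooth univ χ isOpen_univ hχ.contDiffOn
  have h3 : ContinuousOn (fun Z => ∑ i, |pd i χ Z| + |lap χ Z|) (closedBall (0 : Y n) 2) :=
    ((continuousOn_finsetSum _ fun i _ => (h1 i).continuousOn.abs).add
      h2.continuousOn.abs).mono (subset_univ _)
  obtain ⟨K, hK⟩ := (isCompact_closedBall (0 : Y n) 2).exists_bound_of_continuousOn h3
  have hK0 : 0 ≤ K := (norm_nonneg _).trans (hK 0 (by simp))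
  refine ⟨K, hK0, fun k hk X hX => ?_⟩
  have hsh : ∀ Z : Y n, sh ((0 : E n), k⁻¹) Z = k⁻¹ • Z := by
    intro Z
    simp only [sh, zero_add]
    rfl
  have hki : (0 : ℝ) < (((0 : E n), k⁻¹) : Y n).2 := inv_pos.2 hk
  have hm : k⁻¹ • X ∈ closedBall (0 : Y n) 2 := by
    rw [mem_closedBall_zero_iff, norm_smul, Real.norm_of_nonneg (by positivity),
      inv_mul_le_iff₀ hk]
    linarith
  have h4 := hK _ hm
  have h5 : 0 ≤ ∑ i, |pd i χ (k⁻¹ • X)| := Finset.sum_nonneg fun i _ => abs_nonneg _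
  rw [Real.norm_of_nonneg (by positivity)] at h4
  constructor
  · intro i
    have h6 := hB.scl.pd_sh χ ((0 : E n), k⁻¹) X i hki
    simp only [hsh] at h6
    have h7 : |pd i χ (k⁻¹ • X)| ≤ ∑ i, |pd i χ (k⁻¹ • X)| :=
      Finset.single_le_sum (f := fun i => |pd i χ (k⁻¹ • X)|) (fun i _ => abs_nonneg _)
        (Finset.mem_univ i)
    rw [h6, abs_mul, abs_of_pos (inv_pos.2 hk), div_eq_inv_mul]
    exact mul_le_mul_of_nonneg_left (by linarith [abs_nonneg (lap χ (k⁻¹ • X))]) (by positivity)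
  · have h6 := hB.scl.lap_sh χ ((0 : E n), k⁻¹) X hki
    simp only [hsh] at h6
    rw [h6, abs_mul, abs_of_pos (by positivity), div_eq_inv_mul, inv_pow]
    exact mul_le_mul_of_nonneg_left (by linarith) (by positivity)

theorem ww_le_bd {X : Y n} (hX : 0 < X.2) : ww X ≤ ww ((X.1, 0) : Y n) := by
  unfold ww
  refine Real.rpow_le_rpow_of_nonpos ?_ ?_ ?_
  · unfold RR; positivity
  · unfold RR; nlinarith
  · have : (0 : ℝ) ≤ n := Nat.cast_nonneg n
    linarith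

theorem ww_le_far {X : Y n} (hX : 0 < X.2) {k : ℝ} (hk : 0 < k) (h : k ≤ ‖X‖) :
    ww X ≤ (k ^ (n + 1))⁻¹ := by
  have h1 : k ^ 2 ≤ RR X := by
    unfold RR
    rw [Prod.norm_def, le_max_iff] at h
    rcases h with h | h
    · nlinarith [sq_nonneg (X.2 + 1)]
    · rw [Real.norm_of_nonneg hX.le] at h
      nlinarith [sq_nonneg ‖X.1‖]
  have h2 : (k ^ (n + 1))⁻¹ = (k ^ 2) ^ (-((n : ℝ) + 1) / 2) := by
    rw [← Real.rpow_natCast k 2, ← Real.rpow_mul hk.le, ← Real.rpow_natCast k (n + 1),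
      ← Real.rpow_neg hk.le]
    congr 1
    push_cast; ring
  rw [h2]
  unfold ww
  refine Real.rpow_le_rpow_of_nonpos (by positivity) h1 ?_
  have : (0 : ℝ) ≤ n := Nat.cast_nonneg n
  linarith

theorem sum_abs_le {ι : Type} [Fintype ι] (f g : ι → ℝ) {A B : ℝ} (hf : ∀ i, |f i| ≤ A)
    (hg : ∀ i, |g i| ≤ B) (hA : 0 ≤ A) : ∑ i, f i * g i ≤ Fintype.card ι * (A * B) := by
  have h : ∀ i, f i * g i ≤ A * B := fun i =>
    (le_abs_self _).trans (by rw [abs_mul]; exact mul_le_mul (hf i) (hg i) (abs_nonneg _) hA)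
  refine (Finset.sum_le_sum fun i _ => h i).trans (le_of_eq ?_)
  simp

/-- the five error terms -/
theorem expand (hB : Bas n) (hV : St_VV n) {a b : Y n → ℝ} (ha : ContDiff ℝ ∞ a)
    (hb : ContDiff ℝ ∞ b) (ha1 : ∀ X, |a X| ≤ 1) (hb1 : ∀ X, |b X| ≤ 1) {X : Y n}
    (hX : X ∈ Hs n 0) {A₁ A₂ B₁ B₂ : ℝ} (hA₁ : ∀ i, |pd i a X| ≤ A₁) (hA₂ : |lap a X| ≤ A₂)
    (hB₁ : ∀ i, |pd i b X| ≤ B₁) (hB₂ : |lap b X| ≤ B₂) :
    lap (fun Z => vv Z * (a Z * b Z)) X + psi X * (a X * b X) ≤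
      ww X * (X.2 * (2 * (n + 1) * (A₁ * B₁) + A₂) + 2 * (n + 1) * (n + 2) * A₁) +
      ww X * (X.2 * B₂ + 2 * (n + 1) * (n + 2) * B₁) := by
  have hX0 : 0 < X.2 := hX
  have hw : 0 < ww X := (hB.api.wpos X (by linarith)).2.1
  have hsub : Hs n 0 ⊆ Hs n (-1) := fun Z hZ => by
    have : 0 < Z.2 := hZ
    show -1 < Z.2
    linarith
  obtain ⟨-, h1⟩ := hB.crd.mul (Hs n 0) vv (fun Z => a Z * b Z) (isOpen_Hs 0) (hV.1.mono hsub)
    (ha.mul hb).contDiffOn X hX
  obtain ⟨h2, h3⟩ := hB.crd.mul univ a b isOpen_univ ha.contDiffOn hb.contDiffOn X (mem_univ _)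
  obtain ⟨h4, h5⟩ := hV.2 X hX
  have hA₁0 : 0 ≤ A₁ := (abs_nonneg _).trans (hA₁ none)
  have h6 : ∀ i, |pd i (fun Z => a Z * b Z) X| ≤ B₁ + A₁ := by
    intro i
    rw [h2 i]
    refine (abs_add_le _ _).trans (add_le_add ?_ ?_)
    · rw [abs_mul]
      exact (mul_le_of_le_one_left (abs_nonneg _) (ha1 X)).trans (hB₁ i)
    · rw [abs_mul]
      exact (mul_le_of_le_one_right (abs_nonneg _) (hb1 X)).trans (hA₁ i)
  have h7 := sum_abs_le (fun i => pd i vv X) (fun i => pd i (fun Z => a Z * b Z) X) h5 h6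
    (by positivity)
  have h8 := sum_abs_le (fun i => pd i a X) (fun i => pd i b X) hA₁ hB₁ hA₁0
  simp only [Fintype.card_option, Fintype.card_fin, Nat.cast_add, Nat.cast_one] at h7 h8
  have h9 : a X * lap b X ≤ B₂ := (le_abs_self _).trans (by
    rw [abs_mul]; exact (mul_le_of_le_one_left (abs_nonneg _) (ha1 X)).trans hB₂)
  have h10 : lap a X * b X ≤ A₂ := (le_abs_self _).trans (by
    rw [abs_mul]; exact (mul_le_of_le_one_right (abs_nonneg _) (hb1 X)).trans hA₂)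
  have h11 : lap (fun Z => a Z * b Z) X ≤ B₂ + 2 * ((n + 1) * (A₁ * B₁)) + A₂ := by
    rw [h3]; linarith
  have h12 : vv X * lap (fun Z => a Z * b Z) X ≤
      X.2 * ww X * (B₂ + 2 * ((n + 1) * (A₁ * B₁)) + A₂) :=
    mul_le_mul_of_nonneg_left h11 (by unfold vv; positivity)
  rw [h1, h4]
  nlinarith

end CUT

theorem t_CUT : T_CUT := by
  intro n _ hB hV
  let χ : ContDiffBump (0 : Y n) := ⟨1, 2, one_pos, one_lt_two⟩
  obtain ⟨K, hK, hKa⟩ := CUT.prof_a hB
  obtain ⟨L, hL, hLb⟩ := CUT.prof_b hB (χ := χ) χ.contDiff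
  have hn0 : (0 : ℝ) ≤ n := Nat.cast_nonneg n
  set C : ℝ := 4 * (n + 1) * (K * L) + 2 * K + 2 * (n + 1) * (n + 2) * K
    + (2 * L + 2 * (n + 1) * (n + 2) * L) with hC
  have hC0 : 0 ≤ C := by positivity
  refine ⟨C, hC0, fun k hk => ?_⟩
  have hk0 : 0 < k := by linarith
  have ha : ContDiff ℝ ∞ (fun Z : Y n => Real.smoothTransition (k * Z.2 - 1)) :=
    Real.smoothTransition.contDiff.comp (by fun_prop)
  have hb : ContDiff ℝ ∞ (fun Z : Y n => χ (k⁻¹ • Z)) := χ.contDiff.comp (by fun_prop)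
  have hb1 : ∀ Z : Y n, ‖Z‖ ≤ k → χ (k⁻¹ • Z) = 1 := by
    intro Z hZ
    refine χ.one_of_mem_closedBall ?_
    rw [mem_closedBall_zero_iff, norm_smul, Real.norm_of_nonneg (by positivity),
      inv_mul_le_iff₀ hk0]
    show ‖Z‖ ≤ k * 1
    linarith
  have hb0 : ∀ Z : Y n, 2 * k ≤ ‖Z‖ → χ (k⁻¹ • Z) = 0 := by
    intro Z hZ
    refine χ.zero_of_le_dist ?_
    rw [dist_zero_right, norm_smul, Real.norm_of_nonneg (by positivity), le_inv_mul_iff₀ hk0]
    show k * 2 ≤ ‖Z‖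
    linarith
  have ha1 : ∀ Z : Y n, 2 / k ≤ Z.2 → Real.smoothTransition (k * Z.2 - 1) = 1 := by
    intro Z hZ
    refine Real.smoothTransition.one_of_one_le ?_
    have := (div_le_iff₀ hk0).1 hZ
    linarith
  refine ⟨fun Z => Real.smoothTransition (k * Z.2 - 1) * χ (k⁻¹ • Z),
    ⟨(ha.mul hb).contDiffOn, closedBall 0 (2 * k) ∩ {Z | 1 / k ≤ Z.2},
      (isCompact_closedBall _ _).inter_right (isClosed_le continuous_const continuous_snd),
      fun Z hZ => ?_, fun Z hZ => ?_⟩, fun X => ?_, fun X h1 h2 h3 => ?_, fun X hX => ?_⟩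
  · exact lt_of_lt_of_le (by positivity : (0 : ℝ) < 1 / k) hZ.2
  · rw [mem_inter_iff, not_and_or] at hZ
    rcases hZ with h | h
    · rw [mem_closedBall_zero_iff, not_le] at h
      rw [hb0 Z h.le, mul_zero]
    · have h' : Z.2 < 1 / k := not_le.1 h
      have h'' := (lt_div_iff₀ hk0).1 h'
      rw [Real.smoothTransition.zero_of_nonpos (by linarith), zero_mul]
  · exact ⟨mul_nonneg (Real.smoothTransition.nonneg _) χ.nonneg,
      mul_le_one₀ (Real.smoothTransition.le_one _) χ.nonneg χ.le_one⟩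
  · have h4 : 0 < X.2 := lt_of_lt_of_le (by positivity) h2
    beta_reduce
    rw [ha1 X h2, hb1 X, mul_one]
    rw [Prod.norm_def, Real.norm_of_nonneg h4.le]
    exact max_le h1 h3
  have hX0 : 0 < X.2 := hX
  have hw : 0 < ww X := (hB.api.wpos X (by linarith)).2.1
  have hw0 := CUT.ww_le_bd hX0
  -- bounds for the profile at infinity
  obtain ⟨B₁, B₂, hB₁, hB₂, hB₁0, hB₁', hfar⟩ : ∃ B₁ B₂ : ℝ,
      (∀ i, |pd i (fun Z : Y n => χ (k⁻¹ • Z)) X| ≤ B₁) ∧
      |lap (fun Z : Y n => χ (k⁻¹ • Z)) X| ≤ B₂ ∧ 0 ≤ B₁ ∧ B₁ ≤ L / k ∧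
      ww X * (X.2 * B₂ + 2 * (n + 1) * (n + 2) * B₁) ≤
        (closedBall (0 : Y n) (2 * k)).indicator (fun _ => C / k ^ (n + 2)) X := by
    by_cases h1 : k ≤ ‖X‖ ∧ ‖X‖ ≤ 2 * k
    · obtain ⟨h2, h3⟩ := hLb k hk0 X h1.2
      refine ⟨L / k, L / k ^ 2, h2, h3, by positivity, le_rfl, ?_⟩
      rw [indicator_of_mem (mem_closedBall_zero_iff.2 h1.2)]
      have h4 : X.2 ≤ 2 * k := ((le_abs_self _).trans (norm_snd_le X)).trans h1.2
      have h5 : X.2 * (L / k ^ 2) ≤ 2 * L / k := by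
        calc X.2 * (L / k ^ 2) ≤ 2 * k * (L / k ^ 2) := by gcongr
          _ = 2 * L / k := by field_simp
      have h6 : X.2 * (L / k ^ 2) + 2 * (n + 1) * (n + 2) * (L / k) ≤ C / k := by
        have h7 : 2 * L / k + 2 * (n + 1) * (n + 2) * (L / k)
            = (2 * L + 2 * (n + 1) * (n + 2) * L) / k := by ring
        have h8 : (2 * L + 2 * (n + 1) * (n + 2) * L) / k ≤ C / k := by
          gcongr
          rw [hC]
          exact le_add_of_nonneg_left (by positivity)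
        linarith
      calc _ ≤ (k ^ (n + 1))⁻¹ * (C / k) :=
            mul_le_mul (CUT.ww_le_far hX0 hk0 h1.1) h6 (by positivity) (by positivity)
        _ = C / k ^ (n + 2) := by field_simp; ring
    · have h2 : ∃ c : ℝ, (fun Z : Y n => χ (k⁻¹ • Z)) =ᶠ[𝓝 X] fun _ => c := by
        rw [not_and_or, not_le, not_le] at h1
        rcases h1 with h | h
        · refine ⟨1, ?_⟩
          filter_upwards [(isOpen_lt continuous_norm continuous_const).mem_nhds h] with Z hZ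
          exact hb1 Z (le_of_lt hZ)
        · refine ⟨0, ?_⟩
          filter_upwards [(isOpen_lt continuous_const continuous_norm).mem_nhds h] with Z hZ
          exact hb0 Z (le_of_lt hZ)
      obtain ⟨c, hc⟩ := h2
      obtain ⟨h3, h4⟩ := CUT.loc_const hB hc
      refine ⟨0, 0, fun i => by rw [h3 i, abs_zero], by rw [h4, abs_zero], le_rfl,
        by positivity, ?_⟩
      simp only [mul_zero, add_zero]
      exact indicator_nonneg (fun _ _ => by positivity) X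
  -- bounds for the normal profile
  obtain ⟨A₁, A₂, hA₁, hA₂, hnear⟩ : ∃ A₁ A₂ : ℝ,
      (∀ i, |pd i (fun Z : Y n => Real.smoothTransition (k * Z.2 - 1)) X| ≤ A₁) ∧
      |lap (fun Z : Y n => Real.smoothTransition (k * Z.2 - 1)) X| ≤ A₂ ∧
      ww X * (X.2 * (2 * (n + 1) * (A₁ * B₁) + A₂) + 2 * (n + 1) * (n + 2) * A₁) ≤
        {W : Y n | W.2 ≤ 2 / k}.indicator (fun W => C * k * ww (W.1, 0)) X := by
    by_cases h1 : X.2 ≤ 2 / k
    · obtain ⟨h2, h3⟩ := hKa k hk0 X hX0 h1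
      refine ⟨K * k, K * k ^ 2, h2, h3, ?_⟩
      rw [indicator_of_mem (show X ∈ {W : Y n | W.2 ≤ 2 / k} from h1)]
      have h4 : K * k * B₁ ≤ K * L * k ^ 2 := by
        calc K * k * B₁ ≤ K * k * (L / k) := by gcongr
          _ = K * L * 1 := by field_simp
          _ ≤ K * L * k ^ 2 := by gcongr; nlinarith
      have h5 : X.2 * (2 * (n + 1) * (K * k * B₁) + K * k ^ 2) ≤
          (4 * (n + 1) * (K * L) + 2 * K) * k := by
        calc X.2 * (2 * (n + 1) * (K * k * B₁) + K * k ^ 2)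
            ≤ 2 / k * (2 * (n + 1) * (K * L * k ^ 2) + K * k ^ 2) := by gcongr
          _ = (4 * (n + 1) * (K * L) + 2 * K) * k := by field_simp; ring
      have h6 : X.2 * (2 * (n + 1) * (K * k * B₁) + K * k ^ 2) + 2 * (n + 1) * (n + 2) * (K * k)
          ≤ C * k := by
        have h7 : 0 ≤ (2 * L + 2 * (n + 1) * (n + 2) * L) * k := by positivity
        rw [hC]
        nlinarith
      calc _ ≤ ww ((X.1, 0) : Y n) * (C * k) :=
            mul_le_mul hw0 h6 (by positivity) (hw.le.trans hw0)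
        _ = C * k * ww ((X.1, 0) : Y n) := by ring
    · have h2 : (fun Z : Y n => Real.smoothTransition (k * Z.2 - 1)) =ᶠ[𝓝 X] fun _ => 1 := by
        filter_upwards [(isOpen_lt continuous_const continuous_snd).mem_nhds (not_le.1 h1)]
          with Z hZ
        exact ha1 Z (le_of_lt hZ)
      obtain ⟨h3, h4⟩ := CUT.loc_const hB h2
      refine ⟨0, 0, fun i => by rw [h3 i, abs_zero], by rw [h4, abs_zero], ?_⟩
      rw [indicator_of_notMem (show X ∉ {W : Y n | W.2 ≤ 2 / k} from h1)]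
      simp
  refine (CUT.expand hB hV ha hb (fun Z => ?_) (fun Z => ?_) hX hA₁ hA₂ hB₁ hB₂).trans
    (add_le_add hnear hfar)
  · rw [abs_of_nonneg (Real.smoothTransition.nonneg _)]
    exact Real.smoothTransition.le_one _
  · rw [abs_of_nonneg χ.nonneg]
    exact χ.le_one

end Pool.Agent.RZ
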