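import Pool.Agent.Lib.RZ.Blue

set_option autoImplicit false

open MeasureTheory Metric Set
open scoped ENNReal ContDiff

noncomputable section

namespace Pool.Agent.RZ

open Pool.Agent.HP

namespace END

variable {n : ℕ}

theorem ker_eq {s : ℝ} (hs : 0 < s) (w : E n) :
    ker n ((n : ℝ) + 1) s w = s * (‖w‖ + s) ^ (-((n : ℝ) + 1)) := by
  unfold ker
  have h1 : 1 + ‖w‖ / s = (‖w‖ + s) / s := by field_simp; ring
  have h2 : 0 < ‖w‖ + s := by positivity
  have h3 : ((n : ℝ) + 1) = ((n + 1 : ℕ) : ℝ) := by push_cast; ring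
  rw [h1, h3, Real.rpow_neg (by positivity), Real.rpow_neg h2.le, Real.rpow_natCast,
    Real.rpow_natCast, div_pow]
  field_simp
  ring

theorem lint_ker (hI : St_INT n) : ∃ C : ℝ, 0 ≤ C ∧ ∀ s : ℝ, 0 < s → ∀ x : E n,
    ∫⁻ z, ENNReal.ofReal (ker n ((n : ℝ) + 1) s (z - x)) ≤ ENNReal.ofReal C := by
  obtain ⟨C, hC, h⟩ := hI
  refine ⟨C, hC, fun s hs x => ?_⟩
  calc ∫⁻ z, ENNReal.ofReal (ker n ((n : ℝ) + 1) s (z - x))
      = ∫⁻ z : E n, ENNReal.ofReal s *
          ENNReal.ofReal ((‖z - x‖ + s) ^ (-((n : ℝ) + 1))) := by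
        refine lintegral_congr fun z => ?_
        rw [ker_eq hs, ENNReal.ofReal_mul hs.le]
    _ = ENNReal.ofReal s * ∫⁻ z : E n, ENNReal.ofReal ((‖z - x‖ + s) ^ (-((n : ℝ) + 1))) :=
        lintegral_const_mul' _ _ ENNReal.ofReal_ne_top
    _ ≤ ENNReal.ofReal s * ENNReal.ofReal (C / s) := by
        gcongr
        exact h s x hs
    _ = ENNReal.ofReal C := by
        rw [← ENNReal.ofReal_mul hs.le]
        congr 1
        field_simp

theorem meas_ker (a s : ℝ) (x : E n) :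
    Measurable (fun z : E n => ENNReal.ofReal (ker n a s (z - x))) := by
  unfold ker
  fun_prop

theorem KM_add {a C : ℝ} (hC : ∀ s : ℝ, 0 < s → ∀ x : E n,
    ∫⁻ z, ENNReal.ofReal (ker n a s (z - x)) ≤ ENNReal.ofReal C)
    {g h : E n → ℝ≥0∞} {c : ℝ≥0∞} (hgh : ∀ z, g z ≤ h z + c) (x : E n) :
    KM a g x ≤ KM a h x + ENNReal.ofReal C * c := by
  unfold KM
  refine iSup₂_le fun s hs => ?_
  calc ∫⁻ z, ENNReal.ofReal (ker n a s (z - x)) * g z
      ≤ ∫⁻ z, (ENNReal.ofReal (ker n a s (z - x)) * h z +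
          ENNReal.ofReal (ker n a s (z - x)) * c) := by
        refine lintegral_mono fun z => ?_
        rw [← mul_add]
        gcongr
        exact hgh z
    _ = (∫⁻ z, ENNReal.ofReal (ker n a s (z - x)) * h z) +
          ∫⁻ z, ENNReal.ofReal (ker n a s (z - x)) * c :=
        lintegral_add_right _ ((meas_ker a s x).mul_const c)
    _ ≤ _ := by
        refine add_le_add ?_ ?_
        · exact le_iSup₂ (f := fun (s : ℝ) (_ : 0 < s) =>
            ∫⁻ z, ENNReal.ofReal (ker n a s (z - x)) * h z) s hs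
        · rw [lintegral_mul_const _ (meas_ker a s x)]
          gcongr
          exact hC s hs x

theorem pd_shift (F : Y n → V n) (c X : Y n) (i : Option (Fin n)) :
    pd i (fun Z => F (Z + c)) X = pd i F (X + c) := by
  unfold pd
  rw [fderiv_comp_add_right]

theorem adm_shift {F : Y n → V n} (hF : CR F)
    (hb : ∀ δ : ℝ, 0 < δ → ∃ B : ℝ, ∀ X : Y n, δ ≤ X.2 → ‖F X‖ ≤ B) {ε : ℝ} (hε : 0 < ε) :
    Adm (fun Z => F (Z + ((0 : E n), ε))) := by
  obtain ⟨B, hB⟩ := hb (ε / 2) (by positivity)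
  have key : ∀ X ∈ Hs n (-(ε / 2)), ε / 2 ≤ (X + ((0 : E n), ε)).2 := by
    intro X hX
    have h1 : -(ε / 2) < X.2 := hX
    have h2 : (X + ((0 : E n), ε)).2 = X.2 + ε := rfl
    rw [h2]
    linarith
  have key' : ∀ X ∈ Hs n (-(ε / 2)), 0 < (X + ((0 : E n), ε)).2 := fun X hX =>
    lt_of_lt_of_le (by positivity) (key X hX)
  refine ⟨ε / 2, B, by positivity, ⟨?_, ?_, ?_⟩, fun X hX => hB _ (key X hX)⟩
  · exact hF.smooth.comp (contDiff_id.add contDiff_const).contDiffOn (fun X hX => key' X hX)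
  · intro X hX i j
    rw [pd_shift, pd_shift]
    exact hF.symm _ (key' X hX) i j
  · intro X hX
    simp only [pd_shift]
    exact hF.trace _ (key' X hX)

theorem rho_le {σ : ℝ} (hσ : 0 < σ) (F : Y n → V n) (X : Y n) : rho σ F X ≤ ‖F X‖ + σ := by
  unfold rho
  refine Real.sqrt_le_iff.2 ⟨by positivity, ?_⟩
  nlinarith [mul_nonneg (norm_nonneg (F X)) hσ.le]

theorem rho_pow_le {σ q : ℝ} (hσ : 0 < σ) (hq0 : 0 ≤ q) (hq1 : q ≤ 1) (F : Y n → V n)
    (X : Y n) : rho σ F X ^ q ≤ ‖F X‖ ^ q + σ ^ q :=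
  (Real.rpow_le_rpow (rho_pos hσ F X).le (rho_le hσ F X) hq0).trans
    (Real.rpow_add_le_add_rpow (norm_nonneg _) hσ.le hq0 hq1)

end END

open END in
theorem t_END : T_END := by
  intro n h2 _ hI hS
  obtain ⟨q, C, A, hq, hqp, hC, hA, hS⟩ := hS
  obtain ⟨D, hD, hker⟩ := lint_ker hI
  have hq0 : 0 < q := by linarith
  have hq1 : q ≤ 1 := (hqp.trans (p0_lt_one h2)).le
  refine ⟨q, hq0, hqp, (n : ℝ) + 1, C, A, by linarith, hC, hA, ?_⟩
  intro F hF hb ε hε x y t ht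
  have hadm := adm_shift hF hb hε
  set W : ℝ := C * (1 + ‖y - x‖ / t) ^ A with hW
  have hW0 : 0 ≤ W := by positivity
  have main : ∀ σ : ℝ, 0 < σ → ENNReal.ofReal (‖F (y, ε + t)‖ ^ q) ≤
      ENNReal.ofReal W * KM ((n : ℝ) + 1) (fun z => ENNReal.ofReal (‖F (z, ε)‖ ^ q)) x +
        ENNReal.ofReal (W * D * σ ^ q) := by
    intro σ hσ
    have h1 := hS σ _ hσ hadm x (y, t) ht
    have e1 : ((y, t) : Y n) + ((0 : E n), ε) = (y, ε + t) := by
      ext <;> simp [add_comm]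
    have e2 : ∀ z : E n, ((z, 0) : Y n) + ((0 : E n), ε) = (z, ε) := by
      intro z
      ext <;> simp
    have h3 : ‖F (y, ε + t)‖ ^ q ≤ rho σ (fun Z => F (Z + ((0 : E n), ε))) (y, t) ^ q := by
      refine Real.rpow_le_rpow (norm_nonneg _) ?_ hq0.le
      have := norm_le_rho σ (fun Z => F (Z + ((0 : E n), ε))) (y, t)
      simpa only [e1] using this
    have h4 : ∀ z : E n,
        ENNReal.ofReal (rho σ (fun Z => F (Z + ((0 : E n), ε))) (z, 0) ^ q) ≤
          ENNReal.ofReal (‖F (z, ε)‖ ^ q) + ENNReal.ofReal (σ ^ q) := by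
      intro z
      rw [← ENNReal.ofReal_add (by positivity) (by positivity)]
      refine ENNReal.ofReal_le_ofReal ?_
      have := rho_pow_le hσ hq0.le hq1 (fun Z => F (Z + ((0 : E n), ε))) (z, 0)
      simpa only [e2] using this
    have h5 := KM_add hker h4 x
    calc ENNReal.ofReal (‖F (y, ε + t)‖ ^ q)
        ≤ ENNReal.ofReal (rho σ (fun Z => F (Z + ((0 : E n), ε))) (y, t) ^ q) :=
          ENNReal.ofReal_le_ofReal h3
      _ ≤ _ := h1
      _ ≤ ENNReal.ofReal W *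
          (KM ((n : ℝ) + 1) (fun z => ENNReal.ofReal (‖F (z, ε)‖ ^ q)) x +
            ENNReal.ofReal D * ENNReal.ofReal (σ ^ q)) := by
          gcongr
      _ = _ := by
          rw [mul_add, ENNReal.ofReal_mul (mul_nonneg hW0 hD), ENNReal.ofReal_mul hW0, mul_assoc]
  refine ENNReal.le_of_forall_pos_le_add fun η hη _ => ?_
  have hη' : (0 : ℝ) < η := hη
  have hp : 0 < (η : ℝ) / (W * D + 1) := by positivity
  have h6 := main (((η : ℝ) / (W * D + 1)) ^ q⁻¹) (Real.rpow_pos_of_pos hp _)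
  refine h6.trans (add_le_add le_rfl ?_)
  rw [Real.rpow_inv_rpow hp.le hq0.ne', ← ENNReal.ofReal_coe_nnreal]
  refine ENNReal.ofReal_le_ofReal ?_
  have hWD : 0 ≤ W * D := mul_nonneg hW0 hD
  rw [mul_div_assoc', div_le_iff₀ (by positivity)]
  nlinarith

end Pool.Agent.RZ
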