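import Pool.Agent.Lib.RZ.Blue

set_option autoImplicit false

open MeasureTheory Metric Set Filter
open scoped ENNReal ContDiff Topology

noncomputable section

namespace Pool.Agent.RZ

open Pool.Agent.HP

namespace EXA

variable {n : ℕ}

theorem pw (n : ℕ) (q K : ℝ) {g : ℝ} (hg : 0 < g) :
    ((g ^ n)⁻¹) ^ (q - 2) * (K / g ^ (2 * (n + 1))) = K / g ^ (2 + (n : ℝ) * q) := by
  rw [← Real.rpow_natCast g n, ← Real.rpow_neg hg.le, ← Real.rpow_mul hg.le,
    ← Real.rpow_natCast g (2 * (n + 1)), div_eq_mul_inv, div_eq_mul_inv, ← Real.rpow_neg hg.le,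
    ← Real.rpow_neg hg.le, mul_left_comm, ← Real.rpow_add hg]
  push_cast
  ring_nf

theorem key (n : ℕ) {q K gX gZ gP ρ : ℝ} (hX : 0 < gX) (hZ : 0 < gZ) (hP : 0 < gP) (hρ : 0 < ρ)
    (hK : 0 ≤ K) (hq : 0 ≤ q) (hq' : (n : ℝ) * q ≤ n - 1) (h1 : gX ≤ 5 * gZ)
    (h2 : gP ≤ gX * (1 + 6 / ρ)) :
    ((gX ^ n)⁻¹) ^ (q - 2) * (K / gZ ^ (2 * (n + 1))) ≤
      300 ^ (n + 1) * (1 + ρ ^ (-((n : ℝ) + 1))) *
        (((gP ^ n)⁻¹) ^ (q - 2) * (K / gP ^ (2 * (n + 1)))) := by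
  have h3 : K / gZ ^ (2 * (n + 1)) ≤ 25 ^ (n + 1) * (K / gX ^ (2 * (n + 1))) := by
    have h4 : gX ^ (2 * (n + 1)) ≤ 25 ^ (n + 1) * gZ ^ (2 * (n + 1)) := by
      refine (pow_le_pow_left₀ hX.le h1 _).trans (le_of_eq ?_)
      rw [mul_pow, pow_mul]
      norm_num
    rw [← mul_div_assoc, div_le_div_iff₀ (by positivity) (by positivity)]
    nlinarith [mul_le_mul_of_nonneg_left h4 hK]
  have hw : (1 : ℝ) ≤ 1 + 6 / ρ := le_add_of_nonneg_right (by positivity)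
  have ht : 0 ≤ 2 + (n : ℝ) * q := by positivity
  have h5 : (1 + 6 / ρ) ^ (2 + (n : ℝ) * q) ≤ 12 ^ (n + 1) * (1 + ρ ^ (-((n : ℝ) + 1))) := by
    have h6 : (1 + 6 / ρ) ^ (2 + (n : ℝ) * q) ≤ (1 + 6 / ρ) ^ (n + 1) := by
      rw [← Real.rpow_natCast]
      exact Real.rpow_le_rpow_of_exponent_le hw (by push_cast; linarith)
    have h7 : ρ ^ (-((n : ℝ) + 1)) = (ρ⁻¹) ^ (n + 1) := by
      rw [Real.rpow_neg hρ.le, inv_pow, ← Real.rpow_natCast]
      push_cast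
      rfl
    rw [h7]
    refine h6.trans ?_
    have h9 : (0 : ℝ) < ρ⁻¹ := inv_pos.2 hρ
    rcases le_total 1 ρ⁻¹ with h | h
    · have h8 : 1 + 6 / ρ ≤ 12 * ρ⁻¹ := by rw [div_eq_mul_inv]; linarith
      refine (pow_le_pow_left₀ (by positivity) h8 _).trans ?_
      rw [mul_pow]
      exact mul_le_mul_of_nonneg_left (le_add_of_nonneg_left zero_le_one) (by positivity)
    · have h8 : 1 + 6 / ρ ≤ 12 := by rw [div_eq_mul_inv]; linarith
      refine (pow_le_pow_left₀ (by positivity) h8 _).trans ?_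
      exact le_mul_of_one_le_right (by positivity) (le_add_of_nonneg_right (by positivity))
  have h10 : gP ^ (2 + (n : ℝ) * q) ≤
      gX ^ (2 + (n : ℝ) * q) * (12 ^ (n + 1) * (1 + ρ ^ (-((n : ℝ) + 1)))) := by
    refine (Real.rpow_le_rpow hP.le h2 ht).trans ?_
    rw [Real.mul_rpow hX.le (by positivity)]
    exact mul_le_mul_of_nonneg_left h5 (by positivity)
  have h11 : K / gX ^ (2 + (n : ℝ) * q) ≤
      12 ^ (n + 1) * (1 + ρ ^ (-((n : ℝ) + 1))) * (K / gP ^ (2 + (n : ℝ) * q)) := by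
    rw [← mul_div_assoc, div_le_div_iff₀ (by positivity) (by positivity)]
    nlinarith [mul_le_mul_of_nonneg_left h10 hK]
  refine (mul_le_mul_of_nonneg_left h3 (by positivity)).trans ?_
  rw [mul_left_comm, pw n q K hX, pw n q K hP, show (300 : ℝ) = 25 * 12 by norm_num, mul_pow,
    mul_assoc, mul_assoc, ← mul_assoc (12 ^ (n + 1))]
  exact mul_le_mul_of_nonneg_left h11 (by positivity)

theorem sum_sq (v : V n) (hv : v ≠ 0) (d : ℝ) :
    ∑ i, ‖(EuclideanSpace.single i (1 : ℝ) : V n) - (d * v i / ‖v‖ ^ 2) • v‖ ^ 2 =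
      (n + 1) - 2 * d + d ^ 2 := by
  have h0 : ‖v‖ ^ 2 ≠ 0 := by positivity
  have h1 : ∀ i, ‖(EuclideanSpace.single i (1 : ℝ) : V n) - (d * v i / ‖v‖ ^ 2) • v‖ ^ 2 =
      1 + (d ^ 2 - 2 * d) / ‖v‖ ^ 2 * v i ^ 2 := fun i => by
    rw [norm_sub_sq_real, inner_smul_right, EuclideanSpace.inner_single_left, norm_smul, mul_pow,
      Real.norm_eq_abs, sq_abs]
    simp only [PiLp.norm_single, norm_one, map_one]
    field_simp
    ring
  simp only [h1]
  rw [Finset.sum_add_distrib, ← Finset.mul_sum, ← EuclideanSpace.real_norm_sq_eq]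
  simp only [Finset.sum_const, Finset.card_univ, Fintype.card_option, Fintype.card_fin]
  field_simp
  simp only [nsmul_eq_mul]
  push_cast
  ring

theorem rp {g : ℝ} (hg : 0 < g) (n : ℕ) : (g ^ 2) ^ (-((n : ℝ) + 1) / 2) = (g ^ (n + 1))⁻¹ := by
  rw [← Real.rpow_natCast g 2, ← Real.rpow_mul hg.le, ← Real.rpow_natCast g (n + 1),
    ← Real.rpow_neg hg.le]
  push_cast
  ring_nf

theorem hn_eq {U : Set (Y n)} (hU : IsOpen U) {Φ : Y n → V n} {a : V n} {m : ℝ}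
    (h : ∀ X ∈ U, a + m • vec X ≠ 0 ∧ Φ X = (‖a + m • vec X‖ ^ (n + 1))⁻¹ • (a + m • vec X))
    {X : Y n} (hX : X ∈ U) :
    hn Φ X ^ 2 = (n + 1) * n * m ^ 2 / ‖a + m • vec X‖ ^ (2 * (n + 1)) := by
  have hg : 0 < ‖a + m • vec X‖ := norm_pos_iff.2 (h X hX).1
  have hG : HasFDerivAt (fun Z : Y n => a + m • vec Z) (m • vec) X :=
    ((vec (n := n)).hasFDerivAt.const_smul m).const_add a
  have h1 := ((hG.norm_sq.rpow_const (p := -((n : ℝ) + 1) / 2) (Or.inl (by positivity))).smul hG)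
  have h2 : Φ =ᶠ[𝓝 X] fun Z => (‖a + m • vec Z‖ ^ 2) ^ (-((n : ℝ) + 1) / 2) • (a + m • vec Z) := by
    filter_upwards [hU.mem_nhds hX] with Z hZ
    rw [(h Z hZ).2, rp (norm_pos_iff.2 (h Z hZ).1)]
  have h3 := (h1.congr_of_eventuallyEq h2).fderiv
  have h4 : ∀ i, jac Φ X i = (m * (‖a + m • vec X‖ ^ (n + 1))⁻¹) •
      ((EuclideanSpace.single i (1 : ℝ) : V n) -
        (((n : ℝ) + 1) * (a + m • vec X) i / ‖a + m • vec X‖ ^ 2) • (a + m • vec X)) := fun i => by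
    rw [jac, pd, h3, Real.rpow_sub_one (by positivity), rp hg]
    simp only [add_apply, smul_apply,
      ContinuousLinearMap.smulRight_apply, ContinuousLinearMap.comp_apply, innerSL_apply_apply,
      vec_dir, inner_smul_right, EuclideanSpace.inner_single_right, smul_eq_mul, smul_smul,
      smul_sub, nsmul_eq_mul, conj_trivial]
    rw [sub_eq_add_neg, ← neg_smul]
    refine congrArg₂ (· + ·) (by rw [mul_comm]) (congrArg (· • (a + m • vec X)) ?_)
    push_cast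
    field_simp
  rw [hn_sq, hn2]
  simp only [h4, norm_smul, mul_pow, Real.norm_eq_abs, sq_abs]
  rw [← Finset.mul_sum, sum_sq _ (h X hX).1, mul_comm 2, pow_mul]
  field_simp
  ring

theorem norm_eq {v : V n} (hv : v ≠ 0) : ‖(‖v‖ ^ (n + 1))⁻¹ • v‖ = (‖v‖ ^ n)⁻¹ := by
  have hg : 0 < ‖v‖ := norm_pos_iff.2 hv
  rw [norm_smul, norm_inv, norm_pow, norm_norm]
  field_simp
  ring

theorem le1 (X : Y n) : ‖X.1‖ ≤ ‖vec X‖ :=
  abs_le_of_sq_le_sq' (by rw [norm_vec_sq]; nlinarith [sq_nonneg X.2]) (norm_nonneg _) |>.2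

theorem le2 (X : Y n) : |X.2| ≤ ‖vec X‖ :=
  abs_le_of_sq_le_sq (by rw [norm_vec_sq]; nlinarith [sq_nonneg ‖X.1‖]) (norm_nonneg _)

theorem le3 (X : Y n) : ‖vec X‖ ≤ ‖X.1‖ + |X.2| :=
  abs_le_of_sq_le_sq' (by
    rw [norm_vec_sq, add_sq, sq_abs]
    nlinarith [mul_nonneg (norm_nonneg X.1) (abs_nonneg X.2)]) (by positivity) |>.2

theorem far {ε s : ℝ} {W X : Y n} (hW : W ∉ box n 2 (ε / 4) 2) (h1 : ‖X.1‖ + s ≤ 2)
    (h2 : ε / 4 + s ≤ X.2) (h3 : X.2 + s ≤ 2) : s ≤ ‖vec (X - W)‖ := by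
  by_contra h
  rw [not_le] at h
  have h4 := (le1 _).trans_lt h
  have h5 := abs_lt.1 ((le2 _).trans_lt h)
  rw [Prod.fst_sub] at h4
  rw [Prod.snd_sub] at h5
  have h6 := norm_sub_norm_le W.1 X.1
  rw [norm_sub_rev] at h6
  exact hW ⟨by linarith, by linarith [h5.2], by linarith [h5.1]⟩

theorem tri (X Z W : Y n) : ‖vec (X - W)‖ ≤ ‖vec (Z - W)‖ + (‖X.1 - Z.1‖ + |X.2 - Z.2|) := by
  have h : vec (X - W) = vec (Z - W) + vec (X - Z) := by
    rw [← map_add]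
    exact congrArg _ (by abel)
  rw [h]
  exact (norm_add_le _ _).trans (add_le_add le_rfl (le3 _))

end EXA

theorem t_EXA : T_EXA := by
  intro n hn _
  have hn' : (2 : ℝ) ≤ n := by exact_mod_cast hn
  have h300 : (1 : ℝ) ≤ 300 ^ (n + 1) := one_le_pow₀ (by norm_num)
  refine ⟨300 ^ (n + 1) + 2 * (n + 1), by linarith, fun ε Φ a m hε hε1 hm h => ?_⟩
  have hU : IsOpen (box n 2 (ε / 4) 2) :=
    (isOpen_lt (continuous_norm.comp continuous_fst) continuous_const).inter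
      ((isOpen_lt continuous_const continuous_snd).inter (isOpen_lt continuous_snd continuous_const))
  obtain ⟨W, hW⟩ := vec_surj (-(m⁻¹ • a))
  have hG : ∀ X : Y n, a + m • vec X = m • vec (X - W) := fun X => by
    rw [map_sub, hW, sub_neg_eq_add, smul_add, smul_smul, mul_inv_cancel₀ hm, one_smul, add_comm]
  have hN : ∀ X : Y n, ‖a + m • vec X‖ = |m| * ‖vec (X - W)‖ := fun X => by
    rw [hG, norm_smul, Real.norm_eq_abs]
  have hWU : W ∉ box n 2 (ε / 4) 2 := fun hh => (h W hh).1 (by rw [hG, sub_self, map_zero, smul_zero])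
  have hm0 : 0 < |m| := abs_pos.2 hm
  have hΦ : ∀ X ∈ box n 2 (ε / 4) 2, ‖Φ X‖ = (‖a + m • vec X‖ ^ n)⁻¹ := fun X hX => by
    rw [(h X hX).2, EXA.norm_eq (h X hX).1]
  have hg : ∀ X ∈ box n 2 (ε / 4) 2, 0 < ‖a + m • vec X‖ := fun X hX => norm_pos_iff.2 (h X hX).1
  have hP : PP n ∈ box n 2 (ε / 4) 2 := ⟨by simp [PP], by simp only [PP]; linarith, by simp [PP]⟩
  refine ⟨fun X hX => ⟨?_, fun h0 => ?_⟩, ?_, W.1, fun q hq hq' x hx Z hZ => ?_⟩
  · have := hg X hX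
    rw [← norm_ne_zero_iff, hΦ X hX]
    positivity
  · have h1 := EXA.hn_eq hU h hX
    have := hg X hX
    rw [h0] at h1
    have h2 : (0 : ℝ) < (n + 1) * n * m ^ 2 / ‖a + m • vec X‖ ^ (2 * (n + 1)) := by positivity
    rw [← h1] at h2
    simp at h2
  · have h1 : 3 / 4 ≤ ‖vec (PP n - W)‖ :=
      EXA.far hWU (by simp only [PP, norm_zero]; norm_num) (by simp only [PP]; linarith)
        (by simp only [PP]; norm_num)
    have h2 := hg _ hP
    refine (abs_le_of_sq_le_sq' ?_ (by positivity)).2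
    rw [EXA.hn_eq hU h hP, hΦ _ hP, mul_pow, inv_pow, ← div_eq_mul_inv,
      div_le_div_iff₀ (by positivity) (by positivity), mul_comm 2 (n + 1), pow_mul,
      pow_succ' ‖a + m • vec (PP n)‖ n, mul_pow, ← mul_assoc]
    refine mul_le_mul_of_nonneg_right ?_ (by positivity)
    rw [hN, mul_pow, sq_abs, mul_comm (m ^ 2), ← mul_assoc]
    refine mul_le_mul_of_nonneg_right ?_ (by positivity)
    rw [← mul_pow]
    have h3 : (n : ℝ) + 1 ≤ (300 ^ (n + 1) + 2 * (n + 1)) * ‖vec (PP n - W)‖ := by nlinarith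
    nlinarith
  · rw [mem_ball_zero_iff] at hx
    rw [mem_closedBall, Prod.dist_eq, max_le_iff, dist_eq_norm, Real.dist_eq] at hZ
    obtain ⟨hZ1, hZ2⟩ := hZ
    have hZ3 := abs_le.1 hZ2
    have hZ4 : ‖Z.1‖ ≤ ‖x‖ + ε / 2 := by linarith [norm_sub_norm_le Z.1 x]
    simp only at hZ1 hZ2 hZ3
    have hZU : Z ∈ box n 2 (ε / 4) 2 := ⟨by linarith, by linarith [hZ3.1], by linarith [hZ3.2]⟩
    have hXU : ((x, ε) : Y n) ∈ box n 2 (ε / 4) 2 :=
      ⟨by simp only; linarith, by simp only; linarith, by simp only; linarith⟩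
    have r1 : ε / 4 ≤ ‖vec (Z - W)‖ :=
      EXA.far hWU (by linarith) (by linarith [hZ3.1]) (by linarith [hZ3.2])
    have r2 : 3 * ε / 4 ≤ ‖vec (((x, ε) : Y n) - W)‖ :=
      EXA.far hWU (by simp only; linarith) (by simp only; linarith) (by simp only; linarith)
    have r3 : ‖x - W.1‖ ≤ ‖vec (((x, ε) : Y n) - W)‖ := EXA.le1 (((x, ε) : Y n) - W)
    have r4 := EXA.tri ((x, ε) : Y n) Z W
    have r5 := EXA.tri (PP n) ((x, ε) : Y n) W
    rw [norm_sub_rev, abs_sub_comm] at r4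
    simp only [PP, zero_sub, norm_neg] at r5
    rw [abs_of_nonneg (by linarith)] at r5
    have hρ : 0 < ‖x - W.1‖ + ε := by positivity
    have hq2 : (n : ℝ) * q ≤ n - 1 := by
      rw [p0, le_div_iff₀ (by linarith)] at hq'
      linarith
    have k1 : ‖a + m • vec ((x, ε) : Y n)‖ ≤ 5 * ‖a + m • vec Z‖ := by
      rw [hN, hN, mul_left_comm]
      exact mul_le_mul_of_nonneg_left (by simp only at r4; linarith) hm0.le
    have k2 : ‖a + m • vec (PP n)‖ ≤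
        ‖a + m • vec ((x, ε) : Y n)‖ * (1 + 6 / (‖x - W.1‖ + ε)) := by
      rw [hN, hN, mul_assoc]
      refine mul_le_mul_of_nonneg_left ?_ hm0.le
      have k3 : 2 ≤ ‖vec (((x, ε) : Y n) - W)‖ * (6 / (‖x - W.1‖ + ε)) := by
        rw [← mul_div_assoc, le_div_iff₀ hρ]
        linarith
      simp only [PP]
      linarith
    rw [EXA.hn_eq hU h hZU, EXA.hn_eq hU h hP, hΦ _ hXU, hΦ _ hP]
    refine (EXA.key n (hg _ hXU) (hg _ hZU) (hg _ hP) hρ (by positivity) hq hq2 k1 k2).trans ?_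
    have := hg _ hP
    exact mul_le_mul_of_nonneg_right (mul_le_mul_of_nonneg_right (by linarith) (by positivity))
      (by positivity)

end Pool.Agent.RZ
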