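import Pool.Agent.Lib.RZ.Blue

set_option autoImplicit false

open MeasureTheory Metric Set Filter
open scoped ENNReal ContDiff Topology

noncomputable section

namespace Pool.Agent.RZ

open Pool.Agent.HP

namespace FIN

variable {n : ℕ}

theorem ball_sub (a : ℝ) (Z : Y n) : ball Z (Z.2 + a) ⊆ Hs n (-a) := by
  intro W hW
  have h1 : dist W.2 Z.2 ≤ dist W Z := by
    rw [Prod.dist_eq]
    exact le_max_right _ _
  have h2 := mem_ball.1 hW
  rw [Real.dist_eq] at h1
  have h3 := neg_abs_le (W.2 - Z.2)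
  show -a < W.2
  linarith

theorem rpow_lip {σ q u v : ℝ} (hσ : 0 < σ) (hq : 0 ≤ q) (hq1 : q ≤ 1) (hu : σ ≤ u)
    (hv : σ ≤ v) : u ^ q ≤ v ^ q + σ ^ (q - 1) * |u - v| := by
  have hv0 : 0 < v := hσ.trans_le hv
  have hu0 : 0 < u := hσ.trans_le hu
  have hs : 0 ≤ σ ^ (q - 1) := Real.rpow_nonneg hσ.le _
  rcases le_total u v with h | h
  · have h1 := Real.rpow_le_rpow hu0.le h hq
    have h2 : 0 ≤ σ ^ (q - 1) * |u - v| := mul_nonneg hs (abs_nonneg _)
    linarith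
  · rw [abs_of_nonneg (sub_nonneg.2 h)]
    have e1 : u ^ q = u ^ (q - 1) * u := by
      rw [← Real.rpow_add_one hu0.ne']
      simp
    have e2 : v ^ q = v ^ (q - 1) * v := by
      rw [← Real.rpow_add_one hv0.ne']
      simp
    have h1 : u ^ (q - 1) ≤ v ^ (q - 1) :=
      Real.rpow_le_rpow_of_nonpos hv0 h (by linarith)
    have h2 : v ^ (q - 1) ≤ σ ^ (q - 1) :=
      Real.rpow_le_rpow_of_nonpos hσ hv (by linarith)
    have h3 : u ^ (q - 1) * u ≤ v ^ (q - 1) * u := mul_le_mul_of_nonneg_right h1 hu0.le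
    have h4 : v ^ (q - 1) * (u - v) ≤ σ ^ (q - 1) * (u - v) :=
      mul_le_mul_of_nonneg_right h2 (sub_nonneg.2 h)
    rw [e1, e2]
    nlinarith

theorem rho_le {σ M : ℝ} (hσ : 0 < σ) (F : Y n → V n) (X : Y n) (h : ‖F X‖ ≤ M) :
    rho σ F X ≤ M + σ := by
  have h0 := norm_nonneg (F X)
  unfold rho
  refine Real.sqrt_le_iff.2 ⟨by linarith, ?_⟩
  nlinarith

/-- weighted integrability of functions decaying like `t ^ (-2)` -/
theorem II_lt_top (hA : St_API n) (hI : St_INT n) (f : Y n → ℝ) (K b : ℝ) (hK : 0 ≤ K)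
    (hb : 0 < b) (hf : ∀ X ∈ Hs n 0, f X ≤ K * (X.2 + b) ^ (-2 : ℝ)) :
    II (Hs n 0) (fun X => vv X * f X) < ⊤ := by
  obtain ⟨C, hC, hI⟩ := hI
  let h : ℝ → ℝ := fun t => t * 2 ^ (n + 1) * (K * (t + b) ^ (-2 : ℝ))
  let g : Y n → ℝ≥0∞ := fun X => ENNReal.ofReal (h X.2) *
    ENNReal.ofReal ((‖X.1 - 0‖ + (X.2 + 1)) ^ (-((n : ℝ) + 1)))
  have hg : Measurable g := by
    refine Measurable.mul (Measurable.ennreal_ofReal ?_) (Measurable.ennreal_ofReal ?_)
    · simp only [h]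
      fun_prop
    · fun_prop
  have hS : Hs n 0 = (univ : Set (E n)) ×ˢ Ioi (0 : ℝ) := by
    ext X
    simp [Hs]
  have h1 : II (Hs n 0) (fun X => vv X * f X) ≤ ∫⁻ X in Hs n 0, g X := by
    refine setLIntegral_mono' (isOpen_Hs 0).measurableSet fun X hX => ?_
    have ht : 0 < X.2 := hX
    have hh : 0 ≤ h X.2 := by
      simp only [h]
      positivity
    simp only [g]
    rw [← ENNReal.ofReal_mul hh]
    refine ENNReal.ofReal_le_ofReal ?_
    have hw := hA.wle X ht.le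
    have hw0 := (hA.wpos X (by linarith)).2.1
    have hb' : 0 ≤ K * (X.2 + b) ^ (-2 : ℝ) := by positivity
    calc vv X * f X ≤ vv X * (K * (X.2 + b) ^ (-2 : ℝ)) :=
          mul_le_mul_of_nonneg_left (hf X hX) (mul_nonneg ht.le hw0.le)
      _ ≤ X.2 * (2 ^ (n + 1) * (‖X.1‖ + X.2 + 1) ^ (-((n : ℝ) + 1))) *
            (K * (X.2 + b) ^ (-2 : ℝ)) :=
          mul_le_mul_of_nonneg_right (mul_le_mul_of_nonneg_left hw ht.le) hb'
      _ = h X.2 * (‖X.1 - 0‖ + (X.2 + 1)) ^ (-((n : ℝ) + 1)) := by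
          simp only [h, sub_zero, add_assoc]
          ring
  have h2 : ∫⁻ X in Hs n 0, g X = ∫⁻ t in Ioi (0 : ℝ), ∫⁻ x : E n, g (x, t) := by
    rw [hS, Measure.volume_eq_prod, ← Measure.prod_restrict, Measure.restrict_univ,
      lintegral_prod_symm' g hg]
  have h3 : ∫⁻ t in Ioi (0 : ℝ), ∫⁻ x : E n, g (x, t) ≤
      ∫⁻ t in Ioi (0 : ℝ), ENNReal.ofReal (2 ^ (n + 1) * K * C * (t + b) ^ (-2 : ℝ)) := by
    refine setLIntegral_mono' measurableSet_Ioi fun t ht => ?_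
    have ht : 0 < t := ht
    have hh : 0 ≤ h t := by
      simp only [h]
      positivity
    simp only [g]
    rw [lintegral_const_mul' _ _ ENNReal.ofReal_ne_top]
    refine (mul_le_mul_right (hI (t + 1) 0 (by linarith)) _).trans ?_
    rw [← ENNReal.ofReal_mul hh]
    refine ENNReal.ofReal_le_ofReal ?_
    have hq : t / (t + 1) ≤ 1 := by
      rw [div_le_one (by linarith)]
      linarith
    have hp : 0 ≤ 2 ^ (n + 1) * K * C * (t + b) ^ (-2 : ℝ) := by positivity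
    calc h t * (C / (t + 1)) = 2 ^ (n + 1) * K * C * (t + b) ^ (-2 : ℝ) * (t / (t + 1)) := by
          simp only [h]
          ring
      _ ≤ _ := mul_le_of_le_one_right hp hq
  have h4 : IntegrableOn (fun t : ℝ => 2 ^ (n + 1) * K * C * (t + b) ^ (-2 : ℝ)) (Ioi 0) :=
    (integrableOn_add_rpow_Ioi_of_lt (by norm_num) (by linarith)).const_mul _
  exact (h1.trans (h2.le.trans h3)).trans_lt h4.lintegral_lt_top

end FIN

theorem t_FIN : T_FIN := by
  intro n h2 hB hG hI q σ F hq hq0 hσ hF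
  have hA := hB.api
  obtain ⟨a, M, ha, hcr, hM⟩ := hF
  obtain ⟨C, hC, hG⟩ := hG
  have hp1 := p0_lt_one h2
  have hM0 : 0 ≤ M := (norm_nonneg _).trans (hM (0, 0) (by show -a < 0; linarith))
  have hCM : 0 ≤ C * M := mul_nonneg (by linarith) hM0
  have hgr : ∀ Z : Y n, ∀ s : ℝ, 0 < s → s ≤ Z.2 + a → hn F Z ≤ C * M / s := by
    intro Z s hs hZ
    refine (hG F Z (Z.2 + a) M (by linarith) (hcr.mono (FIN.ball_sub a Z))
      (fun W hW => hM W (FIN.ball_sub a Z hW))).trans ?_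
    exact div_le_div_of_nonneg_left hCM hs hZ
  have hs2 : 0 ≤ σ ^ (q - 2) := Real.rpow_nonneg hσ.le _
  have hsq : ∀ u t : ℝ, 0 < t → 0 ≤ u → u ≤ C * M / (t / 2 + a) →
      σ ^ (q - 2) * u ^ 2 ≤ σ ^ (q - 2) * (2 * C * M) ^ 2 * (t + 2 * a) ^ (-2 : ℝ) := by
    intro u t ht hu h
    have e : (C * M / (t / 2 + a)) ^ 2 = (2 * C * M) ^ 2 * (t + 2 * a) ^ (-2 : ℝ) := by
      rw [Real.rpow_neg (by linarith), Real.rpow_two]
      field_simp
    rw [mul_assoc, ← e]
    exact mul_le_mul_of_nonneg_left (pow_le_pow_left₀ hu h 2) hs2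
  have hK : 0 ≤ σ ^ (q - 2) * (2 * C * M) ^ 2 := by positivity
  have hrho : ∀ X : Y n, 0 ≤ X.2 → rho σ F X ^ q ≤ (M + σ) ^ q := by
    intro X hX
    exact Real.rpow_le_rpow (rho_pos hσ F X).le
      (FIN.rho_le hσ F X (hM X (by show -a < X.2; linarith))) (by linarith)
  have hR : 0 ≤ (M + σ) ^ q := Real.rpow_nonneg (by linarith) _
  refine ⟨?_, ?_, ?_, ?_, ?_⟩
  · refine FIN.II_lt_top hA hI _ _ (2 * a) hK (by linarith) fun X hX => ?_
    have ht : 0 < X.2 := hX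
    have hn' : nn F X ≤ C * M / (X.2 / 2 + a) := by
      refine hA.nn_le F X _ ht fun Z hZ => hgr Z _ (by linarith) ?_
      have h1 : dist Z.2 X.2 ≤ dist Z X := by
        rw [Prod.dist_eq]
        exact le_max_right _ _
      have h3 := mem_closedBall.1 hZ
      rw [Real.dist_eq] at h1
      have h4 := neg_abs_le (Z.2 - X.2)
      linarith
    refine le_trans ?_ (hsq _ _ ht (nn_nonneg F X) hn')
    have hb : σ ≤ bs σ F X := by
      have h1 := le_rho σ F X
      have h3 := mul_nonneg ht.le (nn_nonneg F X)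
      unfold bs
      linarith
    exact mul_le_mul_of_nonneg_right (Real.rpow_le_rpow_of_nonpos hσ hb (by linarith))
      (sq_nonneg _)
  · refine FIN.II_lt_top hA hI _ _ (2 * a) hK (by linarith) fun X hX => ?_
    have ht : 0 < X.2 := hX
    refine le_trans ?_ (hsq _ _ ht (hn_nonneg F X) (hgr X _ (by linarith) (by linarith)))
    have hr := rho_pos hσ F X
    have hr4 : 0 ≤ rho σ F X ^ (q - 4) := Real.rpow_nonneg hr.le _
    have h1 : hv2 (jac F X) (F X) ≤ hn F X ^ 2 * rho σ F X ^ 2 :=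
      (hA.hv_le F X (F X)).trans (mul_le_mul_of_nonneg_left
        (pow_le_pow_left₀ (norm_nonneg _) (norm_le_rho σ F X) 2) (sq_nonneg _))
    have e : rho σ F X ^ (q - 2) = rho σ F X ^ (q - 4) * rho σ F X ^ 2 := by
      rw [← Real.rpow_two, ← Real.rpow_add hr]
      ring_nf
    have h3 : rho σ F X ^ (q - 2) ≤ σ ^ (q - 2) :=
      Real.rpow_le_rpow_of_nonpos hσ (le_rho σ F X) (by linarith)
    have h0 : 0 ≤ rho σ F X ^ (q - 4) * hv2 (jac F X) (F X) := mul_nonneg hr4 (hv2_nonneg _ _)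
    calc LL q σ F X ≤ rho σ F X ^ (q - 4) * hv2 (jac F X) (F X) :=
          mul_le_of_le_one_left h0 (by linarith)
      _ ≤ rho σ F X ^ (q - 4) * (hn F X ^ 2 * rho σ F X ^ 2) := mul_le_mul_of_nonneg_left h1 hr4
      _ = rho σ F X ^ (q - 2) * hn F X ^ 2 := by rw [e]; ring
      _ ≤ σ ^ (q - 2) * hn F X ^ 2 := mul_le_mul_of_nonneg_right h3 (sq_nonneg _)
  · obtain ⟨C', -, hI⟩ := hI
    have h1 : J0 (fun X => rho σ F X ^ q) ≤ ∫⁻ x : E n, ENNReal.ofReal (2 ^ (n + 1) * (M + σ) ^ q) *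
        ENNReal.ofReal ((‖x - 0‖ + 1) ^ (-((n : ℝ) + 1))) := by
      refine lintegral_mono fun x => ?_
      rw [← ENNReal.ofReal_mul (by positivity)]
      refine ENNReal.ofReal_le_ofReal ?_
      have hw := hA.wle (x, 0) le_rfl
      simp only [add_zero] at hw
      calc ww (x, 0) * rho σ F (x, 0) ^ q
          ≤ 2 ^ (n + 1) * (‖x‖ + 1) ^ (-((n : ℝ) + 1)) * (M + σ) ^ q :=
            mul_le_mul hw (hrho (x, 0) le_rfl) (Real.rpow_nonneg (rho_pos hσ F _).le _)
              (by positivity)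
        _ = _ := by rw [sub_zero]; ring
    rw [lintegral_const_mul' _ _ ENNReal.ofReal_ne_top] at h1
    exact h1.trans_lt (ENNReal.mul_lt_top ENNReal.ofReal_lt_top
      ((hI 1 0 one_pos).trans_lt ENNReal.ofReal_lt_top))
  · have h1 := (hA.cont _ F σ (isOpen_Hs (-a)) hcr).2.2.1
    have h3 : Continuous (fun x : E n => rho σ F (x, 0)) :=
      h1.comp_continuous (continuous_id.prodMk continuous_const)
        (fun x => by show -a < 0; linarith)
    exact h3.rpow_const fun x => Or.inr (by linarith)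
  · have hs1 : 0 ≤ σ ^ (q - 1) := Real.rpow_nonneg hσ.le _
    have hD : 0 ≤ σ ^ (q - 1) * (2 * (C * M / (a / 2))) := by positivity
    refine ⟨(M + σ) ^ q + σ ^ (q - 1) * (2 * (C * M / (a / 2))), fun X hX => ?_⟩
    have ht : 0 < X.2 := hX
    refine ⟨(hrho X ht.le).trans (by linarith), ?_⟩
    have hcv : Convex ℝ (Hs n (-(a / 2))) :=
      (convex_Ioi (-(a / 2))).linear_preimage (LinearMap.snd ℝ (E n) ℝ)
    have hsub : Hs n (-(a / 2)) ⊆ Hs n (-a) := fun Z hZ => by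
      have h1 : -(a / 2) < Z.2 := hZ
      show -a < Z.2
      linarith
    have h1 := hA.lip F _ (C * M / (a / 2)) hcv
      (fun Z hZ => hA.diff _ F (isOpen_Hs (-a)) hcr Z (hsub hZ))
      (fun Z hZ => hgr Z _ (by linarith) (by
        have h1 : -(a / 2) < Z.2 := hZ
        linarith))
      X (by show -(a / 2) < X.2; linarith) (X.1, 0) (by show -(a / 2) < 0; linarith)
    have e : ‖X - (X.1, 0)‖ = X.2 := by
      rw [Prod.norm_def]
      simp [abs_of_pos ht, ht.le]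
    rw [e] at h1
    have h3 := (hA.rho_lip σ F X (X.1, 0)).trans h1
    have h4 := FIN.rpow_lip hσ (by linarith : 0 ≤ q) (by linarith) (le_rho σ F X)
      (le_rho σ F (X.1, 0))
    have h5 := mul_le_mul_of_nonneg_left h3 hs1
    have h6 := mul_nonneg hR ht.le
    nlinarith

end Pool.Agent.RZ
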