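import Pool.Agent.Lib.RZ.Blue

set_option autoImplicit false

open MeasureTheory Metric Set Filter
open scoped ENNReal ContDiff Topology

noncomputable section

namespace Pool.Agent.RZ

open Pool.Agent.HP

namespace GamB

variable {n : ℕ} {L : ℝ} {X Z W : Y n}

lemma pos (hL : 1 ≤ L) (hX : X ∈ Gam n L) : 0 < X.2 :=
  by_contra fun h => by nlinarith [hX.1]

lemma sub (hL : 1 ≤ L) (hX : X ∈ Gam n L) (hZ : Z ∈ closedBall X (X.2 / 2))
    (hW : W ∈ ball Z (X.2 / 4)) : W ∈ Gam n (4 * L + 4) ∧ W ∈ Hs n 0 := by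
  have ht := pos hL hX
  have h1 : ‖W - X‖ ≤ 3 / 4 * X.2 := by
    have := dist_triangle W Z X
    rw [mem_closedBall] at hZ
    rw [mem_ball] at hW
    rw [← dist_eq_norm]
    linarith
  have h2 : |W.2 - X.2| ≤ 3 / 4 * X.2 := (norm_snd_le (W - X)).trans h1
  have h3 : ‖W.1 - X.1‖ ≤ 3 / 4 * X.2 := (norm_fst_le (W - X)).trans h1
  have h4 : ‖W.1‖ ≤ ‖X.1‖ + ‖W.1 - X.1‖ := norm_le_insert' _ _
  have h5 := (abs_le.1 h2).1
  have h6 : L * X.2 ≤ L * (4 * W.2) := mul_le_mul_of_nonneg_left (by linarith) (by linarith)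
  have h7 := hX.1
  have h8 := hX.2
  refine ⟨⟨by nlinarith, by nlinarith⟩, ?_⟩
  change 0 < W.2
  linarith

lemma meas (L : ℝ) : MeasurableSet (Gam n L) :=
  ((isClosed_le (f := fun _ : Y n => (1 : ℝ)) (g := fun X => L * X.2) (by fun_prop)
    (by fun_prop)).inter
    (isClosed_le (f := fun X : Y n => ‖X.1‖) (g := fun X => L * X.2) (by fun_prop)
      (by fun_prop))).measurableSet

lemma fin (n : ℕ) : ∫⁻ X : Y n, ENNReal.ofReal ((1 + ‖X‖) ^ (-((n : ℝ) + 2))) < ⊤ := by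
  have : (volume : Measure (Y n)).IsAddHaarMeasure := Measure.prod.instIsAddHaarMeasure _ _
  refine finite_integral_one_add_norm ?_
  simp

lemma ee (A : St_API n) {C q σ M : ℝ} {F : Y n → V n} (hC : 1 ≤ C)
    (hG : ∀ (X : Y n) (r M : ℝ), 0 < r → CRon (ball X r) F →
      (∀ Z ∈ ball X r, ‖F Z‖ ≤ M) → hn F X ≤ C * M / r) (hL : 1 ≤ L) (hq : 1 / 4 ≤ q) (hq1 : q ≤ 1)
    (hσ : 0 < σ) (hF : CRon (Hs n 0) F) (hM : ∀ X ∈ Gam n (4 * L + 4), rho σ F X ≤ M)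
    (hM0 : 0 < M) (hX : X ∈ Gam n L) : EE q σ F X ≤ 4 * C * M ^ q / X.2 ^ 2 := by
  have ht := pos hL hX
  have h1 : nn F X ≤ C * M / (X.2 / 4) := A.nn_le F X _ ht fun Z hZ =>
    hG Z _ M (by positivity) (hF.mono fun W hW => (sub hL hX hZ hW).2) fun W hW =>
      (norm_le_rho σ F W).trans (hM W (sub hL hX hZ hW).1)
  have h2 := A.mono q _ _ _ _ (by linarith) (by linarith) (rho_pos hσ F X) ht.le (nn_nonneg F X) h1
  have h3 : X.2 * (C * M / (X.2 / 4)) = 4 * C * M := by field_simp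
  have h4 : 0 < 4 * C * M := by positivity
  have h5 : (rho σ F X + 4 * C * M) ^ (q - 2) ≤ (4 * C * M) ^ (q - 2) :=
    Real.rpow_le_rpow_of_nonpos h4 (by linarith [rho_pos hσ F X]) (by linarith)
  have h6 : (4 * C) ^ q ≤ 4 * C := by
    simpa using Real.rpow_le_rpow_of_exponent_le (by linarith : 1 ≤ 4 * C) hq1
  rw [h3] at h2
  refine h2.trans ((mul_le_mul_of_nonneg_right h5 (sq_nonneg _)).trans ?_)
  rw [Real.rpow_sub h4, Real.rpow_two, Real.mul_rpow (by positivity) hM0.le]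
  calc (4 * C) ^ q * M ^ q / (4 * C * M) ^ 2 * (C * M / (X.2 / 4)) ^ 2
      = (4 * C) ^ q * M ^ q / X.2 ^ 2 := by field_simp
    _ ≤ _ := by gcongr

lemma wt (A : St_API n) (hL : 1 ≤ L) (hX : X ∈ Gam n L) :
    vv X / X.2 ^ 2 ≤ 2 ^ (n + 1) * (2 * L) * (1 + ‖X‖) ^ (-((n : ℝ) + 2)) := by
  have ht := pos hL hX
  have h0 : 0 < 1 + ‖X‖ := by positivity
  have h1 : ‖X‖ ≤ ‖X.1‖ + X.2 := by
    rw [Prod.norm_def, Real.norm_of_nonneg ht.le]
    exact max_le (by linarith) (by linarith [norm_nonneg X.1])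
  have h2 : ‖X‖ ≤ L * X.2 := by
    rw [Prod.norm_def, Real.norm_of_nonneg ht.le]
    exact max_le hX.2 (by nlinarith)
  have h3 : (‖X.1‖ + X.2 + 1) ^ (-((n : ℝ) + 1)) ≤ (1 + ‖X‖) ^ (-((n : ℝ) + 1)) :=
    Real.rpow_le_rpow_of_nonpos h0 (by linarith) (neg_nonpos.2 (by positivity))
  have h4 : 1 / X.2 ≤ 2 * L / (1 + ‖X‖) := by
    rw [div_le_div_iff₀ ht h0]
    linarith [hX.1]
  have h5 := (A.wle X ht.le).trans (mul_le_mul_of_nonneg_left h3 (by positivity))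
  calc vv X / X.2 ^ 2 = ww X * (1 / X.2) := by rw [vv]; field_simp
    _ ≤ 2 ^ (n + 1) * (1 + ‖X‖) ^ (-((n : ℝ) + 1)) * (2 * L / (1 + ‖X‖)) :=
      mul_le_mul h5 h4 (by positivity) (by positivity)
    _ = _ := by
      rw [show -((n : ℝ) + 2) = -((n : ℝ) + 1) - 1 by ring, Real.rpow_sub_one h0.ne']
      ring

end GamB

open GamB in
theorem t_GAM : T_GAM := fun n hn B ⟨C, hC, hG⟩ L hL => by
  refine ⟨4 * C * (2 ^ (n + 1) * (2 * L)) *
    (∫⁻ X : Y n, ENNReal.ofReal ((1 + ‖X‖) ^ (-((n : ℝ) + 2)))).toReal, by positivity,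
    fun q σ M F hq hq1 hσ hF hM => ?_⟩
  have hM0 : 0 < M := (rho_pos hσ F (PP n)).trans_le (hM _ ⟨by simp [PP]; linarith, by
    simp [PP]; linarith⟩)
  have h0 : 0 ≤ 4 * C * (2 ^ (n + 1) * (2 * L)) * M ^ q := by positivity
  calc II (Gam n L) (fun X => vv X * EE q σ F X)
      ≤ ∫⁻ X in Gam n L, ENNReal.ofReal (4 * C * (2 ^ (n + 1) * (2 * L)) * M ^ q) *
          ENNReal.ofReal ((1 + ‖X‖) ^ (-((n : ℝ) + 2))) := by
        refine setLIntegral_mono' (meas L) fun X hX => ?_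
        rw [← ENNReal.ofReal_mul h0]
        refine ENNReal.ofReal_le_ofReal ?_
        have ht := pos hL hX
        have hv : 0 ≤ vv X := mul_nonneg ht.le (B.api.wpos X (by linarith)).2.1.le
        calc vv X * EE q σ F X ≤ vv X * (4 * C * M ^ q / X.2 ^ 2) :=
              mul_le_mul_of_nonneg_left (ee B.api hC (hG F) hL hq hq1 hσ hF hM hM0 hX) hv
          _ = 4 * C * M ^ q * (vv X / X.2 ^ 2) := by ring
          _ ≤ 4 * C * M ^ q * (2 ^ (n + 1) * (2 * L) * (1 + ‖X‖) ^ (-((n : ℝ) + 2))) :=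
              mul_le_mul_of_nonneg_left (wt B.api hL hX) (by positivity)
          _ = _ := by ring
    _ ≤ ∫⁻ X : Y n, ENNReal.ofReal (4 * C * (2 ^ (n + 1) * (2 * L)) * M ^ q) *
          ENNReal.ofReal ((1 + ‖X‖) ^ (-((n : ℝ) + 2))) := setLIntegral_le_lintegral _ _
    _ = _ := by
        rw [lintegral_const_mul' _ _ ENNReal.ofReal_ne_top,
          mul_right_comm _ (ENNReal.toReal _) (M ^ q),
          ENNReal.ofReal_mul h0, ENNReal.ofReal_toReal (fin n).ne]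

end Pool.Agent.RZ
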