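import Pool.Agent.Lib.RZ.Blue
import Pool.Agent.Lib.RZ.Grad44

open Set Metric

namespace Pool.Agent.RZ

theorem t_GRAD : T_GRAD := by
  intro n _ hB
  have h0 : (0 : ℝ) ≤ n := Nat.cast_nonneg n
  refine ⟨2 * (n + 1) * (n + 4), by nlinarith, fun F X r M hr hF hM => ?_⟩
  have hs := closedBall_subset_ball (x := X) (half_lt_self hr)
  refine (hB.api.hn_le F X _ fun i => Grad.grad_pd isOpen_ball
    (Grad.LCR.harm isOpen_ball ⟨hF.1, hF.2, hF.3⟩) (half_pos hr) hs
    (fun Z hZ => hM Z (hs hZ)) i).trans (le_of_eq ?_)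
  field_simp

end Pool.Agent.RZ
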