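import Pool.Agent.Lib.RZ.Blue

set_option autoImplicit false

open MeasureTheory Metric Set Filter
open scoped ENNReal ContDiff Topology

noncomputable section

namespace Pool.Agent.RZ

open Pool.Agent.HP

namespace GREENB

theorem ofReal_int_le {α : Type} [MeasurableSpace α] {μ : Measure α} {f : α → ℝ}
    (hf : Integrable f μ) : ENNReal.ofReal (∫ x, f x ∂μ) ≤ ∫⁻ x, ENNReal.ofReal (f x) ∂μ := by
  have h1 : ∫ x, f x ∂μ ≤ ∫ x, max (f x) 0 ∂μ :=
    integral_mono hf hf.pos_part (fun x => le_max_left _ _)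
  refine (ENNReal.ofReal_le_ofReal h1).trans ?_
  rw [ofReal_integral_eq_lintegral_ofReal hf.pos_part
    (Eventually.of_forall fun x => le_max_right _ _)]
  refine lintegral_mono fun x => ?_
  rcases le_total (f x) 0 with h | h
  · simp [max_eq_right h]
  · simp [max_eq_left h]

variable {n : ℕ}

theorem lap_zero (hB : Bas n) {φ : Y n → ℝ} {K : Set (Y n)} (hK : IsCompact K)
    (h0 : ∀ X, X ∉ K → φ X = 0) {X : Y n} (hX : X ∉ K) : lap φ X = 0 := by
  have h1 : φ =ᶠ[𝓝 X] fun _ => (0 : ℝ) := by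
    filter_upwards [hK.isClosed.isOpen_compl.mem_nhds hX] with Z hZ using h0 Z hZ
  rw [(hB.crd.cgr _ _ X h1).2]
  have h2 : ∀ i : Option (Fin n), pd i (fun _ : Y n => (0 : ℝ)) = fun _ => 0 := by
    intro i; funext Z; simp [pd]
  simp [lap, h2]

theorem cont_w0 (hB : Bas n) : Continuous (fun x : E n => ww ((x, 0) : Y n)) := by
  refine hB.api.wcont.1.comp_continuous (by fun_prop) (fun x => ?_)
  simp [Hs]

theorem w0_fin (hB : Bas n) (hI : St_INT n) :
    ∫⁻ x : E n, ENNReal.ofReal (ww ((x, 0) : Y n)) ≠ ⊤ := by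
  obtain ⟨C, -, hC⟩ := hI
  have h1 := hC 1 0 one_pos
  have h2 : ∫⁻ x : E n, ENNReal.ofReal (ww ((x, 0) : Y n)) ≤
      ∫⁻ x : E n, ENNReal.ofReal (2 ^ (n + 1)) *
        ENNReal.ofReal ((‖x - 0‖ + 1) ^ (-((n : ℝ) + 1))) := by
    refine lintegral_mono fun x => ?_
    have h3 := hB.api.wle ((x, 0) : Y n) le_rfl
    rw [← ENNReal.ofReal_mul (by positivity)]
    refine ENNReal.ofReal_le_ofReal ?_
    simpa using h3
  rw [lintegral_const_mul' _ _ ENNReal.ofReal_ne_top] at h2
  exact ne_top_of_le_ne_top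
    (ENNReal.mul_ne_top ENNReal.ofReal_ne_top (ne_top_of_le_ne_top ENNReal.ofReal_ne_top h1)) h2

theorem slab (a : E n → ℝ≥0∞) (ha : Measurable a) (r : ℝ) :
    ∫⁻ X : Y n, a X.1 * (Ioc (0 : ℝ) r).indicator 1 X.2 = (∫⁻ x, a x) * ENNReal.ofReal r := by
  rw [Measure.volume_eq_prod, lintegral_prod_mul ha.aemeasurable
    ((measurable_one.indicator measurableSet_Ioc).aemeasurable),
    lintegral_indicator_one measurableSet_Ioc, Real.volume_Ioc, sub_zero]

theorem vol_ball {r : ℝ} (hr : 0 ≤ r) :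
    volume (closedBall (0 : Y n) r) =
      ENNReal.ofReal (r ^ (n + 1)) * volume (closedBall (0 : Y n) 1) := by
  haveI : (volume : Measure (Y n)).IsAddHaarMeasure := by
    rw [Measure.volume_eq_prod]; infer_instance
  rw [Measure.addHaar_closedBall' _ _ hr]
  simp

theorem vol_fin : volume (closedBall (0 : Y n) 1) ≠ ⊤ := by
  haveI : (volume : Measure (Y n)).IsAddHaarMeasure := by
    rw [Measure.volume_eq_prod]; infer_instance
  exact (isCompact_closedBall _ _).measure_lt_top.ne

/-- one cut-off -/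
theorem step (hB : Bas n) (hIBP : St_IBP n) (hVV : St_VV n) {C k M : ℝ} (hC : 0 ≤ C)
    (hk : 2 ≤ k) (hM : 0 ≤ M) {η g B L : Y n → ℝ} (hη : Test (Hs n 0) η)
    (hη1 : ∀ X, 0 ≤ η X ∧ η X ≤ 1)
    (hlap : ∀ X ∈ Hs n 0, lap (fun Z => vv Z * η Z) X + psi X * η X ≤
      {W : Y n | W.2 ≤ 2 / k}.indicator (fun W => C * k * ww (W.1, 0)) X +
      (closedBall (0 : Y n) (2 * k)).indicator (fun _ => C / k ^ (n + 2)) X)
    (hg : ContDiffOn ℝ ∞ g (Hs n 0)) (hBc : ContinuousOn B (Hs n 0))
    (hLc : ContinuousOn L (Hs n 0)) (hg0 : Measurable (fun x : E n => g (x, 0)))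
    (hh : ∀ X ∈ Hs n 0, 0 ≤ g X ∧ g X ≤ M ∧ g X ≤ g (X.1, 0) + M * X.2 ∧ 0 ≤ B X ∧ 0 ≤ L X ∧
      lap g X = B X - L X) :
    AEMeasurable (fun X => ENNReal.ofReal (η X * (psi X * g X) + vv X * η X * B X)) volume ∧
    ∫⁻ X, ENNReal.ofReal (η X * (psi X * g X) + vv X * η X * B X) ≤
      ENNReal.ofReal (2 * C) * J0 g + II (Hs n 0) (fun X => vv X * L X) +
      (ENNReal.ofReal (4 * C * M / k) * ∫⁻ x : E n, ENNReal.ofReal (ww ((x, 0) : Y n))) +
      ENNReal.ofReal (M * C * 2 ^ (n + 1) / k) * volume (closedBall (0 : Y n) 1) := by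
  have hk0 : 0 < k := by linarith
  have hsub : Hs n 0 ⊆ Hs n (-1) := fun X hX => by
    simp only [Hs, mem_setOf_eq] at hX ⊢; linarith
  obtain ⟨K, hK, hKU, hK0⟩ := hη.supp
  have hφ0 : ∀ X, X ∉ K → vv X * η X = 0 := fun X hX => by rw [hK0 X hX, mul_zero]
  have hφ : Test (Hs n 0) (fun Z => vv Z * η Z) :=
    ⟨(hVV.1.mono hsub).mul hη.smooth, K, hK, hKU, hφ0⟩
  obtain ⟨hi, he⟩ := hIBP _ g _ (isOpen_Hs 0) hg hφ
  obtain ⟨hi', -⟩ := hIBP _ g _ (isOpen_Hs 0) hg hη
  have iB := (hi B hBc).1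
  have iL := (hi L hLc).1
  have ig := (hi g hg.continuousOn).2
  have iψ := (hi' (fun X => psi X * g X)
    ((hB.api.wcont.2.2.mono hsub).mul hg.continuousOn)).1
  have hout : ∀ X, X ∉ Hs n 0 → η X = 0 := fun X hX => hK0 X fun h => hX (hKU h)
  have hvpos : ∀ X ∈ Hs n 0, 0 ≤ vv X ∧ 0 ≤ psi X := fun X hX => by
    have h1 := hB.api.wpos X (hsub hX)
    have h2 : 0 < X.2 := hX
    exact ⟨mul_nonneg h2.le h1.2.1.le, h1.2.2.1.le⟩
  have hu0 : ∀ X, 0 ≤ η X * (psi X * g X) + vv X * η X * B X := fun X => by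
    by_cases hX : X ∈ Hs n 0
    · have h1 := hh X hX
      have h2 := hvpos X hX
      have h3 := hη1 X
      exact add_nonneg (mul_nonneg h3.1 (mul_nonneg h2.2 h1.1))
        (mul_nonneg (mul_nonneg h2.1 h3.1) h1.2.2.2.1)
    · simp [hout X hX]
  have iu : Integrable (fun X => η X * (psi X * g X) + vv X * η X * B X) := iψ.add iB
  refine ⟨iu.aemeasurable.ennreal_ofReal, ?_⟩
  have e1 : ∫ X, vv X * η X * lap g X = (∫ X, vv X * η X * B X) - ∫ X, vv X * η X * L X := by
    rw [← integral_sub iB iL]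
    refine integral_congr_ae (Eventually.of_forall fun X => ?_)
    by_cases hX : X ∈ Hs n 0
    · simp only [(hh X hX).2.2.2.2.2]; ring
    · simp [hout X hX]
  have iR : Integrable (fun X => g X * lap (fun Z => vv Z * η Z) X + η X * (psi X * g X)) :=
    ig.add iψ
  have e2 : ∫ X, (η X * (psi X * g X) + vv X * η X * B X) =
      ∫ X, (vv X * η X * L X +
        (g X * lap (fun Z => vv Z * η Z) X + η X * (psi X * g X))) := by
    rw [integral_add iψ iB, integral_add iL iR, integral_add ig iψ, ← he, e1]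
    ring
  rw [← ofReal_integral_eq_lintegral_ofReal iu (Eventually.of_forall hu0), e2]
  refine (ofReal_int_le (iL.add iR)).trans ?_
  set a : E n → ℝ≥0∞ := fun x => ENNReal.ofReal (C * k) *
    (ENNReal.ofReal (ww ((x, 0) : Y n) * g (x, 0)) +
      ENNReal.ofReal (M * (2 / k)) * ENNReal.ofReal (ww ((x, 0) : Y n))) with ha
  have mw := (cont_w0 hB).measurable
  have m1 : Measurable (fun x : E n => ENNReal.ofReal (ww ((x, 0) : Y n) * g (x, 0))) :=
    (mw.mul hg0).ennreal_ofReal
  have ma : Measurable a :=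
    (m1.add (mw.ennreal_ofReal.const_mul _)).const_mul _
  have hpt : ∀ X : Y n, ENNReal.ofReal (vv X * η X * L X +
      (g X * lap (fun Z => vv Z * η Z) X + η X * (psi X * g X))) ≤
      (Hs n 0).indicator (fun X => ENNReal.ofReal (vv X * L X)) X +
      a X.1 * (Ioc (0 : ℝ) (2 / k)).indicator 1 X.2 +
      (closedBall (0 : Y n) (2 * k)).indicator
        (fun _ => ENNReal.ofReal (M * (C / k ^ (n + 2)))) X := by
    intro X
    by_cases hX : X ∈ Hs n 0
    · obtain ⟨g0, gM, gL, -, L0, -⟩ := hh X hX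
      have h2 := hvpos X hX
      have h3 := hη1 X
      have ht : 0 < X.2 := hX
      have hw : 0 < ww ((X.1, 0) : Y n) := (hB.api.wpos (X.1, 0) (by norm_num)).2.1
      have h4 : g X * lap (fun Z => vv Z * η Z) X + η X * (psi X * g X) ≤
          g X * {W : Y n | W.2 ≤ 2 / k}.indicator (fun W => C * k * ww (W.1, 0)) X +
          g X * (closedBall (0 : Y n) (2 * k)).indicator (fun _ => C / k ^ (n + 2)) X := by
        have := mul_le_mul_of_nonneg_left (hlap X hX) g0
        linarith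
      have h5 : vv X * η X * L X ≤ vv X * L X := by
        have : vv X * η X ≤ vv X := mul_le_of_le_one_right h2.1 h3.2
        exact mul_le_mul_of_nonneg_right this L0
      refine (ENNReal.ofReal_le_ofReal (add_le_add h5 h4)).trans ?_
      rw [← add_assoc]
      refine ENNReal.ofReal_add_le.trans (add_le_add (ENNReal.ofReal_add_le.trans
        (add_le_add ?_ ?_)) ?_)
      · rw [indicator_of_mem hX]
      · by_cases h6 : X.2 ≤ 2 / k
        · rw [indicator_of_mem (show X ∈ {W : Y n | W.2 ≤ 2 / k} from h6),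
            indicator_of_mem (show X.2 ∈ Ioc (0 : ℝ) (2 / k) from ⟨ht, h6⟩), Pi.one_apply, mul_one]
          have h7 : g X ≤ g (X.1, 0) + M * (2 / k) :=
            gL.trans (by have := mul_le_mul_of_nonneg_left h6 hM; linarith)
          have h8 : g X * (C * k * ww ((X.1, 0) : Y n)) ≤
              C * k * (ww ((X.1, 0) : Y n) * g (X.1, 0) + M * (2 / k) * ww ((X.1, 0) : Y n)) := by
            have := mul_le_mul_of_nonneg_right h7
              (show 0 ≤ C * k * ww ((X.1, 0) : Y n) by positivity)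
            linarith
          refine (ENNReal.ofReal_le_ofReal h8).trans ?_
          rw [ENNReal.ofReal_mul (by positivity), ha]
          refine mul_le_mul_right (ENNReal.ofReal_add_le.trans (add_le_add le_rfl ?_)) _
          rw [ENNReal.ofReal_mul (by positivity)]
        · rw [indicator_of_notMem (show X ∉ {W : Y n | W.2 ≤ 2 / k} from h6)]
          simp
      · by_cases h6 : X ∈ closedBall (0 : Y n) (2 * k)
        · rw [indicator_of_mem h6, indicator_of_mem h6]
          exact ENNReal.ofReal_le_ofReal (mul_le_mul_of_nonneg_right gM (by positivity))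
        · rw [indicator_of_notMem h6]
          simp
    · rw [hout X hX, lap_zero hB hK hφ0 (fun h => hX (hKU h))]
      simp
  refine (lintegral_mono hpt).trans ?_
  have m2 : Measurable (fun X : Y n => a X.1 * (Ioc (0 : ℝ) (2 / k)).indicator 1 X.2) :=
    (ma.comp measurable_fst).mul
      ((measurable_one.indicator measurableSet_Ioc).comp measurable_snd)
  rw [lintegral_add_right _ (measurable_const.indicator measurableSet_closedBall),
    lintegral_add_right _ m2, lintegral_indicator (isOpen_Hs 0).measurableSet,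
    lintegral_indicator_const measurableSet_closedBall, slab a ma, vol_ball (by positivity)]
  have e3 : (∫⁻ x, a x) * ENNReal.ofReal (2 / k) = ENNReal.ofReal (2 * C) * J0 g +
      ENNReal.ofReal (4 * C * M / k) * ∫⁻ x : E n, ENNReal.ofReal (ww ((x, 0) : Y n)) := by
    rw [ha, lintegral_const_mul' _ _ ENNReal.ofReal_ne_top, lintegral_add_left m1,
      lintegral_const_mul' _ _ ENNReal.ofReal_ne_top]
    have f1 : ENNReal.ofReal (2 * C) = ENNReal.ofReal (C * k) * ENNReal.ofReal (2 / k) := by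
      rw [← ENNReal.ofReal_mul (by positivity)]
      congr 1
      field_simp
    have f2 : ENNReal.ofReal (4 * C * M / k) =
        ENNReal.ofReal (C * k) * ENNReal.ofReal (M * (2 / k)) * ENNReal.ofReal (2 / k) := by
      rw [← ENNReal.ofReal_mul (by positivity), ← ENNReal.ofReal_mul (by positivity)]
      congr 1
      field_simp
      ring
    rw [f1, f2, J0]
    ring
  have e4 : ENNReal.ofReal (M * (C / k ^ (n + 2))) *
      (ENNReal.ofReal ((2 * k) ^ (n + 1)) * volume (closedBall (0 : Y n) 1)) =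
      ENNReal.ofReal (M * C * 2 ^ (n + 1) / k) * volume (closedBall (0 : Y n) 1) := by
    rw [← mul_assoc, ← ENNReal.ofReal_mul (by positivity)]
    congr 2
    rw [mul_pow]
    field_simp
    ring
  rw [e3, e4, II]
  exact le_of_eq (by ring)

theorem tend (c : ℝ) {W : ℝ≥0∞} (hW : W ≠ ⊤) :
    Tendsto (fun j : ℕ => ENNReal.ofReal (c / ((j : ℝ) + 2)) * W) atTop (𝓝 0) := by
  have h1 : Tendsto (fun j : ℕ => c / ((j : ℝ) + 2)) atTop (𝓝 0) :=
    tendsto_const_nhds.div_atTop (tendsto_atTop_add_const_right _ _ tendsto_natCast_atTop_atTop)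
  have h2 := ENNReal.Tendsto.mul_const (ENNReal.tendsto_ofReal h1) (Or.inr hW)
  simpa using h2

end GREENB

open GREENB in
theorem t_GREEN : T_GREEN := by
  intro n _ hB hIBP hVV hCUT hINT
  obtain ⟨C, hC, hcut⟩ := hCUT
  refine ⟨2 * C, by positivity, fun g B L M hg hBc hLc hg0 hh => ?_⟩
  have hM : 0 ≤ M := by
    have h := hh (PP n) (by simp [Hs, PP])
    exact h.1.trans h.2.1
  have hk : ∀ j : ℕ, (2 : ℝ) ≤ (j : ℝ) + 2 := fun j => by
    have : (0 : ℝ) ≤ j := Nat.cast_nonneg j
    linarith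
  choose η hη hη1 hη2 hlap using fun j : ℕ => hcut ((j : ℝ) + 2) (hk j)
  have hs := fun j : ℕ => step hB hIBP hVV hC (hk j) hM (hη j) (hη1 j) (hlap j) hg hBc hLc hg0 hh
  have hsub : Hs n 0 ⊆ Hs n (-1) := fun X hX => by
    simp only [Hs, mem_setOf_eq] at hX ⊢; linarith
  have h1 : II (Hs n 0) (fun X => psi X * g X) + II (Hs n 0) (fun X => vv X * B X) ≤
      ∫⁻ X, liminf (fun j : ℕ =>
        ENNReal.ofReal (η j X * (psi X * g X) + vv X * η j X * B X)) atTop := by
    refine (le_lintegral_add _ _).trans ?_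
    rw [← lintegral_indicator (isOpen_Hs 0).measurableSet]
    refine lintegral_mono fun X => ?_
    by_cases hX : X ∈ Hs n 0
    · rw [indicator_of_mem hX]
      have ht : 0 < X.2 := hX
      have h2 := hB.api.wpos X (hsub hX)
      have h3 := hh X hX
      have hev : ∀ᶠ j : ℕ in atTop, η j X = 1 := by
        have t1 : Tendsto (fun j : ℕ => (j : ℝ) + 2) atTop atTop :=
          tendsto_atTop_add_const_right _ _ tendsto_natCast_atTop_atTop
        filter_upwards [t1.eventually_ge_atTop ‖X.1‖, t1.eventually_ge_atTop X.2,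
          t1.eventually_ge_atTop (2 / X.2)] with j a1 a2 a3
        refine hη2 j X a1 ?_ a2
        rw [div_le_iff₀ (by linarith [hk j])]
        rw [div_le_iff₀ ht] at a3
        linarith
      refine le_liminf_of_le (by isBoundedDefault) ?_
      filter_upwards [hev] with j hj
      have hv : 0 ≤ vv X := mul_nonneg ht.le h2.2.1.le
      rw [hj, one_mul, mul_one, ENNReal.ofReal_add (mul_nonneg h2.2.2.1.le h3.1)
        (mul_nonneg hv h3.2.2.2.1)]
    · rw [indicator_of_notMem hX]
      exact zero_le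
  refine h1.trans ((lintegral_liminf_le' fun j => (hs j).1).trans ?_)
  have h4 : Tendsto (fun j : ℕ =>
      ENNReal.ofReal (2 * C) * J0 g + II (Hs n 0) (fun X => vv X * L X) +
      (ENNReal.ofReal (4 * C * M / ((j : ℝ) + 2)) *
        ∫⁻ x : E n, ENNReal.ofReal (ww ((x, 0) : Y n))) +
      ENNReal.ofReal (M * C * 2 ^ (n + 1) / ((j : ℝ) + 2)) * volume (closedBall (0 : Y n) 1))
      atTop (𝓝 (ENNReal.ofReal (2 * C) * J0 g + II (Hs n 0) (fun X => vv X * L X) + 0 + 0)) :=
    (tendsto_const_nhds.add (tend _ (w0_fin hB hINT))).add (tend _ vol_fin)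
  rw [add_zero, add_zero] at h4
  rw [← h4.liminf_eq]
  exact liminf_le_liminf (Eventually.of_forall fun j => (hs j).2)

end Pool.Agent.RZ
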