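import Pool.Agent.Lib.RZ.Blue

set_option autoImplicit false

open MeasureTheory Metric Set Filter
open scoped ENNReal ContDiff Topology

noncomputable section

namespace Pool.Agent.RZ

open Pool.Agent.HP

namespace IBP

variable {n : ℕ} {U : Set (Y n)} {φ : Y n → ℝ}

/-- global form of the test function property -/
def Tg (U : Set (Y n)) (φ : Y n → ℝ) : Prop :=
  ContDiff ℝ ∞ φ ∧ HasCompactSupport φ ∧ tsupport φ ⊆ U

lemma tg_of (hU : IsOpen U) (hφ : Test U φ) : Tg U φ := by
  obtain ⟨K, hK, hKU, h0⟩ := hφ.supp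
  have h1 : tsupport φ ⊆ K :=
    closure_minimal (fun X hX => by_contra fun h => hX (h0 X h)) hK.isClosed
  refine ⟨contDiff_iff_contDiffAt.2 fun X => ?_, HasCompactSupport.intro hK h0, h1.trans hKU⟩
  by_cases hX : X ∈ U
  · exact hφ.smooth.contDiffAt (hU.mem_nhds hX)
  · refine (contDiffAt_const (c := (0 : ℝ))).congr_of_eventuallyEq ?_
    filter_upwards [hK.isClosed.isOpen_compl.mem_nhds fun h => hX (hKU h)] with Z hZ
    exact h0 Z hZ

lemma int_mul (hU : IsOpen U) (hφ : Tg U φ) {h : Y n → ℝ} (hh : ContinuousOn h U) :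
    Integrable (fun X => φ X * h X) := by
  refine Continuous.integrable_of_hasCompactSupport ?_ hφ.2.1.mul_right
  refine continuous_of_tsupport fun x hx => ?_
  exact hφ.1.continuous.continuousAt.mul
    (hh.continuousAt (hU.mem_nhds (hφ.2.2 (tsupport_mul_subset_left hx))))

lemma test_pd (hφ : Tg U φ) (i : Option (Fin n)) : Tg U (pd i φ) := by
  refine ⟨?_, hφ.2.1.fderiv_apply ℝ (dir i), (tsupport_fderiv_apply_subset ℝ (dir i)).trans hφ.2.2⟩
  exact (hφ.1.fderiv_right (m := ∞) le_rfl).clm_apply contDiff_const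

lemma smooth_pd (hU : IsOpen U) {f : Y n → ℝ} (hf : ContDiffOn ℝ ∞ f U) (i : Option (Fin n)) :
    ContDiffOn ℝ ∞ (pd i f) U :=
  (hf.fderiv_of_isOpen (m := ∞) hU le_rfl).clm_apply contDiffOn_const

lemma ibp (hU : IsOpen U) (hφ : Tg U φ) {f : Y n → ℝ} (hf : ContDiffOn ℝ ∞ f U)
    (i : Option (Fin n)) : ∫ X, φ X * pd i f X = -∫ X, pd i φ X * f X :=
  haveI : (volume : Measure (Y n)).IsAddHaarMeasure := Measure.prod.instIsAddHaarMeasure _ _
  integral_mul_fderiv_eq_neg_fderiv_mul_of_integrable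
    (int_mul hU (test_pd hφ i) hf.continuousOn) (int_mul hU hφ (smooth_pd hU hf i).continuousOn)
    (int_mul hU hφ hf.continuousOn) (fun x _ => hφ.1.differentiable (by simp) x)
    fun x hx => (hf.contDiffAt (hU.mem_nhds (hφ.2.2 hx))).differentiableAt (by simp)

end IBP

open IBP in
theorem t_IBP : T_IBP := by
  intro n _ _ U f φ hU hf hφ0
  have hφ := tg_of hU hφ0
  have e : ∀ h : Y n → ℝ, (fun X => h X * lap φ X) = fun X => ∑ i, pd i (pd i φ) X * h X :=
    fun h => funext fun X => by rw [lap, mul_comm, Finset.sum_mul]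
  refine ⟨fun h hh => ⟨int_mul hU hφ hh, ?_⟩, ?_⟩
  · rw [e]
    exact integrable_finsetSum _ fun i _ => int_mul hU (test_pd (test_pd hφ i) i) hh
  · rw [e, integral_finsetSum _ fun i _ => int_mul hU (test_pd (test_pd hφ i) i) hf.continuousOn]
    simp only [lap, Finset.mul_sum]
    rw [integral_finsetSum _ fun i _ =>
      int_mul hU hφ (smooth_pd hU (smooth_pd hU hf i) i).continuousOn]
    refine Finset.sum_congr rfl fun i _ => ?_
    rw [ibp hU hφ (smooth_pd hU hf i) i, ibp hU (test_pd hφ i) hf i, neg_neg]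

end Pool.Agent.RZ
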