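import Pool.Agent.Lib.RZ.Blue

set_option autoImplicit false

open MeasureTheory Metric Set Filter
open scoped ENNReal ContDiff Topology

noncomputable section

namespace Pool.Agent.RZ

open Pool.Agent.HP

namespace INT

/-- change of variables by a dilation for the lower integral -/
theorem lint_smul {n : ℕ} (g : E n → ℝ≥0∞) (hg : Measurable g) {r : ℝ} (hr : 0 < r) :
    ∫⁻ x : E n, g (r⁻¹ • x) = ENNReal.ofReal (r ^ n) * ∫⁻ x : E n, g x := by
  have h1 : Measurable (fun x : E n => r⁻¹ • x) := measurable_const_smul _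
  have h2 := Measure.map_addHaar_smul (volume : Measure (E n)) (inv_ne_zero hr.ne')
  rw [← lintegral_map hg h1, h2, lintegral_smul_measure, finrank_euclideanSpace_fin, inv_pow,
    inv_inv, abs_of_pos (pow_pos hr n), smul_eq_mul]

theorem ker_eq {n : ℕ} (x : E n) {r : ℝ} (hr : 0 < r) (s : ℝ) :
    (‖x‖ + r) ^ s = r ^ s * (1 + ‖r⁻¹ • x‖) ^ s := by
  rw [← Real.mul_rpow hr.le (by positivity), norm_smul, Real.norm_eq_abs,
    abs_of_pos (inv_pos.2 hr)]
  congr 1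
  field_simp
  ring

end INT

theorem t_INT : T_INT := by
  intro n _ _
  have hfin : (∫⁻ x : E n, ENNReal.ofReal ((1 + ‖x‖) ^ (-((n : ℝ) + 1)))) < ⊤ := by
    apply finite_integral_one_add_norm
    rw [finrank_euclideanSpace_fin]
    linarith
  refine ⟨(∫⁻ x : E n, ENNReal.ofReal ((1 + ‖x‖) ^ (-((n : ℝ) + 1)))).toReal,
    ENNReal.toReal_nonneg, fun ε z hε => ?_⟩
  have hg : Measurable (fun x : E n => ENNReal.ofReal ((1 + ‖x‖) ^ (-((n : ℝ) + 1)))) := by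
    fun_prop
  have h1 : ∫⁻ x : E n, ENNReal.ofReal ((‖x - z‖ + ε) ^ (-((n : ℝ) + 1))) =
      ∫⁻ x : E n, ENNReal.ofReal ((‖x‖ + ε) ^ (-((n : ℝ) + 1))) :=
    lintegral_sub_right_eq_self
      (fun x : E n => ENNReal.ofReal ((‖x‖ + ε) ^ (-((n : ℝ) + 1)))) z
  have h2 : ∀ x : E n, ENNReal.ofReal ((‖x‖ + ε) ^ (-((n : ℝ) + 1))) =
      ENNReal.ofReal (ε ^ (-((n : ℝ) + 1))) *
        ENNReal.ofReal ((1 + ‖ε⁻¹ • x‖) ^ (-((n : ℝ) + 1))) := by
    intro x
    rw [INT.ker_eq x hε, ENNReal.ofReal_mul (Real.rpow_nonneg hε.le _)]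
  have h3 := INT.lint_smul _ hg hε
  have h4 : ε ^ (-((n : ℝ) + 1)) * ε ^ n = ε⁻¹ := by
    rw [← Real.rpow_natCast, ← Real.rpow_add hε, ← Real.rpow_neg_one]
    congr 1
    ring
  rw [h1]
  simp_rw [h2]
  rw [lintegral_const_mul' _ _ ENNReal.ofReal_ne_top, h3, ← mul_assoc,
    ← ENNReal.ofReal_mul (Real.rpow_nonneg hε.le _), h4, div_eq_inv_mul,
    ENNReal.ofReal_mul (inv_nonneg.2 hε.le), ENNReal.ofReal_toReal hfin.ne]

end Pool.Agent.RZ
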