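import Pool.Agent.Lib.RZ.Blue

set_option autoImplicit false

open MeasureTheory Metric Set Filter
open scoped ENNReal ContDiff Topology

noncomputable section

namespace Pool.Agent.RZ

open Pool.Agent.HP

theorem lap80_pd_inner {n : ℕ} (f g : Y n → V n) (X : Y n) (i : Option (Fin n))
    (hf : DifferentiableAt ℝ f X) (hg : DifferentiableAt ℝ g X) :
    pd i (fun Z => inner ℝ (f Z) (g Z)) X = inner ℝ (f X) (pd i g X) + inner ℝ (pd i f X) (g X) := by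
  unfold pd
  exact fderiv_inner_apply ℝ hf hg (dir i)

theorem lap80_pd_aff {n : ℕ} (g : Y n → ℝ) (c d : ℝ) (X : Y n) (i : Option (Fin n))
    (hg : DifferentiableAt ℝ g X) :
    pd i (fun Z => c * g Z + d) X = c * pd i g X := by
  unfold pd
  have h : HasFDerivAt (fun Z => c * g Z + d) (c • fderiv ℝ g X) X :=
    (hg.hasFDerivAt.const_mul c).add_const d
  rw [h.fderiv]
  simp

theorem lap80_pd_u {n : ℕ} (F : Y n → V n) (σ : ℝ) (X : Y n) (i : Option (Fin n))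
    (hF : DifferentiableAt ℝ F X) :
    pd i (fun Z => ‖F Z‖ ^ 2 + σ ^ 2) X = 2 * inner ℝ (pd i F X) (F X) := by
  have e : (fun Z => ‖F Z‖ ^ 2 + σ ^ 2) = fun Z => 1 * inner ℝ (F Z) (F Z) + σ ^ 2 := by
    funext Z
    rw [real_inner_self_eq_norm_sq, one_mul]
  rw [e, lap80_pd_aff _ _ _ _ _ (hF.inner ℝ hF), lap80_pd_inner F F X i hF hF,
    real_inner_comm (pd i F X) (F X)]
  ring

theorem lap80_lap_u {n : ℕ} (hB : Bas n) (U : Set (Y n)) (F : Y n → V n) (σ : ℝ) (hU : IsOpen U)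
    (hF : CRon U F) (X : Y n) (hX : X ∈ U) :
    lap (fun Z => ‖F Z‖ ^ 2 + σ ^ 2) X = 2 * hn F X ^ 2 := by
  have h1 : ∀ i, pd i (pd i (fun Z => ‖F Z‖ ^ 2 + σ ^ 2)) X =
      2 * (‖pd i F X‖ ^ 2 + inner ℝ (pd i (pd i F) X) (F X)) := by
    intro i
    have hev : pd i (fun Z => ‖F Z‖ ^ 2 + σ ^ 2) =ᶠ[𝓝 X]
        fun Z => 2 * inner ℝ (pd i F Z) (F Z) + 0 := by
      filter_upwards [hU.mem_nhds hX] with Z hZ
      rw [lap80_pd_u F σ Z i (hB.api.diff U F hU hF Z hZ), add_zero]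
    have hd1 : DifferentiableAt ℝ (pd i F) X :=
      hB.api.diff U _ hU (hB.crd.dcr U F hU hF i) X hX
    have hd0 : DifferentiableAt ℝ F X := hB.api.diff U F hU hF X hX
    rw [(hB.crd.cgr _ _ X hev).1 i, lap80_pd_aff _ _ _ _ _ (hd1.inner ℝ hd0),
      lap80_pd_inner _ _ X i hd1 hd0, real_inner_self_eq_norm_sq]
  unfold lap
  rw [Finset.sum_congr rfl (fun i _ => h1 i), ← Finset.mul_sum, Finset.sum_add_distrib,
    ← sum_inner, hB.crd.harm U F hU hF X hX, inner_zero_left, add_zero, hn_sq]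
  rfl

theorem lap80_d1 (b x : ℝ) (hx : 0 < x) : deriv (fun y : ℝ => y ^ b) x = b * x ^ (b - 1) :=
  (Real.hasDerivAt_rpow_const (Or.inl hx.ne')).deriv

theorem lap80_d2 (b x : ℝ) (hx : 0 < x) :
    deriv (deriv (fun y : ℝ => y ^ b)) x = b * ((b - 1) * x ^ (b - 1 - 1)) := by
  have hev : deriv (fun y : ℝ => y ^ b) =ᶠ[𝓝 x] fun y => b * y ^ (b - 1) := by
    filter_upwards [isOpen_Ioi.mem_nhds (show x ∈ Ioi (0 : ℝ) from hx)] with y hy
    exact lap80_d1 b y hy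
  rw [hev.deriv_eq]
  exact ((Real.hasDerivAt_rpow_const (Or.inl hx.ne')).const_mul b).deriv

theorem lap80_rpow {n : ℕ} (σ c : ℝ) (hσ : 0 < σ) (F : Y n → V n) (X : Y n) :
    (‖F X‖ ^ 2 + σ ^ 2) ^ c = rho σ F X ^ (2 * c) := by
  rw [← rho_sq, Real.rpow_mul (rho_pos hσ F X).le, Real.rpow_two]

theorem t_LAP : T_LAP := by
  intro n _ hB U F σ a hU hF hσ
  have e : (fun X => rho σ F X ^ a) =
      fun X => (fun y : ℝ => y ^ (a / 2)) ((fun Z => ‖F Z‖ ^ 2 + σ ^ 2) X) := by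
    funext X
    show rho σ F X ^ a = (‖F X‖ ^ 2 + σ ^ 2) ^ (a / 2)
    rw [lap80_rpow σ _ hσ]
    congr 1
    ring
  have hu : ContDiffOn ℝ ∞ (fun Z => ‖F Z‖ ^ 2 + σ ^ 2) U :=
    (hF.smooth.norm_sq ℝ).add contDiffOn_const
  have hh : ContDiffOn ℝ ∞ (fun y : ℝ => y ^ (a / 2)) (Ioi 0) := fun y hy =>
    (Real.contDiffAt_rpow_const_of_ne (ne_of_gt hy)).contDiffWithinAt
  have hm : MapsTo (fun Z => ‖F Z‖ ^ 2 + σ ^ 2) U (Ioi 0) := fun Z _ => by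
    show (0 : ℝ) < ‖F Z‖ ^ 2 + σ ^ 2
    positivity
  rw [e]
  refine ⟨hh.comp hu hm, fun X hX => ?_⟩
  have hp : (0 : ℝ) < ‖F X‖ ^ 2 + σ ^ 2 := by positivity
  rw [(hB.crd.comp U (Ioi 0) _ _ hU isOpen_Ioi hu hh hm X hX).2, lap80_lap_u hB U F σ hU hF X hX,
    lap80_d1 _ _ hp, lap80_d2 _ _ hp, lap80_rpow σ _ hσ, lap80_rpow σ _ hσ]
  have hs : ∑ i, pd i (fun Z => ‖F Z‖ ^ 2 + σ ^ 2) X ^ 2 = 4 * hv2 (jac F X) (F X) := by
    unfold hv2 jac
    rw [Finset.mul_sum]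
    refine Finset.sum_congr rfl (fun i _ => ?_)
    rw [lap80_pd_u F σ X i (hB.api.diff U F hU hF X hX)]
    ring
  have e1 : rho σ F X ^ (2 * (a / 2 - 1)) = rho σ F X ^ (a - 4) * rho σ F X ^ 2 := by
    rw [← Real.rpow_two, ← Real.rpow_add (rho_pos hσ F X)]
    congr 1
    ring
  have e2 : rho σ F X ^ (2 * (a / 2 - 1 - 1)) = rho σ F X ^ (a - 4) := by
    congr 1
    ring
  rw [hs, e1, e2]
  ring

end Pool.Agent.RZ
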