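import Pool.Agent.Lib.RZ.Blue

set_option autoImplicit false

open MeasureTheory Metric Set Filter
open scoped ENNReal ContDiff Topology

noncomputable section

namespace Pool.Agent.RZ

open Pool.Agent.HP

namespace LAY

variable {n : ℕ}

theorem isOpen_box (R a b : ℝ) : IsOpen (box n R a b) := by
  have h1 : IsOpen {X : Y n | ‖X.1‖ < R} := isOpen_lt (by fun_prop) continuous_const
  have h2 : IsOpen {X : Y n | a < X.2} := isOpen_lt continuous_const continuous_snd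
  have h3 : IsOpen {X : Y n | X.2 < b} := isOpen_lt continuous_snd continuous_const
  exact h1.inter (h2.inter h3)

theorem KK_eq (ε : ℝ) : KK n ε = closedBall (0 : E n) (3 / 2) ×ˢ Icc (ε / 2) (3 / 2) := by
  ext X
  simp [KK]

theorem KK_compact (ε : ℝ) : IsCompact (KK n ε) := by
  rw [KK_eq]
  exact (isCompact_closedBall _ _).prod isCompact_Icc

theorem KK_convex (ε : ℝ) : Convex ℝ (KK n ε) := by
  rw [KK_eq]
  exact (convex_closedBall _ _).prod (convex_Icc _ _)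

theorem KK_sub {ε : ℝ} (h0 : 0 < ε) : KK n ε ⊆ Hs n 0 := by
  intro X hX
  have := hX.2.1
  show 0 < X.2
  linarith

theorem P_mem {ε : ℝ} (h1 : ε ≤ 1) : PP n ∈ KK n ε := by
  refine ⟨?_, ?_, ?_⟩
  · show ‖(0 : E n)‖ ≤ 3 / 2
    rw [norm_zero]; norm_num
  · show ε / 2 ≤ 1
    linarith
  · show (1 : ℝ) ≤ 3 / 2
    norm_num

theorem ball_bd {X Z : Y n} {r : ℝ} (h : Z ∈ closedBall X r) :
    ‖Z.1‖ ≤ ‖X.1‖ + r ∧ X.2 - r ≤ Z.2 ∧ Z.2 ≤ X.2 + r := by
  rw [mem_closedBall, Prod.dist_eq, max_le_iff, dist_eq_norm, Real.dist_eq, abs_le] at h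
  refine ⟨?_, by linarith [h.2.1], by linarith [h.2.2]⟩
  have := norm_add_le X.1 (Z.1 - X.1)
  rw [add_sub_cancel] at this
  linarith [h.1]

theorem ball_KK {ε : ℝ} (_h0 : 0 < ε) (h1 : ε ≤ 1) {x : E n} (hx : x ∈ ball (0 : E n) 1)
    {Z : Y n} (hZ : Z ∈ closedBall ((x, ε) : Y n) (((x, ε) : Y n).2 / 2)) : Z ∈ KK n ε := by
  have h := ball_bd hZ
  rw [mem_ball_zero_iff] at hx
  simp only at h
  exact ⟨by linarith [h.1], by linarith [h.2.1], by linarith [h.2.2]⟩

/-- pointwise bound of the layer energy for a normalised field -/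
theorem layer_le (hB : Bas n) {ε q σ : ℝ} {F : Y n → V n} (h0 : 0 < ε) (h1 : ε ≤ 1)
    (hq0 : 0 < q) (hq1 : q ≤ 1) (hσ : 0 < σ) (hF : CRon (Hs n 0) F)
    (hN : ∀ X ∈ KK n ε, hn F X ≤ 1) {x : E n} (hx : x ∈ ball (0 : E n) 1) :
    ε ^ 2 * EE q σ F (x, ε) ≤ 9 * (1 + rho σ F (PP n)) ^ (q - 2) := by
  have hnn : nn F (x, ε) ≤ 1 :=
    hB.api.nn_le F (x, ε) 1 h0 (fun Z hZ => hN Z (ball_KK h0 h1 hx hZ))
  have hr := rho_pos hσ F ((x, ε) : Y n)
  have hrP := rho_pos hσ F (PP n)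
  have hm := hB.api.mono q (rho σ F (x, ε)) ε (nn F (x, ε)) 1 hq0 (by linarith) hr h0.le
    (nn_nonneg F _) hnn
  have hxK : ((x, ε) : Y n) ∈ KK n ε := ball_KK h0 h1 hx (mem_closedBall_self (by
    show 0 ≤ ε / 2
    linarith))
  have hlip := hB.api.lip F (KK n ε) 1 (KK_convex ε)
    (fun X hX => hB.api.diff (Hs n 0) F (isOpen_Hs 0) hF X (KK_sub h0 hX)) hN
    (PP n) (P_mem h1) (x, ε) hxK
  have hd : ‖PP n - ((x, ε) : Y n)‖ ≤ 1 := by
    rw [mem_ball_zero_iff] at hx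
    rw [Prod.norm_def, max_le_iff]
    constructor
    · show ‖(0 : E n) - x‖ ≤ 1
      rw [zero_sub, norm_neg]; exact hx.le
    · show ‖(1 : ℝ) - ε‖ ≤ 1
      rw [Real.norm_eq_abs, abs_le]; constructor <;> linarith
  have hrl := (abs_le.1 (hB.api.rho_lip σ F (PP n) (x, ε))).2
  have hA : ε / 3 * (1 + rho σ F (PP n)) ≤ rho σ F (x, ε) + ε * 1 := by
    have h3 : 1 + rho σ F (PP n) ≤ 3 + rho σ F (x, ε) := by linarith
    have h4 : ε / 3 * (1 + rho σ F (PP n)) ≤ ε / 3 * (3 + rho σ F (x, ε)) :=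
      mul_le_mul_of_nonneg_left h3 (by linarith)
    nlinarith
  have he3 : 0 < ε / 3 := by linarith
  have hp : (rho σ F (x, ε) + ε * 1) ^ (q - 2) ≤ (ε / 3 * (1 + rho σ F (PP n))) ^ (q - 2) :=
    Real.rpow_le_rpow_of_nonpos (by positivity) hA (by linarith)
  rw [Real.mul_rpow he3.le (by positivity)] at hp
  have hq : (ε / 3) ^ q ≤ 1 := Real.rpow_le_one he3.le (by linarith) hq0.le
  have he : ε ^ 2 * (ε / 3) ^ (q - 2) = 9 * (ε / 3) ^ q := by
    rw [Real.rpow_sub he3, Real.rpow_two]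
    field_simp
    norm_num
  have hAp : 0 ≤ (1 + rho σ F (PP n)) ^ (q - 2) := by positivity
  have hE : EE q σ F (x, ε) ≤ (ε / 3) ^ (q - 2) * (1 + rho σ F (PP n)) ^ (q - 2) := by
    have : EE q σ F (x, ε) =
        (rho σ F (x, ε) + ε * nn F (x, ε)) ^ (q - 2) * nn F (x, ε) ^ 2 := rfl
    rw [this]
    linarith
  calc ε ^ 2 * EE q σ F (x, ε)
      ≤ ε ^ 2 * ((ε / 3) ^ (q - 2) * (1 + rho σ F (PP n)) ^ (q - 2)) :=
        mul_le_mul_of_nonneg_left hE (by positivity)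
    _ = 9 * ((ε / 3) ^ q * (1 + rho σ F (PP n)) ^ (q - 2)) := by rw [← mul_assoc, he]; ring
    _ ≤ 9 * (1 + rho σ F (PP n)) ^ (q - 2) := by nlinarith

/-- lower bound of the defect density on the inner box -/
theorem defect_ge (hB : Bas n) {ε q σ M A : ℝ} {F : Y n → V n} (h0 : 0 < ε)
    (hq0 : 0 < q) (hq1 : q ≤ p0 n) (hq2 : q ≤ 1) (hσ : 0 < σ) (hF : CRon (Hs n 0) F)
    (hM : 1 ≤ M) (hA : 1 ≤ A)
    (h : ∀ X ∈ box n 3 (ε / 8) 3, hn F X ≤ M ∧ rho σ F X ≤ M * A)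
    {X : Y n} (hX : X ∈ box n 2 (ε / 4) 2) :
    ((3 * M) ^ 4)⁻¹ * A ^ (q - 4) * Dh σ F X ≤ BB q σ F X := by
  obtain ⟨h1, h2, h3⟩ := hX
  have ht : 0 < X.2 := by linarith
  have hnn : nn F X ≤ M := hB.api.nn_le F X M ht (fun Z hZ => by
    have hb := ball_bd hZ
    exact (h Z ⟨by linarith [hb.1], by linarith [hb.2.1], by linarith [hb.2.2]⟩).1)
  have hr := (h X ⟨by linarith, by linarith, by linarith⟩).2
  have hr0 := rho_pos hσ F X
  have hn0 := nn_nonneg F X
  have hbs0 : 0 < bs σ F X := by unfold bs; positivity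
  have hbs : bs σ F X ≤ 3 * M * A := by
    unfold bs
    have h4 : X.2 * nn F X ≤ 2 * M := mul_le_mul h3.le hnn hn0 (by norm_num)
    nlinarith
  have hp : (3 * M * A) ^ (q - 4) ≤ bs σ F X ^ (q - 4) :=
    Real.rpow_le_rpow_of_nonpos hbs0 hbs (by linarith)
  rw [Real.mul_rpow (by linarith) (by linarith)] at hp
  have hp2 : ((3 * M) ^ 4)⁻¹ ≤ (3 * M) ^ (q - 4) := by
    have h5 : (3 * M) ^ (-((4 : ℕ) : ℝ)) ≤ (3 * M) ^ (q - 4) :=
      Real.rpow_le_rpow_of_exponent_le (by linarith) (by push_cast; linarith)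
    rwa [Real.rpow_neg (by linarith), Real.rpow_natCast] at h5
  have hD := (hB.api.pos F q σ hF hq1 X ht).1
  have hAp : 0 ≤ A ^ (q - 4) := Real.rpow_nonneg (by linarith) _
  exact mul_le_mul_of_nonneg_right ((mul_le_mul_of_nonneg_right hp2 hAp).trans hp) hD

theorem II_mul {S : Set (Y n)} (hS : MeasurableSet S) {c : ℝ} (hc : 0 ≤ c) {f g : Y n → ℝ}
    (h : ∀ X ∈ S, f X = c * g X) : II S f = ENNReal.ofReal c * II S g := by
  unfold II
  rw [← lintegral_const_mul' _ _ ENNReal.ofReal_ne_top]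
  refine setLIntegral_congr_fun hS (fun X hX => ?_)
  simp only [h X hX, ENNReal.ofReal_mul hc]

end LAY

open LAY in
theorem t_LAY : T_LAY := by
  intro n h2 hB hCMP hAPR hINT
  obtain ⟨Cc, hCc, hCMP⟩ := hCMP
  obtain ⟨Ci, hCi, hINT⟩ := hINT
  obtain ⟨b, hb0, hb⟩ : ∃ b : ℝ, 0 ≤ b ∧ volume (ball (0 : E n) 1) = ENNReal.ofReal b :=
    ⟨(volume (ball (0 : E n) 1)).toReal, ENNReal.toReal_nonneg,
      (ENNReal.ofReal_toReal measure_ball_lt_top.ne).symm⟩
  refine ⟨Cc * (b + Ci) + 1, by positivity, fun ε θ h0 h1 hθ => ?_⟩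
  obtain ⟨M, hM, hAPR⟩ := hAPR ε (9 * b / θ) h0 h1
  obtain ⟨κ, hκ, hCMP⟩ := hCMP ε M h0 h1
  refine ⟨9 * b * (3 * M) ^ 4 / κ, by positivity, ?_⟩
  have hP : PP n ∈ Hs n 0 := KK_sub h0 (P_mem h1)
  have norm : ∀ (q σ : ℝ) (F : Y n → V n), 1 / 4 ≤ q → q ≤ p0 n → 0 < σ → CRon (Hs n 0) F →
      (∀ X ∈ KK n ε, hn F X ≤ 1) → (∃ X ∈ KK n ε, 1 ≤ hn F X) →
      ENNReal.ofReal (ε ^ 2) * ∫⁻ x in ball (0 : E n) 1, ENNReal.ofReal (EE q σ F (x, ε)) ≤
        ENNReal.ofReal ((Cc * (b + Ci) + 1) * ε * EE q σ F (PP n)) +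
        ENNReal.ofReal θ * II (box n 4 (ε / 16) 4) (EE q σ F) +
        ENNReal.ofReal (9 * b * (3 * M) ^ 4 / κ) * II (box n 4 (ε / 16) 4) (BB q σ F) := by
    intro q σ F hq0 hq1 hσ hF hN hN1
    have hq2 : q ≤ 1 := hq1.trans (p0_lt_one h2).le
    have hq3 : 0 < q := by linarith
    have hrP := rho_pos hσ F (PP n)
    obtain ⟨A, hA⟩ : ∃ A : ℝ, A = 1 + rho σ F (PP n) := ⟨_, rfl⟩
    have hA1 : 1 ≤ A := by linarith
    have hA0 : 0 < A := by linarith
    have hAp : 0 ≤ A ^ (q - 2) := by positivity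
    have hL : ENNReal.ofReal (ε ^ 2) *
        ∫⁻ x in ball (0 : E n) 1, ENNReal.ofReal (EE q σ F (x, ε)) ≤
        ENNReal.ofReal (9 * b * A ^ (q - 2)) := by
      rw [← lintegral_const_mul' _ _ ENNReal.ofReal_ne_top]
      calc ∫⁻ x in ball (0 : E n) 1, ENNReal.ofReal (ε ^ 2) * ENNReal.ofReal (EE q σ F (x, ε))
          ≤ ∫⁻ _ in ball (0 : E n) 1, ENNReal.ofReal (9 * A ^ (q - 2)) := by
            refine setLIntegral_mono' measurableSet_ball (fun x hx => ?_)
            rw [← ENNReal.ofReal_mul (by positivity), hA]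
            exact ENNReal.ofReal_le_ofReal (layer_le hB h0 h1 hq3 hq2 hσ hF hN hx)
        _ = ENNReal.ofReal (9 * b * A ^ (q - 2)) := by
            rw [setLIntegral_const, hb, ← ENNReal.ofReal_mul (by positivity)]
            congr 1
            ring
    by_cases hc1 : ENNReal.ofReal (9 * b * A ^ (q - 2)) ≤
        ENNReal.ofReal θ * II (box n 4 (ε / 16) 4) (EE q σ F)
    · exact (hL.trans hc1).trans (le_add_right le_add_self)
    have hE : II (box n 4 (ε / 16) 4) (EE q σ F) ≤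
        ENNReal.ofReal (9 * b / θ * (1 + rho σ F (PP n)) ^ (q - 2)) := by
      by_contra hcon
      apply hc1
      have h3 := mul_le_mul_right (not_le.1 hcon).le (ENNReal.ofReal θ)
      rw [← ENNReal.ofReal_mul hθ.le, ← hA] at h3
      refine le_trans (le_of_eq ?_) h3
      congr 1
      field_simp
    have hap := hAPR q σ F hq0 hq2 hσ hF hE
    by_cases hc2 : II (box n 2 (ε / 4) 2) (Dh σ F) ≤
        ENNReal.ofReal (κ * (1 + rho σ F (PP n)) ^ 2)
    · obtain ⟨z, hz⟩ := hCMP σ F hσ hF (fun X hX => (hap X hX).1) hN1 hc2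
      have hEP := (hB.api.pos F q σ hF hq1 (PP n) hP).2.1
      refine le_trans ?_ (le_add_right (le_add_right le_rfl))
      have hI : ∫⁻ x in ball (0 : E n) 1, ENNReal.ofReal (EE q σ F (x, ε)) ≤
          ENNReal.ofReal (Cc * EE q σ F (PP n)) * (ENNReal.ofReal b + ENNReal.ofReal (Ci / ε)) := by
        calc ∫⁻ x in ball (0 : E n) 1, ENNReal.ofReal (EE q σ F (x, ε))
            ≤ ∫⁻ x in ball (0 : E n) 1, ENNReal.ofReal (Cc * EE q σ F (PP n)) *
                (1 + ENNReal.ofReal ((‖x - z‖ + ε) ^ (-((n : ℝ) + 1)))) := by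
              refine setLIntegral_mono' measurableSet_ball (fun x hx => ?_)
              rw [← ENNReal.ofReal_one, ← ENNReal.ofReal_add zero_le_one (by positivity),
                ← ENNReal.ofReal_mul (by positivity)]
              refine ENNReal.ofReal_le_ofReal ((hz q hq0 hq1 x hx).trans (le_of_eq ?_))
              ring
          _ = ENNReal.ofReal (Cc * EE q σ F (PP n)) * (ENNReal.ofReal b +
                ∫⁻ x in ball (0 : E n) 1, ENNReal.ofReal ((‖x - z‖ + ε) ^ (-((n : ℝ) + 1)))) := by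
              rw [lintegral_const_mul' _ _ ENNReal.ofReal_ne_top,
                lintegral_add_left measurable_const, setLIntegral_const, one_mul, hb]
          _ ≤ _ := by
              refine mul_le_mul_right (add_le_add_right ?_ _) _
              exact (setLIntegral_le_lintegral _ _).trans (hINT ε z h0)
      refine (mul_le_mul_right hI _).trans ?_
      rw [← ENNReal.ofReal_add hb0 (by positivity), ← ENNReal.ofReal_mul (by positivity),
        ← ENNReal.ofReal_mul (by positivity)]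
      refine ENNReal.ofReal_le_ofReal ?_
      have h5 : ε ^ 2 * (Cc * EE q σ F (PP n) * (b + Ci / ε)) =
          Cc * (ε * b + Ci) * ε * EE q σ F (PP n) := by
        field_simp
      rw [h5]
      have h6 : Cc * (ε * b + Ci) ≤ Cc * (b + Ci) + 1 := by
        have h7 : ε * b ≤ b := by nlinarith
        have h8 : Cc * (ε * b + Ci) ≤ Cc * (b + Ci) :=
          mul_le_mul_of_nonneg_left (by linarith) (by linarith)
        linarith
      exact mul_le_mul_of_nonneg_right (mul_le_mul_of_nonneg_right h6 h0.le) hEP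
    · refine hL.trans (le_trans ?_ le_add_self)
      have hsub : box n 2 (ε / 4) 2 ⊆ box n 4 (ε / 16) 4 := fun X hX =>
        ⟨by linarith [hX.1], by linarith [hX.2.1], by linarith [hX.2.2]⟩
      have hM0 : 0 < M := by linarith
      have hw : 0 ≤ ((3 * M) ^ 4)⁻¹ * A ^ (q - 4) := by positivity
      have h3 : ENNReal.ofReal (((3 * M) ^ 4)⁻¹ * A ^ (q - 4)) * II (box n 2 (ε / 4) 2) (Dh σ F) ≤
          II (box n 4 (ε / 16) 4) (BB q σ F) := by
        rw [← II_mul (isOpen_box _ _ _).measurableSet hw (fun X _ => rfl)]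
        refine le_trans ?_ (lintegral_mono_set hsub)
        refine setLIntegral_mono' (isOpen_box _ _ _).measurableSet (fun X hX => ?_)
        refine ENNReal.ofReal_le_ofReal (defect_ge hB h0 hq3 hq1 hq2 hσ hF hM hA1 ?_ hX)
        rw [hA]
        exact hap
      refine le_trans ?_ (mul_le_mul_right h3 _)
      refine le_trans ?_ (mul_le_mul_right (mul_le_mul_right (not_le.1 hc2).le _) _)
      rw [← ENNReal.ofReal_mul hw, ← ENNReal.ofReal_mul (by positivity), ← hA]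
      refine le_of_eq ?_
      congr 1
      have h4 : A ^ (q - 2) = A ^ (q - 4) * A ^ 2 := by
        rw [← Real.rpow_two, ← Real.rpow_add hA0]
        congr 1
        ring
      rw [h4]
      field_simp
  intro q σ F hq0 hq1 hσ hF
  obtain ⟨X0, hX0, hmax⟩ := (KK_compact (n := n) ε).exists_isMaxOn ⟨_, P_mem h1⟩
    ((hB.api.cont (Hs n 0) F σ (isOpen_Hs 0) hF).2.1.mono (KK_sub h0))
  rcases (hn_nonneg F X0).eq_or_lt with hN | hN
  · have hz : ∫⁻ x in ball (0 : E n) 1, ENNReal.ofReal (EE q σ F (x, ε)) = 0 := by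
      refine setLIntegral_eq_zero measurableSet_ball (fun x hx => ?_)
      have hnn : nn F (x, ε) ≤ 0 := hB.api.nn_le F (x, ε) 0 h0
        (fun Z hZ => le_trans (hmax (ball_KK h0 h1 hx hZ)) hN.ge)
      have hn0 : nn F (x, ε) = 0 := le_antisymm hnn (nn_nonneg F _)
      simp [EE, hn0]
    rw [hz, mul_zero]
    exact zero_le
  · obtain ⟨c, hc⟩ : ∃ c : ℝ, c = (hn F X0)⁻¹ := ⟨_, rfl⟩
    have hc0 : 0 < c := by rw [hc]; positivity
    have hc1 : c * hn F X0 = 1 := by rw [hc]; field_simp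
    have hs := fun X (hX : 0 ≤ (X : Y n).2) => hB.scl.smul_eq F q σ c X hc0 hX
    have key := norm q (c * σ) (fun Z => c • F Z) hq0 hq1 (by positivity)
      (hB.scl.smul_cr _ F c hF)
      (fun X hX => by
        rw [(hs X (le_of_lt (KK_sub h0 hX))).1, ← hc1]
        exact mul_le_mul_of_nonneg_left (hmax hX) hc0.le)
      ⟨X0, hX0, by rw [(hs X0 (le_of_lt (KK_sub h0 hX0))).1, hc1]⟩
    have hcq : 0 < c ^ q := Real.rpow_pos_of_pos hc0 q
    have hOm : ∀ X ∈ box n 4 (ε / 16) 4, 0 ≤ X.2 := fun X hX => by linarith [hX.2.1]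
    rw [II_mul (isOpen_box _ _ _).measurableSet hcq.le (fun X hX => (hs X (hOm X hX)).2.2.2.1),
      II_mul (isOpen_box _ _ _).measurableSet hcq.le (fun X hX => (hs X (hOm X hX)).2.2.2.2),
      (hs (PP n) (le_of_lt hP)).2.2.2.1] at key
    have e1 : ∫⁻ x in ball (0 : E n) 1,
        ENNReal.ofReal (EE q (c * σ) (fun Z => c • F Z) (x, ε)) =
        ENNReal.ofReal (c ^ q) * ∫⁻ x in ball (0 : E n) 1, ENNReal.ofReal (EE q σ F (x, ε)) := by
      rw [← lintegral_const_mul' _ _ ENNReal.ofReal_ne_top]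
      refine lintegral_congr (fun x => ?_)
      rw [(hs (x, ε) h0.le).2.2.2.1, ENNReal.ofReal_mul hcq.le]
    have e2 : ENNReal.ofReal ((Cc * (b + Ci) + 1) * ε * (c ^ q * EE q σ F (PP n))) =
        ENNReal.ofReal (c ^ q) * ENNReal.ofReal ((Cc * (b + Ci) + 1) * ε * EE q σ F (PP n)) := by
      rw [← ENNReal.ofReal_mul hcq.le]
      congr 1
      ring
    rw [e1, e2] at key
    refine (ENNReal.mul_le_mul_iff_right (ENNReal.ofReal_pos.2 hcq).ne'
      ENNReal.ofReal_ne_top).1 ?_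
    rw [mul_add, mul_add, mul_left_comm, mul_left_comm _ (ENNReal.ofReal θ),
      mul_left_comm _ (ENNReal.ofReal (9 * b * (3 * M) ^ 4 / κ))]
    exact key

end Pool.Agent.RZ
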