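import Pool.Agent.Lib.HP.Base

/-! Equality case of the Stein-Weiss inequality and the rigidity of extremal fields. -/

set_option autoImplicit false

open Set Filter Metric
open scoped Topology InnerProductSpace

noncomputable section

namespace Pool.Agent.RZ.Rig

open Pool.Agent.HP

section Alg

variable {ι : Type} [Fintype ι] [DecidableEq ι]

lemma alg_unit (h : ι → ι → ℝ) (hs : ∀ i j, h i j = h j i) (ht : ∑ i, h i i = 0) (e : ι → ℝ)
    (he : ∑ i, e i ^ 2 = 1) (m : ℝ) (hm : (Fintype.card ι : ℝ) = m + 1) (hm0 : m ≠ 0)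
    (P w : ι → ℝ) (α : ℝ) (hP : ∀ i, P i = ∑ j, h i j * e j) (hα : α = ∑ i, e i * P i)
    (hw : ∀ i, w i = P i - α * e i) :
    ∑ i, ∑ j, (h i j - (α / m * ((m + 1) * e i * e j - if i = j then 1 else 0) +
        w i * e j + e i * w j)) ^ 2 = ∑ i, ∑ j, h i j ^ 2 - (m + 1) / m * α ^ 2 - 2 * ∑ i, w i ^ 2
      ∧ ∑ i, P i ^ 2 = α ^ 2 + ∑ i, w i ^ 2 := by
  have hew : ∑ i, e i * w i = 0 := by
    have : ∀ i, e i * w i = e i * P i - α * e i ^ 2 := fun i => by rw [hw]; ring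
    simp only [this, Finset.sum_sub_distrib, ← Finset.mul_sum, he, ← hα]
    ring
  have hwP : ∑ i, w i * P i = ∑ i, w i ^ 2 := by
    have : ∀ i, w i * P i = w i ^ 2 + α * (e i * w i) := fun i => by rw [hw]; ring
    simp only [this, Finset.sum_add_distrib, ← Finset.mul_sum, hew]
    ring
  have S1 : ∑ i, ∑ j, e i * (h i j * e j) = α := by
    simp only [← Finset.mul_sum, ← hP, ← hα]
  have S2 : ∑ i, ∑ j, (if i = j then h i j else 0) = 0 := by simp [ht]
  have S3 : ∑ i, ∑ j, w i * (h i j * e j) = ∑ i, w i ^ 2 := by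
    simp only [← Finset.mul_sum, ← hP, hwP]
  have S4 : ∑ i, ∑ j, w j * (h j i * e i) = ∑ i, w i ^ 2 := by rw [Finset.sum_comm, S3]
  have S5 : ∀ a b : ι → ℝ, ∑ i, ∑ j, a i * b j = (∑ i, a i) * ∑ j, b j := fun a b =>
    (Finset.sum_mul_sum _ _ _ _).symm
  have S6 : ∀ a b : ι → ℝ, ∑ i, ∑ j, (if i = j then a i * b j else 0) = ∑ i, a i * b i := by
    intro a b
    simp
  have S7 : ∑ i : ι, ∑ j : ι, (if i = j then (1 : ℝ) else 0) = m + 1 := by simp [hm]
  have S8 : ∑ i, e i * e i = 1 := by simpa only [sq] using he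
  have S9 : ∑ i, w i * e i = 0 := by simpa only [mul_comm] using hew
  refine ⟨?_, ?_⟩
  · have key : ∀ i j, (h i j - (α / m * ((m + 1) * e i * e j - if i = j then 1 else 0) +
        w i * e j + e i * w j)) ^ 2 = h i j ^ 2 - 2 * (α / m) * (m + 1) * (e i * (h i j * e j)) +
        2 * (α / m) * (if i = j then h i j else 0) - 2 * (w i * (h i j * e j)) -
        2 * (w j * (h j i * e i)) + (α / m) ^ 2 * (m + 1) ^ 2 * (e i ^ 2 * e j ^ 2) -
        2 * (α / m) ^ 2 * (m + 1) * (if i = j then e i * e j else 0) +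
        (α / m) ^ 2 * (if i = j then 1 else 0) + w i ^ 2 * e j ^ 2 + e i ^ 2 * w j ^ 2 +
        2 * ((e i * w i) * (e j * w j)) + 2 * (α / m) * (m + 1) * ((e i * w i) * e j ^ 2) +
        2 * (α / m) * (m + 1) * (e i ^ 2 * (e j * w j)) -
        2 * (α / m) * (if i = j then w i * e j else 0) -
        2 * (α / m) * (if i = j then e i * w j else 0) := by
      intro i j
      rw [hs j i]
      split_ifs <;> ring
    simp only [key, Finset.sum_add_distrib, Finset.sum_sub_distrib]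
    simp only [← Finset.mul_sum (a := (2 : ℝ)), ← Finset.mul_sum (a := 2 * (α / m)),
      ← Finset.mul_sum (a := 2 * (α / m) * (m + 1)),
      ← Finset.mul_sum (a := (α / m) ^ 2 * (m + 1) ^ 2),
      ← Finset.mul_sum (a := 2 * (α / m) ^ 2 * (m + 1)), ← Finset.mul_sum (a := (α / m) ^ 2)]
    rw [S1, S2, S3, S4, S5 (fun i => e i ^ 2) (fun j => e j ^ 2), S6 e e, S7,
      S5 (fun i => w i ^ 2) (fun j => e j ^ 2), S5 (fun i => e i ^ 2) (fun j => w j ^ 2),
      S5 (fun i => e i * w i) (fun j => e j * w j), S5 (fun i => e i * w i) (fun j => e j ^ 2),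
      S5 (fun i => e i ^ 2) (fun j => e j * w j), S6 w e, S6 e w, he, hew, S8, S9]
    field_simp
    ring
  · have : ∀ i, P i ^ 2 = α ^ 2 * e i ^ 2 + w i ^ 2 + 2 * α * (e i * w i) := fun i => by
      rw [hw]; ring
    simp only [this, Finset.sum_add_distrib, ← Finset.mul_sum, he, hew]
    ring

/-- the Stein-Weiss defect `|H|^2 |f|^2 - (m+1)/m |H f|^2` -/
def Eh (m : ℝ) (h : ι → ι → ℝ) (f : ι → ℝ) : ℝ :=
  (∑ i, ∑ j, h i j ^ 2) * (∑ i, f i ^ 2) - (m + 1) / m * ∑ i, (∑ j, h i j * f j) ^ 2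

lemma Eh_decomp (h : ι → ι → ℝ) (hs : ∀ i j, h i j = h j i) (ht : ∑ i, h i i = 0) (f : ι → ℝ)
    (hf : ∑ i, f i ^ 2 ≠ 0) (m : ℝ) (hm : (Fintype.card ι : ℝ) = m + 1) (hm0 : m ≠ 0) :
    ∃ (lam : ℝ) (w e : ι → ℝ), (∀ i j, e i * e j = f i * f j / ∑ i, f i ^ 2) ∧
      Eh m h f = (∑ i, f i ^ 2) * (∑ i, ∑ j, (h i j - (lam * ((m + 1) * e i * e j -
        if i = j then 1 else 0) + w i * e j + e i * w j)) ^ 2 + (m - 1) / m * ∑ i, w i ^ 2) := by
  have hN : 0 < ∑ i, f i ^ 2 :=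
    lt_of_le_of_ne (Finset.sum_nonneg fun i _ => sq_nonneg _) (Ne.symm hf)
  obtain ⟨r, hr0, hr⟩ : ∃ r : ℝ, 0 < r ∧ r ^ 2 = ∑ i, f i ^ 2 :=
    ⟨√(∑ i, f i ^ 2), Real.sqrt_pos.2 hN, Real.sq_sqrt hN.le⟩
  have he : ∑ i, (f i / r) ^ 2 = 1 := by
    simp only [div_pow, ← Finset.sum_div, ← hr]
    field_simp
  obtain ⟨P, hP⟩ : ∃ P : ι → ℝ, ∀ i, P i = ∑ j, h i j * (f j / r) := ⟨_, fun _ => rfl⟩
  obtain ⟨α, hα⟩ : ∃ α : ℝ, α = ∑ i, f i / r * P i := ⟨_, rfl⟩
  obtain ⟨w, hw⟩ : ∃ w : ι → ℝ, ∀ i, w i = P i - α * (f i / r) := ⟨_, fun _ => rfl⟩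
  obtain ⟨h1, h2⟩ := alg_unit h hs ht (fun i => f i / r) he m hm hm0 P w α hP hα hw
  refine ⟨α / m, w, fun i => f i / r, fun i j => by rw [← hr]; field_simp, ?_⟩
  rw [h1]
  have h3 : ∑ i, (∑ j, h i j * f j) ^ 2 = r ^ 2 * ∑ i, P i ^ 2 := by
    rw [Finset.mul_sum]
    refine Finset.sum_congr rfl fun i _ => ?_
    rw [hP, ← mul_pow, Finset.mul_sum]
    congr 1
    refine Finset.sum_congr rfl fun j _ => ?_
    field_simp
  unfold Eh
  rw [h3, h2, ← hr]
  field_simp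
  ring

theorem Eh_nonneg (h : ι → ι → ℝ) (hs : ∀ i j, h i j = h j i) (ht : ∑ i, h i i = 0) (f : ι → ℝ)
    (m : ℝ) (hm : (Fintype.card ι : ℝ) = m + 1) (hm1 : 1 ≤ m) : 0 ≤ Eh m h f := by
  by_cases hf : ∑ i, f i ^ 2 = 0
  · have h0 : ∀ i, f i = 0 := fun i => pow_eq_zero_iff (two_ne_zero) |>.1
      ((Finset.sum_eq_zero_iff_of_nonneg fun i _ => sq_nonneg (f i)).1 hf i (Finset.mem_univ _))
    simp [Eh, h0]
  · obtain ⟨lam, w, e, -, h2⟩ := Eh_decomp h hs ht f hf m hm (by linarith)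
    rw [h2]
    have : 0 ≤ (m - 1) / m := div_nonneg (by linarith) (by linarith)
    positivity

theorem Eh_zero (h : ι → ι → ℝ) (hs : ∀ i j, h i j = h j i) (ht : ∑ i, h i i = 0) (f : ι → ℝ)
    (hf : ∑ i, f i ^ 2 ≠ 0) (m : ℝ) (hm : (Fintype.card ι : ℝ) = m + 1) (hm1 : 1 < m)
    (h0 : Eh m h f = 0) : ∃ lam : ℝ, ∀ i j,
      h i j = lam * ((m + 1) * (f i * f j / ∑ i, f i ^ 2) - if i = j then 1 else 0) := by
  obtain ⟨lam, w, e, h1, h2⟩ := Eh_decomp h hs ht f hf m hm (by linarith)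
  rw [h0] at h2
  have h3 := (mul_eq_zero.1 h2.symm).resolve_left hf
  have hc : 0 < (m - 1) / m := div_pos (by linarith) (by linarith)
  have hA : 0 ≤ ∑ i, ∑ j, (h i j - (lam * ((m + 1) * e i * e j -
        if i = j then 1 else 0) + w i * e j + e i * w j)) ^ 2 := by positivity
  have hB : 0 ≤ ∑ i, w i ^ 2 := by positivity
  have hB0 : ∑ i, w i ^ 2 = 0 := by nlinarith [mul_nonneg hc.le hB]
  have hw : ∀ i, w i = 0 := fun i => pow_eq_zero_iff (two_ne_zero) |>.1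
    ((Finset.sum_eq_zero_iff_of_nonneg fun i _ => sq_nonneg (w i)).1 hB0 i (Finset.mem_univ _))
  rw [hB0, mul_zero, add_zero] at h3
  refine ⟨lam, fun i j => ?_⟩
  have h4 := (Finset.sum_eq_zero_iff_of_nonneg fun i _ =>
    Finset.sum_nonneg fun j _ => sq_nonneg _).1 h3 i (Finset.mem_univ _)
  have h5 := (Finset.sum_eq_zero_iff_of_nonneg fun j _ => sq_nonneg _).1 h4 j (Finset.mem_univ _)
  have h6 := pow_eq_zero_iff (two_ne_zero) |>.1 h5
  rw [hw i, hw j, mul_assoc (m + 1), h1] at h6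
  linarith

end Alg

section Scal

variable {X W : Type} [NormedAddCommGroup X] [NormedSpace ℝ X] [NormedAddCommGroup W]
  [InnerProductSpace ℝ W]

/-- a map whose derivative is a scalar multiple of a fixed injective map is affine -/
theorem scal (L : X →L[ℝ] W) (hL : Function.Injective L) (h2 : ∀ v : X, ∃ u, ∀ c : ℝ, u ≠ c • v)
    {U : Set X} (hU : IsOpen U) (hc : Convex ℝ U) {G : X → W} {μ : X → ℝ}
    (hG : ∀ x ∈ U, HasFDerivAt G (μ x • L) x) :
    ∀ x ∈ U, ∀ z ∈ U, μ x = μ z ∧ G x = G z + μ z • L (x - z) := by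
  have hμ : ∀ x ∈ U, ∀ z ∈ U, μ x = μ z := by
    intro x hx z hz
    obtain ⟨u, hu⟩ := h2 (x - z)
    obtain ⟨y, hy0, hy1⟩ : ∃ y : W, ⟪y, L (x - z)⟫_ℝ = 0 ∧ ⟪y, L u⟫_ℝ ≠ 0 := by
      obtain ⟨c, hc⟩ : ∃ c : ℝ, ⟪L u - c • L (x - z), L (x - z)⟫_ℝ = 0 := by
        by_cases h : L (x - z) = 0
        · exact ⟨0, by simp [h]⟩
        · refine ⟨⟪L u, L (x - z)⟫_ℝ / ‖L (x - z)‖ ^ 2, ?_⟩
          have : ‖L (x - z)‖ ≠ 0 := norm_ne_zero_iff.2 h
          rw [inner_sub_left, real_inner_smul_left, real_inner_self_eq_norm_sq]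
          field_simp
          ring
      refine ⟨L u - c • L (x - z), hc, fun h => hu c (hL ?_)⟩
      have h3 : ⟪L u - c • L (x - z), L u - c • L (x - z)⟫_ℝ = 0 := by
        rw [inner_sub_right, real_inner_smul_right, h, hc]
        ring
      rw [map_smul]
      exact sub_eq_zero.1 (inner_self_eq_zero.1 h3)
    have hd : ∀ p ∈ U, HasFDerivAt (fun q => ⟪y, G q⟫_ℝ) ((innerSL ℝ y).comp (μ p • L)) p :=
      fun p hp => (innerSL ℝ y).hasFDerivAt.comp p (hG p hp)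
    have hconst : ∀ p ∈ U, p + (x - z) ∈ U → ⟪y, G (p + (x - z))⟫_ℝ = ⟪y, G p⟫_ℝ := by
      intro p hp hq
      have hmem : ∀ t ∈ Icc (0 : ℝ) 1, p + t • (x - z) ∈ U := fun t ht =>
        hc.add_smul_mem hp hq ht
      have hder : ∀ t ∈ Icc (0 : ℝ) 1,
          HasDerivAt (fun t : ℝ => ⟪y, G (p + t • (x - z))⟫_ℝ) 0 t := by
        intro t ht
        have h1 : HasDerivAt (fun t : ℝ => p + t • (x - z)) (x - z) t := by
          simpa using ((hasDerivAt_id t).smul_const (x - z)).const_add p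
        have h3 := (hd _ (hmem t ht)).comp_hasDerivAt t h1
        have h4 : ((innerSL ℝ y).comp (μ (p + t • (x - z)) • L)) (x - z) = 0 := by
          simp only [ContinuousLinearMap.comp_apply, smul_apply,
            innerSL_apply_apply, real_inner_smul_right, hy0, mul_zero]
        rw [h4] at h3
        exact h3
      have := constant_of_has_deriv_right_zero
        (fun t ht => (hder t ht).continuousAt.continuousWithinAt)
        (fun t ht => (hder t (Ico_subset_Icc_self ht)).hasDerivWithinAt) 1 (by simp)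
      simpa using this
    have hev : (fun p => ⟪y, G (p + (x - z))⟫_ℝ) =ᶠ[𝓝 z] fun p => ⟪y, G p⟫_ℝ := by
      have h1 : ∀ᶠ p in 𝓝 z, p + (x - z) ∈ U := by
        have : ContinuousAt (fun p : X => p + (x - z)) z := by fun_prop
        exact this.eventually (hU.mem_nhds (by simpa using hx))
      filter_upwards [hU.mem_nhds hz, h1] with p hp hq
      exact hconst p hp hq
    have h5 : HasFDerivAt (fun p => ⟪y, G (p + (x - z))⟫_ℝ) ((innerSL ℝ y).comp (μ x • L)) z := by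
      have h6 := hd x hx
      rw [show x = z + (x - z) by abel] at h6
      have h7 := (hasFDerivAt_comp_add_right (x - z)).2 h6
      rw [show z + (x - z) = x by abel] at h7
      exact h7
    have h8 := (h5.congr_of_eventuallyEq hev.symm).unique (hd z hz)
    have h9 := congrArg (fun T : X →L[ℝ] ℝ => T u) h8
    simp only [ContinuousLinearMap.comp_apply, smul_apply,
      innerSL_apply_apply, real_inner_smul_right] at h9
    exact mul_right_cancel₀ hy1 h9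
  intro x hx z hz
  refine ⟨hμ x hx z hz, ?_⟩
  have hd : ∀ p ∈ U, HasFDerivAt (fun q => G q - μ z • L q) (0 : X →L[ℝ] W) p := by
    intro p hp
    have h1 := (hG p hp).sub (μ z • L).hasFDerivAt
    rw [hμ p hp z hz, sub_self] at h1
    exact h1
  have h3 := hc.is_const_of_fderivWithin_eq_zero (𝕜 := ℝ) (f := fun q => G q - μ z • L q)
    (fun p hp => (hd p hp).differentiableAt.differentiableWithinAt)
    (fun p hp => by rw [fderivWithin_of_isOpen hU hp, (hd p hp).fderiv]) hx hz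
  rw [map_sub, smul_sub, sub_eq_iff_eq_add.1 h3]
  abel

end Scal

variable {n : ℕ}

/-- coordinates of a point of `Y n` -/
def co (X : Y n) : Option (Fin n) → ℝ
  | none => X.2
  | some j => X.1 j

/-- the coordinate map `Y n → V n` -/
def J (n : ℕ) : Y n →L[ℝ] V n :=
  LinearMap.toContinuousLinearMap
    { toFun := fun X => WithLp.toLp 2 (co X)
      map_add' := fun X Z => by ext i; cases i <;> simp [co]
      map_smul' := fun c X => by ext i; cases i <;> simp [co] }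

@[simp] lemma J_none (X : Y n) : J n X none = X.2 := rfl

@[simp] lemma J_some (X : Y n) (j : Fin n) : J n X (some j) = X.1 j := rfl

lemma J_injective : Function.Injective (J n) := by
  intro X Z h
  refine Prod.ext ?_ ?_
  · ext j
    exact congrArg (fun v : V n => v (some j)) h
  · exact congrArg (fun v : V n => v none) h

lemma J_dir (i j : Option (Fin n)) : J n (dir i) j = if i = j then 1 else 0 := by
  cases i <;> cases j <;> simp [dir, eq_comm]

lemma sum_dir (X : Y n) : ∑ i, J n X i • dir i = X := by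
  apply J_injective
  ext j
  cases j <;> simp [map_sum, J_dir]

lemma norm_J_sq (X : Y n) : ‖J n X‖ ^ 2 = ‖X.1‖ ^ 2 + X.2 ^ 2 := by
  rw [EuclideanSpace.real_norm_sq_eq, EuclideanSpace.real_norm_sq_eq, Fintype.sum_option, add_comm]
  rfl

lemma fderiv_eq_sum {W : Type} [NormedAddCommGroup W] [NormedSpace ℝ W] (g : Y n → W)
    (X v : Y n) : fderiv ℝ g X v = ∑ i, J n v i • pd i g X := by
  conv_lhs => rw [← sum_dir v]
  simp [map_sum, pd]

lemma two_dim (hn : 1 ≤ n) (v : Y n) : ∃ u : Y n, ∀ c : ℝ, u ≠ c • v := by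
  by_cases h : v.2 = 0
  · refine ⟨dir none, fun c hc => ?_⟩
    have := congrArg Prod.snd hc
    simp [dir, h] at this
  · refine ⟨dir (some ⟨0, hn⟩), fun c hc => ?_⟩
    have h1 := congrArg Prod.snd hc
    simp only [dir, Prod.smul_snd, smul_eq_mul] at h1
    have h2 : c = 0 := (mul_eq_zero.1 h1.symm).resolve_right h
    have h3 := congrArg (fun X : Y n => X.1 ⟨0, hn⟩) hc
    simp [dir, h2] at h3

/-- operator form of the equality case -/
lemma fderiv_extremal (hn : 2 ≤ n) (F : Y n → V n) (X : Y n) (f : V n) (hf : f ≠ 0)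
    (hs : ∀ i j, pd i F X j = pd j F X i) (ht : ∑ i, pd i F X i = 0)
    (h0 : Eh n (fun i j => pd i F X j) (fun i => f i) = 0) :
    ∃ lam : ℝ, ∀ v, fderiv ℝ F X v =
      lam • (((n + 1) * ⟪f, J n v⟫_ℝ / ‖f‖ ^ 2) • f - J n v) := by
  have hN : ∑ i, f i ^ 2 = ‖f‖ ^ 2 := (EuclideanSpace.real_norm_sq_eq f).symm
  have hf0 : ‖f‖ ≠ 0 := norm_ne_zero_iff.2 hf
  obtain ⟨lam, hl⟩ := Eh_zero (fun i j => pd i F X j) hs ht (fun i => f i)
    (by rw [hN]; positivity) n (by simp) (by exact_mod_cast hn) h0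
  refine ⟨lam, fun v => ?_⟩
  ext j
  rw [fderiv_eq_sum]
  simp only [hN] at hl
  have e1 : ∀ i, J n v i * pd i F X j = lam * (n + 1) * f j / ‖f‖ ^ 2 * (J n v i * f i) -
      lam * (if i = j then J n v i else 0) := by
    intro i
    rw [hl]
    split_ifs <;> ring
  simp only [WithLp.ofLp_sum, Finset.sum_apply, WithLp.ofLp_smul, Pi.smul_apply, smul_eq_mul, e1,
    Finset.sum_sub_distrib, ← Finset.mul_sum, PiLp.inner_apply, RCLike.inner_apply, conj_trivial,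
    WithLp.ofLp_sub, Pi.sub_apply]
  simp only [Finset.sum_ite_eq', Finset.mem_univ, if_true]
  ring

/-- the inverted field -/
def Gf (F : Y n → V n) (X : Y n) : V n := (‖F X‖ ^ 2) ^ (-(((n : ℝ) + 1) / n / 2)) • F X

lemma Gf_deriv (hn : 2 ≤ n) (F : Y n → V n) (X : Y n) (hF : DifferentiableAt ℝ F X)
    (hf : F X ≠ 0) (hs : ∀ i j, pd i F X j = pd j F X i) (ht : ∑ i, pd i F X i = 0)
    (h0 : Eh n (fun i j => pd i F X j) (fun i => F X i) = 0) :
    ∃ μ : ℝ, HasFDerivAt (Gf F) (μ • J n) X := by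
  obtain ⟨lam, hl⟩ := fderiv_extremal hn F X (F X) hf hs ht h0
  have hf0 : ‖F X‖ ≠ 0 := norm_ne_zero_iff.2 hf
  have hn0 : (n : ℝ) ≠ 0 := by positivity
  have h1 := (hF.hasFDerivAt.norm_sq.rpow_const (p := -(((n : ℝ) + 1) / n / 2))
    (Or.inl (pow_ne_zero 2 hf0))).smul hF.hasFDerivAt
  refine ⟨-lam * (‖F X‖ ^ 2) ^ (-(((n : ℝ) + 1) / n / 2)), h1.congr_fderiv ?_⟩
  refine ContinuousLinearMap.ext fun v => ?_
  simp only [add_apply, smul_apply,
    ContinuousLinearMap.smulRight_apply, ContinuousLinearMap.comp_apply, innerSL_apply_apply, hl,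
    real_inner_smul_right, inner_sub_right, real_inner_self_eq_norm_sq, smul_eq_mul,
    Real.rpow_sub_one (pow_ne_zero 2 hf0), nsmul_eq_mul]
  match_scalars
  · field_simp
    ring
  · ring

lemma norm_Gf_pow (hn : 2 ≤ n) (F : Y n → V n) (X : Y n) (hf : F X ≠ 0) :
    ‖Gf F X‖ ^ n * ‖F X‖ = 1 ∧ Gf F X ≠ 0 ∧ F X = (‖Gf F X‖ ^ (n + 1))⁻¹ • Gf F X := by
  have hf0 : 0 < ‖F X‖ := norm_pos_iff.2 hf
  have hn0 : (n : ℝ) ≠ 0 := by positivity
  have e1 : (‖F X‖ ^ 2) ^ (-(((n : ℝ) + 1) / n / 2)) = ‖F X‖ ^ (-(((n : ℝ) + 1) / n)) := by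
    rw [← Real.rpow_natCast, ← Real.rpow_mul hf0.le]
    congr 1
    push_cast
    ring
  have e2 : ‖Gf F X‖ = ‖F X‖ ^ (-((n : ℝ))⁻¹) := by
    unfold Gf
    rw [norm_smul, e1, Real.norm_of_nonneg (by positivity), ← Real.rpow_add_one hf0.ne']
    congr 1
    field_simp
    ring
  refine ⟨?_, ?_, ?_⟩
  · rw [e2, ← Real.rpow_natCast, ← Real.rpow_mul hf0.le, ← Real.rpow_add_one hf0.ne']
    rw [show -((n : ℝ))⁻¹ * n + 1 = 0 by field_simp; ring, Real.rpow_zero]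
  · rw [← norm_pos_iff, e2]
    positivity
  · rw [e2, ← Real.rpow_natCast, ← Real.rpow_mul hf0.le]
    unfold Gf
    rw [e1, smul_smul, show -((n : ℝ))⁻¹ * ((n + 1 : ℕ) : ℝ) = -(((n : ℝ) + 1) / n) by
      push_cast; field_simp, inv_mul_cancel₀ (by positivity), one_smul]

/-- RIGIDITY: an extremal field that is nonzero somewhere is a constant or a monopole -/
theorem rig (hn : 2 ≤ n) {U : Set (Y n)} (hU : IsOpen U) (hc : IsPreconnected U)
    {F : Y n → V n} (hF : DifferentiableOn ℝ F U)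
    (hs : ∀ X ∈ U, ∀ i j, pd i F X j = pd j F X i) (ht : ∀ X ∈ U, ∑ i, pd i F X i = 0)
    (h0 : ∀ X ∈ U, Eh n (fun i j => pd i F X j) (fun i => F X i) = 0)
    {X₁ : Y n} (h1 : X₁ ∈ U) (hne : F X₁ ≠ 0) :
    ∃ (a : V n) (μ : ℝ), ∀ X ∈ U, a + μ • J n X ≠ 0 ∧
      F X = (‖a + μ • J n X‖ ^ (n + 1))⁻¹ • (a + μ • J n X) := by
  have hFa : ∀ X ∈ U, DifferentiableAt ℝ F X := fun X hX => hF.differentiableAt (hU.mem_nhds hX)
  have hex : ∀ X, ∃ μ : ℝ, X ∈ U → F X ≠ 0 → HasFDerivAt (Gf F) (μ • J n) X := by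
    intro X
    by_cases h : X ∈ U ∧ F X ≠ 0
    · obtain ⟨μ, hμ⟩ := Gf_deriv hn F X (hFa X h.1) h.2 (hs X h.1) (ht X h.1) (h0 X h.1)
      exact ⟨μ, fun _ _ => hμ⟩
    · exact ⟨0, fun a b => absurd ⟨a, b⟩ h⟩
  choose μ hμ using hex
  have hball : ∀ X ∈ U, F X ≠ 0 → ∃ r > 0, (∀ Z ∈ ball X r, Z ∈ U ∧ F Z ≠ 0) ∧
      ∀ x ∈ ball X r, ∀ z ∈ ball X r, μ x = μ z ∧ Gf F x = Gf F z + μ z • J n (x - z) := by
    intro X hX hf
    have h2 : ∀ᶠ Z in 𝓝 X, Z ∈ U ∧ F Z ≠ 0 :=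
      (hU.eventually_mem hX).and ((hFa X hX).continuousAt.eventually_ne hf)
    obtain ⟨r, hr, h3⟩ := Metric.eventually_nhds_iff_ball.1 h2
    exact ⟨r, hr, h3, scal (J n) J_injective (two_dim (by omega)) isOpen_ball (convex_ball X r)
      (fun x hx => hμ x (h3 x hx).1 (h3 x hx).2)⟩
  obtain ⟨a, ha⟩ : ∃ a : V n, Gf F X₁ = a + μ X₁ • J n X₁ := ⟨Gf F X₁ - μ X₁ • J n X₁, by abel⟩
  have step : ∀ x z : Y n, Gf F x = Gf F z + μ z • J n (x - z) → μ z = μ X₁ →
      Gf F z = a + μ X₁ • J n z → Gf F x = a + μ X₁ • J n x := by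
    intro x z e1 e2 e3
    rw [e1, e2, e3, map_sub, smul_sub]
    abel
  have hsub : U ⊆ {X | X ∈ U ∧ F X ≠ 0 ∧ μ X = μ X₁ ∧ Gf F X = a + μ X₁ • J n X} := by
    refine hc.subset_of_closure_inter_subset ?_ ⟨X₁, h1, h1, hne, rfl, ha⟩ ?_
    · refine Metric.isOpen_iff.2 fun X hX => ?_
      obtain ⟨r, hr, h3, h4⟩ := hball X hX.1 hX.2.1
      refine ⟨r, hr, fun Z hZ => ?_⟩
      have h5 := h4 Z hZ X (mem_ball_self hr)
      exact ⟨(h3 Z hZ).1, (h3 Z hZ).2, h5.1.trans hX.2.2.1, step Z X h5.2 hX.2.2.1 hX.2.2.2⟩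
    · rintro X ⟨hX, hXU⟩
      have hcont : ContinuousAt (fun Z => ‖a + μ X₁ • J n Z‖ ^ n * ‖F Z‖) X := by
        have := (hFa X hXU).continuousAt
        fun_prop
      have h5 := hcont.continuousWithinAt.mem_closure_image hX
      have h6 : ‖a + μ X₁ • J n X‖ ^ n * ‖F X‖ ∈ closure ({1} : Set ℝ) := by
        refine closure_mono ?_ h5
        rintro _ ⟨Z, hZ, rfl⟩
        have := (norm_Gf_pow hn F Z hZ.2.1).1
        rw [hZ.2.2.2] at this
        exact this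
      rw [closure_singleton, mem_singleton_iff] at h6
      have hf : F X ≠ 0 := by
        intro h
        rw [h, norm_zero, mul_zero] at h6
        exact zero_ne_one h6
      obtain ⟨r, hr, -, h4⟩ := hball X hXU hf
      obtain ⟨Z, hZ1, hZ⟩ := mem_closure_iff.1 hX (ball X r) isOpen_ball (mem_ball_self hr)
      have h7 := h4 X (mem_ball_self hr) Z hZ1
      exact ⟨hXU, hf, h7.1.trans hZ.2.2.1, step X Z h7.2 hZ.2.2.1 hZ.2.2.2⟩
  refine ⟨a, μ X₁, fun X hX => ?_⟩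
  obtain ⟨-, hf, -, hG⟩ := hsub hX
  have := (norm_Gf_pow hn F X hf).2
  rw [hG] at this
  exact this

/-- RIGIDITY for a constant direction: the derivative is constant -/
theorem rig_const (hn : 2 ≤ n) {U : Set (Y n)} (hU : IsOpen U) (hc : Convex ℝ U)
    {G : Y n → V n} (hG : DifferentiableOn ℝ G U) {v : V n} (hv : v ≠ 0)
    (hs : ∀ X ∈ U, ∀ i j, pd i G X j = pd j G X i) (ht : ∀ X ∈ U, ∑ i, pd i G X i = 0)
    (h0 : ∀ X ∈ U, Eh n (fun i j => pd i G X j) (fun i => v i) = 0) :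
    ∀ X ∈ U, ∀ Z ∈ U, fderiv ℝ G X = fderiv ℝ G Z := by
  obtain ⟨L, hL⟩ : ∃ L : Y n →L[ℝ] V n, ∀ u, L u =
      ((n + 1) * ⟪v, J n u⟫_ℝ / ‖v‖ ^ 2) • v - J n u :=
    ⟨((((n : ℝ) + 1) / ‖v‖ ^ 2) • (innerSL ℝ v).comp (J n)).smulRight v - J n, fun u => by
      simp only [sub_apply, ContinuousLinearMap.smulRight_apply,
        smul_apply, ContinuousLinearMap.comp_apply, innerSL_apply_apply,
        smul_eq_mul]
      congr 2
      ring⟩
  have hv0 : ‖v‖ ≠ 0 := norm_ne_zero_iff.2 hv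
  have hn0 : (n : ℝ) ≠ 0 := by positivity
  have hinj : Function.Injective L := by
    refine (injective_iff_map_eq_zero L).2 fun u hu => ?_
    have h1 : ⟪v, L u⟫_ℝ = n * ⟪v, J n u⟫_ℝ := by
      rw [hL, inner_sub_right, real_inner_smul_right, real_inner_self_eq_norm_sq]
      field_simp
      ring
    rw [hu, inner_zero_right] at h1
    have h2 := (mul_eq_zero.1 h1.symm).resolve_left hn0
    rw [hL, h2] at hu
    apply J_injective
    simpa using hu
  have hex : ∀ X, ∃ μ : ℝ, X ∈ U → HasFDerivAt G (μ • L) X := by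
    intro X
    by_cases h : X ∈ U
    · obtain ⟨lam, hl⟩ := fderiv_extremal hn G X v hv (hs X h) (ht X h) (h0 X h)
      refine ⟨lam, fun _ => (hG.differentiableAt (hU.mem_nhds h)).hasFDerivAt.congr_fderiv ?_⟩
      refine ContinuousLinearMap.ext fun u => ?_
      rw [hl, smul_apply, hL]
    · exact ⟨0, fun a => absurd a h⟩
  choose μ hμ using hex
  intro X hX Z hZ
  rw [(hμ X hX).fderiv, (hμ Z hZ).fderiv,
    (scal L hinj (two_dim (by omega)) hU hc hμ X hX Z hZ).1]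

end Pool.Agent.RZ.Rig
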