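import Pool.Agent.Lib.RZ.Blue
import Pool.Agent.Lib.RZ.Rig59

set_option autoImplicit false

open MeasureTheory Metric Set Filter
open scoped ENNReal ContDiff Topology

noncomputable section

namespace Pool.Agent.RZ

open Pool.Agent.HP

namespace LEX

variable {n : ℕ}

theorem box_eq (R a b : ℝ) : box n R a b = ball (0 : E n) R ×ˢ Ioo a b := by
  ext X
  simp [box]

theorem isOpen_box (R a b : ℝ) : IsOpen (box n R a b) := by
  rw [box_eq]
  exact isOpen_ball.prod isOpen_Ioo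

theorem convex_box (R a b : ℝ) : Convex ℝ (box n R a b) := by
  rw [box_eq]
  exact (convex_ball _ _).prod (convex_Ioo _ _)

theorem PP_mem {ε : ℝ} (h1 : ε ≤ 1) : PP n ∈ box n 2 (ε / 4) 2 := by
  refine ⟨?_, ?_, ?_⟩ <;> simp only [PP, norm_zero] <;> linarith

theorem ball_sub {ε : ℝ} (h0 : 0 < ε) (h1 : ε ≤ 1) {x : E n} (hx : x ∈ ball (0 : E n) 1)
    {Z : Y n} (hZ : Z ∈ closedBall ((x, ε) : Y n) (ε / 2)) : Z ∈ box n 2 (ε / 4) 2 := by
  rw [mem_closedBall, Prod.dist_eq, max_le_iff, dist_eq_norm, Real.dist_eq, abs_le] at hZ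
  rw [mem_ball, dist_zero_right] at hx
  have h2 : ‖Z.1‖ ≤ ‖Z.1 - x‖ + ‖x‖ := by simpa using norm_add_le (Z.1 - x) x
  obtain ⟨h3, h4, h5⟩ := hZ
  simp only at h3 h4 h5
  exact ⟨by linarith, by linarith, by linarith⟩

theorem pd_aff (G : Y n → V n) (a : V n) (lam : ℝ) (i : Option (Fin n)) (X : Y n) :
    pd i (fun Z => a + lam • G Z) X = lam • pd i G X := by
  have h : fderiv ℝ (fun Z => lam • G Z) = lam • fderiv ℝ G := fderiv_const_smul_field lam
  simp only [pd, fderiv_const_add, h, Pi.smul_apply, smul_apply]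

theorem hn2_aff (G : Y n → V n) (a : V n) (lam : ℝ) (X : Y n) :
    hn2 (jac (fun Z => a + lam • G Z) X) = lam ^ 2 * hn2 (jac G X) := by
  simp only [hn2, jac, pd_aff, norm_smul, mul_pow, Real.norm_eq_abs, sq_abs, Finset.mul_sum]

theorem hv2_aff (G : Y n → V n) (a : V n) (lam : ℝ) (X : Y n) (v : V n) :
    hv2 (jac (fun Z => a + lam • G Z) X) v = lam ^ 2 * hv2 (jac G X) v := by
  simp only [hv2, jac, pd_aff, real_inner_smul_left, mul_pow, Finset.mul_sum]

theorem hn_aff (G : Y n → V n) (a : V n) {lam : ℝ} (h : 0 ≤ lam) (X : Y n) :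
    hn (fun Z => a + lam • G Z) X = lam * hn G X := by
  rw [hn, hn, hn2_aff, Real.sqrt_mul (sq_nonneg _), Real.sqrt_sq h]

theorem hn_const {U : Set (Y n)} (hU : IsOpen U) {F : Y n → V n} {c : V n}
    (h : ∀ X ∈ U, F X = c) {X : Y n} (hX : X ∈ U) : hn F X = 0 := by
  have h1 : F =ᶠ[𝓝 X] fun _ => c := by
    filter_upwards [hU.mem_nhds hX] with Z hZ using h Z hZ
  simp [hn, hn2, jac, pd, h1.fderiv_eq]

theorem Eh_eq (H : Option (Fin n) → V n) (v : V n) :
    Rig.Eh n (fun i j => H i j) (fun i => v i) =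
      hn2 H * ‖v‖ ^ 2 - ((n : ℝ) + 1) / n * hv2 H v := by
  simp only [Rig.Eh, hn2, hv2, EuclideanSpace.real_norm_sq_eq, PiLp.inner_apply,
    RCLike.inner_apply, conj_trivial, mul_comm (v _)]

end LEX

open LEX in
theorem t_LEX : T_LEX := by
  intro n h2 _ _ hRIG hEXA
  obtain ⟨C, hC, hE⟩ := hEXA
  refine ⟨C, hC, fun ε lam G a h0 h1 hl ha hd hs ht he hx => ?_⟩
  have hU := isOpen_box (n := n) 2 (ε / 4) 2
  have hc := convex_box (n := n) 2 (ε / 4) 2
  obtain ⟨X₀, hX₀, hx⟩ := hx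
  rcases hl.eq_or_lt with rfl | hl'
  · have ha0 := ha rfl
    simp only [zero_smul, add_zero, zero_mul] at he ⊢
    have hk := Rig.rig_const h2 hU hc (fun X hX => (hd X hX).differentiableWithinAt) ha0 hs ht
      (fun X hX => by
        have := Eh_eq (jac G X) a
        rw [he X hX, sub_self] at this
        exact this)
    have hk' : ∀ X ∈ box n 2 (ε / 4) 2, hn G X = hn G X₀ := fun X hX => by
      simp only [hn, hn2, jac, pd, hk X hX X₀ hX₀]
    refine ⟨fun X hX => ⟨ha0, by rw [hk' X hX]; exact hx⟩, by positivity,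
      0, fun q _ _ x hx' Z hZ => ?_⟩
    rw [hk' Z (ball_sub h0 h1 hx' hZ), hk' _ (PP_mem h1)]
    have h3 : 0 ≤ (‖x - 0‖ + ε) ^ (-((n : ℝ) + 1)) := by positivity
    exact le_mul_of_one_le_left (by positivity) (by nlinarith)
  · have hne : ∀ c : V n, ¬ ∀ X ∈ box n 2 (ε / 4) 2, a + lam • G X = c := fun c h => by
      have := hn_const hU h hX₀
      rw [hn_aff G a hl] at this
      exact mul_ne_zero hl'.ne' hx this
    obtain ⟨b, m, hb⟩ := hRIG _ (fun Z => a + lam • G Z) hU hc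
      (fun X hX => ((hd X hX).const_smul lam).const_add a)
      (fun X hX i j => by
        simp only [pd_aff, PiLp.smul_apply, hs X hX i j])
      (fun X hX => by
        simp only [pd_aff, PiLp.smul_apply, smul_eq_mul, ← Finset.mul_sum, ht X hX, mul_zero])
      (fun X hX => by
        rw [hn2_aff, hv2_aff, mul_left_comm, he X hX, mul_assoc])
      (by
        by_contra h
        push Not at h
        exact hne 0 h)
    have hm : m ≠ 0 := by
      rintro rfl
      exact hne ((‖b‖ ^ (n + 1))⁻¹ • b) fun X hX => by simpa using (hb X hX).2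
    obtain ⟨e1, e2, z, e3⟩ := hE ε _ b m h0 h1 hm hb
    simp only [hn_aff G a hl] at e1 e2 e3
    refine ⟨fun X hX => ⟨(e1 X hX).1, right_ne_zero_of_mul (e1 X hX).2⟩, e2,
      z, fun q hq hq' x hx' Z hZ => ?_⟩
    have h3 := e3 q hq hq' x hx' Z hZ
    refine le_of_mul_le_mul_left ?_ (pow_pos hl' 2)
    refine le_of_eq_of_le (by ring) (h3.trans (le_of_eq (by ring)))

end Pool.Agent.RZ
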