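import Pool.Agent.Lib.RZ.Blue
import Pool.Agent.Lib.RZ.Grad44

open Set Metric Filter Topology

namespace Pool.Agent.RZ

open Pool.Agent.HP

theorem t_LIM : T_LIM := by
  intro n _ hB _ U₁ U₂ r M P F _ c1 b1 hP o2 hr h12 hF hM
  have hU : thickening r U₁ ⊆ U₂ := fun Z hZ => by
    obtain ⟨X, hX, h⟩ := mem_thickening_iff.1 hZ
    exact h12 X hX h
  have oU : IsOpen (thickening r U₁) := isOpen_thickening
  have hK : closure U₁ ⊆ thickening r U₁ := closure_subset_thickening hr _
  have e : ∀ j i, pd i (fun X => F j X - F j P) = pd i (F j) := fun j i => by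
    ext1 X; unfold pd; rw [fderiv_sub_const]
  obtain ⟨R, hR⟩ := (b1.thickening (δ := r)).subset_closedBall P
  obtain ⟨G, hG, h1, h2⟩ := Grad.lim_lcr (𝒰 := hyperfilter ℕ)
    (F := fun j X => F j X - F j P) oU
    (fun j => ⟨((hF j).1.mono hU).sub contDiffOn_const,
      fun X hX i k => by rw [e, e]; exact (hF j).2 X (hU hX) i k,
      fun X hX => by simp only [e]; exact (hF j).3 X (hU hX)⟩)
    fun X hX => by
      obtain ⟨s, hs, h⟩ := nhds_basis_closedBall.mem_iff.1 (oU.mem_nhds hX)
      refine ⟨s, hs, 2 * M * R, h, Eventually.of_forall fun j Z hZ => ?_⟩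
      have hP' := hK (subset_closure hP)
      refine (hB.api.lip (F j) _ M (c1.thickening r)
        (fun X hX => hB.api.diff _ _ o2 (hF j) X (hU hX)) (fun X hX => hM j X (hU hX))
        Z (h hZ) P hP').trans (mul_le_mul_of_nonneg_left
          (mem_closedBall_iff_norm.1 (hR (h hZ))) ?_)
      have := (hn_nonneg _ _).trans (hM j P (hU hP'))
      positivity
  have k1 := ((tendstoLocallyUniformlyOn_iff_forall_isCompact oU).1 h1 _ hK
    b1.isCompact_closure).mono subset_closure
  have k2 := ((tendstoLocallyUniformlyOn_iff_forall_isCompact oU).1 h2 _ hK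
    b1.isCompact_closure).mono subset_closure
  rw [Metric.tendstoUniformlyOn_iff] at k1 k2
  obtain ⟨φ, hφ, h⟩ := extraction_forall_of_frequently fun m : ℕ =>
    (((k1 _ (Nat.one_div_pos_of_nat (n := m))).and
      (k2 _ (Nat.one_div_pos_of_nat (n := m)))).frequently).filter_mono
      (hyperfilter_le_cofinite.trans Nat.cofinite_eq_atTop.le)
  have ev := fun ε (hε : (0 : ℝ) < ε) =>
    (tendsto_one_div_add_atTop_nhds_zero_nat (𝕜 := ℝ)).eventually (gt_mem_nhds hε)
  have s1 := subset_closure.trans hK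
  refine ⟨φ, G, hφ, fun X hX => Grad.dAt oU hG.1 (s1 hX),
    fun i => (Grad.sm_pd oU hG.1 i).continuousOn.mono s1,
    Metric.tendstoUniformlyOn_iff.2 fun ε hε => (ev ε hε).mono fun m hm X hX =>
      ((h m).1 X hX).trans hm,
    fun i => Metric.tendstoUniformlyOn_iff.2 fun ε hε => (ev ε hε).mono fun m hm X hX =>
      lt_of_le_of_lt ?_ (((h m).2 X hX).trans hm)⟩
  rw [← e, dist_eq_norm, dist_eq_norm]
  simpa [Grad.norm_dir, pd] using
    (fderiv ℝ G X - fderiv ℝ (fun X => F (φ m) X - F (φ m) P) X).le_opNorm (dir i)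

end Pool.Agent.RZ
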