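import Pool.Agent.Lib.RZ.Blue

/-! The tangent line trick on one Whitney ball. -/

set_option autoImplicit false

open MeasureTheory Metric Set Filter
open scoped ENNReal ContDiff Topology

noncomputable section

namespace Pool.Agent.RZ

open Pool.Agent.HP

namespace LOC

theorem tangent {y θ : ℝ} (hy : 0 < y) (h0 : 0 ≤ θ) (h1 : θ ≤ 1) :
    0 ≤ 1 - θ + θ * y - y ^ θ ∧ 1 - θ + θ * y - y ^ θ ≤ (1 - θ) * (1 - y) ^ 2 := by
  constructor
  · have h := rpow_one_add_le_one_add_mul_self (s := y - 1) (by linarith) h0 h1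
    rw [add_sub_cancel] at h
    linarith
  · have h2 : y ^ θ = y * Real.exp ((1 - θ) * -Real.log y) := by
      rw [Real.rpow_def_of_pos hy]
      nth_rewrite 2 [← Real.exp_log hy]
      rw [← Real.exp_add]
      congr 1
      ring
    have h3 := Real.add_one_le_exp ((1 - θ) * -Real.log y)
    have h4 := Real.log_le_sub_one_of_pos hy
    have h5 : (1 - θ) * (1 - y) ≤ (1 - θ) * -Real.log y :=
      mul_le_mul_of_nonneg_left (by linarith) (by linarith)
    have h6 : y * ((1 - θ) * (1 - y) + 1) ≤ y ^ θ := by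
      rw [h2]
      exact mul_le_mul_of_nonneg_left (by linarith) hy.le
    nlinarith

/-- The remainder of the tangent line approximation. -/
theorem rem {p q m r u : ℝ} (hq : 0 ≤ q) (hqp : q ≤ p) (hp : 1 / 2 ≤ p) (hp1 : p ≤ 1)
    (hr : 0 < r) (hrm : r ≤ m) (hu : m - r ≤ u) :
    |q / p * m ^ (q - p) * r ^ p + -1 * r ^ q + (1 - q / p) * m ^ q| ≤
      2 * (p - q) * (m ^ (q - 2) * u ^ 2) := by
  have hm : 0 < m := hr.trans_le hrm
  have hp0 : 0 < p := by linarith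
  have hx : 0 < r / m := div_pos hr hm
  have hx1 : r / m ≤ 1 := (div_le_one hm).2 hrm
  have hθ : q / p ≤ 1 := (div_le_one hp0).2 hqp
  obtain ⟨h1, h2⟩ := tangent (Real.rpow_pos_of_pos hx p) (div_nonneg hq hp0.le) hθ
  have hmq := Real.rpow_pos_of_pos hm q
  have hmp := Real.rpow_pos_of_pos hm p
  have e1 : q / p * m ^ (q - p) * r ^ p + -1 * r ^ q + (1 - q / p) * m ^ q =
      m ^ q * (1 - q / p + q / p * (r / m) ^ p - ((r / m) ^ p) ^ (q / p)) := by
    rw [← Real.rpow_mul hx.le, mul_div_cancel₀ q hp0.ne', Real.div_rpow hr.le hm.le,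
      Real.div_rpow hr.le hm.le, Real.rpow_sub hm]
    field_simp
    ring
  have h3 : r / m ≤ (r / m) ^ p := by
    have := Real.rpow_le_rpow_of_exponent_ge hx hx1 hp1
    rwa [Real.rpow_one] at this
  have h4 : (r / m) ^ p ≤ 1 := Real.rpow_le_one hx.le hx1 hp0.le
  have h5 : 1 - (r / m) ^ p ≤ u / m := by
    have : 1 - r / m ≤ u / m := by
      rw [le_div_iff₀ hm, sub_mul, div_mul_cancel₀ _ hm.ne']
      linarith
    linarith
  have h6 : (1 - (r / m) ^ p) ^ 2 ≤ (u / m) ^ 2 := pow_le_pow_left₀ (by linarith) h5 2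
  have h7 : 1 - q / p ≤ 2 * (p - q) := by
    rw [one_sub_div hp0.ne', div_le_iff₀ hp0]
    nlinarith
  have e2 : m ^ (q - 2) * u ^ 2 = m ^ q * (u / m) ^ 2 := by
    rw [Real.rpow_sub hm, Real.rpow_two]
    field_simp
  rw [e1, e2, abs_of_nonneg (mul_nonneg hmq.le h1), mul_left_comm]
  refine mul_le_mul_of_nonneg_left (h2.trans ?_) hmq.le
  exact mul_le_mul h7 h6 (sq_nonneg _) (by linarith)

theorem half {q a u : ℝ} (hq : 0 ≤ q) (hq2 : q ≤ 2) (ha : 0 < a) (hu : 0 ≤ u) :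
    (a + u / 2) ^ (q - 2) ≤ 4 * (a + 1 * u) ^ (q - 2) := by
  have h1 : (a + u / 2) ^ (q - 2) ≤ ((a + 1 * u) / 2) ^ (q - 2) :=
    Real.rpow_le_rpow_of_nonpos (by positivity) (by linarith) (by linarith)
  have h2 : (2 : ℝ) ^ (-2 : ℝ) ≤ 2 ^ (q - 2) :=
    Real.rpow_le_rpow_of_exponent_le (by norm_num) (by linarith)
  have h3 : (2 : ℝ) ^ (-2 : ℝ) = 1 / 4 := by
    rw [Real.rpow_neg (by norm_num), Real.rpow_two]
    norm_num
  rw [Real.div_rpow (by positivity) (by norm_num)] at h1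
  refine h1.trans ?_
  rw [div_le_iff₀ (by positivity)]
  have h4 : 0 ≤ (a + 1 * u) ^ (q - 2) := by positivity
  nlinarith [mul_le_mul_of_nonneg_left (h3.symm.trans_le h2) h4]

variable {n : ℕ}

theorem snd_ge {Z : Y n} (h : Z ∈ closedBall (PP n) (1 / 8)) : 7 / 8 ≤ Z.2 := by
  have h1 : |Z.2 - 1| ≤ 1 / 8 := (le_max_right _ _).trans (mem_closedBall.1 h)
  linarith [(abs_le.1 h1).1]

theorem sub_Hs : closedBall (PP n) (1 / 8) ⊆ Hs n 0 := fun Z h => by
  have := snd_ge h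
  change 0 < Z.2
  linarith

/-- The comparison level on the ball. -/
theorem level (hA : St_API n) {q σ : ℝ} {F : Y n → V n} (hq : 0 < q) (hq2 : q ≤ 2) (hσ : 0 < σ)
    (hF : CRon (Hs n 0) F) : ∃ m u : ℝ, m ^ (q - 2) * u ^ 2 ≤ 4 * EE q σ F (PP n) ∧
      ∀ Z ∈ closedBall (PP n) (1 / 8), rho σ F Z ≤ m ∧ m ≤ bs σ F Z ∧ m - rho σ F Z ≤ u := by
  have hP : PP n ∈ closedBall (PP n) (1 / 8) := mem_closedBall_self (by norm_num)
  obtain ⟨W, hW, hmax⟩ := (isCompact_closedBall (PP n) (1 / 8)).exists_isMaxOn ⟨_, hP⟩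
    ((hA.cont _ F σ (isOpen_Hs 0) hF).2.1.mono sub_Hs)
  have hu := hn_nonneg F W
  have hnn : ∀ Z ∈ closedBall (PP n) (1 / 8), hn F W ≤ nn F Z := fun Z hZ => by
    have h1 := snd_ge hZ
    refine hA.le_nn F Z W hF (by linarith) (mem_closedBall.2 ?_)
    have h2 := dist_triangle_right W Z (PP n)
    linarith [mem_closedBall.1 hW, mem_closedBall.1 hZ]
  refine ⟨rho σ F (PP n) + hn F W / 2, hn F W, ?_, fun Z hZ => ?_⟩
  · have h1 := half hq.le hq2 (rho_pos hσ F (PP n)) hu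
    have h2 := hA.mono q _ 1 _ _ hq hq2 (rho_pos hσ F (PP n)) zero_le_one hu (hnn _ hP)
    have h3 : EE q σ F (PP n) =
        (rho σ F (PP n) + 1 * nn F (PP n)) ^ (q - 2) * nn F (PP n) ^ 2 := rfl
    rw [h3]
    nlinarith [mul_le_mul_of_nonneg_right h1 (sq_nonneg (hn F W))]
  · have h1 := hA.lip F _ (hn F W) (convex_closedBall _ _)
      (fun X hX => hA.diff _ F (isOpen_Hs 0) hF X (sub_Hs hX)) (fun X hX => hmax hX) Z hZ _ hP
    have h2 : ‖Z - PP n‖ ≤ 1 / 8 := mem_closedBall_iff_norm.1 hZ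
    have h3 := abs_le.1 (hA.rho_lip σ F Z (PP n))
    have h4 : 2 * hn F W * ‖Z - PP n‖ ≤ 2 * hn F W * (1 / 8) :=
      mul_le_mul_of_nonneg_left h2 (by positivity)
    have h5 : 7 / 8 * hn F W ≤ Z.2 * nn F Z :=
      mul_le_mul (snd_ge hZ) (hnn Z hZ) hu (by linarith [snd_ge hZ])
    unfold bs
    refine ⟨?_, ?_, ?_⟩ <;> linarith [h3.1, h3.2]

theorem II_eq {φ h : Y n → ℝ} (h0 : ∀ Z, 0 ≤ φ Z)
    (hs : ∀ Z, Z ∉ closedBall (PP n) (1 / 8) → φ Z = 0) (hh : ∀ Z ∈ Hs n 0, 0 ≤ h Z)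
    (hi : Integrable fun Z => φ Z * h Z) :
    0 ≤ ∫ Z, φ Z * h Z ∧ II (Hs n 0) (fun Z => φ Z * h Z) = ENNReal.ofReal (∫ Z, φ Z * h Z) := by
  have h1 : ∀ Z, 0 ≤ φ Z * h Z := fun Z => by
    by_cases hZ : Z ∈ closedBall (PP n) (1 / 8)
    · exact mul_nonneg (h0 Z) (hh Z (sub_Hs hZ))
    · rw [hs Z hZ, zero_mul]
  refine ⟨integral_nonneg h1, ?_⟩
  rw [ofReal_integral_eq_lintegral_ofReal hi (Eventually.of_forall h1)]
  refine setLIntegral_eq_of_support_subset fun Z hZ => sub_Hs ?_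
  by_contra h2
  exact hZ (by simp only [hs Z h2, zero_mul, ENNReal.ofReal_zero])

theorem lap_zero (Z : Y n) : lap (fun _ => (0 : ℝ)) Z = 0 := by
  have h : ∀ i : Option (Fin n), pd i (fun _ => (0 : ℝ)) = fun _ => 0 := fun i => by
    funext X
    simp [pd]
  simp [lap, h]

end LOC

open LOC in
theorem t_LOC : T_LOC := by
  intro n h2 hB hL hI
  refine ⟨32 * (volume : Measure (Y n)).real (closedBall (PP n) (1 / 8)), by positivity, ?_⟩
  intro q σ K F φ hq hqp hσ hF hφ h0 hs hK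
  have hp := half_le_p0 h2
  have hp1 := p0_lt_one h2
  have hO := isOpen_Hs (n := n) 0
  have hK0 : 0 ≤ K := (abs_nonneg _).trans (hK (PP n))
  obtain ⟨m, u, hmu, hm⟩ := level hB.api (q := q) (by linarith) (by linarith) hσ hF
  obtain ⟨s1, l1⟩ := hL _ F σ (p0 n) hO hF hσ
  obtain ⟨s2, l2⟩ := hL _ F σ q hO hF hσ
  let R : Y n → ℝ := fun Z => q / p0 n * m ^ (q - p0 n) * rho σ F Z ^ p0 n +
    -1 * rho σ F Z ^ q + (1 - q / p0 n) * m ^ q
  have sR : ContDiffOn ℝ ∞ R (Hs n 0) :=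
    ((contDiffOn_const.mul s1).add (contDiffOn_const.mul s2)).add contDiffOn_const
  obtain ⟨hint, hibp⟩ := hI _ R φ hO sR ⟨hφ, _, isCompact_closedBall _ _, sub_Hs, hs⟩
  obtain ⟨-, -, cB, cb, cL⟩ := hB.api.contE F q σ hF hσ
  have hpos := hB.api.pos F q σ hF hqp
  obtain ⟨pL, eL⟩ := II_eq h0 hs (fun Z hZ => (hpos Z hZ).2.2.2.2) (hint _ cL).1
  obtain ⟨pB, eB⟩ := II_eq h0 hs (fun Z hZ => (hpos Z hZ).2.2.1) (hint _ cB).1
  obtain ⟨pb, eb⟩ := II_eq h0 hs (fun Z hZ => (hpos Z hZ).2.2.2.1) (hint _ cb).1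
  have hlow : ∀ Z, q * (φ Z * LL q σ F Z + φ Z * BB q σ F Z - φ Z * bb q σ F Z) ≤
      φ Z * lap R Z := fun Z => by
    by_cases hZ : Z ∈ closedBall (PP n) (1 / 8)
    · obtain ⟨m1, m2, -⟩ := hm Z hZ
      have hr := rho_pos hσ F Z
      have hm0 : 0 < m := hr.trans_le m1
      have a1 : bs σ F Z ^ (q - 4) ≤ m ^ (q - p0 n) * rho σ F Z ^ (p0 n - 4) := by
        rw [show q - 4 = q - p0 n + (p0 n - 4) by ring, Real.rpow_add (hm0.trans_le m2)]
        exact mul_le_mul (Real.rpow_le_rpow_of_nonpos hm0 m2 (by linarith))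
          (Real.rpow_le_rpow_of_nonpos hr (m1.trans m2) (by linarith))
          (Real.rpow_nonneg (hm0.trans_le m2).le _) (Real.rpow_nonneg hm0.le _)
      have a2 : lap R Z = q * (LL q σ F Z +
          m ^ (q - p0 n) * rho σ F Z ^ (p0 n - 4) * Dh σ F Z - bb q σ F Z) := by
        have a3 : 2 - q = ((n : ℝ) + 1) / n + (p0 n - q) := by
          rw [← two_sub_p0 h2]
          ring
        have a4 : p0 n ≠ 0 := by linarith
        rw [hB.crd.lin _ _ _ _ _ _ hO s1 s2 Z (sub_Hs hZ), l1 Z (sub_Hs hZ), l2 Z (sub_Hs hZ),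
          two_sub_p0 h2, a3]
        unfold LL bb Dh
        generalize ((n : ℝ) + 1) / n = s
        field_simp
        ring
      have a5 : BB q σ F Z ≤ m ^ (q - p0 n) * rho σ F Z ^ (p0 n - 4) * Dh σ F Z :=
        mul_le_mul_of_nonneg_right a1 (hpos Z (sub_Hs hZ)).1
      rw [a2, mul_left_comm, ← mul_add, ← mul_sub]
      exact mul_le_mul_of_nonneg_left (mul_le_mul_of_nonneg_left (by linarith) (h0 Z))
        (by linarith)
    · simp [hs Z hZ]
  have hup : ∀ Z, R Z * lap φ Z ≤ (closedBall (PP n) (1 / 8)).indicator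
      (fun _ => 8 * (p0 n - q) * K * EE q σ F (PP n)) Z := fun Z => by
    by_cases hZ : Z ∈ closedBall (PP n) (1 / 8)
    · obtain ⟨m1, -, m3⟩ := hm Z hZ
      have a1 : |R Z| ≤ _ := rem (by linarith) hqp hp hp1.le (rho_pos hσ F Z) m1 m3
      have a2 : |R Z| ≤ 2 * (p0 n - q) * (4 * EE q σ F (PP n)) :=
        a1.trans (mul_le_mul_of_nonneg_left hmu (by linarith))
      rw [indicator_of_mem hZ]
      refine (le_abs_self _).trans ?_
      rw [abs_mul]
      refine (mul_le_mul a2 (hK Z) (abs_nonneg _) ((abs_nonneg _).trans a2)).trans_eq ?_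
      ring
    · have a1 : φ =ᶠ[𝓝 Z] fun _ => 0 :=
        eventually_of_mem (isClosed_closedBall.isOpen_compl.mem_nhds hZ) hs
      rw [indicator_of_notMem hZ, (hB.crd.cgr _ _ Z a1).2, lap_zero, mul_zero]
  have i1 := integral_mono (((hint _ cL).1.add (hint _ cB).1).sub (hint _ cb).1 |>.const_mul q)
    (hint _ (hB.crd.smooth _ R hO sR).2.continuousOn).1 hlow
  have i2 := integral_mono (hint _ sR.continuousOn).2
    (IntegrableOn.integrable_indicator (integrableOn_const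
      (isCompact_closedBall (PP n) (1 / 8)).measure_lt_top.ne) measurableSet_closedBall) hup
  rw [integral_indicator_const _ measurableSet_closedBall, smul_eq_mul, ← hibp] at i2
  rw [integral_const_mul, integral_sub' ((hint _ cL).1.add (hint _ cB).1) (hint _ cb).1,
    integral_add' (hint _ cL).1 (hint _ cB).1] at i1
  rw [eL, eB, eb, ← ENNReal.ofReal_add pL pB]
  refine (ENNReal.ofReal_le_ofReal ?_).trans ENNReal.ofReal_add_le
  have hE : 0 ≤ (volume : Measure (Y n)).real (closedBall (PP n) (1 / 8)) *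
      (8 * (p0 n - q) * K * EE q σ F (PP n)) := by
    have := (hpos _ (sub_Hs (mem_closedBall_self (by norm_num)))).2.1
    have h3 : 0 ≤ p0 n - q := by linarith
    positivity
  by_contra h3
  have h4 := not_le.1 h3
  nlinarith

end Pool.Agent.RZ
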