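import Pool.Agent.Lib.RZ.Blue

set_option autoImplicit false

open MeasureTheory Metric Set Filter
open scoped ENNReal ContDiff Topology

noncomputable section

namespace Pool.Agent.RZ

open Pool.Agent.HP

theorem t_LOW46 : T_LOW := by
  intro n hn hB hAVG hBUMP hLOC
  obtain ⟨χ, Cb, hCb, hχc, hχ0, hχs, hc0, hc1, hχ⟩ := hBUMP
  obtain ⟨C, hC, hloc⟩ := hLOC
  set c0 : ℝ≥0∞ := ∫⁻ Z in Hs n 0, ENNReal.ofReal (χ Z) * ENNReal.ofReal (1 / Z.2) with hc0d
  have hcr : 0 < c0.toReal := ENNReal.toReal_pos hc0.ne' hc1.ne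
  refine ⟨C * Cb / c0.toReal, by positivity, fun q σ F hq1 hq2 hσ hF => ?_⟩
  have hmH : MeasurableSet (Hs n 0) := (isOpen_Hs 0).measurableSet
  obtain ⟨-, cE, cB, cb, cL⟩ := hB.api.contE F q σ hF hσ
  have hsub : Hs n 0 ⊆ Hs n (-1) := fun X hX => by
    simp only [Hs, mem_ofPred_eq] at hX ⊢; linarith
  have cv : ContinuousOn (vv (n := n)) (Hs n 0) := hB.api.wcont.2.1.mono hsub
  have hv0 : ∀ X : Y n, 0 < X.2 → 0 ≤ vv X := fun X hX =>
    mul_nonneg hX.le (hB.api.wpos X (by linarith)).2.1.le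
  set A : (Y n → ℝ) → Y n → ℝ≥0∞ := fun g X =>
    ∫⁻ Z in Hs n 0, ENNReal.ofReal (χ Z) * ENNReal.ofReal (vv (sh X Z) * g (sh X Z)) with hA
  have havg : ∀ g : Y n → ℝ, ContinuousOn g (Hs n 0) →
      AEMeasurable (A g) (volume.restrict (Hs n 0)) ∧
      ∫⁻ X in Hs n 0, A g X = c0 * II (Hs n 0) (fun X => vv X * g X) := fun g hg =>
    hAVG (Y n) (volume.restrict (Hs n 0)) id (fun Z => ENNReal.ofReal (χ Z))
      (fun X => ENNReal.ofReal (vv X * g X)) measurable_id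
      ((ae_restrict_iff' hmH).2 (ae_of_all _ fun Z hZ => hZ))
      hχc.measurable.ennreal_ofReal (hB.api.meas _ (cv.mul hg))
  have hII : ∀ (X : Y n) (g g' : Y n → ℝ), (∀ Z, g' Z = X.2 ^ 2 * g (sh X Z)) →
      II (Hs n 0) (fun Z => χ Z * vv (sh X Z) * g' Z) = ENNReal.ofReal (X.2 ^ 2) * A g X := by
    intro X g g' h
    simp only [hA, II]
    rw [← lintegral_const_mul' _ _ ENNReal.ofReal_ne_top]
    refine lintegral_congr fun Z => ?_
    rw [← ENNReal.ofReal_mul (hχ0 Z), ← ENNReal.ofReal_mul (sq_nonneg _), h Z]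
    congr 1
    ring
  have hpt : ∀ X ∈ Hs n 0, A (LL q σ F) X + A (BB q σ F) X ≤ A (bb q σ F) X +
      ENNReal.ofReal (C * Cb * (p0 n - q)) * ENNReal.ofReal (vv X * EE q σ F X) := by
    intro X hX
    have hX0 : 0 < X.2 := hX
    have h1 := hloc q σ (Cb * vv X) (sc F X) (fun Z => χ Z * vv (sh X Z)) hq1 hq2 hσ
      (hB.scl.cr0 F X hX0 hF) (hχ X hX).1 (fun Z => ?_) (fun Z hZ => by simp [hχs Z hZ])
      (hχ X hX).2
    · rw [hII X (LL q σ F) _ (fun Z => (hB.scl.sc_eq F q σ X Z hX0).2.2.2.2.2.2),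
        hII X (BB q σ F) _ (fun Z => (hB.scl.sc_eq F q σ X Z hX0).2.2.2.2.1),
        hII X (bb q σ F) _ (fun Z => (hB.scl.sc_eq F q σ X Z hX0).2.2.2.2.2.1),
        (hB.scl.sc_eq F q σ X (PP n) hX0).2.2.2.1, hB.scl.sh_P X] at h1
      have hp : 0 ≤ C * Cb * (p0 n - q) := mul_nonneg (mul_nonneg hC hCb) (by linarith)
      have e : ENNReal.ofReal (C * (p0 n - q) * (Cb * vv X) * (X.2 ^ 2 * EE q σ F X)) =
          ENNReal.ofReal (X.2 ^ 2) * (ENNReal.ofReal (C * Cb * (p0 n - q)) *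
            ENNReal.ofReal (vv X * EE q σ F X)) := by
        rw [← ENNReal.ofReal_mul hp, ← ENNReal.ofReal_mul (sq_nonneg _)]
        congr 1
        ring
      rw [e, ← mul_add, ← mul_add] at h1
      exact (ENNReal.mul_le_mul_iff_right
        (ENNReal.ofReal_pos.2 (by positivity)).ne' ENNReal.ofReal_ne_top).1 h1
    · by_cases hZ : Z ∈ closedBall (PP n) (1 / 8)
      · refine mul_nonneg (hχ0 Z) (hv0 _ ?_)
        have h2 : dist Z.2 (PP n).2 ≤ 1 / 8 :=
          le_trans (by rw [Prod.dist_eq]; exact le_max_right _ _) (mem_closedBall.1 hZ)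
        have h3 : (PP n).2 = 1 := rfl
        rw [h3, Real.dist_eq, abs_le] at h2
        exact mul_pos hX0 (by linarith [h2.1])
      · simp [hχs Z hZ]
  have hint := setLIntegral_mono' (μ := volume) hmH hpt
  rw [lintegral_add_left' (havg _ cL).1, lintegral_add_left' (havg _ cb).1, (havg _ cL).2,
    (havg _ cB).2, (havg _ cb).2, lintegral_const_mul' _ _ ENNReal.ofReal_ne_top] at hint
  have e2 : ENNReal.ofReal (C * Cb * (p0 n - q)) =
      c0 * ENNReal.ofReal (C * Cb / c0.toReal * (p0 n - q)) := by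
    conv_rhs => rw [← ENNReal.ofReal_toReal hc1.ne, ← ENNReal.ofReal_mul hcr.le]
    congr 1
    rw [ENNReal.toReal_ofReal hcr.le]
    field_simp
  rw [e2, mul_assoc, ← mul_add, ← mul_add] at hint
  exact (ENNReal.mul_le_mul_iff_right hc0.ne' hc1.ne).1 hint

end Pool.Agent.RZ
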