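import Pool.Agent.Lib.RZ.Blue

set_option autoImplicit false

open MeasureTheory Metric Set Filter
open scoped ENNReal ContDiff Topology

noncomputable section

namespace Pool.Agent.RZ

open Pool.Agent.HP

namespace POINT

variable {n : ℕ}

theorem ball_coord {X : Y n} {r : ℝ} (h : X ∈ ball (PP n) r) : ‖X.1‖ < r ∧ |X.2 - 1| < r := by
  rw [mem_ball, Prod.dist_eq, max_lt_iff] at h
  obtain ⟨h1, h2⟩ := h
  refine ⟨?_, ?_⟩
  · simpa [PP, dist_zero_right] using h1
  · simpa [PP, Real.dist_eq] using h2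

theorem ball_sub_Gam {L : ℝ} (hL : 2 ≤ L) : ball (PP n) (1 / 2) ⊆ Gam n L := by
  intro X hX
  obtain ⟨h1, h2⟩ := ball_coord hX
  have h3 := (abs_lt.1 h2).1
  have h4 : 1 ≤ L * X.2 := by nlinarith
  exact ⟨h4, by linarith⟩

theorem ball_sub_Hs : ball (PP n) (1 / 2) ⊆ Hs n 0 := by
  intro X hX
  obtain ⟨-, h2⟩ := ball_coord hX
  have h3 := (abs_lt.1 h2).1
  show (0 : ℝ) < X.2
  linarith

theorem psi_low {X : Y n} (hX : X ∈ ball (PP n) (1 / 2)) :
    2 * ((n : ℝ) + 1) * (9 : ℝ) ^ (-((n : ℝ) + 3) / 2) ≤ psi X := by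
  obtain ⟨h1, h2⟩ := ball_coord hX
  obtain ⟨h3, h4⟩ := abs_lt.1 h2
  have h0 : 0 ≤ ‖X.1‖ := norm_nonneg _
  have hpos : 0 < RR X := by
    unfold RR
    have : 0 < X.2 + 1 := by linarith
    positivity
  have hle : RR X ≤ 9 := by
    unfold RR
    nlinarith
  have hn0 : (0 : ℝ) ≤ n := Nat.cast_nonneg n
  have hz : -((n : ℝ) + 3) / 2 ≤ 0 := by linarith
  have h5 := Real.rpow_le_rpow_of_nonpos hpos hle hz
  unfold psi
  exact mul_le_mul_of_nonneg_left h5 (by positivity)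

theorem rho_low (hB : Bas n) {G : ℝ} (hG : 1 ≤ G)
    (hgrad : ∀ (F : Y n → V n) (X : Y n) (r M : ℝ), 0 < r → CRon (ball X r) F →
      (∀ Z ∈ ball X r, ‖F Z‖ ≤ M) → hn F X ≤ G * M / r)
    {L K σ : ℝ} (hL : 2 ≤ L) (hK : 1 ≤ K) (hσ : 0 < σ) {F : Y n → V n} (hF : Adm F)
    (hle : ∀ X ∈ Gam n L, rho σ F X ≤ K * rho σ F (PP n)) {X : Y n}
    (hX : X ∈ ball (PP n) (1 / (16 * G * K))) : rho σ F (PP n) / 2 ≤ rho σ F X := by
  have hρ := rho_pos hσ F (PP n)
  have hGK : 1 ≤ G * K := by nlinarith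
  have hr : 1 / (16 * G * K) ≤ 1 / 4 := by
    apply one_div_le_one_div_of_le (by norm_num)
    nlinarith
  have hsub : ∀ Z ∈ ball (PP n) (1 / 4), ball Z (1 / 4) ⊆ ball (PP n) (1 / 2) := by
    intro Z hZ
    apply ball_subset_ball'
    have := mem_ball.1 hZ
    linarith
  have hhn : ∀ Z ∈ ball (PP n) (1 / 4), hn F Z ≤ 4 * G * K * rho σ F (PP n) := by
    intro Z hZ
    have h1 := hgrad F Z (1 / 4) (K * rho σ F (PP n)) (by norm_num)
      (hF.cr.mono ((hsub Z hZ).trans ball_sub_Hs))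
      (fun W hW => (norm_le_rho σ F W).trans (hle W (ball_sub_Gam hL (hsub Z hZ hW))))
    calc hn F Z ≤ G * (K * rho σ F (PP n)) / (1 / 4) := h1
      _ = 4 * G * K * rho σ F (PP n) := by ring
  have hdiff : ∀ Z ∈ ball (PP n) (1 / 4), DifferentiableAt ℝ F Z := fun Z hZ =>
    hB.api.diff _ F (isOpen_Hs 0) hF.cr Z
      (ball_sub_Hs (ball_subset_ball (by norm_num) hZ))
  have hX' : X ∈ ball (PP n) (1 / 4) := ball_subset_ball hr hX
  have hlip := hB.api.lip F (ball (PP n) (1 / 4)) _ (convex_ball _ _) hdiff hhn X hX' (PP n)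
    (mem_ball_self (by norm_num))
  have hd : ‖X - PP n‖ ≤ 1 / (16 * G * K) := by
    rw [← dist_eq_norm]
    exact (mem_ball.1 hX).le
  have hrl := hB.api.rho_lip σ F X (PP n)
  have hG0 : 0 < G := by linarith
  have hK0 : 0 < K := by linarith
  have h2 : 2 * (4 * G * K * rho σ F (PP n)) * ‖X - PP n‖ ≤ rho σ F (PP n) / 2 := by
    calc 2 * (4 * G * K * rho σ F (PP n)) * ‖X - PP n‖
        ≤ 2 * (4 * G * K * rho σ F (PP n)) * (1 / (16 * G * K)) :=
          mul_le_mul_of_nonneg_left hd (by positivity)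
      _ = rho σ F (PP n) / 2 := by field_simp; ring
  have h3 := (abs_le.1 (hrl.trans (hlip.trans h2))).1
  linarith

theorem half_pow {a b q : ℝ} (ha : 0 < a) (hab : a / 2 ≤ b) (hq0 : 0 ≤ q) (hq1 : q ≤ 1) :
    a ^ q / 2 ≤ b ^ q := by
  have h1 : (a / 2) ^ q ≤ b ^ q := Real.rpow_le_rpow (by positivity) hab hq0
  have h2 : (2 : ℝ) ^ q ≤ 2 := by
    calc (2 : ℝ) ^ q ≤ (2 : ℝ) ^ (1 : ℝ) := Real.rpow_le_rpow_of_exponent_le (by norm_num) hq1
      _ = 2 := Real.rpow_one 2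
  rw [Real.div_rpow ha.le (by norm_num)] at h1
  refine le_trans ?_ h1
  exact div_le_div_of_nonneg_left (by positivity) (by positivity) h2

theorem mul_pow_le {a K q : ℝ} (ha : 0 < a) (hK : 1 ≤ K) (hq1 : q ≤ 1) :
    (K * a) ^ q ≤ K * a ^ q := by
  rw [Real.mul_rpow (by linarith) ha.le]
  have h2 : K ^ q ≤ K := by
    calc K ^ q ≤ K ^ (1 : ℝ) := Real.rpow_le_rpow_of_exponent_le hK hq1
      _ = K := Real.rpow_one K
  exact mul_le_mul_of_nonneg_right h2 (by positivity)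

theorem absorb {a C t : ℝ} {J : ℝ≥0∞} (ha : 0 < a) (ht : 0 ≤ t)
    (h : ENNReal.ofReal (2 * a * t) ≤ ENNReal.ofReal C * J + ENNReal.ofReal (a * t)) :
    ENNReal.ofReal t ≤ ENNReal.ofReal (C / a) * J := by
  have h1 : ENNReal.ofReal (2 * a * t) = ENNReal.ofReal (a * t) + ENNReal.ofReal (a * t) := by
    rw [← ENNReal.ofReal_add (by positivity) (by positivity)]
    exact congrArg ENNReal.ofReal (by ring)
  rw [h1] at h
  have h2 : ENNReal.ofReal (a * t) ≤ ENNReal.ofReal C * J :=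
    (ENNReal.add_le_add_iff_right ENNReal.ofReal_ne_top).1 h
  have h3 : ENNReal.ofReal t = ENNReal.ofReal (1 / a) * ENNReal.ofReal (a * t) := by
    rw [← ENNReal.ofReal_mul (by positivity)]
    exact congrArg ENNReal.ofReal (by field_simp)
  have h4 : ENNReal.ofReal (C / a) = ENNReal.ofReal (1 / a) * ENNReal.ofReal C := by
    rw [← ENNReal.ofReal_mul (by positivity)]
    exact congrArg ENNReal.ofReal (by field_simp)
  rw [h3, h4, mul_assoc]
  exact mul_le_mul_right h2 _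

end POINT

open POINT in
theorem t_POINT : T_POINT := by
  intro n h2 hB hGRAD hCORE
  obtain ⟨G, hG, hgrad⟩ := hGRAD
  obtain ⟨L, C, hL, hC, hcore⟩ := hCORE
  refine ⟨L, hL, fun K hK => ?_⟩
  have hG0 : 0 < G := by linarith
  have hK0 : 0 < K := by linarith
  have hGK : 1 ≤ G * K := by nlinarith
  set r : ℝ := 1 / (16 * G * K) with hr
  have hr0 : 0 < r := by positivity
  have hr2 : r ≤ 1 / 2 := by
    apply one_div_le_one_div_of_le (by norm_num)
    nlinarith
  set c : ℝ := 2 * ((n : ℝ) + 1) * (9 : ℝ) ^ (-((n : ℝ) + 3) / 2) with hc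
  have hc0 : 0 < c := by positivity
  have hvpos : 0 < volume (ball (PP n) r) := measure_ball_pos volume _ hr0
  have hvfin : volume (ball (PP n) r) < ⊤ := measure_ball_lt_top
  set v : ℝ := (volume (ball (PP n) r)).toReal with hv
  have hv0 : 0 < v := ENNReal.toReal_pos hvpos.ne' hvfin.ne
  have hvol : volume (ball (PP n) r) = ENNReal.ofReal v :=
    (ENNReal.ofReal_toReal hvfin.ne).symm
  set a : ℝ := c * v / 4 with ha
  have ha0 : 0 < a := by positivity
  obtain ⟨q, hq1, hq2, hq⟩ := hcore (a / K) (by positivity)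
  have hq0 : 0 ≤ q := by linarith
  have hq3 : q ≤ 1 := (hq2.trans (p0_lt_one h2)).le
  refine ⟨C / a, q, by positivity, hq1, hq2, fun σ F hσ hF hle => ?_⟩
  have hρ := rho_pos hσ F (PP n)
  have ht : 0 ≤ rho σ F (PP n) ^ q := by positivity
  have h1 := hq σ (K * rho σ F (PP n)) F hσ hF hle
  apply absorb ha0 ht
  have hlow : ENNReal.ofReal (2 * a * rho σ F (PP n) ^ q) ≤
      II (Hs n 0) (fun X => psi X * rho σ F X ^ q) := by
    have hsub : ball (PP n) r ⊆ ball (PP n) (1 / 2) := ball_subset_ball hr2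
    calc ENNReal.ofReal (2 * a * rho σ F (PP n) ^ q)
        = ENNReal.ofReal (c * (rho σ F (PP n) ^ q / 2)) * volume (ball (PP n) r) := by
          rw [hvol, ← ENNReal.ofReal_mul (by positivity)]
          exact congrArg ENNReal.ofReal (by rw [ha]; ring)
      _ = ∫⁻ _ in ball (PP n) r, ENNReal.ofReal (c * (rho σ F (PP n) ^ q / 2)) :=
          (setLIntegral_const _ _).symm
      _ ≤ ∫⁻ X in ball (PP n) r, ENNReal.ofReal (psi X * rho σ F X ^ q) := by
          apply setLIntegral_mono' measurableSet_ball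
          intro X hX
          apply ENNReal.ofReal_le_ofReal
          have h3 := psi_low (hsub hX)
          have h4 := half_pow hρ (rho_low hB hG hgrad hL hK hσ hF hle hX) hq0 hq3
          exact mul_le_mul h3 h4 (by positivity) (hc0.le.trans h3)
      _ ≤ II (Hs n 0) (fun X => psi X * rho σ F X ^ q) :=
          lintegral_mono_set (hsub.trans ball_sub_Hs)
  refine hlow.trans (h1.trans ?_)
  refine add_le_add le_rfl (ENNReal.ofReal_le_ofReal ?_)
  calc a / K * (K * rho σ F (PP n)) ^ q ≤ a / K * (K * rho σ F (PP n) ^ q) :=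
        mul_le_mul_of_nonneg_left (mul_pow_le hρ hK hq3) (by positivity)
    _ = a * rho σ F (PP n) ^ q := by field_simp

end Pool.Agent.RZ
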