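import Pool.Agent.Lib.RZ.Blue

set_option autoImplicit false

open MeasureTheory Metric Set Filter
open scoped ENNReal ContDiff Topology Pointwise

noncomputable section

namespace Pool.Agent.RZ

open Pool.Agent.HP

namespace SCL

variable {n : ℕ} {W : Type} [NormedAddCommGroup W] [NormedSpace ℝ W]

theorem sh_eq (X Z : Y n) : sh X Z = (X.1, 0) + X.2 • Z := by
  ext <;> simp [sh]

theorem pd_sh (g : Y n → W) (X Z : Y n) (i : Option (Fin n)) :
    pd i (fun V => g (sh X V)) Z = X.2 • pd i g (sh X Z) := by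
  unfold pd
  have h1 : (fun V => g (sh X V)) = fun V => (fun U => g ((X.1, 0) + U)) (X.2 • V) := by
    funext V
    rw [sh_eq]
  rw [h1, fderiv_comp_smul (f := fun U => g ((X.1, 0) + U)), fderiv_comp_add_left, ← sh_eq]
  rfl

theorem pd_smul (g : Y n → W) (c : ℝ) (Z : Y n) (i : Option (Fin n)) :
    pd i (fun V => c • g V) Z = c • pd i g Z := by
  unfold pd
  have h1 : (fun V => c • g V) = c • g := rfl
  rw [h1, fderiv_const_smul_field]
  rfl

theorem smooth (X : Y n) : ContDiff ℝ ∞ (sh X) := by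
  have h1 : sh X = fun Z => (X.1, 0) + X.2 • Z := funext (sh_eq X)
  rw [h1]
  fun_prop

theorem sh_ball (X Z : Y n) (hX : 0 < X.2) (r : ℝ) :
    sh X '' closedBall Z r = closedBall (sh X Z) (X.2 * r) := by
  have hd : ∀ U : Y n, dist (sh X U) (sh X Z) = X.2 * dist U Z := by
    intro U
    rw [sh_eq, sh_eq, dist_add_left, dist_smul₀, Real.norm_of_nonneg hX.le]
  ext U
  constructor
  · rintro ⟨U', hU, rfl⟩
    rw [mem_closedBall] at hU ⊢
    rw [hd]
    exact mul_le_mul_of_nonneg_left hU hX.le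
  · intro hU
    have h1 : sh X (X.2⁻¹ • (U - (X.1, 0))) = U := by
      rw [sh_eq, smul_smul, mul_inv_cancel₀ hX.ne', one_smul, add_sub_cancel]
    refine ⟨_, ?_, h1⟩
    rw [mem_closedBall] at hU ⊢
    rw [← h1, hd] at hU
    exact le_of_mul_le_mul_left hU hX

theorem hn2_smul (H : Option (Fin n) → V n) (c : ℝ) :
    hn2 (fun i => c • H i) = c ^ 2 * hn2 H := by
  simp only [hn2, norm_smul, Real.norm_eq_abs, mul_pow, sq_abs, Finset.mul_sum]

theorem hv2_smul (H : Option (Fin n) → V n) (v : V n) (c d : ℝ) :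
    hv2 (fun i => c • H i) (d • v) = c ^ 2 * d ^ 2 * hv2 H v := by
  simp only [hv2, real_inner_smul_left, real_inner_smul_right, Finset.mul_sum]
  exact Finset.sum_congr rfl fun i _ => by ring

theorem jac_sc (F : Y n → V n) (X Z : Y n) :
    jac (sc F X) Z = fun i => X.2 • jac F (sh X Z) i :=
  funext fun i => pd_sh F X Z i

theorem jac_smul (F : Y n → V n) (c : ℝ) (Z : Y n) :
    jac (fun U => c • F U) Z = fun i => c • jac F Z i :=
  funext fun i => pd_smul F c Z i

theorem sqrt_mul {c : ℝ} (hc : 0 ≤ c) (a : ℝ) : √(c ^ 2 * a) = c * √a := by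
  rw [Real.sqrt_mul (sq_nonneg c), Real.sqrt_sq hc]

theorem hn_sc (F : Y n → V n) (X Z : Y n) (hX : 0 < X.2) :
    hn (sc F X) Z = X.2 * hn F (sh X Z) := by
  unfold hn
  rw [jac_sc, hn2_smul, sqrt_mul hX.le]

theorem hn_smul (F : Y n → V n) (c : ℝ) (Z : Y n) (hc : 0 < c) :
    hn (fun U => c • F U) Z = c * hn F Z := by
  unfold hn
  rw [jac_smul, hn2_smul, sqrt_mul hc.le]

theorem sSup_mul (f : Y n → ℝ) (S : Set (Y n)) {c : ℝ} (hc : 0 ≤ c) :
    sSup ((fun U => c * f U) '' S) = c * sSup (f '' S) := by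
  have h1 : (fun U => c * f U) '' S = c • (f '' S) := by
    rw [← Set.image_smul, Set.image_image]
    rfl
  rw [h1, Real.sSup_smul_of_nonneg hc, smul_eq_mul]

theorem nn_sc (F : Y n → V n) (X Z : Y n) (hX : 0 < X.2) :
    nn (sc F X) Z = X.2 * nn F (sh X Z) := by
  unfold nn
  have h1 : hn (sc F X) = fun U => X.2 * hn F (sh X U) := funext fun U => hn_sc F X U hX
  have h2 : (sh X Z).2 / 2 = X.2 * (Z.2 / 2) := by
    simp only [sh]
    ring
  rw [h1, sSup_mul _ _ hX.le, h2, ← sh_ball X Z hX, Set.image_image]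

theorem nn_smul (F : Y n → V n) (c : ℝ) (Z : Y n) (hc : 0 < c) :
    nn (fun U => c • F U) Z = c * nn F Z := by
  unfold nn
  have h1 : hn (fun U => c • F U) = fun U => c * hn F U := funext fun U => hn_smul F c U hc
  rw [h1, sSup_mul _ _ hc.le]

theorem cr (U : Set (Y n)) (F : Y n → V n) (X : Y n) (h : CRon U F) :
    CRon (sh X ⁻¹' U) (sc F X) := by
  refine ⟨h.smooth.comp (smooth X).contDiffOn (fun Z hZ => hZ), fun Z hZ i j => ?_,
    fun Z hZ => ?_⟩
  · have h1 := h.symm _ hZ i j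
    unfold sc
    rw [pd_sh, pd_sh, PiLp.smul_apply, PiLp.smul_apply, h1]
  · have h1 := h.trace _ hZ
    unfold sc
    simp only [pd_sh, PiLp.smul_apply, smul_eq_mul]
    rw [← Finset.mul_sum, h1, mul_zero]

theorem pre_Hs (X : Y n) (hX : 0 < X.2) (a : ℝ) : sh X ⁻¹' Hs n a = Hs n (a / X.2) := by
  ext Z
  change a < X.2 * Z.2 ↔ a / X.2 < Z.2
  rw [div_lt_iff₀ hX, mul_comm]

end SCL

open SCL in
theorem t_SCL : T_SCL := by
  intro n h2
  refine ⟨fun g X Z i _ => pd_sh g X Z i, fun g X Z _ => ?_, smooth, fun U F X _ h => cr U F X h,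
    fun F X hX h => ?_, fun F X hX h => ?_, fun F q σ X Z hX => ?_, fun X => ?_,
    fun U F c h => ?_, fun F q σ c X hc hX => ?_⟩
  · unfold lap
    rw [Finset.mul_sum]
    refine Finset.sum_congr rfl fun i _ => ?_
    have h1 : pd i (fun W => g (sh X W)) = fun W => X.2 • pd i g (sh X W) :=
      funext fun W => pd_sh g X W i
    rw [h1, pd_smul (fun W => pd i g (sh X W)), pd_sh (pd i g), smul_eq_mul, smul_eq_mul]
    ring
  · have := cr _ F X h
    rwa [pre_Hs X hX, zero_div] at this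
  · obtain ⟨a, M, ha, h1, hM⟩ := h
    have h3 := cr _ F X h1
    rw [pre_Hs X hX, neg_div] at h3
    refine ⟨a / X.2, M, div_pos ha hX, h3, fun Z hZ => hM _ ?_⟩
    rw [← neg_div, ← pre_Hs X hX] at hZ
    exact hZ
  · have h1 := hn_sc F X Z hX
    have h3 := nn_sc F X Z hX
    have h4 : rho σ (sc F X) Z = rho σ F (sh X Z) := rfl
    have h5 : bs σ (sc F X) Z = bs σ F (sh X Z) := by
      unfold bs
      rw [h3, h4]
      simp only [sh]
      ring
    have h6 : hv2 (jac (sc F X) Z) (sc F X Z) =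
        X.2 ^ 2 * hv2 (jac F (sh X Z)) (F (sh X Z)) := by
      have := hv2_smul (jac F (sh X Z)) (F (sh X Z)) X.2 1
      rw [one_smul, one_pow, mul_one] at this
      rw [jac_sc]
      exact this
    have h7 : Dh σ (sc F X) Z = X.2 ^ 2 * Dh σ F (sh X Z) := by
      unfold Dh
      rw [h1, h4, h6]
      ring
    refine ⟨h1, h3, h4, ?_, ?_, ?_, ?_⟩
    · unfold EE
      rw [h5, h3]
      ring
    · unfold BB
      rw [h5, h7]
      ring
    · unfold bb
      rw [h4, h7]
      ring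
    · unfold LL
      rw [h4, h6]
      ring
  · ext <;> simp [sh, PP]
  · refine ⟨h.smooth.const_smul c, fun Z hZ i j => ?_, fun Z hZ => ?_⟩
    · rw [pd_smul, pd_smul, PiLp.smul_apply, PiLp.smul_apply, h.symm Z hZ i j]
    · simp only [pd_smul, PiLp.smul_apply, smul_eq_mul]
      rw [← Finset.mul_sum, h.trace Z hZ, mul_zero]
  · have h1 := hn_smul F c X hc
    have h3 := nn_smul F c X hc
    have h4 : rho (c * σ) (fun Z => c • F Z) X = c * rho σ F X := by
      unfold rho
      rw [← sqrt_mul hc.le, norm_smul, Real.norm_of_nonneg hc.le]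
      congr 1
      ring
    have h5 : bs (c * σ) (fun Z => c • F Z) X = c * bs σ F X := by
      unfold bs
      rw [h3, h4]
      ring
    have h6 : 0 ≤ bs σ F X := add_nonneg (Real.sqrt_nonneg _) (mul_nonneg hX (nn_nonneg F X))
    have h7 : Dh (c * σ) (fun Z => c • F Z) X = c ^ 4 * Dh σ F X := by
      unfold Dh
      rw [h1, h4, jac_smul, hv2_smul]
      ring
    have h8 : ∀ k : ℕ, c ^ (q - k) * c ^ k = c ^ q := by
      intro k
      rw [← Real.rpow_natCast, ← Real.rpow_add hc, sub_add_cancel]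
    refine ⟨h1, h3, h4, ?_, ?_⟩
    · unfold EE
      rw [h5, h3, Real.mul_rpow hc.le h6, ← h8 2]
      push_cast
      ring
    · unfold BB
      rw [h5, h7, Real.mul_rpow hc.le h6, ← h8 4]
      push_cast
      ring

end Pool.Agent.RZ
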