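import Pool.Agent.Lib.RZ.Blue

set_option autoImplicit false

open MeasureTheory Metric Set Filter
open scoped ENNReal ContDiff Topology

noncomputable section

namespace Pool.Agent.RZ

open Pool.Agent.HP

namespace SEL

variable {n : ℕ}

/-- the aperture of `X` seen from `x` -/
def ap (x : E n) (X : Y n) : ℝ := 1 + ‖X.1 - x‖ / X.2

theorem one_le_ap (x : E n) {X : Y n} (h : 0 < X.2) : 1 ≤ ap x X :=
  le_add_of_nonneg_right (by positivity)

theorem ap_sh (x : E n) {X Z : Y n} {L : ℝ} (h : 0 < X.2) (hL : 0 < L) (hZ : Z ∈ Gam n L) :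
    0 < (sh X Z).2 ∧ ap x (sh X Z) ≤ (1 + L) * ap x X := by
  obtain ⟨h1, h2⟩ := hZ
  have hs : 0 < Z.2 := by
    by_contra h3
    nlinarith [not_lt.1 h3]
  refine ⟨mul_pos h hs, ?_⟩
  have h3 : ‖X.1 + X.2 • Z.1 - x‖ ≤ ‖X.1 - x‖ + X.2 * ‖Z.1‖ := by
    rw [add_sub_right_comm]
    refine (norm_add_le _ _).trans ?_
    rw [norm_smul, Real.norm_of_nonneg h.le]
  have h4 : ‖X.1 + X.2 • Z.1 - x‖ / (X.2 * Z.2) ≤ L * (‖X.1 - x‖ / X.2) + L := by
    rw [div_le_iff₀ (mul_pos h hs)]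
    have e : (L * (‖X.1 - x‖ / X.2) + L) * (X.2 * Z.2) =
        L * Z.2 * ‖X.1 - x‖ + X.2 * (L * Z.2) := by field_simp
    rw [e]
    nlinarith [norm_nonneg (X.1 - x), mul_le_mul_of_nonneg_left h2 h.le]
  have h5 : 0 ≤ ‖X.1 - x‖ / X.2 := by positivity
  change 1 + ‖X.1 + X.2 • Z.1 - x‖ / (X.2 * Z.2) ≤ (1 + L) * (1 + ‖X.1 - x‖ / X.2)
  nlinarith

theorem exists_sel (f : Y n → ℝ) (M : ℝ) (h0 : ∀ X : Y n, 0 < X.2 → 0 < f X)
    (hM : ∀ X : Y n, 0 < X.2 → f X ≤ M) :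
    ∃ X₀ : Y n, 0 < X₀.2 ∧ ∀ X : Y n, 0 < X.2 → f X ≤ 2 * f X₀ := by
  have hb : BddAbove (f '' Hs n 0) := ⟨M, by rintro _ ⟨X, hX, rfl⟩; exact hM X hX⟩
  have hP : PP n ∈ Hs n 0 := show (0 : ℝ) < 1 from one_pos
  have h1 : 0 < sSup (f '' Hs n 0) := (h0 _ hP).trans_le (le_csSup hb ⟨_, hP, rfl⟩)
  obtain ⟨_, ⟨X₀, hX, rfl⟩, h2⟩ := exists_lt_of_lt_csSup (s := f '' Hs n 0) ⟨_, _, hP, rfl⟩
    (half_lt_self h1)
  refine ⟨X₀, hX, fun X h => ?_⟩
  have := le_csSup hb ⟨X, h, rfl⟩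
  linarith

theorem lint_scale (h : E n → ℝ≥0∞) (y : E n) {T : ℝ} (hT : 0 < T) :
    ∫⁻ z, h (y + T • z) = ENNReal.ofReal (T ^ n)⁻¹ * ∫⁻ z, h z := by
  have h1 := (measurableEmbedding_const_smul₀ (α := E n) hT.ne').lintegral_map
    (μ := volume) (fun z => h (y + z))
  rw [← h1, Measure.map_addHaar_smul _ hT.ne', lintegral_smul_measure, lintegral_add_left_eq_self,
    finrank_euclideanSpace_fin, abs_of_nonneg (by positivity), smul_eq_mul]

theorem J0_le (api : St_API n) (g : Y n → ℝ) (hg : ∀ X, 0 ≤ g X) (x : E n) {X : Y n}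
    (h : 0 < X.2) : J0 (fun Z => g (sh X Z)) ≤ ENNReal.ofReal (2 ^ (n + 1) * ap x X ^ (n + 1)) *
      KM ((n : ℝ) + 1) (fun z => ENNReal.ofReal (g (z, 0))) x := by
  have hu := one_le_ap x h
  have h1 : ∫⁻ z : E n, ENNReal.ofReal ((1 + ‖X.1 + X.2 • z - x‖ / X.2) ^ (-((n : ℝ) + 1))) *
      ENNReal.ofReal (g (X.1 + X.2 • z, 0)) ≤
      KM ((n : ℝ) + 1) (fun z => ENNReal.ofReal (g (z, 0))) x := by
    rw [lint_scale (fun y => ENNReal.ofReal ((1 + ‖y - x‖ / X.2) ^ (-((n : ℝ) + 1))) *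
      ENNReal.ofReal (g (y, 0))) X.1 h, ← lintegral_const_mul' _ _ ENNReal.ofReal_ne_top]
    refine le_iSup₂_of_le X.2 h (le_of_eq (lintegral_congr fun z => ?_))
    rw [HP.ker, ENNReal.ofReal_mul (by positivity), mul_assoc]
  refine le_trans ?_ (mul_le_mul_right h1 _)
  rw [← lintegral_const_mul' _ _ ENNReal.ofReal_ne_top]
  refine lintegral_mono fun z => ?_
  have e : sh X (z, 0) = (X.1 + X.2 • z, 0) := by simp [sh]
  have hp : 0 < 1 + ‖X.1 + X.2 • z - x‖ / X.2 := by positivity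
  rw [← ENNReal.ofReal_mul (by positivity), ← ENNReal.ofReal_mul (by positivity)]
  refine ENNReal.ofReal_le_ofReal ?_
  beta_reduce
  rw [e, ← mul_assoc]
  refine mul_le_mul_of_nonneg_right ((api.wle (z, 0) le_rfl).trans ?_) (hg _)
  rw [mul_assoc]
  refine mul_le_mul_of_nonneg_left ?_ (by positivity)
  have h3 : ‖X.1 + X.2 • z - x‖ ≤ ‖X.1 - x‖ + X.2 * ‖z‖ := by
    rw [add_sub_right_comm]
    refine (norm_add_le _ _).trans ?_
    rw [norm_smul, Real.norm_of_nonneg h.le]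
  have h4 : ‖X.1 + X.2 • z - x‖ / X.2 ≤ ‖X.1 - x‖ / X.2 + ‖z‖ := by
    rw [div_le_iff₀ h, add_mul, div_mul_cancel₀ _ h.ne']
    linarith
  have h5 : 1 + ‖X.1 + X.2 • z - x‖ / X.2 ≤ ap x X * (‖z‖ + 0 + 1) := by
    have h6 : 0 ≤ ‖X.1 - x‖ / X.2 := by positivity
    unfold ap
    nlinarith [norm_nonneg z]
  have hz : 0 < ‖z‖ + 0 + 1 := by positivity
  have e2 : ∀ a : ℝ, 0 < a → a ^ (-((n : ℝ) + 1)) = (a ^ (n + 1))⁻¹ := fun a ha => by
    rw [Real.rpow_neg ha.le, ← Nat.cast_succ, Real.rpow_natCast]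
  change (‖z‖ + 0 + 1) ^ (-((n : ℝ) + 1)) ≤ _
  rw [e2 _ hz, e2 _ hp, ← div_eq_mul_inv, le_div_iff₀ (by positivity), inv_mul_le_iff₀ (by positivity),
    ← mul_pow, mul_comm]
  exact pow_le_pow_left₀ hp.le h5 _

theorem pow_bound {r r₀ u u₀ q : ℝ} {d : ℕ} (hr : 0 < r) (hr₀ : 0 < r₀) (hu : 1 ≤ u) (hu₀ : 1 ≤ u₀)
    (h1 : 1 / 4 ≤ q) (h2 : q ≤ 1) (h : r / u ^ (4 * d) ≤ 2 * (r₀ / u₀ ^ (4 * d))) :
    r ^ q ≤ 2 * u ^ (4 * d) / u₀ ^ d * r₀ ^ q := by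
  have hu' : 0 < u := by linarith
  have hu₀' : 0 < u₀ := by linarith
  have h3 : r ≤ 2 * u ^ (4 * d) * (r₀ / u₀ ^ (4 * d)) := by
    rw [div_le_iff₀ (by positivity)] at h
    linarith
  have h4 : (2 * u ^ (4 * d)) ^ q ≤ 2 * u ^ (4 * d) := by
    have h5 : 1 ≤ 2 * u ^ (4 * d) := by linarith [one_le_pow₀ (n := 4 * d) hu]
    simpa using Real.rpow_le_rpow_of_exponent_le h5 h2
  have h5 : u₀ ^ d ≤ (u₀ ^ (4 * d)) ^ q := by
    rw [← Real.rpow_natCast, ← Real.rpow_natCast, ← Real.rpow_mul hu₀'.le]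
    refine Real.rpow_le_rpow_of_exponent_le hu₀ ?_
    push_cast
    nlinarith [(Nat.cast_nonneg d : (0 : ℝ) ≤ d)]
  calc r ^ q ≤ (2 * u ^ (4 * d) * (r₀ / u₀ ^ (4 * d))) ^ q :=
        Real.rpow_le_rpow hr.le h3 (by linarith)
    _ = (2 * u ^ (4 * d)) ^ q / (u₀ ^ (4 * d)) ^ q * r₀ ^ q := by
        rw [Real.mul_rpow (by positivity) (by positivity), Real.div_rpow hr₀.le (by positivity)]
        ring
    _ ≤ _ := by gcongr

end SEL

open SEL in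
theorem t_SEL : T_SEL := fun n h2 hB hP => by
  obtain ⟨L, hL, hP⟩ := hP
  have hK : 1 ≤ 2 * (1 + L) ^ (4 * (n + 1)) := by
    linarith [one_le_pow₀ (n := 4 * (n + 1)) (show 1 ≤ 1 + L by linarith)]
  obtain ⟨C, q, hC, hq1, hq2, hP⟩ := hP _ hK
  refine ⟨q, 2 * C * 2 ^ (n + 1), (4 * (n + 1) : ℕ), hq1, hq2, by positivity, by positivity,
    fun σ F hσ hF x X hX => ?_⟩
  obtain ⟨a, M, ha, -, hM⟩ := id hF
  obtain ⟨X₀, h0, hs⟩ := exists_sel (fun X => rho σ F X / ap x X ^ (4 * (n + 1))) (M + σ)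
    (fun X h => div_pos (rho_pos hσ F X) (pow_pos (one_pos.trans_le (one_le_ap x h)) _))
    fun X h => by
      refine (div_le_self (rho_pos hσ F X).le (one_le_pow₀ (one_le_ap x h))).trans ?_
      have h1 := hM X (show -a < X.2 by linarith)
      refine Real.sqrt_le_iff.2 ⟨by linarith [norm_nonneg (F X)], ?_⟩
      nlinarith [norm_nonneg (F X)]
  have hu₀ := one_le_ap x h0
  have e0 : rho σ (sc F X₀) (PP n) = rho σ F X₀ := by
    change rho σ F (sh X₀ (PP n)) = _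
    rw [hB.scl.sh_P]
  have h1 := hP σ (sc F X₀) hσ (hB.scl.adm F X₀ h0 hF) fun Z hZ => by
    obtain ⟨h3, h4⟩ := ap_sh x h0 (by linarith) hZ
    have h5 := hs _ h3
    have h6 := one_le_ap x h3
    have h7 := rho_pos hσ F X₀
    rw [div_le_iff₀ (by positivity)] at h5
    rw [e0]
    calc rho σ F (sh X₀ Z) ≤ _ := h5
      _ ≤ 2 * (rho σ F X₀ / ap x X₀ ^ (4 * (n + 1))) * ((1 + L) * ap x X₀) ^ (4 * (n + 1)) := by
          gcongr
      _ = _ := by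
          rw [mul_pow]
          field_simp
  rw [e0] at h1
  have h3 := J0_le hB.api (fun Z => rho σ F Z ^ q)
    (fun Z => Real.rpow_nonneg (rho_pos hσ F Z).le _) x h0
  have h4 := pow_bound (rho_pos hσ F X) (rho_pos hσ F X₀) (one_le_ap x hX) hu₀ hq1
    (hq2.trans (p0_lt_one h2)).le (hs X hX)
  have hu := one_le_ap x hX
  calc ENNReal.ofReal (rho σ F X ^ q) ≤ ENNReal.ofReal (2 * ap x X ^ (4 * (n + 1)) /
        ap x X₀ ^ (n + 1)) * ENNReal.ofReal (rho σ F X₀ ^ q) := by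
        rw [← ENNReal.ofReal_mul (by positivity)]
        exact ENNReal.ofReal_le_ofReal h4
    _ ≤ _ := mul_le_mul_right (h1.trans (mul_le_mul_right h3 _)) _
    _ = _ := by
        rw [← mul_assoc, ← mul_assoc, ← ENNReal.ofReal_mul (by positivity),
          ← ENNReal.ofReal_mul (by positivity), Real.rpow_natCast]
        congr 2
        change _ = _ * ap x X ^ (4 * (n + 1))
        field_simp

end Pool.Agent.RZ
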