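import Pool.Agent.Lib.RZ.Blue

set_option autoImplicit false

open MeasureTheory Metric Set Filter
open scoped ENNReal ContDiff Topology

noncomputable section

namespace Pool.Agent.RZ

open Pool.Agent.HP

namespace VVB

variable {n : ℕ}

/-- differentiable with prescribed directional derivatives -/
def HD (f : Y n → ℝ) (X : Y n) (g : Option (Fin n) → ℝ) : Prop :=
  DifferentiableAt ℝ f X ∧ ∀ i, pd i f X = g i

theorem HD.of {f : Y n → ℝ} {X : Y n} {L : Y n →L[ℝ] ℝ} (h : HasFDerivAt f L X) :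
    HD f X (fun i => L (dir i)) :=
  ⟨h.differentiableAt, fun i => by rw [pd, h.fderiv]⟩

theorem HD.cg {f : Y n → ℝ} {X : Y n} {g g' : Option (Fin n) → ℝ} (h : HD f X g)
    (e : ∀ i, g i = g' i) : HD f X g' := ⟨h.1, fun i => (h.2 i).trans (e i)⟩

theorem HD.mul {f f' : Y n → ℝ} {X : Y n} {g g' : Option (Fin n) → ℝ} (h : HD f X g)
    (h' : HD f' X g') : HD (fun Z => f Z * f' Z) X (fun i => f X * g' i + g i * f' X) :=
  (HD.of (h.1.hasFDerivAt.mul h'.1.hasFDerivAt)).cg fun i => by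
    rw [← h.2 i, ← h'.2 i]
    simp [pd, mul_comm]

theorem HD.add {f f' : Y n → ℝ} {X : Y n} {g g' : Option (Fin n) → ℝ} (h : HD f X g)
    (h' : HD f' X g') : HD (fun Z => f Z + f' Z) X (fun i => g i + g' i) :=
  (HD.of (h.1.hasFDerivAt.add h'.1.hasFDerivAt)).cg fun i => by
    rw [← h.2 i, ← h'.2 i]
    simp [pd]

theorem HD.const (c : ℝ) (X : Y n) : HD (fun _ => c) X (fun _ => 0) :=
  (HD.of (hasFDerivAt_const c X)).cg fun i => by simp

theorem HD.rpow {f : Y n → ℝ} {X : Y n} {g : Option (Fin n) → ℝ} (h : HD f X g) (h0 : f X ≠ 0)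
    (b : ℝ) : HD (fun Z => f Z ^ b) X (fun i => b * f X ^ (b - 1) * g i) :=
  (HD.of (h.1.hasFDerivAt.rpow_const (p := b) (Or.inl h0))).cg fun i => by
    rw [← h.2 i]
    simp [pd]

theorem HD.sum {J : Type} (s : Finset J) {f : J → Y n → ℝ} {X : Y n}
    {g : J → Option (Fin n) → ℝ} (h : ∀ j ∈ s, HD (f j) X (g j)) :
    HD (fun Z => ∑ j ∈ s, f j Z) X (fun i => ∑ j ∈ s, g j i) :=
  (HD.of (HasFDerivAt.fun_sum fun j hj => (h j hj).1.hasFDerivAt)).cg fun i => by
    rw [sum_apply]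
    exact Finset.sum_congr rfl fun j hj => (h j hj).2 i

/-- Kronecker symbol -/
def dl (j i : Option (Fin n)) : ℝ := if j = i then 1 else 0

/-- coordinates centred at `(0, -1)` -/
def cc (j : Option (Fin n)) (X : Y n) : ℝ := vec X j + dl j none

theorem hd_vec (j : Option (Fin n)) (X : Y n) : HD (fun Z => vec Z j) X (dl j) :=
  (HD.of ((EuclideanSpace.proj j : V n →L[ℝ] ℝ).comp vec).hasFDerivAt).cg fun i => by
    simp [vec_dir, dl, Pi.single_apply]

theorem hd_cc (j : Option (Fin n)) (X : Y n) : HD (cc j) X (dl j) :=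
  ((hd_vec j X).add (HD.const _ X)).cg fun i => add_zero _

theorem RR_eq (X : Y n) : RR X = ∑ j, cc j X * cc j X := by
  rw [RR, Fintype.sum_option, EuclideanSpace.real_norm_sq_eq]
  simp [cc, dl, sq, add_comm]

theorem hd_RR (X : Y n) : HD RR X (fun i => 2 * cc i X) := by
  rw [show (RR : Y n → ℝ) = fun Z => ∑ j, cc j Z * cc j Z from funext RR_eq]
  refine (HD.sum _ fun j _ => (hd_cc j X).mul (hd_cc j X)).cg fun i => ?_
  simp [dl, Finset.sum_add_distrib, two_mul]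

theorem RR_pos {X : Y n} (h : X ∈ Hs n (-1)) : 0 < RR X := by
  have h1 : 0 < X.2 + 1 := by simp only [Hs, mem_ofPred_eq] at h; linarith
  unfold RR
  positivity

/-- first derivatives of `vv` -/
def v1 (i : Option (Fin n)) (X : Y n) : ℝ :=
  vec X none * (-((n : ℝ) + 1) / 2 * RR X ^ (-((n : ℝ) + 1) / 2 - 1) * (2 * cc i X)) +
    dl none i * RR X ^ (-((n : ℝ) + 1) / 2)

theorem pd_vv {X : Y n} (h : X ∈ Hs n (-1)) (i : Option (Fin n)) : pd i vv X = v1 i X :=
  ((hd_vec none X).mul ((hd_RR X).rpow (RR_pos h).ne' _)).2 i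

theorem pd_pd_vv {X : Y n} (h : X ∈ Hs n (-1)) (i : Option (Fin n)) :
    pd i (pd i vv) X = RR X ^ (-((n : ℝ) + 1) / 2 - 1) * (-((n : ℝ) + 1)) *
      (X.2 * (1 - ((n : ℝ) + 3) * (RR X)⁻¹ * (cc i X * cc i X)) + 2 * (dl none i * cc i X)) := by
  have h0 := (RR_pos h).ne'
  have h1 : pd i vv =ᶠ[𝓝 X] v1 i :=
    eventually_of_mem ((isOpen_Hs _).mem_nhds h) fun Z hZ => pd_vv hZ i
  have h2 := (((hd_vec none X).mul (((HD.const (-((n : ℝ) + 1) / 2) X).mul
    ((hd_RR X).rpow h0 (-((n : ℝ) + 1) / 2 - 1))).mul ((HD.const 2 X).mul (hd_cc i X)))).add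
    ((HD.const (dl none i) X).mul ((hd_RR X).rpow h0 (-((n : ℝ) + 1) / 2)))).2 i
  rw [pd, h1.fderiv_eq]
  refine h2.trans ?_
  rw [Real.rpow_sub_one h0 (-((n : ℝ) + 1) / 2 - 1)]
  simp only [dl, vec_none, if_true]
  field_simp
  ring

theorem lap_vv {X : Y n} (h : X ∈ Hs n (-1)) : lap vv X = -psi X := by
  have h0 := (RR_pos h).ne'
  have h1 : ∑ i, dl none i * cc i X = X.2 + 1 := by simp [dl, cc]
  rw [lap, Finset.sum_congr rfl fun i _ => pd_pd_vv h i, ← Finset.mul_sum, Finset.sum_add_distrib,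
    ← Finset.mul_sum, ← Finset.mul_sum, Finset.sum_sub_distrib, ← Finset.mul_sum, ← RR_eq, h1, psi,
    show -((n : ℝ) + 1) / 2 - 1 = -((n : ℝ) + 3) / 2 by ring]
  simp only [Finset.sum_const, Finset.card_univ, Fintype.card_option, Fintype.card_fin,
    nsmul_eq_mul, Nat.cast_add, Nat.cast_one]
  field_simp
  ring

theorem sq_le (i : Option (Fin n)) (X : Y n) : cc i X * cc i X ≤ RR X := by
  rw [RR_eq]
  exact Finset.single_le_sum (f := fun j => cc j X * cc j X) (fun j _ => mul_self_nonneg _)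
    (Finset.mem_univ i)

theorem abs_le_ww {X : Y n} (h : X ∈ Hs n 0) (i : Option (Fin n)) :
    |v1 i X| ≤ ((n : ℝ) + 2) * ww X := by
  have ht : 0 < X.2 := h
  have hR : 0 < RR X := RR_pos (by simp only [Hs, mem_ofPred_eq]; linarith)
  have hw : 0 < ww X := Real.rpow_pos_of_pos hR _
  have h1 := sq_le i X
  have h2 := sq_le none X
  have h3 : cc none X = X.2 + 1 := by simp [cc, dl]
  rw [h3] at h2
  have h4 : |X.2 * cc i X / RR X| ≤ 1 := by
    rw [abs_div, abs_of_pos hR, div_le_one hR, abs_le]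
    constructor <;> nlinarith [sq_nonneg (X.2 + cc i X), sq_nonneg (X.2 - cc i X)]
  have h5 : |dl none i| ≤ 1 := by
    unfold dl
    split_ifs <;> simp
  have h6 : v1 i X = (-((n : ℝ) + 1) * (X.2 * cc i X / RR X) + dl none i) * ww X := by
    rw [v1, Real.rpow_sub_one hR.ne', ww, vec_none]
    ring
  rw [h6, abs_mul, abs_of_pos hw]
  refine mul_le_mul_of_nonneg_right ((abs_add_le _ _).trans ?_) hw.le
  rw [abs_mul, abs_neg, abs_of_pos (by positivity : (0 : ℝ) < n + 1)]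
  nlinarith [(by positivity : (0 : ℝ) < n + 1)]

end VVB

open VVB in
theorem t_VV : T_VV := by
  intro n _ _
  refine ⟨?_, fun X hX => ?_⟩
  · have h1 : ContDiff ℝ ∞ (RR (n := n)) :=
      (contDiff_fst.norm_sq ℝ).add ((contDiff_snd.add contDiff_const).pow 2)
    exact contDiffOn_snd.mul (h1.contDiffOn.rpow_const_of_ne fun X hX => (RR_pos hX).ne')
  · have h : X ∈ Hs n (-1) := by simp only [Hs, mem_ofPred_eq] at hX ⊢; linarith
    exact ⟨lap_vv h, fun i => by rw [pd_vv h]; exact abs_le_ww hX i⟩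

end Pool.Agent.RZ
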