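import Pool.Agent.Lib.RZ.Blue

set_option autoImplicit false

open MeasureTheory Metric Set Filter
open scoped ENNReal ContDiff Topology

noncomputable section

namespace Pool.Agent.RZ

open Pool.Agent.HP

namespace WT

variable {n : ℕ}

theorem isOpen_box (R a b : ℝ) : IsOpen (box n R a b) := by
  have e : box n R a b =
      {X : Y n | ‖X.1‖ < R} ∩ ({X : Y n | a < X.2} ∩ {X : Y n | X.2 < b}) := rfl
  rw [e]
  exact (isOpen_lt (by fun_prop) continuous_const).inter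
    ((isOpen_lt continuous_const continuous_snd).inter (isOpen_lt continuous_snd continuous_const))

theorem isClosed_Gam (L : ℝ) : IsClosed (Gam n L) := by
  have e : Gam n L = {X : Y n | 1 ≤ L * X.2} ∩ {X : Y n | ‖X.1‖ ≤ L * X.2} := rfl
  rw [e]
  exact (isClosed_le continuous_const (by fun_prop)).inter (isClosed_le (by fun_prop) (by fun_prop))

theorem vol_box (a : ℝ) (ha : 0 < a) : volume (box n 4 a 4) < ⊤ := by
  refine (measure_mono (t := closedBall (0 : Y n) 4) fun X hX => ?_).trans_lt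
    measure_closedBall_lt_top
  rw [mem_closedBall_zero_iff, Prod.norm_def, max_le_iff, Real.norm_eq_abs, abs_le]
  exact ⟨hX.1.le, by linarith [hX.2.1], hX.2.2.le⟩

theorem vv_nonneg (api : St_API n) {X : Y n} (hX : 0 < X.2) : 0 ≤ vv X :=
  mul_nonneg hX.le (api.wpos X (by linarith)).2.1.le

theorem vv_low (api : St_API n) {e : ℝ} (he : 0 < e) {X : Y n} (hX : 0 < X.2) {x : E n}
    (hx : ‖x‖ < 1) (hG : sh X (x, e) ∉ Gam n (1 / e)) :
    vv (sh X (x, e)) ≤ e * 4 ^ (n + 1) * vv X := by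
  have h1 : ‖X.1‖ ≤ ‖X.1 + X.2 • x‖ + X.2 := by
    have h2 := norm_sub_le (X.1 + X.2 • x) (X.2 • x)
    rw [add_sub_cancel_right, norm_smul, Real.norm_eq_abs, abs_of_pos hX] at h2
    nlinarith
  have h3 : X.2 < 1 ∨ X.2 < ‖X.1 + X.2 • x‖ := by
    by_contra hc
    rw [not_or, not_lt, not_lt] at hc
    have e1 : 1 / e * (X.2 * e) = X.2 := by field_simp
    exact hG ⟨by show 1 ≤ 1 / e * (X.2 * e); rw [e1]; exact hc.1,
      by show ‖X.1 + X.2 • x‖ ≤ 1 / e * (X.2 * e); rw [e1]; exact hc.2⟩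
  have h4 : RR X ≤ 4 ^ 2 * RR (sh X (x, e)) := by
    show ‖X.1‖ ^ 2 + (X.2 + 1) ^ 2 ≤ 4 ^ 2 * (‖X.1 + X.2 • x‖ ^ 2 + (X.2 * e + 1) ^ 2)
    have h5 := norm_nonneg X.1
    have h6 := norm_nonneg (X.1 + X.2 • x)
    have h7 : 0 < X.2 * e := mul_pos hX he
    generalize ‖X.1 + X.2 • x‖ = w at *
    generalize ‖X.1‖ = u at *
    have h8 : u ^ 2 ≤ (w + X.2) ^ 2 := pow_le_pow_left₀ h5 h1 2
    rcases h3 with h3 | h3
    · nlinarith [sq_nonneg (w - X.2)]
    · nlinarith [sq_nonneg (X.2 - 1)]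
  have h9 := api.wcmp X (sh X (x, e)) 4 (by norm_num) (api.wpos X (by linarith)).1 h4
  calc vv (sh X (x, e)) = X.2 * e * ww (sh X (x, e)) := rfl
    _ ≤ X.2 * e * (4 ^ (n + 1) * ww X) := by gcongr
    _ = e * 4 ^ (n + 1) * vv X := by unfold vv; ring

theorem vv_up (api : St_API n) {e : ℝ} (he : 0 < e) {X : Y n} (hX : 0 < X.2) {Z : Y n}
    (hZ : Z ∈ box n 4 (e / 16) 4) : vv X ≤ 16 / e * 9 ^ (n + 1) * vv (sh X Z) := by
  obtain ⟨z1, z2, z3⟩ := hZ
  have z0 : 0 < Z.2 := lt_trans (by positivity) z2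
  have h1 : ‖X.1 + X.2 • Z.1‖ ≤ ‖X.1‖ + 4 * X.2 := by
    have h2 := norm_add_le X.1 (X.2 • Z.1)
    rw [norm_smul, Real.norm_eq_abs, abs_of_pos hX] at h2
    nlinarith
  have hp : 0 < (sh X Z).2 := mul_pos hX z0
  have h4 : RR (sh X Z) ≤ 9 ^ 2 * RR X := by
    show ‖X.1 + X.2 • Z.1‖ ^ 2 + (X.2 * Z.2 + 1) ^ 2 ≤ 9 ^ 2 * (‖X.1‖ ^ 2 + (X.2 + 1) ^ 2)
    have h5 := norm_nonneg X.1
    have h8 := pow_le_pow_left₀ (norm_nonneg _) h1 2
    have h7 : (X.2 * Z.2 + 1) ^ 2 ≤ (4 * X.2 + 4) ^ 2 :=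
      pow_le_pow_left₀ (by positivity) (by nlinarith) 2
    generalize ‖X.1 + X.2 • Z.1‖ = w at *
    generalize ‖X.1‖ = u at *
    nlinarith [sq_nonneg (u - 4 * X.2)]
  have h9 := api.wcmp (sh X Z) X 9 (by norm_num) (api.wpos _ (by linarith)).1 h4
  have hw := (api.wpos (sh X Z) (by linarith)).2.1
  have h10 : X.2 ≤ 16 / e * (X.2 * Z.2) := by
    have : 1 ≤ 16 / e * Z.2 := by
      rw [div_mul_eq_mul_div, le_div_iff₀ he]; linarith
    nlinarith
  calc vv X = X.2 * ww X := rfl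
    _ ≤ 16 / e * (X.2 * Z.2) * (9 ^ (n + 1) * ww (sh X Z)) :=
        mul_le_mul h10 h9 (api.wpos X (by linarith)).2.1.le (by positivity)
    _ = 16 / e * 9 ^ (n + 1) * vv (sh X Z) := by
        show _ = 16 / e * 9 ^ (n + 1) * (X.2 * Z.2 * ww (sh X Z)); ring

theorem rhs_le (api : St_API n) {e : ℝ} (he : 0 < e) {X : Y n} (hX : 0 < X.2) {f f' : Y n → ℝ}
    (hf : ∀ W ∈ Hs n 0, 0 ≤ f W) (hf' : ∀ Z, f' Z = X.2 ^ 2 * f (sh X Z)) :
    ENNReal.ofReal (vv X / X.2 ^ 2) * II (box n 4 (e / 16) 4) f' ≤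
      ENNReal.ofReal (16 / e * 9 ^ (n + 1)) *
        ∫⁻ Z in box n 4 (e / 16) 4, 1 * ENNReal.ofReal (vv (sh X Z) * f (sh X Z)) := by
  have hv := vv_nonneg api hX
  rw [II, ← lintegral_const_mul' _ _ ENNReal.ofReal_ne_top,
    ← lintegral_const_mul' _ _ ENNReal.ofReal_ne_top]
  refine setLIntegral_mono' (isOpen_box _ _ _).measurableSet fun Z hZ => ?_
  have hp : sh X Z ∈ Hs n 0 := mul_pos hX (lt_trans (by positivity) hZ.2.1)
  rw [one_mul, ← ENNReal.ofReal_mul (by positivity), ← ENNReal.ofReal_mul (by positivity), hf']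
  refine ENNReal.ofReal_le_ofReal ?_
  calc vv X / X.2 ^ 2 * (X.2 ^ 2 * f (sh X Z)) = vv X * f (sh X Z) := by field_simp
    _ ≤ 16 / e * 9 ^ (n + 1) * vv (sh X Z) * f (sh X Z) :=
        mul_le_mul_of_nonneg_right (vv_up api he hX hZ) (hf _ hp)
    _ = _ := by ring

theorem lhs_le (api : St_API n) {e : ℝ} (he : 0 < e) {X : Y n} (hX : 0 < X.2) {f f' : Y n → ℝ}
    (hf : ∀ W ∈ Hs n 0, 0 ≤ f W) (hf' : ∀ Z, f' Z = X.2 ^ 2 * f (sh X Z)) :
    ∫⁻ x in ball (0 : E n) 1, 1 * (Gam n (1 / e))ᶜ.indicator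
        (fun W => ENNReal.ofReal (vv W * f W)) (sh X (x, e)) ≤
      ENNReal.ofReal (e * 4 ^ (n + 1)) * (ENNReal.ofReal (vv X / X.2 ^ 2) *
        ∫⁻ x in ball (0 : E n) 1, ENNReal.ofReal (f' (x, e))) := by
  have hv := vv_nonneg api hX
  rw [← lintegral_const_mul' _ _ ENNReal.ofReal_ne_top,
    ← lintegral_const_mul' _ _ ENNReal.ofReal_ne_top]
  refine setLIntegral_mono' measurableSet_ball fun x hx => ?_
  rw [one_mul]
  by_cases hG : sh X (x, e) ∈ Gam n (1 / e)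
  · rw [indicator_of_notMem (by simpa using hG)]; exact zero_le
  · have hp : sh X (x, e) ∈ Hs n 0 := mul_pos hX he
    rw [indicator_of_mem (by simpa using hG), ← ENNReal.ofReal_mul (by positivity),
      ← ENNReal.ofReal_mul (by positivity), hf']
    refine ENNReal.ofReal_le_ofReal ?_
    calc vv (sh X (x, e)) * f (sh X (x, e)) ≤ e * 4 ^ (n + 1) * vv X * f (sh X (x, e)) :=
          mul_le_mul_of_nonneg_right (vv_low api he hX (mem_ball_zero_iff.1 hx) hG) (hf _ hp)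
      _ = _ := by field_simp

theorem fin_step {a u v : ℝ} {X A B : ℝ≥0∞} (ha : 0 < a) (hu : u ≤ a / 2)
    (h : ENNReal.ofReal a * X ≤ ENNReal.ofReal u * A + ENNReal.ofReal v * B) :
    X ≤ ENNReal.ofReal (1 / 2) * A + ENNReal.ofReal (a⁻¹ * v) * B := by
  have h1 : X = ENNReal.ofReal a⁻¹ * (ENNReal.ofReal a * X) := by
    rw [← mul_assoc, ← ENNReal.ofReal_mul (by positivity), inv_mul_cancel₀ ha.ne',
      ENNReal.ofReal_one, one_mul]
  rw [h1]
  refine (mul_le_mul_right h _).trans ?_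
  rw [mul_add, ← mul_assoc, ← mul_assoc, ← ENNReal.ofReal_mul (by positivity),
    ← ENNReal.ofReal_mul (by positivity)]
  gcongr
  rw [inv_mul_le_iff₀ ha]
  linarith

end WT

open WT in
theorem t_WT : T_WT := by
  intro n h2 hB hLAY hAVG
  obtain ⟨C₀, hC₀, hL⟩ := hLAY
  have api := hB.api
  obtain ⟨β, hβ, hβe⟩ : ∃ β : ℝ, 0 < β ∧ volume (ball (0 : E n) 1) = ENNReal.ofReal β :=
    ⟨(volume (ball (0 : E n) 1)).toReal,
      ENNReal.toReal_pos (measure_ball_pos _ _ one_pos).ne' measure_ball_lt_top.ne,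
      (ENNReal.ofReal_toReal measure_ball_lt_top.ne).symm⟩
  obtain ⟨e, he, he1, he2⟩ : ∃ e : ℝ, 0 < e ∧ e ≤ 1 ∧ 4 ^ (n + 1) * (C₀ * e) ≤ β / 4 := by
    refine ⟨min 1 (β / (4 * (4 ^ (n + 1) * C₀))), by positivity, min_le_left _ _, ?_⟩
    calc 4 ^ (n + 1) * (C₀ * min 1 (β / (4 * (4 ^ (n + 1) * C₀))))
        ≤ 4 ^ (n + 1) * (C₀ * (β / (4 * (4 ^ (n + 1) * C₀)))) := by gcongr; exact min_le_right _ _
      _ = β / 4 := by field_simp
  have hOm : MeasurableSet (box n 4 (e / 16) 4) := (isOpen_box _ _ _).measurableSet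
  obtain ⟨m, hm, hme⟩ : ∃ m : ℝ, 0 ≤ m ∧
      ∫⁻ Z in box n 4 (e / 16) 4, 1 * ENNReal.ofReal (1 / Z.2) = ENNReal.ofReal m := by
    refine ⟨_, ENNReal.toReal_nonneg, (ENNReal.ofReal_toReal (ne_of_lt ?_)).symm⟩
    calc ∫⁻ Z in box n 4 (e / 16) 4, 1 * ENNReal.ofReal (1 / Z.2)
        ≤ ∫⁻ _ in box n 4 (e / 16) 4, ENNReal.ofReal (1 / (e / 16)) :=
          setLIntegral_mono' hOm fun Z hZ => by
            rw [one_mul]
            exact ENNReal.ofReal_le_ofReal (one_div_le_one_div_of_le (by positivity) hZ.2.1.le)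
      _ < ⊤ := by
          rw [setLIntegral_const]
          exact ENNReal.mul_lt_top ENNReal.ofReal_lt_top (vol_box _ (by positivity))
  obtain ⟨c, hc, hce⟩ : ∃ c : ℝ, 0 < c ∧ c = 16 / e * 9 ^ (n + 1) := ⟨_, by positivity, rfl⟩
  obtain ⟨θ, hθ, hθ2⟩ : ∃ θ : ℝ, 0 < θ ∧ 4 ^ (n + 1) * (θ * (c * m)) ≤ β / 4 := by
    refine ⟨β / (4 * (4 ^ (n + 1) * (c * m + 1))), by positivity, ?_⟩
    calc 4 ^ (n + 1) * (β / (4 * (4 ^ (n + 1) * (c * m + 1))) * (c * m))
        ≤ 4 ^ (n + 1) * (β / (4 * (4 ^ (n + 1) * (c * m + 1))) * (c * m + 1)) := by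
          gcongr; linarith
      _ = β / 4 := by field_simp
  obtain ⟨C, hC, hL⟩ := hL e θ he he1 hθ
  refine ⟨1 / e, (e * β)⁻¹ * (e * 4 ^ (n + 1) * (C * (c * m))), one_le_one_div he he1,
    by positivity, fun q σ F hq1 hq2 hσ hF => ?_⟩
  have hUp : MeasurableSet (Hs n 0) := (isOpen_Hs 0).measurableSet
  have hG : MeasurableSet (Gam n (1 / e))ᶜ := (isClosed_Gam _).measurableSet.compl
  have hvc : ContinuousOn (vv (n := n)) (Hs n 0) :=
    api.wcont.2.1.mono fun X hX => lt_trans (by norm_num : (-1 : ℝ) < 0) hX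
  have hcE : ContinuousOn (fun X => vv X * EE q σ F X) (Hs n 0) :=
    hvc.mul (api.contE F q σ hF hσ).2.1
  have hcB : ContinuousOn (fun X => vv X * BB q σ F X) (Hs n 0) :=
    hvc.mul (api.contE F q σ hF hσ).2.2.1
  have hpE : ∀ W ∈ Hs n 0, 0 ≤ EE q σ F W := fun W hW => (api.pos F q σ hF hq2 W hW).2.1
  have hpB : ∀ W ∈ Hs n 0, 0 ≤ BB q σ F W := fun W hW => (api.pos F q σ hF hq2 W hW).2.2.1
  have hae : ∀ᵐ Z ∂(volume.restrict (box n 4 (e / 16) 4)), 0 < (id Z : Y n).2 :=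
    (ae_restrict_iff' hOm).2 (Eventually.of_forall fun Z hZ => lt_trans (by positivity) hZ.2.1)
  obtain ⟨mE, iE⟩ := hAVG (Y n) (volume.restrict (box n 4 (e / 16) 4)) id (fun _ => 1) _
    measurable_id hae measurable_const (api.meas _ hcE)
  obtain ⟨mB, iB⟩ := hAVG (Y n) (volume.restrict (box n 4 (e / 16) 4)) id (fun _ => 1) _
    measurable_id hae measurable_const (api.meas _ hcB)
  obtain ⟨-, iO⟩ := hAVG (E n) (volume.restrict (ball (0 : E n) 1)) (fun x => (x, e)) (fun _ => 1)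
    ((Gam n (1 / e))ᶜ.indicator fun W => ENNReal.ofReal (vv W * EE q σ F W))
    (by fun_prop) (Eventually.of_forall fun _ => he) measurable_const (by
      rw [indicator_indicator, inter_comm, ← indicator_indicator]
      exact (api.meas _ hcE).indicator hG)
  simp only [id] at mE iE mB iB
  rw [hme] at iE iB
  have m0 : AEMeasurable (fun X => ENNReal.ofReal (vv X * EE q σ F X))
      (volume.restrict (Hs n 0)) := (hcE.aemeasurable hUp).ennreal_ofReal
  have key : ∀ X ∈ Hs n 0, ENNReal.ofReal (e ^ 2) * ∫⁻ x in ball (0 : E n) 1,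
      1 * (Gam n (1 / e))ᶜ.indicator (fun W => ENNReal.ofReal (vv W * EE q σ F W)) (sh X (x, e)) ≤
      ENNReal.ofReal (e * 4 ^ (n + 1)) *
        (ENNReal.ofReal (C₀ * e) * ENNReal.ofReal (vv X * EE q σ F X) +
        ENNReal.ofReal θ * (ENNReal.ofReal c * ∫⁻ Z in box n 4 (e / 16) 4,
          1 * ENNReal.ofReal (vv (sh X Z) * EE q σ F (sh X Z))) +
        ENNReal.ofReal C * (ENNReal.ofReal c * ∫⁻ Z in box n 4 (e / 16) 4,
          1 * ENNReal.ofReal (vv (sh X Z) * BB q σ F (sh X Z)))) := by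
    intro X hX
    have hX' : 0 < X.2 := hX
    have hv := vv_nonneg api hX'
    have sE := fun Z => (hB.scl.sc_eq F q σ X Z hX').2.2.2.1
    have sB := fun Z => (hB.scl.sc_eq F q σ X Z hX').2.2.2.2.1
    refine (mul_le_mul_right (lhs_le api he hX' hpE sE) _).trans ?_
    rw [mul_left_comm]
    refine mul_le_mul_right ?_ _
    rw [mul_left_comm]
    refine (mul_le_mul_right (hL q σ _ hq1 hq2 hσ (hB.scl.cr0 F X hX' hF)) _).trans ?_
    rw [mul_add, mul_add, hce]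
    refine add_le_add (add_le_add (le_of_eq ?_) ?_) ?_
    · rw [sE, hB.scl.sh_P, ← ENNReal.ofReal_mul (by positivity),
        ← ENNReal.ofReal_mul (by positivity)]
      congr 1
      field_simp
    · rw [mul_left_comm]
      exact mul_le_mul_right (rhs_le api he hX' hpE sE) _
    · rw [mul_left_comm]
      exact mul_le_mul_right (rhs_le api he hX' hpB sB) _
  have tot := setLIntegral_mono' (μ := volume) hUp key
  rw [lintegral_const_mul' _ _ ENNReal.ofReal_ne_top, iO,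
    lintegral_const_mul' _ _ ENNReal.ofReal_ne_top,
    lintegral_add_right' _ ((mB.const_mul _).const_mul _),
    lintegral_add_left' (m0.const_mul _)] at tot
  simp only [lintegral_const_mul' _ _ ENNReal.ofReal_ne_top] at tot
  rw [iE, iB, setLIntegral_const, hβe, lintegral_indicator hG, Measure.restrict_restrict hG,
    inter_comm] at tot
  refine fin_step (u := e * 4 ^ (n + 1) * (C₀ * e + θ * (c * m))) (mul_pos he hβ) (by nlinarith) ?_
  have e1 : ENNReal.ofReal (e * β) =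
      ENNReal.ofReal (e ^ 2) * (1 * ENNReal.ofReal (1 / e) * ENNReal.ofReal β) := by
    rw [one_mul, ← ENNReal.ofReal_mul (by positivity), ← ENNReal.ofReal_mul (by positivity)]
    congr 1
    field_simp
  rw [e1, mul_assoc]
  refine le_trans tot (le_of_eq ?_)
  rw [ENNReal.ofReal_mul (p := e * 4 ^ (n + 1)) (by positivity),
    ENNReal.ofReal_mul (p := e * 4 ^ (n + 1)) (by positivity),
    ENNReal.ofReal_add (by positivity) (by positivity), ENNReal.ofReal_mul hθ.le,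
    ENNReal.ofReal_mul hC, ENNReal.ofReal_mul hc.le]
  unfold II
  ring

end Pool.Agent.RZ
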