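import Pool.Agent.Lib.RZ.Defs

set_option autoImplicit false

open MeasureTheory Metric Set Filter
open scoped ENNReal ContDiff Topology

noncomputable section

namespace Pool.Agent.RZ

open Pool.Agent.HP

/-- Kato inequality for symmetric traceless matrices and its equality case -/
structure St_ALG (n : ℕ) : Prop where
  kato : ∀ (H : Option (Fin n) → V n) (v : V n), (∀ i j, H i j = H j i) → ∑ i, H i i = 0 →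
    ((n : ℝ) + 1) / n * hv2 H v ≤ hn2 H * ‖v‖ ^ 2
  eqc : ∀ (H : Option (Fin n) → V n) (v : V n), (∀ i j, H i j = H j i) → ∑ i, H i i = 0 →
    v ≠ 0 → ((n : ℝ) + 1) / n * hv2 H v = hn2 H * ‖v‖ ^ 2 →
    ∃ μ : ℝ, ∀ i, H i =
      μ • (EuclideanSpace.single i (1 : ℝ) - (((n : ℝ) + 1) * v i / ‖v‖ ^ 2) • v)

/-- calculus of `pd` and `lap`; derivatives of a system form a system and are harmonic -/
structure St_CRD (n : ℕ) : Prop where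
  harm : ∀ (U : Set (Y n)) (F : Y n → V n), IsOpen U → CRon U F → ∀ X ∈ U,
    ∑ i, pd i (pd i F) X = 0
  harm1 : ∀ (U : Set (Y n)) (F : Y n → V n), IsOpen U → CRon U F → ∀ X ∈ U, ∀ j,
    lap (fun Z => F Z j) X = 0
  dcr : ∀ (U : Set (Y n)) (F : Y n → V n), IsOpen U → CRon U F → ∀ i, CRon U (pd i F)
  smooth : ∀ (U : Set (Y n)) (g : Y n → ℝ), IsOpen U → ContDiffOn ℝ ∞ g U →
    (∀ i, ContDiffOn ℝ ∞ (pd i g) U) ∧ ContDiffOn ℝ ∞ (lap g) U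
  cgr : ∀ (f g : Y n → ℝ) (X : Y n), f =ᶠ[𝓝 X] g →
    (∀ i, pd i f X = pd i g X) ∧ lap f X = lap g X
  mul : ∀ (U : Set (Y n)) (f g : Y n → ℝ), IsOpen U → ContDiffOn ℝ ∞ f U →
    ContDiffOn ℝ ∞ g U → ∀ X ∈ U,
    (∀ i, pd i (fun Z => f Z * g Z) X = f X * pd i g X + pd i f X * g X) ∧
    lap (fun Z => f Z * g Z) X =
      f X * lap g X + 2 * ∑ i, pd i f X * pd i g X + lap f X * g X
  lin : ∀ (U : Set (Y n)) (f g : Y n → ℝ) (a b c : ℝ), IsOpen U → ContDiffOn ℝ ∞ f U →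
    ContDiffOn ℝ ∞ g U → ∀ X ∈ U,
    lap (fun Z => a * f Z + b * g Z + c) X = a * lap f X + b * lap g X
  comp : ∀ (U : Set (Y n)) (S : Set ℝ) (f : Y n → ℝ) (h : ℝ → ℝ), IsOpen U → IsOpen S →
    ContDiffOn ℝ ∞ f U → ContDiffOn ℝ ∞ h S → MapsTo f U S → ∀ X ∈ U,
    (∀ i, pd i (fun Z => h (f Z)) X = deriv h (f X) * pd i f X) ∧
    lap (fun Z => h (f Z)) X =
      deriv h (f X) * lap f X + deriv (deriv h) (f X) * ∑ i, pd i f X ^ 2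

/-- Laplacian of a power of the regularised modulus -/
def St_LAP (n : ℕ) : Prop :=
  ∀ (U : Set (Y n)) (F : Y n → V n) (σ a : ℝ), IsOpen U → CRon U F → 0 < σ →
    ContDiffOn ℝ ∞ (fun X => rho σ F X ^ a) U ∧
    ∀ X ∈ U, lap (fun X => rho σ F X ^ a) X =
      a * rho σ F X ^ (a - 4) * (hn F X ^ 2 * rho σ F X ^ 2 - (2 - a) * hv2 (jac F X) (F X))

/-- elementary facts on the densities -/
structure St_API (n : ℕ) : Prop where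
  pd_le : ∀ (F : Y n → V n) (X : Y n) (i : Option (Fin n)), ‖pd i F X‖ ≤ hn F X
  hn_le : ∀ (F : Y n → V n) (X : Y n) (B : ℝ), (∀ i, ‖pd i F X‖ ≤ B) → hn F X ≤ (n + 1) * B
  opn : ∀ (F : Y n → V n) (X : Y n), ‖fderiv ℝ F X‖ ≤ 2 * hn F X
  hn_sub : ∀ (F G : Y n → V n) (X : Y n) (B : ℝ), (∀ i, ‖pd i F X - pd i G X‖ ≤ B) →
    |hn F X - hn G X| ≤ (n + 1) * B
  hv_le : ∀ (F : Y n → V n) (X : Y n) (v : V n), hv2 (jac F X) v ≤ hn F X ^ 2 * ‖v‖ ^ 2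
  lip : ∀ (F : Y n → V n) (U : Set (Y n)) (B : ℝ), Convex ℝ U →
    (∀ X ∈ U, DifferentiableAt ℝ F X) → (∀ X ∈ U, hn F X ≤ B) →
    ∀ X ∈ U, ∀ Z ∈ U, ‖F X - F Z‖ ≤ 2 * B * ‖X - Z‖
  rho_lip : ∀ (σ : ℝ) (F : Y n → V n) (X Z : Y n), |rho σ F X - rho σ F Z| ≤ ‖F X - F Z‖
  diff : ∀ (U : Set (Y n)) (F : Y n → V n), IsOpen U → CRon U F → ∀ X ∈ U,
    DifferentiableAt ℝ F X
  cont : ∀ (U : Set (Y n)) (F : Y n → V n) (σ : ℝ), IsOpen U → CRon U F →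
    (∀ i, ContinuousOn (pd i F) U) ∧ ContinuousOn (hn F) U ∧ ContinuousOn (rho σ F) U ∧
    ContinuousOn (Dh σ F) U
  le_nn : ∀ (F : Y n → V n) (X Z : Y n), CRon (Hs n 0) F → 0 < X.2 →
    Z ∈ closedBall X (X.2 / 2) → hn F Z ≤ nn F X
  nn_le : ∀ (F : Y n → V n) (X : Y n) (B : ℝ), 0 < X.2 →
    (∀ Z ∈ closedBall X (X.2 / 2), hn F Z ≤ B) → nn F X ≤ B
  contE : ∀ (F : Y n → V n) (q σ : ℝ), CRon (Hs n 0) F → 0 < σ →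
    ContinuousOn (nn F) (Hs n 0) ∧ ContinuousOn (EE q σ F) (Hs n 0) ∧
    ContinuousOn (BB q σ F) (Hs n 0) ∧ ContinuousOn (bb q σ F) (Hs n 0) ∧
    ContinuousOn (LL q σ F) (Hs n 0)
  pos : ∀ (F : Y n → V n) (q σ : ℝ), CRon (Hs n 0) F → q ≤ p0 n → ∀ X ∈ Hs n 0,
    0 ≤ Dh σ F X ∧ 0 ≤ EE q σ F X ∧ 0 ≤ BB q σ F X ∧ 0 ≤ bb q σ F X ∧ 0 ≤ LL q σ F X
  mono : ∀ (q a c u u' : ℝ), 0 < q → q ≤ 2 → 0 < a → 0 ≤ c → 0 ≤ u → u ≤ u' →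
    (a + c * u) ^ (q - 2) * u ^ 2 ≤ (a + c * u') ^ (q - 2) * u' ^ 2
  meas : ∀ (f : Y n → ℝ), ContinuousOn f (Hs n 0) →
    Measurable ((Hs n 0).indicator (fun X => ENNReal.ofReal (f X)))
  wcont : ContinuousOn (ww (n := n)) (Hs n (-1)) ∧ ContinuousOn (vv (n := n)) (Hs n (-1)) ∧
    ContinuousOn (psi (n := n)) (Hs n (-1))
  wpos : ∀ X : Y n, -1 < X.2 → 0 < RR X ∧ 0 < ww X ∧ 0 < psi X ∧
    psi X * RR X = 2 * ((n : ℝ) + 1) * ww X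
  wcmp : ∀ (X Z : Y n) (c : ℝ), 0 < c → 0 < RR X → RR X ≤ c ^ 2 * RR Z →
    ww Z ≤ c ^ (n + 1) * ww X
  wle : ∀ X : Y n, 0 ≤ X.2 → ww X ≤ 2 ^ (n + 1) * (‖X.1‖ + X.2 + 1) ^ (-((n : ℝ) + 1))

/-- behaviour under similarities and under multiplication by a constant -/
structure St_SCL (n : ℕ) : Prop where
  pd_sh : ∀ (g : Y n → ℝ) (X Z : Y n) (i : Option (Fin n)), 0 < X.2 →
    pd i (fun W => g (sh X W)) Z = X.2 * pd i g (sh X Z)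
  lap_sh : ∀ (g : Y n → ℝ) (X Z : Y n), 0 < X.2 →
    lap (fun W => g (sh X W)) Z = X.2 ^ 2 * lap g (sh X Z)
  smooth : ∀ X : Y n, ContDiff ℝ ∞ (sh X)
  cr : ∀ (U : Set (Y n)) (F : Y n → V n) (X : Y n), 0 < X.2 → CRon U F →
    CRon (sh X ⁻¹' U) (sc F X)
  cr0 : ∀ (F : Y n → V n) (X : Y n), 0 < X.2 → CRon (Hs n 0) F → CRon (Hs n 0) (sc F X)
  adm : ∀ (F : Y n → V n) (X : Y n), 0 < X.2 → Adm F → Adm (sc F X)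
  sc_eq : ∀ (F : Y n → V n) (q σ : ℝ) (X Z : Y n), 0 < X.2 →
    hn (sc F X) Z = X.2 * hn F (sh X Z) ∧ nn (sc F X) Z = X.2 * nn F (sh X Z) ∧
    rho σ (sc F X) Z = rho σ F (sh X Z) ∧
    EE q σ (sc F X) Z = X.2 ^ 2 * EE q σ F (sh X Z) ∧
    BB q σ (sc F X) Z = X.2 ^ 2 * BB q σ F (sh X Z) ∧
    bb q σ (sc F X) Z = X.2 ^ 2 * bb q σ F (sh X Z) ∧
    LL q σ (sc F X) Z = X.2 ^ 2 * LL q σ F (sh X Z)
  sh_P : ∀ X : Y n, sh X (PP n) = X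
  smul_cr : ∀ (U : Set (Y n)) (F : Y n → V n) (c : ℝ), CRon U F → CRon U (fun Z => c • F Z)
  smul_eq : ∀ (F : Y n → V n) (q σ c : ℝ) (X : Y n), 0 < c → 0 ≤ X.2 →
    hn (fun Z => c • F Z) X = c * hn F X ∧ nn (fun Z => c • F Z) X = c * nn F X ∧
    rho (c * σ) (fun Z => c • F Z) X = c * rho σ F X ∧
    EE q (c * σ) (fun Z => c • F Z) X = c ^ q * EE q σ F X ∧
    BB q (c * σ) (fun Z => c • F Z) X = c ^ q * BB q σ F X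

/-- interior gradient estimate -/
def St_GRAD (n : ℕ) : Prop :=
  ∃ C : ℝ, 1 ≤ C ∧ ∀ (F : Y n → V n) (X : Y n) (r M : ℝ), 0 < r → CRon (ball X r) F →
    (∀ Z ∈ ball X r, ‖F Z‖ ≤ M) → hn F X ≤ C * M / r

/-- compactness of systems with bounded Jacobian -/
def St_LIM (n : ℕ) : Prop :=
  ∀ (U₁ U₂ : Set (Y n)) (r M : ℝ) (P : Y n) (F : ℕ → Y n → V n), IsOpen U₁ → Convex ℝ U₁ →
    Bornology.IsBounded U₁ → P ∈ U₁ → IsOpen U₂ → 0 < r → (∀ X ∈ U₁, ball X r ⊆ U₂) →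
    (∀ j, CRon U₂ (F j)) → (∀ j, ∀ X ∈ U₂, hn (F j) X ≤ M) →
    ∃ (φ : ℕ → ℕ) (G : Y n → V n), StrictMono φ ∧ (∀ X ∈ U₁, DifferentiableAt ℝ G X) ∧
      (∀ i, ContinuousOn (pd i G) U₁) ∧
      TendstoUniformlyOn (fun j X => F (φ j) X - F (φ j) P) G atTop U₁ ∧
      ∀ i, TendstoUniformlyOn (fun j => pd i (F (φ j))) (pd i G) atTop U₁

/-- a map whose derivative is scalar is a homothety -/
def St_CONF (n : ℕ) : Prop :=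
  ∀ (U : Set (Y n)) (G : Y n → V n) (μ : Y n → ℝ), IsOpen U → Convex ℝ U →
    (∀ X ∈ U, DifferentiableAt ℝ G X) →
    (∀ X ∈ U, ∀ i, pd i G X = μ X • EuclideanSpace.single i (1 : ℝ)) →
    ∃ (a : V n) (m : ℝ), ∀ X ∈ U, μ X = m ∧ G X = a + m • vec X

/-- rigidity: an extremal field is a constant or a monopole -/
def St_RIG (n : ℕ) : Prop :=
  ∀ (U : Set (Y n)) (Φ : Y n → V n), IsOpen U → Convex ℝ U →
    (∀ X ∈ U, DifferentiableAt ℝ Φ X) → (∀ X ∈ U, ∀ i j, pd i Φ X j = pd j Φ X i) →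
    (∀ X ∈ U, ∑ i, pd i Φ X i = 0) →
    (∀ X ∈ U, ((n : ℝ) + 1) / n * hv2 (jac Φ X) (Φ X) = hn2 (jac Φ X) * ‖Φ X‖ ^ 2) →
    (∃ X ∈ U, Φ X ≠ 0) →
    ∃ (a : V n) (m : ℝ), ∀ X ∈ U, a + m • vec X ≠ 0 ∧
      Φ X = (‖a + m • vec X‖ ^ (n + 1))⁻¹ • (a + m • vec X)

/-- the monopole with pole outside the box -/
def St_EXA (n : ℕ) : Prop :=
  ∃ C : ℝ, 1 ≤ C ∧ ∀ (ε : ℝ) (Φ : Y n → V n) (a : V n) (m : ℝ), 0 < ε → ε ≤ 1 → m ≠ 0 →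
    (∀ X ∈ box n 2 (ε / 4) 2, a + m • vec X ≠ 0 ∧
      Φ X = (‖a + m • vec X‖ ^ (n + 1))⁻¹ • (a + m • vec X)) →
    (∀ X ∈ box n 2 (ε / 4) 2, Φ X ≠ 0 ∧ hn Φ X ≠ 0) ∧ hn Φ (PP n) ≤ C * ‖Φ (PP n)‖ ∧
    ∃ z : E n, ∀ q : ℝ, 0 ≤ q → q ≤ p0 n → ∀ x ∈ ball (0 : E n) 1,
      ∀ Z ∈ closedBall ((x, ε) : Y n) (ε / 2),
        ‖Φ (x, ε)‖ ^ (q - 2) * hn Φ Z ^ 2 ≤
          C * (1 + (‖x - z‖ + ε) ^ (-((n : ℝ) + 1))) * (‖Φ (PP n)‖ ^ (q - 2) * hn Φ (PP n) ^ 2)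

/-- all limits of the compactness argument -/
def St_LEX (n : ℕ) : Prop :=
  ∃ C : ℝ, 1 ≤ C ∧ ∀ (ε lam : ℝ) (G : Y n → V n) (a : V n), 0 < ε → ε ≤ 1 → 0 ≤ lam →
    (lam = 0 → a ≠ 0) → (∀ X ∈ box n 2 (ε / 4) 2, DifferentiableAt ℝ G X) →
    (∀ X ∈ box n 2 (ε / 4) 2, ∀ i j, pd i G X j = pd j G X i) →
    (∀ X ∈ box n 2 (ε / 4) 2, ∑ i, pd i G X i = 0) →
    (∀ X ∈ box n 2 (ε / 4) 2, ((n : ℝ) + 1) / n * hv2 (jac G X) (a + lam • G X) =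
      hn2 (jac G X) * ‖a + lam • G X‖ ^ 2) →
    (∃ X ∈ box n 2 (ε / 4) 2, hn G X ≠ 0) →
    (∀ X ∈ box n 2 (ε / 4) 2, a + lam • G X ≠ 0 ∧ hn G X ≠ 0) ∧
    lam * hn G (PP n) ≤ C * ‖a + lam • G (PP n)‖ ∧
    ∃ z : E n, ∀ q : ℝ, 0 ≤ q → q ≤ p0 n → ∀ x ∈ ball (0 : E n) 1,
      ∀ Z ∈ closedBall ((x, ε) : Y n) (ε / 2),
        ‖a + lam • G (x, ε)‖ ^ (q - 2) * hn G Z ^ 2 ≤
          C * (1 + (‖x - z‖ + ε) ^ (-((n : ℝ) + 1))) *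
            (‖a + lam • G (PP n)‖ ^ (q - 2) * hn G (PP n) ^ 2)

/-- compactness: small defect forces the energy profile of an extremal field -/
def St_CMP (n : ℕ) : Prop :=
  ∃ C : ℝ, 1 ≤ C ∧ ∀ (ε M : ℝ), 0 < ε → ε ≤ 1 → ∃ κ : ℝ, 0 < κ ∧
    ∀ (σ : ℝ) (F : Y n → V n), 0 < σ → CRon (Hs n 0) F →
      (∀ X ∈ box n 3 (ε / 8) 3, hn F X ≤ M) → (∃ X ∈ KK n ε, 1 ≤ hn F X) →
      II (box n 2 (ε / 4) 2) (Dh σ F) ≤ ENNReal.ofReal (κ * (1 + rho σ F (PP n)) ^ 2) →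
      ∃ z : E n, ∀ q : ℝ, 1 / 4 ≤ q → q ≤ p0 n → ∀ x ∈ ball (0 : E n) 1,
        EE q σ F (x, ε) ≤ C * (1 + (‖x - z‖ + ε) ^ (-((n : ℝ) + 1))) * EE q σ F (PP n)

/-- a priori bound from the averaged energy -/
def St_APR (n : ℕ) : Prop :=
  ∀ (ε K : ℝ), 0 < ε → ε ≤ 1 → ∃ M : ℝ, 1 ≤ M ∧ ∀ (q σ : ℝ) (F : Y n → V n), 1 / 4 ≤ q →
    q ≤ 1 → 0 < σ → CRon (Hs n 0) F →
    II (box n 4 (ε / 16) 4) (EE q σ F) ≤ ENNReal.ofReal (K * (1 + rho σ F (PP n)) ^ (q - 2)) →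
    ∀ X ∈ box n 3 (ε / 8) 3, hn F X ≤ M ∧ rho σ F X ≤ M * (1 + rho σ F (PP n))

/-- a kernel integral -/
def St_INT (n : ℕ) : Prop :=
  ∃ C : ℝ, 0 ≤ C ∧ ∀ (ε : ℝ) (z : E n), 0 < ε →
    ∫⁻ x : E n, ENNReal.ofReal ((‖x - z‖ + ε) ^ (-((n : ℝ) + 1))) ≤ ENNReal.ofReal (C / ε)

/-- the layer lemma -/
def St_LAY (n : ℕ) : Prop :=
  ∃ C₀ : ℝ, 0 < C₀ ∧ ∀ (ε θ : ℝ), 0 < ε → ε ≤ 1 → 0 < θ → ∃ C : ℝ, 0 ≤ C ∧
    ∀ (q σ : ℝ) (F : Y n → V n), 1 / 4 ≤ q → q ≤ p0 n → 0 < σ → CRon (Hs n 0) F →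
      ENNReal.ofReal (ε ^ 2) * ∫⁻ x in ball (0 : E n) 1, ENNReal.ofReal (EE q σ F (x, ε)) ≤
        ENNReal.ofReal (C₀ * ε * EE q σ F (PP n)) +
        ENNReal.ofReal θ * II (box n 4 (ε / 16) 4) (EE q σ F) +
        ENNReal.ofReal C * II (box n 4 (ε / 16) 4) (BB q σ F)

/-- averaging over similarities -/
def St_AVG (n : ℕ) : Prop :=
  ∀ (α : Type) [MeasurableSpace α] (μ : Measure α) [SFinite μ] (Z : α → Y n) (k : α → ℝ≥0∞)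
    (g : Y n → ℝ≥0∞), Measurable Z → (∀ᵐ a ∂μ, 0 < (Z a).2) → Measurable k →
    Measurable ((Hs n 0).indicator g) →
    AEMeasurable (fun X => ∫⁻ a, k a * g (sh X (Z a)) ∂μ) (volume.restrict (Hs n 0)) ∧
    ∫⁻ X in Hs n 0, ∫⁻ a, k a * g (sh X (Z a)) ∂μ =
      (∫⁻ a, k a * ENNReal.ofReal (1 / (Z a).2) ∂μ) * ∫⁻ X in Hs n 0, g X

/-- absorption of the energy away from the cone -/
def St_WT (n : ℕ) : Prop :=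
  ∃ L C : ℝ, 1 ≤ L ∧ 0 ≤ C ∧ ∀ (q σ : ℝ) (F : Y n → V n), 1 / 4 ≤ q → q ≤ p0 n → 0 < σ →
    CRon (Hs n 0) F →
    II (Hs n 0 \ Gam n L) (fun X => vv X * EE q σ F X) ≤
      ENNReal.ofReal (1 / 2) * II (Hs n 0) (fun X => vv X * EE q σ F X) +
      ENNReal.ofReal C * II (Hs n 0) (fun X => vv X * BB q σ F X)

/-- Green identity against a test function -/
def St_IBP (n : ℕ) : Prop :=
  ∀ (U : Set (Y n)) (f φ : Y n → ℝ), IsOpen U → ContDiffOn ℝ ∞ f U → Test U φ →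
    (∀ h : Y n → ℝ, ContinuousOn h U →
      Integrable (fun X => φ X * h X) ∧ Integrable (fun X => h X * lap φ X)) ∧
    ∫ X, φ X * lap f X = ∫ X, f X * lap φ X

/-- derivatives of the superharmonic test function -/
def St_VV (n : ℕ) : Prop :=
  ContDiffOn ℝ ∞ (vv (n := n)) (Hs n (-1)) ∧ ∀ X ∈ Hs n 0, lap vv X = -psi X ∧
    ∀ i, |pd i vv X| ≤ ((n : ℝ) + 2) * ww X

/-- cut-off functions exhausting the half space -/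
def St_CUT (n : ℕ) : Prop :=
  ∃ C : ℝ, 0 ≤ C ∧ ∀ k : ℝ, 2 ≤ k → ∃ η : Y n → ℝ, Test (Hs n 0) η ∧
    (∀ X, 0 ≤ η X ∧ η X ≤ 1) ∧ (∀ X : Y n, ‖X.1‖ ≤ k → 2 / k ≤ X.2 → X.2 ≤ k → η X = 1) ∧
    ∀ X ∈ Hs n 0, lap (fun Z => vv Z * η Z) X + psi X * η X ≤
      {W : Y n | W.2 ≤ 2 / k}.indicator (fun W => C * k * ww (W.1, 0)) X +
      (closedBall (0 : Y n) (2 * k)).indicator (fun _ => C / k ^ (n + 2)) X

/-- Green inequality in the half space -/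
def St_GREEN (n : ℕ) : Prop :=
  ∃ C : ℝ, 0 ≤ C ∧ ∀ (g B L : Y n → ℝ) (M : ℝ), ContDiffOn ℝ ∞ g (Hs n 0) →
    ContinuousOn B (Hs n 0) → ContinuousOn L (Hs n 0) →
    Measurable (fun x : E n => g (x, 0)) →
    (∀ X ∈ Hs n 0, 0 ≤ g X ∧ g X ≤ M ∧ g X ≤ g (X.1, 0) + M * X.2 ∧ 0 ≤ B X ∧ 0 ≤ L X ∧
      lap g X = B X - L X) →
    II (Hs n 0) (fun X => psi X * g X) + II (Hs n 0) (fun X => vv X * B X) ≤
      ENNReal.ofReal C * J0 g + II (Hs n 0) (fun X => vv X * L X)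

/-- the bump of the continuous partition of unity -/
def St_BUMP (n : ℕ) : Prop :=
  ∃ (χ : Y n → ℝ) (C : ℝ), 0 ≤ C ∧ Continuous χ ∧ (∀ Z, 0 ≤ χ Z) ∧
    (∀ Z, Z ∉ closedBall (PP n) (1 / 8) → χ Z = 0) ∧
    0 < ∫⁻ Z in Hs n 0, ENNReal.ofReal (χ Z) * ENNReal.ofReal (1 / Z.2) ∧
    ∫⁻ Z in Hs n 0, ENNReal.ofReal (χ Z) * ENNReal.ofReal (1 / Z.2) < ⊤ ∧
    ∀ X ∈ Hs n 0, ContDiffOn ℝ ∞ (fun Z => χ Z * vv (sh X Z)) (Hs n 0) ∧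
      ∀ Z, |lap (fun Z => χ Z * vv (sh X Z)) Z| ≤ C * vv X

/-- tangent line trick on one Whitney ball -/
def St_LOC (n : ℕ) : Prop :=
  ∃ C : ℝ, 0 ≤ C ∧ ∀ (q σ K : ℝ) (F : Y n → V n) (φ : Y n → ℝ), 1 / 4 ≤ q → q ≤ p0 n → 0 < σ →
    CRon (Hs n 0) F → ContDiffOn ℝ ∞ φ (Hs n 0) → (∀ Z, 0 ≤ φ Z) →
    (∀ Z, Z ∉ closedBall (PP n) (1 / 8) → φ Z = 0) → (∀ Z, |lap φ Z| ≤ K) →
    II (Hs n 0) (fun Z => φ Z * LL q σ F Z) + II (Hs n 0) (fun Z => φ Z * BB q σ F Z) ≤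
      II (Hs n 0) (fun Z => φ Z * bb q σ F Z) +
      ENNReal.ofReal (C * (p0 n - q) * K * EE q σ F (PP n))

/-- global lower bound of the weighted Laplacian -/
def St_LOW (n : ℕ) : Prop :=
  ∃ C : ℝ, 0 ≤ C ∧ ∀ (q σ : ℝ) (F : Y n → V n), 1 / 4 ≤ q → q ≤ p0 n → 0 < σ →
    CRon (Hs n 0) F →
    II (Hs n 0) (fun X => vv X * LL q σ F X) + II (Hs n 0) (fun X => vv X * BB q σ F X) ≤
      II (Hs n 0) (fun X => vv X * bb q σ F X) +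
      ENNReal.ofReal (C * (p0 n - q)) * II (Hs n 0) (fun X => vv X * EE q σ F X)

/-- qualitative finiteness for admissible fields -/
def St_FIN (n : ℕ) : Prop :=
  ∀ (q σ : ℝ) (F : Y n → V n), 1 / 4 ≤ q → q ≤ p0 n → 0 < σ → Adm F →
    II (Hs n 0) (fun X => vv X * EE q σ F X) < ⊤ ∧
    II (Hs n 0) (fun X => vv X * LL q σ F X) < ⊤ ∧
    J0 (fun X => rho σ F X ^ q) < ⊤ ∧
    Continuous (fun x : E n => rho σ F (x, 0) ^ q) ∧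
    ∃ M : ℝ, ∀ X ∈ Hs n 0, rho σ F X ^ q ≤ M ∧ rho σ F X ^ q ≤ rho σ F (X.1, 0) ^ q + M * X.2

/-- energy on the cone -/
def St_GAM (n : ℕ) : Prop :=
  ∀ L : ℝ, 1 ≤ L → ∃ C : ℝ, 0 ≤ C ∧ ∀ (q σ M : ℝ) (F : Y n → V n), 1 / 4 ≤ q → q ≤ 1 →
    0 < σ → CRon (Hs n 0) F → (∀ X ∈ Gam n (4 * L + 4), rho σ F X ≤ M) →
    II (Gam n L) (fun X => vv X * EE q σ F X) ≤ ENNReal.ofReal (C * M ^ q)

/-- the integral inequality below the Stein-Weiss exponent -/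
def St_CORE (n : ℕ) : Prop :=
  ∃ L C : ℝ, 2 ≤ L ∧ 0 ≤ C ∧ ∀ η : ℝ, 0 < η → ∃ q : ℝ, 1 / 4 ≤ q ∧ q < p0 n ∧
    ∀ (σ M : ℝ) (F : Y n → V n), 0 < σ → Adm F → (∀ X ∈ Gam n L, rho σ F X ≤ M) →
      II (Hs n 0) (fun X => psi X * rho σ F X ^ q) ≤
        ENNReal.ofReal C * J0 (fun X => rho σ F X ^ q) + ENNReal.ofReal (η * M ^ q)

/-- the bound at a point where the field is almost maximal on the cone -/
def St_POINT (n : ℕ) : Prop :=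
  ∃ L : ℝ, 2 ≤ L ∧ ∀ K : ℝ, 1 ≤ K → ∃ C q : ℝ, 0 ≤ C ∧ 1 / 4 ≤ q ∧ q < p0 n ∧
    ∀ (σ : ℝ) (F : Y n → V n), 0 < σ → Adm F →
      (∀ X ∈ Gam n L, rho σ F X ≤ K * rho σ F (PP n)) →
      ENNReal.ofReal (rho σ F (PP n) ^ q) ≤ ENNReal.ofReal C * J0 (fun X => rho σ F X ^ q)

/-- point selection -/
def St_SEL (n : ℕ) : Prop :=
  ∃ q C A : ℝ, 1 / 4 ≤ q ∧ q < p0 n ∧ 0 ≤ C ∧ 0 ≤ A ∧
    ∀ (σ : ℝ) (F : Y n → V n), 0 < σ → Adm F → ∀ (x : E n) (X : Y n), 0 < X.2 →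
      ENNReal.ofReal (rho σ F X ^ q) ≤ ENNReal.ofReal (C * (1 + ‖X.1 - x‖ / X.2) ^ A) *
        KM ((n : ℝ) + 1) (fun z => ENNReal.ofReal (rho σ F (z, 0) ^ q)) x

/-- the elementary tool box -/
structure Bas (n : ℕ) : Prop where
  alg : St_ALG n
  crd : St_CRD n
  scl : St_SCL n
  api : St_API n

def T_ALG : Prop := ∀ n : ℕ, 2 ≤ n → St_ALG n

def T_CRD : Prop := ∀ n : ℕ, 2 ≤ n → St_CRD n

def T_SCL : Prop := ∀ n : ℕ, 2 ≤ n → St_SCL n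

def T_API : Prop := ∀ n : ℕ, 2 ≤ n → St_ALG n → St_API n

def T_LAP : Prop :=
  ∀ n : ℕ, 2 ≤ n → Bas n → St_LAP n

def T_GRAD : Prop :=
  ∀ n : ℕ, 2 ≤ n → Bas n → St_GRAD n

def T_LIM : Prop :=
  ∀ n : ℕ, 2 ≤ n → Bas n → St_GRAD n → St_LIM n

def T_CONF : Prop :=
  ∀ n : ℕ, 2 ≤ n → Bas n → St_CONF n

def T_RIG : Prop :=
  ∀ n : ℕ, 2 ≤ n → Bas n → St_CONF n → St_RIG n

def T_EXA : Prop :=
  ∀ n : ℕ, 2 ≤ n → Bas n → St_EXA n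

def T_LEX : Prop :=
  ∀ n : ℕ, 2 ≤ n → Bas n → St_CONF n → St_RIG n → St_EXA n → St_LEX n

def T_CMP : Prop :=
  ∀ n : ℕ, 2 ≤ n → Bas n → St_LIM n → St_LEX n → St_CMP n

def T_APR : Prop :=
  ∀ n : ℕ, 2 ≤ n → Bas n → St_APR n

def T_INT : Prop :=
  ∀ n : ℕ, 2 ≤ n → Bas n → St_INT n

def T_LAY : Prop :=
  ∀ n : ℕ, 2 ≤ n → Bas n → St_CMP n → St_APR n → St_INT n → St_LAY n

def T_AVG : Prop :=
  ∀ n : ℕ, 2 ≤ n → Bas n → St_AVG n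

def T_WT : Prop :=
  ∀ n : ℕ, 2 ≤ n → Bas n → St_LAY n → St_AVG n → St_WT n

def T_IBP : Prop :=
  ∀ n : ℕ, 2 ≤ n → Bas n → St_IBP n

def T_VV : Prop :=
  ∀ n : ℕ, 2 ≤ n → Bas n → St_VV n

def T_CUT : Prop :=
  ∀ n : ℕ, 2 ≤ n → Bas n → St_VV n → St_CUT n

def T_GREEN : Prop :=
  ∀ n : ℕ, 2 ≤ n → Bas n → St_IBP n → St_VV n → St_CUT n → St_INT n → St_GREEN n

def T_BUMP : Prop :=
  ∀ n : ℕ, 2 ≤ n → Bas n → St_VV n → St_BUMP n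

def T_LOC : Prop :=
  ∀ n : ℕ, 2 ≤ n → Bas n → St_LAP n → St_IBP n → St_LOC n

def T_LOW : Prop :=
  ∀ n : ℕ, 2 ≤ n → Bas n → St_AVG n → St_BUMP n → St_LOC n → St_LOW n

def T_FIN : Prop :=
  ∀ n : ℕ, 2 ≤ n → Bas n → St_GRAD n → St_INT n → St_FIN n

def T_GAM : Prop :=
  ∀ n : ℕ, 2 ≤ n → Bas n → St_GRAD n → St_GAM n

def T_CORE : Prop :=
  ∀ n : ℕ, 2 ≤ n → Bas n → St_LAP n → St_GREEN n → St_LOW n → St_WT n → St_FIN n → St_GAM n → St_CORE n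

def T_POINT : Prop :=
  ∀ n : ℕ, 2 ≤ n → Bas n → St_GRAD n → St_CORE n → St_POINT n

def T_SEL : Prop :=
  ∀ n : ℕ, 2 ≤ n → Bas n → St_POINT n → St_SEL n

def T_END : Prop :=
  ∀ n : ℕ, 2 ≤ n → Bas n → St_INT n → St_SEL n → St_A n

theorem asm (tALG : T_ALG) (tCRD : T_CRD) (tSCL : T_SCL) (tAPI : T_API) (tLAP : T_LAP)
    (tGRAD : T_GRAD) (tLIM : T_LIM) (tCONF : T_CONF) (tRIG : T_RIG) (tEXA : T_EXA) (tLEX : T_LEX)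
    (tCMP : T_CMP) (tAPR : T_APR) (tINT : T_INT) (tLAY : T_LAY) (tAVG : T_AVG) (tWT : T_WT)
    (tIBP : T_IBP) (tVV : T_VV) (tCUT : T_CUT) (tGREEN : T_GREEN) (tBUMP : T_BUMP) (tLOC : T_LOC)
    (tLOW : T_LOW) (tFIN : T_FIN) (tGAM : T_GAM) (tCORE : T_CORE) (tPOINT : T_POINT) (tSEL : T_SEL)
    (tEND : T_END)
    (n : ℕ) (hn : 2 ≤ n) : St_A n := by
  have hB : Bas n := ⟨tALG n hn, tCRD n hn, tSCL n hn, tAPI n hn (tALG n hn)⟩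
  have hLAP := tLAP n hn hB
  have hGRAD := tGRAD n hn hB
  have hLIM := tLIM n hn hB hGRAD
  have hCONF := tCONF n hn hB
  have hRIG := tRIG n hn hB hCONF
  have hEXA := tEXA n hn hB
  have hLEX := tLEX n hn hB hCONF hRIG hEXA
  have hCMP := tCMP n hn hB hLIM hLEX
  have hAPR := tAPR n hn hB
  have hINT := tINT n hn hB
  have hLAY := tLAY n hn hB hCMP hAPR hINT
  have hAVG := tAVG n hn hB
  have hWT := tWT n hn hB hLAY hAVG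
  have hIBP := tIBP n hn hB
  have hVV := tVV n hn hB
  have hCUT := tCUT n hn hB hVV
  have hGREEN := tGREEN n hn hB hIBP hVV hCUT hINT
  have hBUMP := tBUMP n hn hB hVV
  have hLOC := tLOC n hn hB hLAP hIBP
  have hLOW := tLOW n hn hB hAVG hBUMP hLOC
  have hFIN := tFIN n hn hB hGRAD hINT
  have hGAM := tGAM n hn hB hGRAD
  have hCORE := tCORE n hn hB hLAP hGREEN hLOW hWT hFIN hGAM
  have hPOINT := tPOINT n hn hB hGRAD hCORE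
  have hSEL := tSEL n hn hB hPOINT
  exact tEND n hn hB hINT hSEL

end Pool.Agent.RZ
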