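import Pool.Agent.Lib.RZ.Blue
import Pool.Agent.Lib.RZ.Rig59

set_option autoImplicit false

open Set
open scoped InnerProductSpace

noncomputable section

namespace Pool.Agent.RZ.Br59

open Pool.Agent.HP

variable {n : ℕ}

lemma J_eq : Rig.J n = vec := by
  refine ContinuousLinearMap.ext fun X => ?_
  ext i
  cases i <;> rfl

lemma Eh_eq (H : Option (Fin n) → V n) (v : V n) :
    Rig.Eh n (fun i j => H i j) (fun i => v i) = hn2 H * ‖v‖ ^ 2 - ((n : ℝ) + 1) / n * hv2 H v := by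
  unfold Rig.Eh hn2 hv2
  simp only [EuclideanSpace.real_norm_sq_eq, PiLp.inner_apply, RCLike.inner_apply, conj_trivial,
    mul_comm (v _)]

theorem alg (h2 : 2 ≤ n) : St_ALG n := by
  have h1 : (1 : ℝ) < n := by exact_mod_cast h2
  refine ⟨fun H v hs ht => ?_, fun H v hs ht hv h => ?_⟩
  · have := Rig.Eh_nonneg (fun i j => H i j) hs ht (fun i => v i) n (by simp) h1.le
    rw [Eh_eq] at this
    linarith
  · have hN : ∑ i, v i ^ 2 = ‖v‖ ^ 2 := (EuclideanSpace.real_norm_sq_eq v).symm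
    have hv0 : ‖v‖ ≠ 0 := norm_ne_zero_iff.2 hv
    obtain ⟨lam, hl⟩ := Rig.Eh_zero (fun i j => H i j) hs ht (fun i => v i)
      (by rw [hN]; positivity) n (by simp) h1 (by rw [Eh_eq]; linarith)
    refine ⟨-lam, fun i => ?_⟩
    ext j
    rw [hl, hN]
    by_cases hij : i = j
    · subst hij
      simp
      ring
    · simp [hij, Ne.symm hij]
      left
      ring

theorem conf (h2 : 2 ≤ n) : St_CONF n := by
  intro U G μ hU hc hG hp
  rcases U.eq_empty_or_nonempty with rfl | ⟨Z, hZ⟩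
  · exact ⟨0, 0, fun X hX => hX.elim⟩
  have hd : ∀ X ∈ U, HasFDerivAt G (μ X • Rig.J n) X := by
    intro X hX
    refine (hG X hX).hasFDerivAt.congr_fderiv (ContinuousLinearMap.ext fun v => ?_)
    rw [Rig.fderiv_eq_sum]
    ext j
    cases j <;> simp [hp X hX, Finset.sum_apply, Pi.single_apply, mul_comm]
  have h := Rig.scal (Rig.J n) Rig.J_injective (Rig.two_dim (by omega)) hU hc hd
  refine ⟨G Z - μ Z • vec Z, μ Z, fun X hX => ⟨(h X hX Z hZ).1, ?_⟩⟩
  rw [(h X hX Z hZ).2, J_eq, map_sub, smul_sub]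
  abel

theorem rig (h2 : 2 ≤ n) : St_RIG n := by
  intro U Φ hU hc hd hs ht h0 ⟨X, hX, hne⟩
  rw [← J_eq]
  refine Rig.rig h2 hU hc.isPreconnected (fun Z hZ => (hd Z hZ).differentiableWithinAt) hs ht
    (fun Z hZ => ?_) hX hne
  have := Eh_eq (jac Φ Z) (Φ Z)
  rw [h0 Z hZ, sub_self] at this
  exact this

end Pool.Agent.RZ.Br59
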