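import Pool.Agent.Lib.HP.Base

set_option autoImplicit false

open MeasureTheory Metric Set
open scoped ENNReal ContDiff

noncomputable section

namespace Pool.Agent.RZ

open Pool.Agent.HP

variable {n : ℕ}

/-- the half space `a < t` -/
def Hs (n : ℕ) (a : ℝ) : Set (Y n) := {X | a < X.2}

/-- open cylinder -/
def box (n : ℕ) (R a b : ℝ) : Set (Y n) := {X | ‖X.1‖ < R ∧ a < X.2 ∧ X.2 < b}

/-- compact cylinder on which the Jacobian is normalised -/
def KK (n : ℕ) (ε : ℝ) : Set (Y n) := {X | ‖X.1‖ ≤ 3 / 2 ∧ ε / 2 ≤ X.2 ∧ X.2 ≤ 3 / 2}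

/-- truncated cone -/
def Gam (n : ℕ) (L : ℝ) : Set (Y n) := {X | 1 ≤ L * X.2 ∧ ‖X.1‖ ≤ L * X.2}

/-- the base point `(0, 1)` -/
def PP (n : ℕ) : Y n := (0, 1)

/-- the Stein-Weiss exponent -/
def p0 (n : ℕ) : ℝ := ((n : ℝ) - 1) / n

/-- the coordinates of a point, as a vector -/
def vec : Y n →L[ℝ] V n :=
  LinearMap.toContinuousLinearMap
    { toFun := fun X => WithLp.toLp 2 (fun i => Option.elim i X.2 (fun j => X.1 j))
      map_add' := fun X Z => by ext i; cases i <;> simp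
      map_smul' := fun c X => by ext i; cases i <;> simp }

@[simp] theorem vec_none (X : Y n) : vec X none = X.2 := rfl

@[simp] theorem vec_some (X : Y n) (j : Fin n) : vec X (some j) = X.1 j := rfl

theorem vec_dir (i : Option (Fin n)) : vec (dir i) = EuclideanSpace.single i (1 : ℝ) := by
  ext k
  cases i <;> cases k <;> simp [dir]

theorem norm_vec_sq (X : Y n) : ‖vec X‖ ^ 2 = ‖X.1‖ ^ 2 + X.2 ^ 2 := by
  rw [EuclideanSpace.real_norm_sq_eq, EuclideanSpace.real_norm_sq_eq, Fintype.sum_option]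
  simp [add_comm]

theorem vec_surj (a : V n) : ∃ X : Y n, vec X = a :=
  ⟨(WithLp.toLp 2 (fun j => a (some j)), a none), by ext i; cases i <;> rfl⟩

theorem sum_vec_dir (X : Y n) : ∑ i, vec X i • dir i = X := by
  rw [Fintype.sum_option]
  ext j
  · simp [dir, Prod.fst_sum, Pi.single_apply]
  · simp [dir, Prod.snd_sum]

/-- generalized Cauchy-Riemann system on a set -/
structure CRon (U : Set (Y n)) (F : Y n → V n) : Prop where
  smooth : ContDiffOn ℝ ∞ F U
  symm : ∀ X ∈ U, ∀ i j, pd i F X j = pd j F X i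
  trace : ∀ X ∈ U, ∑ i, pd i F X i = 0

/-- bounded system on a half space slightly larger than `t > 0` -/
def Adm (F : Y n → V n) : Prop :=
  ∃ a M : ℝ, 0 < a ∧ CRon (Hs n (-a)) F ∧ ∀ X ∈ Hs n (-a), ‖F X‖ ≤ M

/-- smooth function on `U` vanishing off a compact subset of `U` -/
structure Test (U : Set (Y n)) (φ : Y n → ℝ) : Prop where
  smooth : ContDiffOn ℝ ∞ φ U
  supp : ∃ K : Set (Y n), IsCompact K ∧ K ⊆ U ∧ ∀ X, X ∉ K → φ X = 0

/-- Laplacian -/
def lap (g : Y n → ℝ) (X : Y n) : ℝ := ∑ i, pd i (pd i g) X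

/-- squared Frobenius norm of a matrix given by its columns -/
def hn2 (H : Option (Fin n) → V n) : ℝ := ∑ i, ‖H i‖ ^ 2

/-- `|H v|^2` -/
def hv2 (H : Option (Fin n) → V n) (v : V n) : ℝ := ∑ i, (inner ℝ (H i) v) ^ 2

/-- Jacobian, by columns -/
def jac (F : Y n → V n) (X : Y n) : Option (Fin n) → V n := fun i => pd i F X

/-- Frobenius norm of the Jacobian -/
def hn (F : Y n → V n) (X : Y n) : ℝ := √(hn2 (jac F X))

/-- supremum of the Jacobian on the Whitney ball of `X` -/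
def nn (F : Y n → V n) (X : Y n) : ℝ := sSup (hn F '' closedBall X (X.2 / 2))

/-- regularised modulus -/
def rho (σ : ℝ) (F : Y n → V n) (X : Y n) : ℝ := √(‖F X‖ ^ 2 + σ ^ 2)

/-- local size of the field at the Whitney scale -/
def bs (σ : ℝ) (F : Y n → V n) (X : Y n) : ℝ := rho σ F X + X.2 * nn F X

/-- polynomial Stein-Weiss defect -/
def Dh (σ : ℝ) (F : Y n → V n) (X : Y n) : ℝ :=
  hn F X ^ 2 * rho σ F X ^ 2 - ((n : ℝ) + 1) / n * hv2 (jac F X) (F X)

/-- energy density at the Whitney scale -/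
def EE (q σ : ℝ) (F : Y n → V n) (X : Y n) : ℝ := bs σ F X ^ (q - 2) * nn F X ^ 2

/-- defect density at the Whitney scale -/
def BB (q σ : ℝ) (F : Y n → V n) (X : Y n) : ℝ := bs σ F X ^ (q - 4) * Dh σ F X

/-- good term of the Laplacian of `rho ^ q` -/
def bb (q σ : ℝ) (F : Y n → V n) (X : Y n) : ℝ := rho σ F X ^ (q - 4) * Dh σ F X

/-- bad term of the Laplacian of `rho ^ q` -/
def LL (q σ : ℝ) (F : Y n → V n) (X : Y n) : ℝ :=
  (p0 n - q) * (rho σ F X ^ (q - 4) * hv2 (jac F X) (F X))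

/-- squared distance to `(0, -1)` -/
def RR (X : Y n) : ℝ := ‖X.1‖ ^ 2 + (X.2 + 1) ^ 2

/-- the weight -/
def ww (X : Y n) : ℝ := RR X ^ (-((n : ℝ) + 1) / 2)

/-- the superharmonic test function -/
def vv (X : Y n) : ℝ := X.2 * ww X

/-- minus the Laplacian of `vv` -/
def psi (X : Y n) : ℝ := 2 * ((n : ℝ) + 1) * RR X ^ (-((n : ℝ) + 3) / 2)

/-- the similarity sending `(0, 1)` to `X` -/
def sh (X Z : Y n) : Y n := (X.1 + X.2 • Z.1, X.2 * Z.2)

/-- the field seen from `X` -/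
def sc (F : Y n → V n) (X : Y n) : Y n → V n := fun Z => F (sh X Z)

/-- integral of the positive part over a set -/
def II (S : Set (Y n)) (f : Y n → ℝ) : ℝ≥0∞ := ∫⁻ X in S, ENNReal.ofReal (f X)

/-- boundary integral against the weight -/
def J0 (g : Y n → ℝ) : ℝ≥0∞ := ∫⁻ x : E n, ENNReal.ofReal (ww (x, 0) * g (x, 0))

theorem isOpen_Hs (a : ℝ) : IsOpen (Hs n a) := isOpen_lt continuous_const continuous_snd

theorem CRon.mono {U U' : Set (Y n)} {F : Y n → V n} (h : CRon U F) (hU : U' ⊆ U) : CRon U' F :=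
  ⟨h.smooth.mono hU, fun X hX => h.symm X (hU hX), fun X hX => h.trace X (hU hX)⟩

theorem Adm.cr {F : Y n → V n} (h : Adm F) : CRon (Hs n 0) F := by
  obtain ⟨a, M, ha, h1, -⟩ := h
  exact h1.mono (fun X hX => by simp only [Hs, mem_ofPred_eq] at hX ⊢; linarith)

theorem rho_pos {σ : ℝ} (hσ : 0 < σ) (F : Y n → V n) (X : Y n) : 0 < rho σ F X :=
  Real.sqrt_pos.2 (by positivity)

theorem le_rho (σ : ℝ) (F : Y n → V n) (X : Y n) : σ ≤ rho σ F X :=
  Real.le_sqrt_of_sq_le (by nlinarith [sq_nonneg ‖F X‖])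

theorem norm_le_rho (σ : ℝ) (F : Y n → V n) (X : Y n) : ‖F X‖ ≤ rho σ F X :=
  Real.le_sqrt_of_sq_le (by nlinarith [sq_nonneg σ])

theorem rho_sq (σ : ℝ) (F : Y n → V n) (X : Y n) : rho σ F X ^ 2 = ‖F X‖ ^ 2 + σ ^ 2 :=
  Real.sq_sqrt (by positivity)

theorem hn_nonneg (F : Y n → V n) (X : Y n) : 0 ≤ hn F X := Real.sqrt_nonneg _

theorem hn_sq (F : Y n → V n) (X : Y n) : hn F X ^ 2 = hn2 (jac F X) :=
  Real.sq_sqrt (Finset.sum_nonneg fun _ _ => by positivity)

theorem nn_nonneg (F : Y n → V n) (X : Y n) : 0 ≤ nn F X :=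
  Real.sSup_nonneg (by rintro _ ⟨Z, -, rfl⟩; exact hn_nonneg F Z)

theorem hv2_nonneg (H : Option (Fin n) → V n) (v : V n) : 0 ≤ hv2 H v :=
  Finset.sum_nonneg fun _ _ => by positivity

theorem half_le_p0 (hn : 2 ≤ n) : 1 / 2 ≤ p0 n := by
  have h : (2 : ℝ) ≤ n := by exact_mod_cast hn
  unfold p0
  rw [div_le_div_iff₀ (by norm_num) (by linarith)]
  linarith

theorem p0_lt_one (hn : 2 ≤ n) : p0 n < 1 := by
  have h : (2 : ℝ) ≤ n := by exact_mod_cast hn
  unfold p0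
  rw [div_lt_one (by linarith)]
  linarith

theorem two_sub_p0 (hn : 2 ≤ n) : 2 - p0 n = ((n : ℝ) + 1) / n := by
  have h : (2 : ℝ) ≤ n := by exact_mod_cast hn
  unfold p0
  field_simp
  ring

end Pool.Agent.RZ
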