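import Pool.Agent.Lib.RZ.Blue

set_option autoImplicit false

open MeasureTheory Metric Set Filter
open scoped ENNReal ContDiff Topology

noncomputable section

namespace Pool.Agent.RZ.LOW48

open Pool.Agent.HP Pool.Agent.RZ

variable {n : ℕ}

theorem vv_nonneg (hB : Bas n) (X : Y n) (hX : X ∈ Hs n 0) : 0 ≤ vv X := by
  have h : 0 < X.2 := hX
  exact mul_nonneg h.le (hB.api.wpos X (by linarith)).2.1.le

theorem vv_cont (hB : Bas n) : ContinuousOn (vv (n := n)) (Hs n 0) :=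
  hB.api.wcont.2.1.mono fun X hX => by
    have h : 0 < X.2 := hX
    show -1 < X.2
    linarith

/-- rescaled integral -/
theorem resc (χ f f' : Y n → ℝ) (X : Y n) (hX : 0 < X.2) (h0 : ∀ Z, 0 ≤ χ Z)
    (hf : ∀ Z, f' Z = X.2 ^ 2 * f (sh X Z)) :
    II (Hs n 0) (fun Z => χ Z * vv (sh X Z) * f' Z) = ENNReal.ofReal (X.2 ^ 2) *
      ∫⁻ Z in Hs n 0, ENNReal.ofReal (χ Z) * ENNReal.ofReal (vv (sh X Z) * f (sh X Z)) := by
  rw [← lintegral_const_mul' _ _ ENNReal.ofReal_ne_top]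
  unfold II
  refine lintegral_congr fun Z => ?_
  beta_reduce
  rw [← ENNReal.ofReal_mul (h0 Z), ← ENNReal.ofReal_mul (by positivity), hf Z]
  congr 1
  ring

end Pool.Agent.RZ.LOW48

namespace Pool.Agent.RZ

open Pool.Agent.HP

theorem t_LOW48 : T_LOW := by
  intro n h2 hB hAVG hBUMP hLOC
  obtain ⟨χ, C₁, hC₁, hχc, hχ0, hχs, hpos, hfin, hχ⟩ := hBUMP
  obtain ⟨C₂, hC₂, hL⟩ := hLOC
  set c₀ := ∫⁻ Z in Hs n 0, ENNReal.ofReal (χ Z) * ENNReal.ofReal (1 / Z.2) with hc₀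
  refine ⟨C₂ * C₁ / c₀.toReal, by positivity, fun q σ F hq hq' hσ hF => ?_⟩
  have hmS : MeasurableSet (Hs n 0) := (isOpen_Hs 0).measurableSet
  obtain ⟨-, cE, cB, cb, cL⟩ := hB.api.contE F q σ hF hσ
  have hv := LOW48.vv_cont hB
  have avg : ∀ f : Y n → ℝ, ContinuousOn f (Hs n 0) →
      AEMeasurable (fun X => ∫⁻ Z in Hs n 0, ENNReal.ofReal (χ Z) *
        ENNReal.ofReal (vv (sh X Z) * f (sh X Z))) (volume.restrict (Hs n 0)) ∧
      ∫⁻ X in Hs n 0, ∫⁻ Z in Hs n 0, ENNReal.ofReal (χ Z) *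
        ENNReal.ofReal (vv (sh X Z) * f (sh X Z)) = c₀ * II (Hs n 0) (fun X => vv X * f X) :=
    fun f hf => hAVG (Y n) (volume.restrict (Hs n 0)) id (fun Z => ENNReal.ofReal (χ Z))
      (fun X => ENNReal.ofReal (vv X * f X)) measurable_id
      (ae_restrict_of_forall_mem hmS fun Z hZ => hZ)
      (ENNReal.measurable_ofReal.comp hχc.measurable) (hB.api.meas _ (hv.mul hf))
  have hδ : 0 ≤ p0 n - q := by linarith
  have pt : ∀ X ∈ Hs n 0,
      (∫⁻ Z in Hs n 0, ENNReal.ofReal (χ Z) *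
        ENNReal.ofReal (vv (sh X Z) * LL q σ F (sh X Z))) +
      (∫⁻ Z in Hs n 0, ENNReal.ofReal (χ Z) *
        ENNReal.ofReal (vv (sh X Z) * BB q σ F (sh X Z))) ≤
      (∫⁻ Z in Hs n 0, ENNReal.ofReal (χ Z) *
        ENNReal.ofReal (vv (sh X Z) * bb q σ F (sh X Z))) +
      ENNReal.ofReal (C₂ * C₁ * (p0 n - q)) * ENNReal.ofReal (vv X * EE q σ F X) := by
    intro X hX
    have hX' : 0 < X.2 := hX
    have hφ0 : ∀ Z, 0 ≤ χ Z * vv (sh X Z) := by
      intro Z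
      by_cases hZ : Z ∈ closedBall (PP n) (1 / 8)
      · refine mul_nonneg (hχ0 Z) (LOW48.vv_nonneg hB _ ?_)
        have h1 : |Z.2 - 1| ≤ 1 / 8 :=
          (norm_snd_le (Z - PP n)).trans (mem_closedBall_iff_norm.1 hZ)
        have h3 := (abs_le.1 h1).1
        show 0 < X.2 * Z.2
        exact mul_pos hX' (by linarith)
      · rw [hχs Z hZ, zero_mul]
    have h := hL q σ (C₁ * vv X) (sc F X) (fun Z => χ Z * vv (sh X Z)) hq hq' hσ
      (hB.scl.cr0 F X hX' hF) (hχ X hX).1 hφ0 (fun Z hZ => by rw [hχs Z hZ, zero_mul])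
      (hχ X hX).2
    rw [LOW48.resc χ (LL q σ F) _ X hX' hχ0 (fun Z => (hB.scl.sc_eq F q σ X Z hX').2.2.2.2.2.2),
      LOW48.resc χ (BB q σ F) _ X hX' hχ0 (fun Z => (hB.scl.sc_eq F q σ X Z hX').2.2.2.2.1),
      LOW48.resc χ (bb q σ F) _ X hX' hχ0 (fun Z => (hB.scl.sc_eq F q σ X Z hX').2.2.2.2.2.1),
      (hB.scl.sc_eq F q σ X (PP n) hX').2.2.2.1, hB.scl.sh_P] at h
    have e : ENNReal.ofReal (C₂ * (p0 n - q) * (C₁ * vv X) * (X.2 ^ 2 * EE q σ F X)) =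
        ENNReal.ofReal (X.2 ^ 2) * (ENNReal.ofReal (C₂ * C₁ * (p0 n - q)) *
          ENNReal.ofReal (vv X * EE q σ F X)) := by
      rw [← ENNReal.ofReal_mul (by positivity), ← ENNReal.ofReal_mul (by positivity)]
      congr 1
      ring
    rw [e, ← mul_add, ← mul_add] at h
    exact (ENNReal.mul_le_mul_iff_right (by simpa using hX'.ne') ENNReal.ofReal_ne_top).1 h
  have int := lintegral_mono_ae (μ := volume.restrict (Hs n 0)) (ae_restrict_of_forall_mem hmS pt)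
  rw [lintegral_add_left' (avg _ cL).1, lintegral_add_left' (avg _ cb).1, (avg _ cL).2,
    (avg _ cB).2, (avg _ cb).2, lintegral_const_mul' _ _ ENNReal.ofReal_ne_top] at int
  have hr : 0 < c₀.toReal := ENNReal.toReal_pos hpos.ne' hfin.ne
  have e : ENNReal.ofReal (C₂ * C₁ * (p0 n - q)) =
      c₀ * ENNReal.ofReal (C₂ * C₁ / c₀.toReal * (p0 n - q)) := by
    conv_rhs => enter [1]; rw [← ENNReal.ofReal_toReal hfin.ne]
    rw [← ENNReal.ofReal_mul hr.le]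
    congr 1
    field_simp
  rw [e, mul_assoc, ← mul_add, ← mul_add] at int
  exact (ENNReal.mul_le_mul_iff_right hpos.ne' hfin.ne).1 int

end Pool.Agent.RZ
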