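import Pool.Agent.Lib.RZ.B_ALG
import Pool.Agent.Lib.RZ.B_CRD
import Pool.Agent.Lib.RZ.B_SCL
import Pool.Agent.Lib.RZ.B_API
import Pool.Agent.Lib.RZ.B_LAP
import Pool.Agent.Lib.RZ.B_GRAD
import Pool.Agent.Lib.RZ.B_LIM
import Pool.Agent.Lib.RZ.B_CONF
import Pool.Agent.Lib.RZ.B_RIG
import Pool.Agent.Lib.RZ.B_EXA
import Pool.Agent.Lib.RZ.B_LEX
import Pool.Agent.Lib.RZ.B_CMP
import Pool.Agent.Lib.RZ.B_APR
import Pool.Agent.Lib.RZ.B_INT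
import Pool.Agent.Lib.RZ.B_LAY
import Pool.Agent.Lib.RZ.B_AVG
import Pool.Agent.Lib.RZ.B_WT
import Pool.Agent.Lib.RZ.B_IBP
import Pool.Agent.Lib.RZ.B_VV
import Pool.Agent.Lib.RZ.B_CUT
import Pool.Agent.Lib.RZ.B_GREEN
import Pool.Agent.Lib.RZ.B_BUMP
import Pool.Agent.Lib.RZ.B_LOC
import Pool.Agent.Lib.RZ.Low48
import Pool.Agent.Lib.RZ.B_FIN
import Pool.Agent.Lib.RZ.B_GAM
import Pool.Agent.Lib.RZ.B_CORE
import Pool.Agent.Lib.RZ.B_POINT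
import Pool.Agent.Lib.RZ.B_SEL
import Pool.Agent.Lib.RZ.B_END

set_option autoImplicit false

namespace Pool.Agent.RZ

open Pool.Agent.HP

/-- THEOREM A -/
theorem st_A (n : ℕ) (h2 : 2 ≤ n) : St_A n :=
  asm t_ALG t_CRD t_SCL t_API t_LAP t_GRAD t_LIM t_CONF t_RIG t_EXA t_LEX t_CMP t_APR t_INT t_LAY
    t_AVG t_WT t_IBP t_VV t_CUT t_GREEN t_BUMP t_LOC t_LOW48 t_FIN t_GAM t_CORE t_POINT t_SEL t_END
    n h2

end Pool.Agent.RZ
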